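import Pool.Agent.Lib.H76P.G16

/-!
# H76Q: mod 2 reciprocity.  Definitions.
-/

set_option autoImplicit false
set_option linter.unusedSectionVars false
namespace Pool.Agent.H76Q
open Module Matrix Polynomial Pool.Agent.H53Toric
open Pool.Agent.H76P (properProj EigOn)
open Pool.Agent.H49M (idc)
open Pool.Agent.H76U (IsSplitting)
open Pool.Agent.H76RM (spanK similD)

variable {ι : Type*} [Fintype ι] [DecidableEq ι]

/-- The group generated by the one parameter groups `t^h = 1 + (t - 1) h`, `h` a projector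
different from `0` and `1`, which have values in the closure of the image of `ρ`. -/
def tgen {L : Type*} [Field L] (K : Type*) [Field K] [Algebra L K] {G : Type*} [Group G]
    (ρ : G →* Matrix.GeneralLinearGroup ι L) : Submonoid (Matrix ι ι K) :=
  Submonoid.closure {x | ∃ h ∈ properProj K ρ, ∃ t : K, t ≠ 0 ∧ x = 1 + (t - 1) • h}

/-- `I` is stable under the brackets with the elements of `Z`. -/
def adStable {K : Type*} [Field K] (Z I : Submodule K (Matrix ι ι K)) : Prop :=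
  ∀ C ∈ Z, ∀ A ∈ I, C * A - A * C ∈ I

/-- The conditions on a Frobenius element `x` (for `l ≠ p` the image of `σ`, for `l = p` the
crystalline Frobenius). -/
structure FrobT {L : Type*} [Field L] (K : Type*) [Field K] [Algebra L K] {G : Type*} [Group G]
    (ρ : G →* Matrix.GeneralLinearGroup ι L) {M : Type*} [Field M] {m : ℕ}
    (e : Fin m → Matrix ι ι M) (F : Fin m → M[X]) (x : Matrix ι ι K) : Prop where
  idc : x ∈ H49M.idc K ρ
  dgb : Diagonalisable x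
  torus : ∀ H : Subgroup G, H.FiniteIndex → ∀ X ∈ zlie (img K ρ H), X * x = x * X →
    X ∈ zlie {y | ∃ n : ℕ, y = x ^ n}
  torgen : ∃ N : ℕ, N ≠ 0 ∧ x ^ N ∈ zar (Submonoid.closure
    {y | ∃ h ∈ properProj K ρ, h * x = x * h ∧ ∃ t : K, t ≠ 0 ∧ y = 1 + (t - 1) • h} :
      Set (Matrix ι ι K))
  simple : ∀ (i : M →+* K) (b : Fin m) (c : K) (z z' : ι → K), (e b).map i *ᵥ z = z →
    (e b).map i *ᵥ z' = z' → x *ᵥ z = c • z → x *ᵥ z' = c • z' → z ≠ 0 → ∃ t : K, z' = t • z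
  eig : ∀ (i : M →+* K) (b : Fin m) (c : K),
    EigOn x ((e b).map i) c ↔ (F b).eval₂ i c = 0

/-- `v` is a valuation with values in `ℚ` (its value at `0` is not used). -/
structure IsVal {K : Type*} [Field K] (v : K → ℚ) : Prop where
  mul : ∀ x y : K, x ≠ 0 → y ≠ 0 → v (x * y) = v x + v y
  add : ∀ x y : K, x ≠ 0 → y ≠ 0 → x + y ≠ 0 → min (v x) (v y) ≤ v (x + y)

/-- The entries of `X` are integral. -/
def IntMat {K : Type*} [Field K] (v : K → ℚ) (X : Matrix ι ι K) : Prop :=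
  ∀ i j, X i j ≠ 0 → 0 ≤ v (X i j)

/-- The conditions at the prime `p`. -/
structure CrysP {L : Type*} [Field L] (K : Type*) [Field K] [Algebra L K] {G : Type*} [Group G]
    (ρ : G →* Matrix.GeneralLinearGroup ι L) {M : Type*} [Field M] {m : ℕ}
    (e : Fin m → Matrix ι ι M) (σ : G) (φ μ ν : Matrix ι ι K) (v : K → ℚ)
    (Δ : Set (K ≃+* K)) : Prop where
  val : IsVal v
  mu : μ ∈ properProj K ρ
  muphi : μ * φ = φ * μ
  phigen : φ ∈ tgen K ρ
  nu : ∀ (c : K) (z : ι → K), φ *ᵥ z = c • z → ν *ᵥ z = (v c : K) • z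
  newton : ∀ (i : M →+* K) (b : Fin m) (H : Subgroup G), H.FiniteIndex →
    ∀ I : Submodule K (Matrix ι ι K), adStable (zlie (img K ρ H)) I →
      ((2 : K) • μ - 1) * (e b).map i ∈ I → ∃ c : K, (ν - c • 1) * (e b).map i ∈ I
  unr : ∃ ξ ξ' : Matrix ι ι K, ξ ∈ tgen K ρ ∧ ξ * ξ' = 1 ∧
    ∀ (H : Subgroup G), H.FiniteIndex → ∀ I : Submodule K (Matrix ι ι K),
      adStable (zlie (img K ρ H)) I → (∀ X ∈ I, μ * X = X * μ) → ∀ X ∈ I,
        ((ρ σ)⁻¹.1.map (algebraMap L K) * (ξ * φ * ξ')) * X =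
          X * ((ρ σ)⁻¹.1.map (algebraMap L K) * (ξ * φ * ξ'))
  int : (ρ σ).1.map (algebraMap L K) ∈ Submonoid.closure
    {x | ∃ h ∈ properProj K ρ, IntMat v h ∧ ∃ t : K, t ≠ 0 ∧ v t = 0 ∧ x = 1 + (t - 1) • h}
  eint : ∀ (i : M →+* K) (b : Fin m), IntMat v ((e b).map i)
  dfix : ∀ δ ∈ Δ, ∀ c : L, δ (algebraMap L K c) = algebraMap L K c
  dphi : ∀ δ ∈ Δ, φ.map δ = φ
  dM : ∀ δ ∈ Δ, ∀ (i : M →+* K) (c : M), δ (i c) = i c
  dideal : ∀ δ ∈ Δ, ∀ H : Subgroup G, H.FiniteIndex → ∀ I : Submodule K (Matrix ι ι K),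
    I ≤ zlie (img K ρ H) → adStable (zlie (img K ρ H)) I → ∀ X ∈ I, X.map δ ∈ I
  dval : ∀ x : K, x ≠ 0 → (∀ δ ∈ Δ, δ x = x) → ∃ n : ℤ, v x = n

end Pool.Agent.H76Q
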