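import Pool.Agent.Lib.H76Q.Q2

/-!
# coordinates
-/

set_option autoImplicit false
set_option linter.unusedSectionVars false
namespace Pool.Agent.H76Q
open Module Matrix Pool.Agent.H53Toric
open Pool.Agent.H76P
open Pool.Agent.H76T (IsIdeal Fam)
open Pool.Agent.H76V (Cmp)

variable {κ : Type*} [Fintype κ] [DecidableEq κ] {Y : Submodule ℚ (κ → ℚ)} {P : Module.End ℚ Y}

theorem b2_compl (f : Y) (k : κ) :
    (((1 - P) f : Y) : κ → ℚ) k = (f : κ → ℚ) k - (P f : κ → ℚ) k := by
  rw [LinearMap.sub_apply, Module.End.one_apply, Submodule.coe_sub, Pi.sub_apply]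

/-- PROOF. `h.mix k' k`: `f c = f k' + (P f) k - (P f) k'`; apply it to `P f` and to `f - P f`. -/
theorem Sp.exists_mx (h : Sp P) (k k' : κ) : ∃ c, cz P c k ∧ cz (1 - P) c k' := by
  obtain ⟨c, hc⟩ := h.mix k' k
  have hPP : ∀ f : Y, P (P f) = P f := fun f => by
    have h1 : (P * P) f = P f := by rw [h.idem]
    exact h1
  have h1 : ∀ f : Y, (P f : κ → ℚ) c = (P f : κ → ℚ) k := by
    intro f
    have h2 := hc (P f)
    rw [hPP] at h2
    rw [h2]
    ring
  refine ⟨c, h1, fun f => ?_⟩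
  rw [b2_compl, b2_compl, h1 f, hc f]
  ring

/-- PROOF. `f = P f + (1 - P) f`. -/
theorem cz_both (hsep : ∀ a b : κ, a ≠ b → ∃ f ∈ Y, f a ≠ f b) {k k' : κ} (h1 : cz P k k')
    (h2 : cz (1 - P) k k') : k = k' := by
  by_contra hne
  obtain ⟨f, hf, hab⟩ := hsep k k' hne
  apply hab
  have h3 := h1 ⟨f, hf⟩
  have h4 := h2 ⟨f, hf⟩
  rw [b2_compl, b2_compl, h3] at h4
  exact sub_left_injective h4

theorem cz_symm {k k' : κ} (h : cz P k k') : cz P k' k := fun f => (h f).symm

theorem cz_trans {k k' k'' : κ} (h : cz P k k') (h' : cz P k' k'') : cz P k k'' :=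
  fun f => (h f).trans (h' f)

/-- PROOF. A function which depends only on the first and only on the second coordinate is constant
(`exists_mx`); its sum is `0`. -/
theorem FunP_both [Nonempty κ] (h : Sp P) {f : κ → ℚ} (hs : ∑ k, f k = 0) (h1 : FunP P f)
    (h2 : FunP (1 - P) f) : f = 0 := by
  obtain ⟨k₀⟩ := ‹Nonempty κ›
  have h3 : ∀ k, f k = f k₀ := by
    intro k
    obtain ⟨c, hc1, hc2⟩ := h.exists_mx k k₀
    rw [← h1 c k hc1, h2 c k₀ hc2]
  have h4 : (Fintype.card κ : ℚ) * f k₀ = 0 := by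
    rw [← hs, Finset.sum_congr rfl fun k _ => h3 k, Finset.sum_const, Finset.card_univ,
      nsmul_eq_mul]
  have h5 : (Fintype.card κ : ℚ) ≠ 0 := by
    have : Nonempty κ := ⟨k₀⟩
    exact_mod_cast Fintype.card_ne_zero
  have h6 : f k₀ = 0 := (mul_eq_zero.1 h4).resolve_left h5
  funext k
  rw [h3 k, h6, Pi.zero_apply]

/-- PROOF. `P f` depends only on the first coordinate (definition).  If `f` does, then `(1 - P) f = f - P f` depends
only on the first and only on the second coordinate, so is `0` (`FunP_both`; the elements of `Y` have sum `0`). -/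
theorem FunP_iff [Nonempty κ] (h : Sp P) (hs : ∀ f ∈ Y, ∑ k, f k = 0) (f : Y) :
    FunP P (f : κ → ℚ) ↔ P f = f := by
  constructor
  · intro hf
    have h1 : (((1 - P) f : Y) : κ → ℚ) = 0 := by
      refine FunP_both h (hs _ ((1 - P) f).2) ?_ ?_
      · intro k k' hk
        rw [b2_compl, b2_compl, hf k k' hk, hk f]
      · intro k k' hk
        exact hk f
    have h2 : (1 - P) f = 0 := Subtype.ext h1
    rw [LinearMap.sub_apply, Module.End.one_apply, sub_eq_zero] at h2
    exact h2.symm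
  · intro hf k k' hk
    have h1 := hk f
    rw [hf] at h1
    exact h1

end Pool.Agent.H76Q
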