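import Pool.Agent.Lib.H76Q.Q3
import Pool.Agent.Lib.H76Q.F3

/-!
# Q4: all hypotheses of the core theorem in one structure
-/

set_option autoImplicit false
set_option linter.unusedSectionVars false
namespace Pool.Agent.H76Q
open Module Matrix Polynomial Pool.Agent.H53Toric
open Pool.Agent.H76P
open Pool.Agent.H49M (idc)
open Pool.Agent.H76T (IsIdeal Fam Lc)
open Pool.Agent.H76V (Cmp)
open Pool.Agent.H76U (cmp preL IsSplitting)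
open Pool.Agent.H76RM (spanK similD)

/-- The hypotheses of `core` except the conditions on the ranks. -/
structure Core {ι : Type*} [Fintype ι] [DecidableEq ι] (ψ : Matrix ι ι ℚ)
    (D : Subalgebra ℚ (Matrix ι ι ℚ)) {M : Type*} [Field M] [NumberField M]
    {m : ℕ} (e : Fin m → Matrix ι ι M) {G : Type*} [Group G]
    (ρ : ∀ (l : ℕ) [Fact l.Prime], G →* Matrix.GeneralLinearGroup ι ℚ_[l])
    (p : ℕ) [Fact p.Prime] (σ : G) (q : ℚ) (f : ℚ[X]) (F : Fin m → M[X])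
    (φ μ ν : Matrix ι ι (AlgebraicClosure ℚ_[p])) (v : AlgebraicClosure ℚ_[p] → ℚ)
    (Δ : Set (AlgebraicClosure ℚ_[p] ≃+* AlgebraicClosure ℚ_[p]))
    {Ω : Type*} [Field Ω] [CharZero Ω] [IsAlgClosed Ω] [Algebra.IsAlgebraic ℚ Ω] (j : M →+* Ω)
    (R : Finset Ω) (N : Set ℕ) : Prop where
  hψ : ψᵀ = -ψ
  hψ0 : ψ.det ≠ 0
  hspl : IsSplitting D ψ id e
  lin : ∀ (l : ℕ) [Fact l.Prime], ∀ g : G, ∀ d ∈ D,
      (ρ l g).1 * d.map (algebraMap ℚ ℚ_[l]) = d.map (algebraMap ℚ ℚ_[l]) * (ρ l g).1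
  sim : ∀ (l : ℕ) [Fact l.Prime], ∀ g : G, ∃ c : ℚ_[l],
      (ρ l g).1ᵀ * ψ.map (algebraMap ℚ ℚ_[l]) * (ρ l g).1 = c • ψ.map (algebraMap ℚ ℚ_[l])
  semis : ∀ (l : ℕ) [Fact l.Prime], ∀ H : Subgroup G, H.FiniteIndex →
      ∀ W : Submodule (AlgebraicClosure ℚ_[l]) (ι → AlgebraicClosure ℚ_[l]),
      (∀ s ∈ img (AlgebraicClosure ℚ_[l]) (ρ l) H, ∀ w ∈ W, s *ᵥ w ∈ W) →
      ∃ W' : Submodule (AlgebraicClosure ℚ_[l]) (ι → AlgebraicClosure ℚ_[l]),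
        (∀ s ∈ img (AlgebraicClosure ℚ_[l]) (ρ l) H, ∀ w ∈ W', s *ᵥ w ∈ W') ∧ IsCompl W W'
  commt : ∀ (l : ℕ) [Fact l.Prime], ∀ H : Subgroup G, H.FiniteIndex →
      ∀ y : Matrix ι ι (AlgebraicClosure ℚ_[l]),
      (∀ s ∈ img (AlgebraicClosure ℚ_[l]) (ρ l) H, y * s = s * y) →
        y ∈ spanK (AlgebraicClosure ℚ_[l]) D
  gen : ∀ (l : ℕ) [Fact l.Prime], ∀ g : G,
      (ρ l g).1.map (algebraMap ℚ_[l] (AlgebraicClosure ℚ_[l])) ∈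
        tgen (AlgebraicClosure ℚ_[l]) (ρ l)
  hq : ∀ n : ℕ, n ≠ 0 → q ^ n ≠ 1
  mult : ∀ (l : ℕ) [Fact l.Prime], l ≠ p →
      (ρ l σ).1ᵀ * ψ.map (algebraMap ℚ ℚ_[l]) * (ρ l σ).1 =
        algebraMap ℚ ℚ_[l] q • ψ.map (algebraMap ℚ ℚ_[l])
  char : ∀ (l : ℕ) [Fact l.Prime], l ≠ p →
      (ρ l σ).1.charpoly = f.map (algebraMap ℚ ℚ_[l])
  frob : ∀ (l : ℕ) [Fact l.Prime], l ≠ p →
      FrobT (AlgebraicClosure ℚ_[l]) (ρ l) e F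
        ((ρ l σ).1.map (algebraMap ℚ_[l] (AlgebraicClosure ℚ_[l])))
  cyc : ∃ s : G, ∃ c : ℚ_[p], (ρ p s).1ᵀ * ψ.map (algebraMap ℚ ℚ_[p]) * (ρ p s).1 =
      c • ψ.map (algebraMap ℚ ℚ_[p]) ∧ ∀ n : ℕ, n ≠ 0 → c ^ n ≠ 1
  frobp : FrobT (AlgebraicClosure ℚ_[p]) (ρ p) e F φ
  multp : φᵀ * ψ.map (algebraMap ℚ (AlgebraicClosure ℚ_[p])) * φ =
      algebraMap ℚ (AlgebraicClosure ℚ_[p]) q • ψ.map (algebraMap ℚ (AlgebraicClosure ℚ_[p]))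
  charp : φ.charpoly = f.map (algebraMap ℚ (AlgebraicClosure ℚ_[p]))
  crys : CrysP (AlgebraicClosure ℚ_[p]) (ρ p) e σ φ μ ν v Δ
  vq : v (algebraMap ℚ (AlgebraicClosure ℚ_[p]) q) = 1
  hN : p ∈ N
  arith : Arith R N ρ σ
  Rstab : ∀ s : Ω ≃+* Ω, ∀ r ∈ R, s r ∈ R
  Rval : ∀ i : Ω →+* AlgebraicClosure ℚ_[p],
      ∃ r ∈ R, v (i r) = 1 ∧ ∀ r' ∈ R, r' ≠ r → v (i r') = 0
  Rfix : ∀ i : Ω →+* AlgebraicClosure ℚ_[p], ∀ r ∈ R, ∀ δ ∈ Δ, δ (i r) = i r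
  trans : ∀ b, ∀ r ∈ R, ∀ r' ∈ R, ∃ s : Ω ≃+* Ω, s r = r' ∧
      Linked D ((e b).map j) ((e b).map (s.toRingHom.comp j))
  gal : ∀ b, ∀ a a' : Ω, (F b).eval₂ j a = 0 → (F b).eval₂ j a' = 0 → a ≠ a' →
      ∃ i : Ω →+* AlgebraicClosure ℚ_[p], v (i a) ≠ v (i a')

/-- `P` is compatible with the simple ideals of all Lie algebras with the configuration `Y`. -/
def Good {n : ℕ} {Y : Submodule ℚ (Fin n → ℚ)} (P : Module.End ℚ Y) : Prop :=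
  ∀ (K : Type) [Field K] [CharZero K] [IsAlgClosed K]
    (L : Submodule K (Module.End K (Fin n → K))) (J : Matrix (Fin n) (Fin n) K),
    TS L J → Yo L = Y → Comp L P

/-- The permutation `σ` maps the decomposition `P` to the decomposition `P'`. -/
def MvP {κ : Type*} [Fintype κ] {Y : Submodule ℚ (κ → ℚ)} (σ : Equiv.Perm κ)
    (P P' : Module.End ℚ Y) : Prop :=
  (∀ k k', cz P k k' ↔ cz P' (σ k) (σ k')) ∧
    ∀ k k', cz (1 - P) k k' ↔ cz (1 - P') (σ k) (σ k')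

end Pool.Agent.H76Q
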