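import Pool.Agent.Lib.H76Q.A1

/-!
# H76Q: definitions for the configurations, the algebras of a projector, lifts
-/

set_option autoImplicit false
set_option linter.unusedSectionVars false
namespace Pool.Agent.H76Q
open Module Matrix Pool.Agent.H53Toric
open Pool.Agent.H76P
open Pool.Agent.H76T (IsIdeal Fam)
open Pool.Agent.H76V (Cmp)

section
variable {κ : Type*} [Fintype κ] [DecidableEq κ]

/-- The space of functions attached to a family of numbers: the functions `f` with sum `0` such that
`f - c` satisfies the linear relations which come from the multiplicative relations. -/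
def YS {K : Type*} [Field K] (d : κ → K) : Submodule ℚ (κ → ℚ) where
  carrier := {f | ∑ k, f k = 0 ∧ ∃ c : ℚ, ∀ m : κ → ℤ, ∏ k, d k ^ m k = 1 →
    ∑ k, (m k : ℚ) * (f k - c) = 0}
  zero_mem' := ⟨by simp, 0, fun m _ => by simp⟩
  add_mem' := by
    rintro f g ⟨h1, c, h2⟩ ⟨h3, c', h4⟩
    refine ⟨by simp [Finset.sum_add_distrib, h1, h3], c + c', fun m hm => ?_⟩
    have h5 := h2 m hm
    have h6 := h4 m hm
    calc ∑ k, (m k : ℚ) * ((f + g) k - (c + c')) =
        ∑ k, ((m k : ℚ) * (f k - c) + (m k : ℚ) * (g k - c')) := by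
          refine Finset.sum_congr rfl fun k _ => ?_
          simp only [Pi.add_apply]
          ring
      _ = 0 := by rw [Finset.sum_add_distrib, h5, h6, add_zero]
  smul_mem' := by
    rintro a f ⟨h1, c, h2⟩
    refine ⟨by simp [← Finset.mul_sum, h1], a * c, fun m hm => ?_⟩
    have h5 := h2 m hm
    calc ∑ k, (m k : ℚ) * ((a • f) k - a * c) = ∑ k, a * ((m k : ℚ) * (f k - c)) := by
          refine Finset.sum_congr rfl fun k _ => ?_
          simp only [Pi.smul_apply, smul_eq_mul]
          ring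
      _ = 0 := by rw [← Finset.mul_sum, h5, mul_zero]

/-- The points of the configuration. -/
def ptS (Y : Submodule ℚ (κ → ℚ)) (a : κ) : Module.Dual ℚ Y :=
  (LinearMap.proj (R := ℚ) (φ := fun _ : κ => ℚ) a) ∘ₗ Y.subtype

variable {Y : Submodule ℚ (κ → ℚ)}

/-- A product decomposition of the configuration: `P` is the projector to the functions of the
first coordinate. -/
structure Sp (P : Module.End ℚ Y) : Prop where
  idem : P * P = P
  mix : ∀ a b, ∃ c, ∀ f : Y, (f : κ → ℚ) c = (f : κ → ℚ) a + (P f : κ → ℚ) b - (P f : κ → ℚ) a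

/-- `k` and `k'` have the same first coordinate. -/
def cz (P : Module.End ℚ Y) (k k' : κ) : Prop := ∀ f : Y, (P f : κ → ℚ) k = (P f : κ → ℚ) k'

/-- `f` depends only on the first coordinate. -/
def FunP {A : Type*} (P : Module.End ℚ Y) (f : κ → A) : Prop := ∀ k k', cz P k k' → f k = f k'

/-- The permutation `σ` respects the product decomposition. -/
def StabP (P : Module.End ℚ Y) (σ : Equiv.Perm κ) : Prop :=
  (∀ k k', cz P k k' ↔ cz P (σ k) (σ k')) ∧ ∀ k k', cz (1 - P) k k' ↔ cz (1 - P) (σ k) (σ k')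

/-- Local data: a factorisation of the numbers `i (a k)` in a field. -/
structure LD {Ω K : Type*} [Field Ω] [Field K] (P : Module.End ℚ Y) (a : κ → Ω) (i : Ω →+* K)
    (u r : κ → K) : Prop where
  prod : ∀ k, i (a k) = u k * r k
  fu : FunP P u
  fr : FunP (1 - P) r

/-- The lift `t` of the first coordinate. -/
structure Lift {Ω : Type*} [Field Ω] (P : Module.End ℚ Y) (a : κ → Ω) (t : κ → Ω) : Prop where
  ne : ∀ k, t k ≠ 0
  fun_ : FunP P t
  rat : ∀ k k' c, cz P c k → cz (1 - P) c k' → t k * a k' = t k' * a c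
  eqv : ∀ (s : Ω ≃+* Ω) (σ : Equiv.Perm κ), (∀ k, s (a k) = a (σ k)) → StabP P σ →
    ∀ k, s (t k) = t (σ k)

/-- The group of the automorphisms which fix everything we need. -/
def GamP {Ω M : Type*} [Field Ω] [Field M] (j : M →+* Ω) (R : Finset Ω) (a : κ → Ω)
    (P : Module.End ℚ Y) : Set (Ω ≃+* Ω) :=
  {s | (∀ x, s (j x) = j x) ∧ (∀ r ∈ R, s r = r) ∧
    ∃ σ : Equiv.Perm κ, (∀ k, s (a k) = a (σ k)) ∧ StabP P σ}

end

section
variable {κ : Type*} [Fintype κ] [DecidableEq κ] {K : Type*} [Field K]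
  {Y : Submodule ℚ (κ → ℚ)}

/-- The diagonal elements of `I` depend only on the first coordinate. -/
def InP (P : Module.End ℚ Y) (I : Submodule K (Module.End K (κ → K))) : Prop :=
  ∀ f : κ → ℚ, f ∈ Y → dq f ∈ I → FunP P f

/-- The algebra which acts on the first factor. -/
def AZ (L : Submodule K (Module.End K (κ → K))) (P : Module.End ℚ Y) :
    Subalgebra K (Module.End K (κ → K)) :=
  Algebra.adjoin K {X | ∃ I, IsIdeal L I ∧ InP P I ∧ X ∈ I}

/-- Each simple ideal acts on one of the two factors. -/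
def Comp (L : Submodule K (Module.End K (κ → K))) (P : Module.End ℚ Y) : Prop :=
  ∀ (m : ℕ) (I : Fin m → Submodule K (Module.End K (κ → K))), Fam L I →
    ∀ j, InP P (I j) ∨ InP (1 - P) (I j)

/-- `X` is a pure tensor `u * r` with multiplier `t` on the first factor. -/
def PT (L : Submodule K (Module.End K (κ → K))) (J : Matrix κ κ K) (P : Module.End ℚ Y)
    (X u r : Module.End K (κ → K)) (t : K) : Prop :=
  u ∈ AZ L P ∧ r ∈ AZ L (1 - P) ∧ X = u * r ∧ t ≠ 0 ∧ adjE J u * u = t • 1 ∧
    ∃ t' : K, t' ≠ 0 ∧ adjE J r * r = t' • 1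

/-- A semilinear automorphism of the operators which respects `L`, the form and the diagonal. -/
structure Theta (L : Submodule K (Module.End K (κ → K))) (J : Matrix κ κ K)
    (θ : Module.End K (κ → K) ≃+* Module.End K (κ → K)) (τ : K ≃+* K) (σ : Equiv.Perm κ) : Prop where
  smul : ∀ (c : K) X, θ (c • X) = τ c • θ X
  diag : ∀ g : κ → K, θ (dg g) = dg fun k => τ (g (σ.symm k))
  mem : ∀ X, θ X ∈ L ↔ X ∈ L
  adj : ∀ X, θ (adjE J X) = adjE J (θ X)

end

end Pool.Agent.H76Q
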