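import Pool.Agent.Lib.H76Q.Q2
import Pool.Agent.Lib.H76Q.B2

/-!
# they generate all operators
-/

set_option autoImplicit false
set_option linter.unusedSectionVars false
namespace Pool.Agent.H76Q
open Module Matrix Pool.Agent.H53Toric
open Pool.Agent.H76P
open Pool.Agent.H76T (IsIdeal Fam)
open Pool.Agent.H76V (Cmp)

variable {κ : Type*} {K : Type*} [Field K] [CharZero K] [Fintype κ] [DecidableEq κ]
  {L : Submodule K (Module.End K (κ → K))} {J : Matrix κ κ K} [IsAlgClosed K] [Nonempty κ]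
  {Y : Submodule ℚ (κ → ℚ)} {P : Module.End ℚ Y}

/-- PROOF. `exists_fam`, `Fam.top` (H76T.TA2): each `I j` is in `AZ L P` or in `AZ L (1 - P)`. -/
theorem AZ_top (h : TS L J) (hc : Comp L P) : AZ L P ⊔ AZ L (1 - P) = ⊤ := by
  obtain ⟨m, I, hF⟩ := H76T.exists_fam h.cmp.lie h.cmp.irr h.cmp.tr
  rw [eq_top_iff, ← H76T.Fam.top hF h.cmp.irr]
  refine Algebra.adjoin_le fun X hX => ?_
  obtain ⟨j, hj⟩ := Set.mem_iUnion.1 hX
  rcases hc m I hF j with h1 | h1
  · have h2 : X ∈ AZ L P := Algebra.subset_adjoin ⟨I j, hF.ideal j, h1, hj⟩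
    exact (le_sup_left : AZ L P ≤ AZ L P ⊔ AZ L (1 - P)) h2
  · have h2 : X ∈ AZ L (1 - P) := Algebra.subset_adjoin ⟨I j, hF.ideal j, h1, hj⟩
    exact (le_sup_right : AZ L (1 - P) ≤ AZ L P ⊔ AZ L (1 - P)) h2

/-- PROOF. `X` commutes with `AZ L P ⊔ AZ L (1 - P) = ⊤`, so with all elements of `L`; `Cmp.gen`. -/
theorem AZ_scalar (h : TS L J) (hc : Comp L P) {X : Module.End K (κ → K)}
    (h1 : ∀ A ∈ AZ L P, X * A = A * X) (h2 : ∀ A ∈ AZ L (1 - P), X * A = A * X) :
    ∃ c : K, X = c • 1 := by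
  have h3 : AZ L P ⊔ AZ L (1 - P) ≤ Subalgebra.centralizer K {X} := by
    refine sup_le ?_ ?_
    · intro A hA
      rw [Subalgebra.mem_centralizer_iff]
      intro X' hX'
      rw [Set.mem_singleton_iff.1 hX']
      exact h1 A hA
    · intro A hA
      rw [Subalgebra.mem_centralizer_iff]
      intro X' hX'
      rw [Set.mem_singleton_iff.1 hX']
      exact h2 A hA
  refine h.cmp.gen X fun y _ _ => ?_
  have h4 : y ∈ AZ L P ⊔ AZ L (1 - P) := by
    rw [AZ_top h hc]
    exact Algebra.mem_top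
  exact (Subalgebra.mem_centralizer_iff K).1 (h3 h4) X (Set.mem_singleton X)

/-- PROOF. `1 - (1 - P) = P`. -/
theorem Comp.compl (hc : Comp L P) : Comp L (1 - P) := by
  intro m I hF j
  have h1 : (1 - (1 - P) : Module.End ℚ Y) = P := sub_sub_cancel 1 P
  rw [h1]
  exact (hc m I hF j).symm

/-- PROOF. `AZ` is generated by elements `X` of `L`, `adjE J X = - X` (`Cmp.skew`); `adjE J` reverses products
(`H53Toric.adjE_mul` or similar). -/
theorem adj_AZ (h : TS L J) {X : Module.End K (κ → K)} (hX : X ∈ AZ L P) : adjE J X ∈ AZ L P := by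
  have hone : adjE J (1 : Module.End K (κ → K)) = 1 := by
    have h2 := adjE_mul h.cmp.Jd (adjE J 1) (1 : Module.End K (κ → K))
    rw [mul_one, adjE_adjE h.cmp.Jt h.cmp.Jd, mul_one] at h2
    exact h2.symm
  unfold AZ at hX
  induction hX using Algebra.adjoin_induction with
  | mem X hX =>
    obtain ⟨I, hI, hP, hXI⟩ := hX
    rw [h.cmp.skew X (hI.1 hXI)]
    exact (AZ L P).neg_mem (Algebra.subset_adjoin ⟨I, hI, hP, hXI⟩)
  | algebraMap r =>
    rw [Algebra.algebraMap_eq_smul_one, map_smul, hone, ← Algebra.algebraMap_eq_smul_one]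
    exact (AZ L P).algebraMap_mem r
  | add a b _ _ ha hb =>
    rw [map_add]
    exact (AZ L P).add_mem ha hb
  | mul a b _ _ ha hb =>
    rw [adjE_mul h.cmp.Jd]
    exact (AZ L P).mul_mem hb ha

end Pool.Agent.H76Q
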