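import Pool.Agent.Lib.H76Q.Q2
import Pool.Agent.Lib.H76Q.B2
import Pool.Agent.Lib.H76Q.C1
import Pool.Agent.Lib.H76Q.C2
import Pool.Agent.Lib.H76Q.C3

/-!
# pure tensors
-/

set_option autoImplicit false
set_option linter.unusedSectionVars false
namespace Pool.Agent.H76Q
open Module Matrix Pool.Agent.H53Toric
open Pool.Agent.H76P
open Pool.Agent.H76T (IsIdeal Fam)
open Pool.Agent.H76V (Cmp)

variable {κ : Type*} {K : Type*} [Field K] [CharZero K] [Fintype κ] [DecidableEq κ]
  {L : Submodule K (Module.End K (κ → K))} {J : Matrix κ κ K} [IsAlgClosed K] [Nonempty κ]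
  {Y : Submodule ℚ (κ → ℚ)} {P : Module.End ℚ Y}

theorem c5_adj_one {J : Matrix κ κ K} (hdet : IsUnit J.det) : adjE J (1 : Module.End K (κ → K)) = 1 := by
  have h1 : (1 : Module.End K (κ → K)) = phi (1 : Matrix κ κ K) := (map_one _).symm
  rw [h1, adjE_phi, Matrix.transpose_one, mul_one, Matrix.nonsing_inv_mul _ hdet]

theorem c5_two {A B : Module.End K (κ → K)} {c : K} (hc : c ≠ 0) (h : A * B = c • 1) : B * A = c • 1 := by
  have h1 : (c⁻¹ • A) * B = 1 := by
    rw [smul_mul_assoc, h, smul_smul, inv_mul_cancel₀ hc, one_smul]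
  have h2 : B * (c⁻¹ • A) = 1 := mul_eq_one_comm.mp h1
  rw [mul_smul_comm] at h2
  have h3 := congrArg (fun T => c • T) h2
  simpa [smul_smul, mul_inv_cancel₀ hc] using h3

/-- PROOF. `adjE J 1 = 1` because `J` is invertible (`Cmp.Jd`). -/
theorem PT_one (h : TS L J) : PT L J P 1 1 1 1 := by
  refine ⟨one_mem _, one_mem _, (mul_one 1).symm, one_ne_zero, ?_, 1, one_ne_zero, ?_⟩
  · rw [c5_adj_one h.cmp.Jd, mul_one, one_smul]
  · rw [c5_adj_one h.cmp.Jd, mul_one, one_smul]

/-- PROOF. `u`'s and `r`'s commute (`AZ_comm`), `adjE J` reverses products. -/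
theorem PT_mul (h : TS L J) (hY : Yo L = Y) (hP : Sp P) {X u r X' u' r' : Module.End K (κ → K)}
    {t t' : K} (h1 : PT L J P X u r t) (h2 : PT L J P X' u' r' t') :
    PT L J P (X * X') (u * u') (r * r') (t * t') := by
  obtain ⟨hu, hr, hX, ht, hadj, s, hs, hsr⟩ := h1
  obtain ⟨hu', hr', hX', ht', hadj', s', hs', hsr'⟩ := h2
  have hJ := h.cmp.Jd
  refine ⟨mul_mem hu hu', mul_mem hr hr', ?_, mul_ne_zero ht ht', ?_, s * s', mul_ne_zero hs hs', ?_⟩
  · have h3 : u' * r = r * u' := AZ_comm h hY hP u' hu' r hr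
    rw [hX, hX']
    calc u * r * (u' * r') = u * (r * u') * r' := by noncomm_ring
      _ = u * (u' * r) * r' := by rw [h3]
      _ = u * u' * (r * r') := by noncomm_ring
  · rw [adjE_mul hJ]
    calc adjE J u' * adjE J u * (u * u') = adjE J u' * (adjE J u * u) * u' := by noncomm_ring
      _ = (t * t') • 1 := by
          rw [hadj, mul_smul_comm, smul_mul_assoc, mul_one, hadj', smul_smul]
  · rw [adjE_mul hJ]
    calc adjE J r' * adjE J r * (r * r') = adjE J r' * (adjE J r * r) * r' := by noncomm_ring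
      _ = (s * s') • 1 := by
          rw [hsr, mul_smul_comm, smul_mul_assoc, mul_one, hsr', smul_smul]

/-- PROOF. `u * (t⁻¹ • adjE J u) = 1` (a left inverse of an operator of a finite dimensional space is a right inverse). -/
theorem PT_inv (h : TS L J) (hY : Yo L = Y) (hP : Sp P) {X X' u r : Module.End K (κ → K)} {t : K}
    (h1 : PT L J P X u r t) (hX : X * X' = 1) :
    ∃ r', PT L J P X' (t⁻¹ • adjE J u) r' t⁻¹ := by
  obtain ⟨hu, hr, hXe, ht, hadj, s, hs, hsr⟩ := h1
  have hJ := h.cmp.Jd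
  have hJt := h.cmp.Jt
  have hua : adjE J u ∈ AZ L P := adj_AZ h hu
  have hra : adjE J r ∈ AZ L (1 - P) := adj_AZ h hr
  have h2u := c5_two ht hadj
  have h2r := c5_two hs hsr
  have key : ∀ {v : Module.End K (κ → K)} {c : K}, c ≠ 0 → v * adjE J v = c • 1 →
      adjE J (c⁻¹ • adjE J v) * (c⁻¹ • adjE J v) = c⁻¹ • 1 := by
    intro v c hc hv
    rw [map_smul, adjE_adjE hJt hJ, smul_mul_smul_comm, hv, smul_smul]
    congr 1
    field_simp
  refine ⟨s⁻¹ • adjE J r, Subalgebra.smul_mem _ hua _, Subalgebra.smul_mem _ hra _, ?_, inv_ne_zero ht, key ht h2u,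
    s⁻¹, inv_ne_zero hs, key hs h2r⟩
  have hc : u * r = r * u := AZ_comm h hY hP u hu r hr
  have h3 : ((t⁻¹ • adjE J u) * (s⁻¹ • adjE J r)) * X = 1 := by
    rw [hXe, hc]
    calc (t⁻¹ • adjE J u) * (s⁻¹ • adjE J r) * (r * u)
        = (t⁻¹ • adjE J u) * (s⁻¹ • (adjE J r * r)) * u := by
          rw [smul_mul_assoc, smul_mul_assoc, smul_mul_assoc, mul_smul_comm, mul_smul_comm, smul_mul_assoc,
            smul_mul_assoc]
          noncomm_ring
      _ = 1 := by
          rw [hsr, smul_smul, inv_mul_cancel₀ hs, one_smul, mul_one, smul_mul_assoc, hadj, smul_smul,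
            inv_mul_cancel₀ ht, one_smul]
  exact (left_inv_eq_right_inv h3 hX).symm

/-- PROOF. `inv_AZ`, `adjE J y = - y` (`Cmp.skew`).  `X = ((1 + t) / 2) + ((t - 1) / 2) y`; `adjE J X * X = t`.  If `y` is in an ideal with `InP P`
take `u = X`, `r = 1`; otherwise `u = 1`, `r = X`. -/
theorem PT_par (h : TS L J) (hc : Comp L P) {y : Module.End K (κ → K)} (hy : y ∈ L)
    (hyy : y * y = 1) {t : K} (ht : t ≠ 0) :
    PT L J P (((1 + t) / 2) • 1 + ((t - 1) / 2) • y) (((1 + t) / 2) • 1 + ((t - 1) / 2) • y) 1 t ∨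
    PT L J P (((1 + t) / 2) • 1 + ((t - 1) / 2) • y) 1 (((1 + t) / 2) • 1 + ((t - 1) / 2) • y) 1 := by
  have hJ := h.cmp.Jd
  obtain ⟨I, hI, hyI, hIP⟩ := inv_AZ h hc hy hyy
  have hadj : adjE J (((1 + t) / 2) • 1 + ((t - 1) / 2) • y) * (((1 + t) / 2) • 1 + ((t - 1) / 2) • y) = t • 1 := by
    rw [map_add, map_smul, map_smul, c5_adj_one hJ, h.cmp.skew y hy]
    have e1 : ∀ a b : K, (a • (1 : Module.End K (κ → K)) + b • -y)
        * (a • (1 : Module.End K (κ → K)) + b • y)
        = (a ^ 2 - b ^ 2) • (1 : Module.End K (κ → K)) := by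
      intro a b
      have e2 : (a • (1 : Module.End K (κ → K)) + b • -y) * (a • (1 : Module.End K (κ → K)) + b • y)
          = (a * a) • (1 : Module.End K (κ → K)) - (b * b) • (y * y) := by
        have e3 : -y * y = -(y * y) := by
          refine LinearMap.ext fun v => ?_
          show -(y (y v)) = -(y (y v))
          rfl
        rw [add_mul, mul_add, mul_add, smul_mul_smul_comm, smul_mul_smul_comm, smul_mul_smul_comm,
          smul_mul_smul_comm, one_mul, one_mul, mul_one, e3, smul_neg, smul_neg, mul_comm b a]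
        abel
      rw [e2, hyy]
      module
    rw [e1]
    congr 1
    ring
  have hone : adjE J (1 : Module.End K (κ → K)) * 1 = (1 : K) • 1 := by
    rw [c5_adj_one hJ, mul_one, one_smul]
  rcases hIP with hP' | hP'
  · left
    have hyA : y ∈ AZ L P := Algebra.subset_adjoin ⟨I, hI, hP', hyI⟩
    exact ⟨add_mem (Subalgebra.smul_mem _ (one_mem _) _) (Subalgebra.smul_mem _ hyA _), one_mem _, (mul_one _).symm, ht,
      hadj, 1, one_ne_zero, hone⟩
  · right
    have hyA : y ∈ AZ L (1 - P) := Algebra.subset_adjoin ⟨I, hI, hP', hyI⟩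
    exact ⟨one_mem _, add_mem (Subalgebra.smul_mem _ (one_mem _) _) (Subalgebra.smul_mem _ hyA _), (one_mul _).symm,
      one_ne_zero, hone, t, ht, hadj⟩

/-- PROOF. `w = adjE J u * u'`: from `u r = u' r'` we get (multiply with `adjE J u` on the left and `adjE J r'` on the right)
`t • r * adjE J r' = t₁ • w` (`t₁` the multiplier of `r'`), so `w ∈ AZ L P` is in `AZ L (1 - P)`, too; so it commutes with both (`AZ_comm`) and is a scalar
(`AZ_scalar`); `u * w = t • u'`. -/
theorem PT_unique (h : TS L J) (hY : Yo L = Y) (hP : Sp P) (hc : Comp L P)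
    {X u r u' r' : Module.End K (κ → K)} {t t' : K} (h1 : PT L J P X u r t)
    (h2 : PT L J P X u' r' t') : ∃ c : K, c ≠ 0 ∧ u' = c • u ∧ t' = c ^ 2 * t := by
  obtain ⟨hu, hr, hX, ht, hadj, s, hs, hsr⟩ := h1
  obtain ⟨hu', hr', hX', ht', hadj', s', hs', hsr'⟩ := h2
  have hJ := h.cmp.Jd
  have hua : adjE J u ∈ AZ L P := adj_AZ h hu
  have hra : adjE J r' ∈ AZ L (1 - P) := adj_AZ h hr'
  have h2u := c5_two ht hadj
  have h2r := c5_two hs' hsr'
  have hw : t • (r * adjE J r') = s' • (adjE J u * u') := by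
    have h3 : adjE J u * (u * r) * adjE J r' = adjE J u * (u' * r') * adjE J r' := by rw [← hX, ← hX']
    calc t • (r * adjE J r') = (adjE J u * u) * r * adjE J r' := by
          rw [hadj, smul_mul_assoc, smul_mul_assoc, one_mul]
      _ = adjE J u * (u * r) * adjE J r' := by noncomm_ring
      _ = adjE J u * (u' * r') * adjE J r' := h3
      _ = (adjE J u * u') * (r' * adjE J r') := by noncomm_ring
      _ = s' • (adjE J u * u') := by rw [h2r, mul_smul_comm, mul_one]
  have hwP : adjE J u * u' ∈ AZ L P := mul_mem hua hu'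
  have hwQ : adjE J u * u' ∈ AZ L (1 - P) := by
    have h4 : adjE J u * u' = (s'⁻¹ * t) • (r * adjE J r') := by
      rw [mul_smul, hw, smul_smul, inv_mul_cancel₀ hs', one_smul]
    rw [h4]
    exact Subalgebra.smul_mem _ (mul_mem hr hra) _
  obtain ⟨c₀, hc₀⟩ := AZ_scalar h hc (X := adjE J u * u')
    (fun A hA => (AZ_comm h hY hP A hA _ hwQ).symm) (fun A hA => AZ_comm h hY hP _ hwP A hA)
  have hu'e : u' = (t⁻¹ * c₀) • u := by
    have h5 : u * (adjE J u * u') = t • u' := by
      rw [← mul_assoc, h2u, smul_mul_assoc, one_mul]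
    rw [hc₀, mul_smul_comm, mul_one] at h5
    rw [mul_smul, h5, smul_smul, inv_mul_cancel₀ ht, one_smul]
  have h6 : t' • (1 : Module.End K (κ → K)) = ((t⁻¹ * c₀) ^ 2 * t) • 1 := by
    rw [← hadj', hu'e, map_smul, smul_mul_smul_comm, hadj, smul_smul]
    congr 1
    ring
  have h7 : t' = (t⁻¹ * c₀) ^ 2 * t := by
    have h8 : (t' - (t⁻¹ * c₀) ^ 2 * t) • (1 : Module.End K (κ → K)) = 0 :=
      (sub_smul t' ((t⁻¹ * c₀) ^ 2 * t) (1 : Module.End K (κ → K))).trans (sub_eq_zero.mpr h6)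
    rcases smul_eq_zero.mp h8 with h9 | h9
    · exact sub_eq_zero.mp h9
    · exact absurd h9 one_ne_zero
  refine ⟨t⁻¹ * c₀, ?_, hu'e, h7⟩
  intro h0
  rw [h0] at h7
  exact ht' (by rw [h7]; ring)

end Pool.Agent.H76Q
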