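import Pool.Agent.Lib.H76Q.Q3
import Pool.Agent.Lib.H76Q.C5

/-!
# elements of the group are pure tensors
-/

set_option autoImplicit false
set_option linter.unusedSectionVars false
namespace Pool.Agent.H76Q
open Module Matrix Polynomial Pool.Agent.H53Toric
open Pool.Agent.H76P
open Pool.Agent.H76T (IsIdeal Fam Lc)
open Pool.Agent.H76V (Cmp)
open Pool.Agent.H76U (cmp preL IsSplitting)
open Pool.Agent.H76RM (spanK similD)

variable {ι : Type*} [Fintype ι] [DecidableEq ι] {K : Type*} [Field K] [CharZero K]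
  [IsAlgClosed K] {J : Matrix ι ι K} {S 𝓗 : Set (Matrix ι ι K)} {e x : Matrix ι ι K} {q : K} {n : ℕ}
  {U : Matrix ι (Fin n) K} {V : Matrix (Fin n) ι K} {d : Fin n → K}
  {Y : Submodule ℚ (Fin n → ℚ)}

/-- PROOF. `cmp` is multiplicative on elements which commute with `e` (`H76U.cmp_mul`). -/
theorem cmp_comm (h : Loc J S 𝓗 e x q U V d Y) {g : Matrix ι ι K}
    (hg : g ∈ Submonoid.closure {y | ∃ k ∈ 𝓗, ∃ t : K, t ≠ 0 ∧ y = 1 + (t - 1) • k}) :
    g * e = e * g := by
  refine Submonoid.closure_induction (motive := fun m _ => m * e = e * m) ?_ ?_ ?_ hg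
  · rintro _ ⟨k, hk, t, -, rfl⟩
    rw [add_mul, mul_add, one_mul, mul_one, smul_mul_assoc, mul_smul_comm, (h.par k hk).2.1]
  · rw [one_mul, mul_one]
  · intro a b _ _ ha hb
    rw [mul_assoc, hb, ← mul_assoc, ha, mul_assoc]

/-- PROOF. `Submonoid.closure_induction`: `PT_one`, `PT_mul` (with `cmp_mul`), `PT_par` for `y = phi (cmp U V (2 k - 1))`, `y * y = 1`,
`cmp (1 + (t - 1) k) = ((1 + t) / 2) + ((t - 1) / 2) y` (`h.par`). -/
theorem gen_PT (h : Loc J S 𝓗 e x q U V d Y) {P : Module.End ℚ Y} (hP : Sp P)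
    (hc : Comp (Lc J S U V) P) {g : Matrix ι ι K}
    (hg : g ∈ Submonoid.closure {y | ∃ k ∈ 𝓗, ∃ t : K, t ≠ 0 ∧ y = 1 + (t - 1) • k}) :
    ∃ u r t, PT (Lc J S U V) (Uᵀ * J * U) P (phi (cmp U V g)) u r t := by
  have hne : Nonempty (Fin n) := ⟨⟨0, h.pos⟩⟩
  refine Submonoid.closure_induction (motive := fun m _ => ∃ u r t,
    PT (Lc J S U V) (Uᵀ * J * U) P (phi (cmp U V m)) u r t) ?_ ?_ ?_ hg
  · rintro _ ⟨k, hk, t, ht, rfl⟩
    obtain ⟨hkk, hke, -, hkL⟩ := h.par k hk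
    have h2 : ((2 : K) • k - 1) * e = e * ((2 : K) • k - 1) := by
      rw [sub_mul, mul_sub, one_mul, mul_one, smul_mul_assoc, mul_smul_comm, hke]
    have h3 : ((2 : K) • k - 1) * ((2 : K) • k - 1) = 1 := by
      simp only [sub_mul, mul_sub, smul_mul_assoc, mul_smul_comm, hkk, mul_one, one_mul]
      module
    have hyy : phi (cmp U V ((2 : K) • k - 1)) * phi (cmp U V ((2 : K) • k - 1)) = 1 := by
      rw [← map_mul, ← H76U.cmp_mul h.UV h.VU h2, h3, H76U.cmp_one h.UV h.VU, map_one]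
    have h4 : phi (cmp U V (1 + (t - 1) • k)) =
        ((1 + t) / 2) • (1 : Module.End K (Fin n → K)) + ((t - 1) / 2) • phi (cmp U V ((2 : K) • k - 1)) := by
      have h5 : 1 + (t - 1) • k = ((1 + t) / 2) • (1 : Matrix ι ι K) + ((t - 1) / 2) • ((2 : K) • k - 1) := by
        rw [smul_sub, smul_smul]
        module
      rw [h5, map_add, map_smul, map_smul, H76U.cmp_one h.UV h.VU, map_add, map_smul, map_smul, map_one]
    rw [h4]
    rcases PT_par h.ts hc hkL hyy ht with h6 | h6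
    · exact ⟨_, _, _, h6⟩
    · exact ⟨_, _, _, h6⟩
  · rw [H76U.cmp_one h.UV h.VU, map_one]
    exact ⟨_, _, _, PT_one h.ts⟩
  · rintro a b ha hb ⟨u, r, t, h1⟩ ⟨u', r', t', h2⟩
    rw [H76U.cmp_mul h.UV h.VU (cmp_comm h hb), map_mul]
    exact ⟨_, _, _, PT_mul h.ts h.yo hP h1 h2⟩

theorem e4_pair (h : Loc J S 𝓗 e x q U V d Y) (k l : Fin n)
    (hkl : (Uᵀ * J * U) k l ≠ 0) : d k * d l = q := by
  have h1 : Matrix.diagonal d * (Uᵀ * J * U) * Matrix.diagonal d = q • (Uᵀ * J * U) := by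
    have h2 : Matrix.diagonal d * Uᵀ = Uᵀ * xᵀ := by
      have h3 := congrArg Matrix.transpose h.ec.eig
      rw [Matrix.transpose_mul, Matrix.transpose_mul, Matrix.diagonal_transpose] at h3
      exact h3.symm
    calc Matrix.diagonal d * (Uᵀ * J * U) * Matrix.diagonal d =
        (Matrix.diagonal d * Uᵀ) * J * (U * Matrix.diagonal d) := by simp only [Matrix.mul_assoc]
      _ = Uᵀ * (xᵀ * J * x) * U := by
          rw [h2, ← h.ec.eig]
          simp only [Matrix.mul_assoc]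
      _ = _ := by rw [h.mult, Matrix.mul_smul, Matrix.smul_mul]
  have h2 := congrFun (congrFun h1 k) l
  rw [Matrix.mul_diagonal, Matrix.diagonal_mul, Matrix.smul_apply, smul_eq_mul] at h2
  apply mul_right_cancel₀ hkl
  rw [← h2]
  ring

/-- PROOF. `x` has multiplier `q`: `(Uᵀ J U) k l * (d k * d l - q) = 0`.  -/
theorem pair_bar (h : Loc J S 𝓗 e x q U V d Y) {bar : Equiv.Perm (Fin n)}
    (hbar : ∀ k, d k * d (bar k) = q) (hd : ∀ k, d k ≠ 0) (k l : Fin n)
    (hkl : (Uᵀ * J * U) k l ≠ 0) : l = bar k := by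
  have h1 := e4_pair h k l hkl
  rw [← hbar k] at h1
  exact h.ec.inj (mul_left_cancel₀ (hd k) h1)

/-- PROOF. For each `k` some `(Uᵀ J U) k l ≠ 0` (this matrix is invertible, `h.ts.cmp.Jd`), so `d k * d l = q`; `l` is unique (`d` is injective, `h.ec`), `bar k = l`. -/
theorem exists_bar (h : Loc J S 𝓗 e x q U V d Y) :
    ∃ bar : Equiv.Perm (Fin n), ∀ k, d k * d (bar k) = q := by
  have h1 : ∀ k, ∃ l, d k * d l = q := by
    intro k
    by_contra hcon
    push Not at hcon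
    have h2 : ∀ l, (Uᵀ * J * U) k l = 0 := by
      intro l
      by_contra h3
      exact hcon l (e4_pair h k l h3)
    have h3 := h.ts.cmp.Jd
    rw [Matrix.det_eq_zero_of_row_eq_zero k h2] at h3
    exact not_isUnit_zero h3
  choose b hb using h1
  have hinj : Function.Injective b := by
    intro k k' hkk
    apply h.ec.inj
    apply mul_right_cancel₀ (h.ec.ne (b k))
    rw [hb k, hkk, hb k']
  exact ⟨Equiv.ofBijective b (Finite.injective_iff_bijective.1 hinj), hb⟩

end Pool.Agent.H76Q
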