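import Pool.Agent.Lib.H76Q.B1
import Pool.Agent.Lib.H76Q.B2
import Pool.Agent.Lib.H86E.Blocks

/-!
# BL1: blocks of a configuration
-/

set_option autoImplicit false
set_option linter.unusedSectionVars false
namespace Pool.Agent.H76Q
open Module Matrix Pool.Agent.H53Toric
open Pool.Agent.H76P
open Pool.Agent.H76T (IsIdeal Fam)
open Pool.Agent.H76V (Cmp)

variable {κ : Type*} [Fintype κ] [DecidableEq κ] {Y : Submodule ℚ (κ → ℚ)}

/-- A block: an atom which has not two points, or the sum of all atoms with two points; if `κ` has eight elements: an atom. -/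
def IsBlock (P : Module.End ℚ Y) : Prop :=
  (Fintype.card κ = 8 ∧ Atom (ptS Y) P.dualMap) ∨
  (Fintype.card κ ≠ 8 ∧ Atom (ptS Y) P.dualMap ∧ cnt (ptS Y) P.dualMap ≠ 2) ∨
  (Fintype.card κ ≠ 8 ∧ Spl (ptS Y) P.dualMap ∧ P ≠ 0 ∧
    ∀ q, Atom (ptS Y) q → (q * P.dualMap = q ↔ cnt (ptS Y) q = 2))

/-- The points span and are different. -/
theorem ptS_spans [Nonempty κ] (h0 : ∀ f ∈ Y, ∑ k, f k = 0) : Spans (ptS Y) := by
  unfold Spans
  by_contra hW
  obtain ⟨f, hf0, hf⟩ := Submodule.exists_le_ker_of_lt_top _ (lt_top_iff_ne_top.2 hW)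
  obtain ⟨x, rfl⟩ := (Module.evalEquiv ℚ Y).surjective f
  apply hf0
  have hx : x = 0 := by
    have h1 : ∀ a b, (x : κ → ℚ) b = (x : κ → ℚ) a := by
      intro a b
      have h2 : ptS Y b - ptS Y a ∈ LinearMap.ker ((Module.evalEquiv ℚ Y) x) :=
        hf (Submodule.subset_span ⟨a, b, rfl⟩)
      rw [LinearMap.mem_ker] at h2
      have h3 : (ptS Y b - ptS Y a) x = 0 := h2
      rw [LinearMap.sub_apply] at h3
      exact sub_eq_zero.1 h3
    obtain ⟨a⟩ := ‹Nonempty κ›
    have h2 := h0 _ x.2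
    have h3 : ∑ k, (x : κ → ℚ) k = Fintype.card κ * (x : κ → ℚ) a := by
      rw [Finset.sum_congr rfl fun k _ => h1 a k, Finset.sum_const, Finset.card_univ, nsmul_eq_mul]
    rw [h3] at h2
    have h4 : (Fintype.card κ : ℚ) ≠ 0 := by
      have : Nonempty κ := ⟨a⟩
      exact_mod_cast Fintype.card_ne_zero
    have h5 := (mul_eq_zero.1 h2).resolve_left h4
    refine Subtype.ext (funext fun b => ?_)
    rw [h1 a b, h5]
    rfl
  rw [hx, map_zero]

theorem ptS_inj (hsep : ∀ a b : κ, a ≠ b → ∃ f ∈ Y, f a ≠ f b) : Function.Injective (ptS Y) := by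
  intro a b hab
  by_contra hne
  obtain ⟨f, hf, hfab⟩ := hsep a b hne
  apply hfab
  have h1 := congrArg (fun φ : Module.Dual ℚ Y => φ ⟨f, hf⟩) hab
  exact h1

theorem ptS_apply (a : κ) (f : Y) : ptS Y a f = (f : κ → ℚ) a := rfl

theorem dualMap_mul (P P' : Module.End ℚ Y) : (P * P').dualMap = P'.dualMap * P.dualMap := by
  ext u f
  rfl

theorem dualMap_sum {ι : Type*} (s : Finset ι) (P : ι → Module.End ℚ Y) :
    (∑ i ∈ s, P i).dualMap = ∑ i ∈ s, (P i).dualMap := by
  classical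
  induction s using Finset.induction_on with
  | empty =>
    rw [Finset.sum_empty, Finset.sum_empty]
    ext u f
    simp
  | insert a s ha ih =>
    rw [Finset.sum_insert ha, Finset.sum_insert ha, ← ih]
    ext u f
    simp

theorem dualMap_one : (1 : Module.End ℚ Y).dualMap = 1 := by
  ext u f
  rfl

theorem dualMap_zero : (0 : Module.End ℚ Y).dualMap = 0 := by
  ext u f
  simp

/-- Products of splittings below each other, summed over a set of atoms. -/
theorem atom_mul_sum {V : Type*} [AddCommGroup V] [Module ℚ V] {pt : κ → V} (hs : Spans pt) {q : Module.End ℚ V}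
    (hq : Atom pt q) (t : Finset (Module.End ℚ V)) (ht : ∀ r ∈ t, Atom pt r) :
    q * ∑ r ∈ t, r = q ↔ q ∈ t := by
  classical
  constructor
  · intro h
    by_contra hqt
    rw [c2_mul_sum hs hq t ht hqt] at h
    exact hq.2.1 h.symm
  · intro hqt
    rw [← Finset.add_sum_erase t _ hqt, mul_add, hq.1.1,
      c2_mul_sum hs hq (t.erase q) (fun r hr => ht r (Finset.mem_of_mem_erase hr)) (Finset.notMem_erase q t), add_zero]

/-- A splitting is the sum of the atoms below it. -/
theorem spl_eq_sum {V : Type*} [AddCommGroup V] [Module ℚ V] {pt : κ → V} (hs : Spans pt) {z : Module.End ℚ V}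
    (hz : Spl pt z) (s : Finset (Module.End ℚ V)) (hsm : ∀ q, q ∈ s ↔ Atom pt q) (hsum : ∑ q ∈ s, q = 1)
    (p : Module.End ℚ V → Prop) [DecidablePred p] (hp : ∀ q ∈ s, q * z = q ↔ p q) :
    z = ∑ q ∈ s.filter p, q := by
  calc z = 1 * z := (one_mul z).symm
    _ = ∑ q ∈ s, q * z := by rw [← hsum, Finset.sum_mul]
    _ = ∑ q ∈ s, if p q then q else 0 := by
        refine Finset.sum_congr rfl fun q hq => ?_
        split_ifs with h
        · exact (hp q hq).2 h
        · rcases ((hsm q).1 hq).le_or hs hz with h1 | h1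
          · exact absurd ((hp q hq).1 h1) h
          · exact h1
    _ = _ := (Finset.sum_filter _ _).symm

/-- The blocks, dual side. -/
theorem exists_isBlock_dual {V : Type*} [AddCommGroup V] [Module ℚ V] {pt : κ → V} (hs : Spans pt) :
    ∃ FF : Finset (Module.End ℚ V), (∀ z, z ∈ FF ↔ ((Fintype.card κ = 8 ∧ Atom pt z) ∨
      (Fintype.card κ ≠ 8 ∧ Atom pt z ∧ cnt pt z ≠ 2) ∨
      (Fintype.card κ ≠ 8 ∧ Spl pt z ∧ z ≠ 0 ∧ ∀ q, Atom pt q → (q * z = q ↔ cnt pt q = 2)))) ∧
      ∑ z ∈ FF, z = 1 ∧ (∀ z ∈ FF, ∀ z' ∈ FF, z ≠ z' → z * z' = 0) ∧ ∀ z ∈ FF, Spl pt z ∧ z ≠ 0 := by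
  classical
  obtain ⟨s, hsm, hsum⟩ := atoms_sum hs
  by_cases h8 : Fintype.card κ = 8
  · refine ⟨s, fun z => ?_, hsum, fun z hz z' hz' hne => Atom.orth hs ((hsm z).1 hz) ((hsm z').1 hz') hne,
      fun z hz => ⟨((hsm z).1 hz).1, ((hsm z).1 hz).2.1⟩⟩
    rw [hsm]
    constructor
    · intro h
      exact Or.inl ⟨h8, h⟩
    · rintro (h | h | h)
      · exact h.2
      · exact absurd h8 h.1
      · exact absurd h8 h.1
  · set s2 := s.filter fun q => cnt pt q = 2 with hs2
    set s3 := s.filter fun q => ¬ cnt pt q = 2 with hs3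
    have hsum' : ∑ q ∈ s2, q + ∑ q ∈ s3, q = 1 := by
      rw [hs2, hs3, Finset.sum_filter_add_sum_filter_not, hsum]
    have hat : ∀ r ∈ s2, Atom pt r := fun r hr => (hsm r).1 (Finset.mem_of_mem_filter r hr)
    have hS : Spl pt (∑ q ∈ s2, q) := c2_sum hs s2 hat
    have hlow : ∀ q, Atom pt q → (q * ∑ r ∈ s2, r = q ↔ cnt pt q = 2) := by
      intro q hq
      rw [atom_mul_sum hs hq s2 hat, hs2, Finset.mem_filter, hsm]
      exact ⟨fun h => h.2, fun h => ⟨hq, h⟩⟩
    have hthird : ∀ z, (Fintype.card κ ≠ 8 ∧ Spl pt z ∧ z ≠ 0 ∧ ∀ q, Atom pt q → (q * z = q ↔ cnt pt q = 2)) →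
        z = ∑ q ∈ s2, q := fun z hz =>
      spl_eq_sum hs hz.2.1 s hsm hsum _ fun q hq => hz.2.2.2 q ((hsm q).1 hq)
    by_cases hne : (∑ q ∈ s2, q) = 0
    · refine ⟨s3, fun z => ?_, by rw [← hsum', hne, zero_add], fun z hz z' hz' hzz => ?_, fun z hz => ?_⟩
      · rw [hs3, Finset.mem_filter, hsm]
        constructor
        · intro h
          exact Or.inr (Or.inl ⟨h8, h.1, h.2⟩)
        · rintro (h | h | h)
          · exact absurd h.1 h8
          · exact h.2
          · exact absurd ((hthird z h).trans hne) h.2.2.1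
      · exact Atom.orth hs ((hsm z).1 (Finset.mem_of_mem_filter z hz)) ((hsm z').1 (Finset.mem_of_mem_filter z' hz')) hzz
      · have h1 := (hsm z).1 (Finset.mem_of_mem_filter z hz)
        exact ⟨h1.1, h1.2.1⟩
    · have hnm : (∑ q ∈ s2, q) ∉ s3 := by
        intro h
        rw [hs3, Finset.mem_filter, hsm] at h
        exact h.2 ((hlow _ h.1).1 hS.1)
      have horth : ∀ z ∈ s3, z * ∑ q ∈ s2, q = 0 := by
        intro z hz
        rw [hs3, Finset.mem_filter, hsm] at hz
        refine c2_mul_sum hs hz.1 s2 hat fun h => hz.2 ?_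
        rw [hs2, Finset.mem_filter] at h
        exact h.2
      refine ⟨insert (∑ q ∈ s2, q) s3, fun z => ?_, by rw [Finset.sum_insert hnm, hsum'], fun z hz z' hz' hzz => ?_,
        fun z hz => ?_⟩
      · rw [Finset.mem_insert, hs3, Finset.mem_filter, hsm]
        constructor
        · rintro (h | h)
          · refine Or.inr (Or.inr ⟨h8, by rw [h]; exact hS, by rw [h]; exact hne, ?_⟩)
            rw [h]
            exact hlow
          · exact Or.inr (Or.inl ⟨h8, h.1, h.2⟩)
        · rintro (h | h | h)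
          · exact absurd h.1 h8
          · exact Or.inr h.2
          · exact Or.inl (hthird z h)
      · rcases Finset.mem_insert.1 hz with rfl | hz
        · rcases Finset.mem_insert.1 hz' with rfl | hz'
          · exact absurd rfl hzz
          · have h2 := (hsm z').1 (Finset.mem_of_mem_filter z' hz')
            rw [Spl.comm hs hS h2.1]
            exact horth z' hz'
        · rcases Finset.mem_insert.1 hz' with rfl | hz'
          · exact horth z hz
          · exact Atom.orth hs ((hsm z).1 (Finset.mem_of_mem_filter z hz)) ((hsm z').1 (Finset.mem_of_mem_filter z' hz')) hzz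
      · rcases Finset.mem_insert.1 hz with rfl | hz
        · exact ⟨hS, hne⟩
        · have h1 := (hsm z).1 (Finset.mem_of_mem_filter z hz)
          exact ⟨h1.1, h1.2.1⟩

/-- The blocks. -/
theorem exists_isBlock [Nonempty κ] (h0 : ∀ f ∈ Y, ∑ k, f k = 0) :
    ∃ B : Finset (Module.End ℚ Y), (∀ P, P ∈ B ↔ IsBlock P) ∧ ∑ P ∈ B, P = 1 ∧
      (∀ P ∈ B, ∀ P' ∈ B, P ≠ P' → P * P' = 0) ∧ ∀ P ∈ B, Sp P ∧ P ≠ 0 := by
  classical
  have hs := ptS_spans (Y := Y) h0
  obtain ⟨FF, hFF, hsum, horth, hspl⟩ := exists_isBlock_dual hs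
  -- lift to `End Y`
  have lift : ∀ z : Module.End ℚ (Module.Dual ℚ Y), ∃ P : Module.End ℚ Y, Spl (ptS Y) z → P.dualMap = z := by
    intro z
    by_cases hz : Spl (ptS Y) z
    · obtain ⟨P, -, hP⟩ := exists_P hz
      exact ⟨P, fun _ => hP⟩
    · exact ⟨0, fun h => absurd h hz⟩
  choose g hg using lift
  have hgF : ∀ z ∈ FF, (g z).dualMap = z := fun z hz => hg z (hspl z hz).1
  have hne0 : ∀ P : Module.End ℚ Y, P ≠ 0 ↔ P.dualMap ≠ 0 := by
    intro P
    constructor
    · intro h h'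
      exact h (dualMap_inj (h'.trans dualMap_zero.symm))
    · rintro h rfl
      exact h dualMap_zero
  have hmem : ∀ P, P ∈ FF.image g ↔ P.dualMap ∈ FF := by
    intro P
    rw [Finset.mem_image]
    constructor
    · rintro ⟨z, hz, rfl⟩
      rw [hgF z hz]
      exact hz
    · intro h
      exact ⟨_, h, dualMap_inj (hgF _ h)⟩
  refine ⟨FF.image g, fun P => ?_, ?_, fun P hP P' hP' hne => ?_, fun P hP => ?_⟩
  · rw [hmem, hFF]
    unfold IsBlock
    rw [hne0 P]
  · refine dualMap_inj ?_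
    rw [dualMap_sum, Finset.sum_image, dualMap_one, ← hsum]
    · exact Finset.sum_congr rfl fun z hz => hgF z hz
    · intro z hz z' hz' h
      rw [← hgF z hz, ← hgF z' hz', h]
  · rw [hmem] at hP hP'
    refine dualMap_inj ?_
    rw [dualMap_mul, dualMap_zero]
    exact horth _ hP' _ hP fun h => hne (dualMap_inj h.symm)
  · rw [hmem] at hP
    exact ⟨Sp_iff.2 (hspl _ hP).1, (hne0 P).2 (hspl _ hP).2⟩

end Pool.Agent.H76Q
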