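import Pool.Agent.Lib.H76Q.BL1
import Pool.Agent.Lib.H86E.Eight

/-!
# BL2: blocks: ideals, permutations, the number of points
-/

set_option autoImplicit false
set_option linter.unusedSectionVars false
namespace Pool.Agent.H76Q
open Module Matrix Pool.Agent.H53Toric
open Pool.Agent.H76P
open Pool.Agent.H76T (IsIdeal Fam)
open Pool.Agent.H76V (Cmp)

section ideals

variable {κ : Type*} {K : Type*} [Field K] [CharZero K] [Fintype κ] [DecidableEq κ]
  {L : Submodule K (Module.End K (κ → K))} {J : Matrix κ κ K} [IsAlgClosed K] [Nonempty κ]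
  {Y : Submodule ℚ (κ → ℚ)} {P : Module.End ℚ Y}

/-- Each simple ideal acts on one side of a block. -/
theorem IsBlock.comp (hP : IsBlock P) (h : TS L J) (hY : Yo L = Y) : Comp L P := by
  classical
  subst hY
  have hs : Spans (pt L) := pt_spans h.cmp
  intro m I hF j
  obtain ⟨Pj, hP1, hP2, -, hPS⟩ := exists_proj h.cmp hF j
  -- the two possibilities
  have caseA : Pj.dualMap * P.dualMap = Pj.dualMap → InP P (I j) := by
    intro h1 f hf hfj k k' hk
    have h2 : P * Pj = Pj := dualMap_inj (by rw [dualMap_mul]; exact h1)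
    have h3 : P ⟨f, hf⟩ = ⟨f, hf⟩ := by
      have h4 := congrArg (fun T : Module.End ℚ (Yo L) => T ⟨f, hf⟩) h2
      simp only [Module.End.mul_apply] at h4
      rwa [hP2 ⟨f, hf⟩ hfj] at h4
    have h5 := hk ⟨f, hf⟩
    rwa [h3] at h5
  have caseB : Pj.dualMap * P.dualMap = 0 → InP (1 - P) (I j) := by
    intro h1 f hf hfj k k' hk
    have h2 : P * Pj = 0 := dualMap_inj (by rw [dualMap_mul, dualMap_zero]; exact h1)
    have h3 : P ⟨f, hf⟩ = 0 := by
      have h4 := congrArg (fun T : Module.End ℚ (Yo L) => T ⟨f, hf⟩) h2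
      simp only [Module.End.mul_apply] at h4
      rwa [hP2 ⟨f, hf⟩ hfj] at h4
    have h5 := hk ⟨f, hf⟩
    rwa [LinearMap.sub_apply, Module.End.one_apply, h3, sub_zero] at h5
  rcases hP with ⟨h8, hA⟩ | ⟨-, hA, hc⟩ | ⟨-, hS, -, hat⟩
  · rcases hA.le_or hs hPS with h1 | h1
    · left
      have h2 := Pool.Agent.Lib.H86E.eight_atom h.cmp h.diag h.pt_inj hF hP1 hPS h8 hA.1 hA.2.1 h1
      refine caseA ?_
      rw [h2]
      exact hPS.1
    · right
      exact caseB (by rw [← Spl.comm hs hA.1 hPS]; exact h1)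
  · rcases hA.le_or hs hPS with h1 | h1
    · left
      have h2 : P.dualMap = Pj.dualMap := by
        by_contra hne
        exact hc (h.atom_two hF hP1 hP2 hPS hA h1 hne)
      refine caseA ?_
      rw [h2]
      exact hPS.1
    · right
      exact caseB (by rw [← Spl.comm hs hA.1 hPS]; exact h1)
  · by_cases hj : Atom (pt L) Pj.dualMap
    · rcases hj.le_or hs hS with h1 | h1
      · exact Or.inl (caseA h1)
      · exact Or.inr (caseB h1)
    · left
      refine caseA ?_
      obtain ⟨s, hsm, hsum⟩ := atoms_sum hs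
      have h1 := spl_eq_sum hs hPS s hsm hsum (fun q => q * Pj.dualMap = q) fun q _ => Iff.rfl
      calc Pj.dualMap * P.dualMap = (∑ q ∈ s.filter (fun q => q * Pj.dualMap = q), q) * P.dualMap := by rw [← h1]
        _ = ∑ q ∈ s.filter (fun q => q * Pj.dualMap = q), q := by
            rw [Finset.sum_mul]
            refine Finset.sum_congr rfl fun q hq => ?_
            rw [Finset.mem_filter, hsm] at hq
            refine (hat q hq.1).2 (h.atom_two hF hP1 hP2 hPS hq.1 hq.2 ?_)
            rintro rfl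
            exact hj hq.1
        _ = Pj.dualMap := h1.symm

end ideals

section perms

variable {κ : Type*} [Fintype κ] [DecidableEq κ] {Y : Submodule ℚ (κ → ℚ)} {P P' : Module.End ℚ Y}

/-- The action of a permutation on the functions. -/
theorem exists_S {σ : Equiv.Perm κ} (hσ : ∀ f ∈ Y, f ∘ σ ∈ Y) :
    ∃ S : Y ≃ₗ[ℚ] Y, (∀ f : Y, ((S f : Y) : κ → ℚ) = (f : κ → ℚ) ∘ σ) ∧ Aff (ptS Y) σ S.dualMap := by
  let S : Y →ₗ[ℚ] Y :=
    { toFun := fun f => ⟨(f : κ → ℚ) ∘ σ, hσ f f.2⟩
      map_add' := fun f g => rfl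
      map_smul' := fun c f => rfl }
  have hS : Function.Injective S := by
    intro f g hfg
    refine Subtype.ext (funext fun k => ?_)
    have h1 := congrFun (congrArg Subtype.val hfg) (σ.symm k)
    have h2 : (f : κ → ℚ) (σ (σ.symm k)) = (g : κ → ℚ) (σ (σ.symm k)) := h1
    rwa [Equiv.apply_symm_apply] at h2
  refine ⟨LinearEquiv.ofInjectiveEndo S hS, fun f => rfl, fun a b => ?_⟩
  ext f
  rfl

/-- Permutations respecting the space of functions permute the blocks. -/
theorem IsBlock.perm {σ : Equiv.Perm κ} (hσ : ∀ f ∈ Y, f ∘ σ ∈ Y) (hP : IsBlock P) :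
    ∃ (P' : Module.End ℚ Y) (s : Module.Dual ℚ Y ≃ₗ[ℚ] Module.Dual ℚ Y), IsBlock P' ∧ Aff (ptS Y) σ s ∧
      P'.dualMap = H76P.conj s P.dualMap ∧ (∀ k k', cz P k k' ↔ cz P' (σ k) (σ k')) ∧
      ∀ k k', cz (1 - P) k k' ↔ cz (1 - P') (σ k) (σ k') := by
  classical
  obtain ⟨S, hS, hA⟩ := exists_S hσ
  set P' : Module.End ℚ Y := S.symm.toLinearMap ∘ₗ P ∘ₗ S.toLinearMap with hP'
  have hconj : P'.dualMap = H76P.conj S.dualMap P.dualMap := by
    ext u f
    rfl
  have hval : ∀ (Q Q' : Module.End ℚ Y), (∀ f, S (Q' f) = Q (S f)) →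
      ∀ k k', cz Q k k' ↔ cz Q' (σ k) (σ k') := by
    intro Q Q' hQ k k'
    have h1 : ∀ (f : Y) (x : κ), (Q' f : κ → ℚ) (σ x) = (Q (S f) : κ → ℚ) x := by
      intro f x
      rw [← hQ f, hS]
      rfl
    constructor
    · intro h f
      rw [h1, h1]
      exact h (S f)
    · intro h f
      have h2 := h (S.symm f)
      rwa [h1, h1, LinearEquiv.apply_symm_apply] at h2
  have hSP : ∀ f, S (P' f) = P (S f) := by
    intro f
    rw [hP']
    simp
  have hne0 : ∀ P : Module.End ℚ Y, P ≠ 0 ↔ P.dualMap ≠ 0 := by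
    intro P
    constructor
    · intro h h'
      exact h (dualMap_inj (h'.trans dualMap_zero.symm))
    · rintro h rfl
      exact h dualMap_zero
  refine ⟨P', S.dualMap, ?_, hA, hconj, hval P P' hSP, hval (1 - P) (1 - P') fun f => ?_⟩
  · rcases hP with ⟨h8, hAt⟩ | ⟨h8, hAt, hc⟩ | ⟨h8, hSp, hn0, hat⟩
    · exact Or.inl ⟨h8, by rw [hconj]; exact hAt.conj hA⟩
    · exact Or.inr (Or.inl ⟨h8, by rw [hconj]; exact hAt.conj hA, by rw [hconj, cnt_conj hA]; exact hc⟩)
    · refine Or.inr (Or.inr ⟨h8, by rw [hconj]; exact hSp.conj hA, ?_, fun q hq => ?_⟩)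
      · rw [hne0, hconj]
        intro h0
        rw [hne0] at hn0
        apply hn0
        rw [← c4_conj_symm S.dualMap P.dualMap, h0, c4_zero]
      · have hq' : Atom (ptS Y) (H76P.conj S.dualMap.symm q) := hq.conj (c4_symm hA)
        have h1 := hat _ hq'
        rw [cnt_conj (c4_symm hA)] at h1
        rw [← h1, hconj]
        constructor
        · intro h2
          have h3 := congrArg (H76P.conj S.dualMap.symm) h2
          rwa [c4_mul, c4_conj_symm] at h3
        · intro h2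
          have h3 := congrArg (H76P.conj S.dualMap) h2
          rwa [c4_mul, c4_symm_conj] at h3
  · rw [LinearMap.sub_apply, LinearMap.sub_apply, Module.End.one_apply, Module.End.one_apply, map_sub, hSP]

/-- Blocks with the same classes are equal. -/
theorem IsBlock.ext [Nonempty κ] (h0 : ∀ f ∈ Y, ∑ k, f k = 0) (hP : IsBlock P) (hP' : IsBlock P')
    (h : ∀ k k', cz P k k' ↔ cz P' k k') : P = P' := by
  classical
  by_contra hne
  obtain ⟨B, hB, -, horth, hsp⟩ := exists_isBlock h0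
  have h1 := horth P ((hB P).2 hP) P' ((hB P').2 hP') hne
  obtain ⟨hS, hn⟩ := hsp P ((hB P).2 hP)
  obtain ⟨hS', -⟩ := hsp P' ((hB P').2 hP')
  obtain ⟨f, hf⟩ : ∃ f, P f ≠ 0 := by
    by_contra hcon
    push Not at hcon
    exact hn (LinearMap.ext hcon)
  have h2 : P (P f) = P f := by
    have h3 := congrArg (fun T : Module.End ℚ Y => T f) hS.idem
    exact h3
  have h3 : FunP P' ((P f : Y) : κ → ℚ) := by
    intro k k' hk
    exact (FunP_iff hS h0 (P f)).2 h2 k k' ((h k k').2 hk)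
  have h4 := (FunP_iff hS' h0 (P f)).1 h3
  have h5 := congrArg (fun T : Module.End ℚ Y => T (P f)) h1
  simp only [Module.End.mul_apply] at h5
  rw [h4, h2] at h5
  exact hf h5

/-- Transitively permuted blocks: the number of points is a power. -/
theorem blocks_card [Nonempty κ] (h0 : ∀ f ∈ Y, ∑ k, f k = 0) (hsep : ∀ a b : κ, a ≠ b → ∃ f ∈ Y, f a ≠ f b)
    {B : Finset (Module.End ℚ Y)} (hB : ∀ P, P ∈ B ↔ IsBlock P)
    (htr : ∀ P P' : Module.End ℚ Y, IsBlock P → IsBlock P' → ∃ σ : Equiv.Perm κ, (∀ f ∈ Y, f ∘ σ ∈ Y) ∧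
      ∀ k k', cz P k k' ↔ cz P' (σ k) (σ k')) :
    ∃ a : ℕ, Fintype.card κ = a ^ B.card := by
  classical
  obtain ⟨B', hB', hsum, horth, hsp⟩ := exists_isBlock h0
  have hBB : B = B' := Finset.ext fun P => by rw [hB, hB']
  subst hBB
  have hinj : Function.Injective fun P : Module.End ℚ Y => P.dualMap := fun P P' h => dualMap_inj h
  have hcard : (B.image fun P => P.dualMap).card = B.card := Finset.card_image_of_injective _ hinj
  rw [← hcard]
  refine Pool.Agent.Lib.H86E.blocks_power (ptS_spans h0) (ptS_inj hsep) (fun q hq => ?_) (fun q hq r hr hne => ?_) ?_ fun q hq r hr => ?_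
  · obtain ⟨P, hP, rfl⟩ := Finset.mem_image.1 hq
    exact Sp_iff.1 (hsp P hP).1
  · obtain ⟨P, hP, rfl⟩ := Finset.mem_image.1 hq
    obtain ⟨P', hP', rfl⟩ := Finset.mem_image.1 hr
    rw [← dualMap_mul, horth P' hP' P hP fun e => hne (by rw [e]), dualMap_zero]
  · rw [Finset.sum_image hinj.injOn, ← dualMap_sum, hsum, dualMap_one]
  · obtain ⟨P, hP, rfl⟩ := Finset.mem_image.1 hq
    obtain ⟨P', hP', rfl⟩ := Finset.mem_image.1 hr
    rw [hB] at hP hP'
    obtain ⟨σ, hσ, hcz⟩ := htr P P' hP hP'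
    obtain ⟨P₂, s, hP₂, hA, hconj, hcz₂, -⟩ := hP.perm hσ
    have h1 : P₂ = P' := by
      refine hP₂.ext h0 hP' fun k k' => ?_
      have h2 := (hcz (σ.symm k) (σ.symm k')).symm.trans (hcz₂ (σ.symm k) (σ.symm k'))
      rw [Equiv.apply_symm_apply, Equiv.apply_symm_apply] at h2
      exact h2.symm
    rw [h1] at hconj
    exact ⟨σ, s, hA, hconj.symm⟩

end perms

end Pool.Agent.H76Q
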