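import Pool.Agent.Lib.H76Q.BL2

/-!
# BL3: one block: the component is full
-/

set_option autoImplicit false
set_option linter.unusedSectionVars false
namespace Pool.Agent.H76Q
open Module Matrix Pool.Agent.H53Toric
open Pool.Agent.H76P
open Pool.Agent.H76T (IsIdeal Fam)
open Pool.Agent.H76V (Cmp alg calg)

/-- If there is one block, it is `1`. -/
theorem isBlock_one {κ : Type*} [Fintype κ] [DecidableEq κ] {Y : Submodule ℚ (κ → ℚ)} [Nonempty κ]
    (h0 : ∀ f ∈ Y, ∑ k, f k = 0)
    {B : Finset (Module.End ℚ Y)} (hB : ∀ P, P ∈ B ↔ IsBlock P) (h1 : B.card = 1) :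
    IsBlock (1 : Module.End ℚ Y) := by
  obtain ⟨B', hB', hsum, -, -⟩ := exists_isBlock h0
  have hBB : B = B' := Finset.ext fun P => by rw [hB, hB']
  subst hBB
  obtain ⟨P, hP⟩ := Finset.card_eq_one.1 h1
  rw [hP, Finset.sum_singleton] at hsum
  rw [← hsum, ← hB, hP]
  exact Finset.mem_singleton_self P

variable {κ : Type*} {K : Type*} [Field K] [CharZero K] [Fintype κ] [DecidableEq κ]
  {L : Submodule K (Module.End K (κ → K))} {J : Matrix κ κ K} [IsAlgClosed K] [Nonempty κ]
  {Y : Submodule ℚ (κ → ℚ)}

/-- **One block.** -/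
theorem full_of_one (h : TS L J) (hY : Yo L = Y) (h1 : IsBlock (1 : Module.End ℚ Y))
    (two : ∀ k : ℕ, 4 ≤ k → Fintype.card κ ≠ 2 ^ k)
    (binom : ∀ k : ℕ, 3 ≤ k → Odd k → Fintype.card κ ≠ k.centralBinom)
    {X : Module.End K (κ → K)} (hX : adjE J X = -X) : X ∈ L := by
  classical
  subst hY
  obtain ⟨m, I, hF⟩ := Pool.Agent.H76T.exists_fam h.cmp.lie h.cmp.irr h.cmp.tr
  rcases Nat.lt_or_ge m 2 with hm | hm
  · interval_cases m
    · exfalso
      have hL : L = ⊥ := by
        rw [← hF.sup]
        exact iSup_of_empty _
      have h2 : ∀ y ∈ L, y * y = 1 → False := by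
        intro y hy hy2
        rw [hL, Submodule.mem_bot] at hy
        rw [hy, mul_zero] at hy2
        exact zero_ne_one hy2
      obtain ⟨c, hc⟩ := h.cmp.gen X fun y hy hy2 => (h2 y hy hy2).elim
      -- every operator is scalar, hence the space has dimension one, which contradicts the symplectic form
      have h3 : Subsingleton κ := by
        refine ⟨fun a b => ?_⟩
        by_contra hab
        obtain ⟨f, hf, hfab⟩ := h.sep a b hab
        obtain ⟨c', hc'⟩ := h.cmp.gen (dq f) fun y hy hy2 => (h2 y hy hy2).elim
        apply hfab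
        have h4 := congrFun (congrArg (fun T : Module.End K (κ → K) => T fun _ => 1) hc') a
        have h5 := congrFun (congrArg (fun T : Module.End K (κ → K) => T fun _ => 1) hc') b
        unfold dq at h4 h5
        simp only [dg_apply, LinearMap.smul_apply, Module.End.one_apply, Pi.smul_apply, smul_eq_mul, mul_one] at h4 h5
        have h6 : ((f a : ℚ) : K) = ((f b : ℚ) : K) := by rw [h4, h5]
        exact_mod_cast h6
      obtain ⟨a⟩ := ‹Nonempty κ›
      have h4 : J.det = J a a := by
        have : Unique κ := ⟨⟨a⟩, fun b => Subsingleton.elim b a⟩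
        exact Matrix.det_eq_elem_of_subsingleton J a
      have h5 : J a a = -J a a := by
        have h6 := congrFun (congrFun h.cmp.Jt a) a
        rwa [Matrix.transpose_apply, Matrix.neg_apply] at h6
      have h6 : J a a = 0 := self_eq_neg.1 h5
      have h7 := h.cmp.Jd
      rw [h4, h6] at h7
      exact not_isUnit_zero h7
    · rcases Cmp.simple h.cmp hF with h2 | ⟨n, hn, -, hn2, -⟩ | ⟨k, hk, hk2, hk3, -⟩
      · exact h2 X hX
      · rw [Module.finrank_fintype_fun_eq_card] at hn2
        exact absurd hn2 (two n (by omega))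
      · rw [Module.finrank_fintype_fun_eq_card] at hk3
        exact absurd hk3 (binom k hk hk2)
  · exfalso
    have hs : Spans (pt L) := pt_spans h.cmp
    have hij : (⟨0, by omega⟩ : Fin m) ≠ ⟨1, by omega⟩ := by
      intro e
      exact absurd (congrArg Fin.val e) (by norm_num)
    set i : Fin m := ⟨0, by omega⟩ with hi
    set j : Fin m := ⟨1, by omega⟩ with hj
    -- an atom equal to one is impossible
    have caseA : Atom (pt L) (1 : Module.End ℚ (Module.Dual ℚ (Yo L))) → False := by
      intro hA
      obtain ⟨P, hP1, hP2, hP3, hPS⟩ := exists_proj h.cmp hF i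
      obtain ⟨P', hP1', hP2', hP3', hPS'⟩ := exists_proj h.cmp hF j
      have g1 : P.dualMap = 1 := by
        rcases hA.2.2 P.dualMap hPS (mul_one _) with h2 | h2
        · exfalso
          obtain ⟨f, hf, hf0, hfi⟩ := h.exists_diag hF i
          have h3 : P = 0 := dualMap_inj (by rw [h2, dualMap_zero])
          have h4 := hP2 ⟨f, hf⟩ hfi
          rw [h3, LinearMap.zero_apply] at h4
          exact hf0 (congrArg Subtype.val h4).symm
        · exact h2
      have g2 : P = 1 := dualMap_inj (by rw [g1, dualMap_one])
      obtain ⟨f, hf, hf0, hfi⟩ := h.exists_diag hF j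
      have h3 := hP3 j (Ne.symm hij) ⟨f, hf⟩ hfi
      rw [g2, Module.End.one_apply] at h3
      exact hf0 (congrArg Subtype.val h3)
    rcases h1 with ⟨h8, hA⟩ | ⟨-, hA, hc⟩ | ⟨h8, hS, -, hat⟩
    · rw [dualMap_one] at hA
      exact caseA hA
    · rw [dualMap_one] at hA
      exact caseA hA
    · obtain ⟨s, hsm, hsum⟩ := atoms_sum hs
      have hcard : Fintype.card κ = 2 ^ s.card := by
        rw [card_prod hs h.pt_inj (s := s) (fun q hq => (hsm q).1 hq) hsum]
        rw [← Finset.prod_const]
        refine Finset.prod_congr rfl fun q hq => ?_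
        refine (hat q ((hsm q).1 hq)).1 ?_
        rw [dualMap_one, mul_one]
      obtain ⟨a, d, ha, hd, hV, ha2, hd2, -, -⟩ := h.cmp.dims hF (i := i) (j := j) hij
      rw [Module.finrank_fintype_fun_eq_card] at hV
      have hs4 : s.card < 4 := by
        by_contra hcon
        push Not at hcon
        exact two _ hcon hcard
      have hs3 : s.card ≠ 3 := by
        intro e
        rw [e] at hcard
        exact h8 hcard
      have hle : Fintype.card κ ≤ 4 := by
        rw [hcard]
        calc 2 ^ s.card ≤ 2 ^ 2 := Nat.pow_le_pow_right (by norm_num) (by omega)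
          _ = 4 := by norm_num
      have hpos : 0 < Fintype.card κ := Fintype.card_pos
      have ha0 : a = 2 := by
        obtain ⟨a', rfl⟩ := ha2
        obtain ⟨d', rfl⟩ := hd2
        have ha' : 0 < a' := by
          rcases Nat.eq_zero_or_pos a' with e | e
          · rw [e] at hV
            simp at hV
          · exact e
        have hd' : 0 < d' := by
          rcases Nat.eq_zero_or_pos d' with e | e
          · rw [e] at hV
            simp at hV
          · exact e
        have h5 : a' * d' ≤ 1 := by
          have h6 : (a' + a') * (d' + d') ≤ 4 := by rw [← hV]; exact hle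
          nlinarith
        have h6 : a' ≤ 1 := by nlinarith
        omega
      obtain ⟨u, hu, hu0, hu2⟩ := h.cmp.nil hF j
      have h5 : 4 ∣ finrank K (LinearMap.range u) := h.cmp.four hF hij ha ha0 hu
      have h6 : finrank K (LinearMap.range u) ≤ finrank K (LinearMap.ker u) := by
        refine Submodule.finrank_mono ?_
        rintro _ ⟨x, rfl⟩
        rw [LinearMap.mem_ker]
        exact congrArg (fun T : Module.End K (κ → K) => T x) hu2
      have h7 := LinearMap.finrank_range_add_finrank_ker u
      rw [Module.finrank_fintype_fun_eq_card] at h7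
      have h8 : finrank K (LinearMap.range u) = 0 := by
        obtain ⟨c, hc⟩ := h5
        omega
      apply hu0
      rw [Submodule.finrank_eq_zero] at h8
      exact LinearMap.range_eq_bot.1 h8

end Pool.Agent.H76Q
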