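import Pool.Agent.Lib.H76Q.Q3

/-!
# the group theoretic data
-/

set_option autoImplicit false
set_option linter.unusedSectionVars false
namespace Pool.Agent.H76Q
open Module Matrix Polynomial Pool.Agent.H53Toric
open Pool.Agent.H76P
open Pool.Agent.H76T (IsIdeal Fam Lc)
open Pool.Agent.H76V (Cmp)
open Pool.Agent.H76U (cmp preL IsSplitting)
open Pool.Agent.H76RM (spanK similD)

variable {ι : Type*} [Fintype ι] [DecidableEq ι] {K : Type*} [Field K] [CharZero K]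
  [IsAlgClosed K]

variable {L : Type*} [Field L] [CharZero L] [Algebra L K] {G : Type*} [Group G]

/-- PROOF. Copy of `H76P.mk_ph` (Lib/H76P/G10.lean): `F.idc`, `F.dgb`, `F.torus`, `F.torgen` are the fields of `FrobT`; instead of `F.gen` use `H' = ⊤` and
`gen`, `Pool.Agent.H53Toric.subset_zar`. -/
theorem mk_phT [Nonempty ι] {ψ : Matrix ι ι ℚ}
    (hψ : ψᵀ = -ψ) (hψ0 : ψ.det ≠ 0) (D : Subalgebra ℚ (Matrix ι ι ℚ))
    (ρ : G →* Matrix.GeneralLinearGroup ι L)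
    (lin : ∀ σ : G, ∀ d ∈ D, (ρ σ).1 * d.map (algebraMap ℚ L) =
      d.map (algebraMap ℚ L) * (ρ σ).1)
    (sim : ∀ σ : G, ∃ c : L, (ρ σ).1ᵀ * ψ.map (algebraMap ℚ L) * (ρ σ).1 =
      c • ψ.map (algebraMap ℚ L))
    (semis : ∀ H : Subgroup G, H.FiniteIndex → ∀ W : Submodule K (ι → K),
      (∀ s ∈ img K ρ H, ∀ w ∈ W, s *ᵥ w ∈ W) →
      ∃ W' : Submodule K (ι → K), (∀ s ∈ img K ρ H, ∀ w ∈ W', s *ᵥ w ∈ W') ∧ IsCompl W W')
    (commt : ∀ H : Subgroup G, H.FiniteIndex → ∀ y : Matrix ι ι K,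
      (∀ s ∈ img K ρ H, y * s = s * y) → y ∈ spanK K D)
    (gen : ∀ g : G, (ρ g).1.map (algebraMap L K) ∈ tgen K ρ)
    {M : Type*} [Field M] {m : ℕ} {e : Fin m → Matrix ι ι M} {F : Fin m → M[X]}
    {x : Matrix ι ι K} (hF : FrobT K ρ e F x)
    {H : Subgroup G} (hfin : H.FiniteIndex) (hprime : (H76RM.van (img K ρ H)).IsPrime) :
    ∃ x' : Matrix ι ι K, PH (img K ρ H) (ψ.map (algebraMap ℚ K)) (spanK K D)
      (properProj K ρ) x x' := by
  have hT : (⊤ : Subgroup G).FiniteIndex := inferInstance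
  have hgen : img K ρ ⊤ ⊆ zar (Submonoid.closure {m | ∃ h ∈ properProj K ρ, ∃ t : K,
      t ≠ 0 ∧ m = 1 + (t - 1) • h} : Set (Matrix ι ι K)) := by
    rintro _ ⟨g, -, rfl⟩
    exact Pool.Agent.H53Toric.subset_zar _ (gen g)
  have g := Pool.Agent.H76V.mk_sh (K := K) hψ hψ0 D ρ lin sim semis commt
    (𝓗 := properProj K ρ) (fun x hx => hx.1) (fun x hx => hx.2) hT hgen hfin hprime
  have hx : x ∈ zar (img K ρ H) := hF.idc.2 H hfin
  have hinv : x * x⁻¹ = 1 := Matrix.mul_nonsing_inv x (isUnit_iff_ne_zero.2 hF.idc.1)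
  refine ⟨x⁻¹, ⟨⟨g.one, g.SD, g.semis, g.commt, ?_, ?_, ?_, g.hz, g.hi, g.hs, g.gen⟩, ?_, hinv,
    fun d hd => H76RM.zar_commute (fun s hs => g.SD s hs d hd) hx, fun A hA => zlie_cnj (img_one ρ H)
      (img_mul ρ H) hx hinv hA, hF.dgb, hF.torus H hfin, hF.torgen⟩⟩
  · intro γ f hf s hs
    simp only [MonoidHom.one_apply, one_mul, mul_one]
    exact hf s hs
  · intro γ
    refine ⟨1, one_ne_zero, ?_⟩
    simp
  · intro γ d hd
    simp
  · rintro _ ⟨σ, -, rfl⟩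
    obtain ⟨c, -, hc⟩ := g.sim σ
    exact ⟨c, hc⟩

end Pool.Agent.H76Q
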