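import Pool.Agent.Lib.H76Q.Q3

/-!
# an entry which is a unit
-/

set_option autoImplicit false
set_option linter.unusedSectionVars false
namespace Pool.Agent.H76Q
open Module Matrix Polynomial Pool.Agent.H53Toric
open Pool.Agent.H76P
open Pool.Agent.H76T (IsIdeal Fam Lc)
open Pool.Agent.H76V (Cmp)
open Pool.Agent.H76U (cmp preL IsSplitting)
open Pool.Agent.H76RM (spanK similD)

variable {ι : Type*} [Fintype ι] [DecidableEq ι] {K : Type*} [Field K] [CharZero K]
  [IsAlgClosed K]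

theorem f2_sum {v : K → ℚ} (hv : IsVal v) {α : Type*} (s : Finset α) (f : α → K) (c : ℚ) :
    (∀ i ∈ s, f i ≠ 0 → c ≤ v (f i)) → ∑ i ∈ s, f i ≠ 0 → c ≤ v (∑ i ∈ s, f i) := by
  classical
  induction s using Finset.induction_on with
  | empty => intro _ h; simp at h
  | insert a s ha ih =>
    intro h hne
    rw [Finset.sum_insert ha] at hne ⊢
    have ih' := ih (fun i hi => h i (Finset.mem_insert_of_mem hi))
    by_cases h1 : f a = 0
    · rw [h1, zero_add] at hne ⊢
      exact ih' hne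
    · by_cases h2 : ∑ i ∈ s, f i = 0
      · rw [h2, add_zero]
        exact h a (Finset.mem_insert_self _ _) h1
      · exact le_trans (le_min (h a (Finset.mem_insert_self _ _) h1) (ih' h2)) (hv.add _ _ h1 h2 hne)

theorem f2_mul {v : K → ℚ} (hv : IsVal v) {A B : Matrix ι ι K} {c c' : ℚ}
    (hA : ∀ i j, A i j ≠ 0 → c ≤ v (A i j)) (hB : ∀ i j, B i j ≠ 0 → c' ≤ v (B i j)) :
    ∀ i j, (A * B) i j ≠ 0 → c + c' ≤ v ((A * B) i j) := by
  intro i j hij
  rw [Matrix.mul_apply] at hij ⊢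
  apply f2_sum hv _ _ _ _ hij
  intro k _ hk
  have h1 : A i k ≠ 0 := left_ne_zero_of_mul hk
  have h2 : B k j ≠ 0 := right_ne_zero_of_mul hk
  rw [hv.mul _ _ h1 h2]
  exact add_le_add (hA i k h1) (hB k j h2)

/-- PROOF. Otherwise all nonzero entries of `A` have `v > 0`, so there is `ε > 0` with `v ≥ ε` for all nonzero entries of `A`, hence of `e = A * B` and, by induction, `v ≥ N ε` for the nonzero
entries of `e = e ^ N`, for all `N`.  Contradiction to `e ≠ 0`. -/
theorem exists_unit_entry {v : K → ℚ} (hv : IsVal v) {e A B : Matrix ι ι K} (he : e * e = e)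
    (he0 : e ≠ 0) (hA : IntMat v A) (hB : IntMat v B) (hAB : A * B = e) :
    ∃ k l, A k l ≠ 0 ∧ v (A k l) = 0 := by
  by_contra hcon
  push Not at hcon
  have hpos : ∀ k l, A k l ≠ 0 → 0 < v (A k l) := fun k l h =>
    lt_of_le_of_ne (hA k l h) (Ne.symm (hcon k l h))
  have hex : ∃ ε : ℚ, 0 < ε ∧ ∀ k l, A k l ≠ 0 → ε ≤ v (A k l) := by
    classical
    let s : Finset (ι × ι) := Finset.univ.filter fun p => A p.1 p.2 ≠ 0
    by_cases hs : s.Nonempty
    · obtain ⟨p, hp, hmin⟩ := Finset.exists_min_image s (fun p => v (A p.1 p.2)) hs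
      refine ⟨v (A p.1 p.2), hpos _ _ (Finset.mem_filter.1 hp).2, ?_⟩
      intro k l hkl
      exact hmin (k, l) (Finset.mem_filter.2 ⟨Finset.mem_univ _, hkl⟩)
    · refine ⟨1, one_pos, ?_⟩
      intro k l hkl
      exact absurd ⟨(k, l), Finset.mem_filter.2 ⟨Finset.mem_univ _, hkl⟩⟩ hs
  obtain ⟨ε, hε, hεA⟩ := hex
  have h1 : ∀ k l, e k l ≠ 0 → ε ≤ v (e k l) := by
    intro k l hkl
    rw [← hAB] at hkl ⊢
    have := f2_mul hv hεA (c' := 0) (fun i j h => hB i j h) k l hkl
    rwa [add_zero] at this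
  have hN : ∀ N : ℕ, ∀ k l, e k l ≠ 0 → ((N : ℚ) + 1) * ε ≤ v (e k l) := by
    intro N
    induction N with
    | zero =>
      intro k l hkl
      have := h1 k l hkl
      simpa using this
    | succ N ih =>
      intro k l hkl
      have hkl' : (e * e) k l ≠ 0 := by rwa [he]
      have := f2_mul hv ih h1 k l hkl'
      rw [he] at this
      calc (((N + 1 : ℕ) : ℚ) + 1) * ε = ((N : ℚ) + 1) * ε + ε := by push_cast; ring
        _ ≤ v (e k l) := this
  have hne : ∃ k l, e k l ≠ 0 := by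
    by_contra h
    push Not at h
    apply he0
    ext i j
    exact h i j
  obtain ⟨k, l, hkl⟩ := hne
  obtain ⟨N, hN'⟩ := exists_nat_gt (v (e k l) / ε)
  have h2 := hN N k l hkl
  rw [div_lt_iff₀ hε] at hN'
  nlinarith

/-- PROOF. `v 1 = v 1 + v 1`, `v (x⁻¹) = - v x`, `v (-1) = 0` because `2 v (-1) = v 1 = 0`. -/
theorem IsVal.basic {v : K → ℚ} (hv : IsVal v) : v 1 = 0 ∧ v (-1) = 0 ∧
    (∀ y, y ≠ 0 → v y⁻¹ = - v y) ∧ ∀ y, y ≠ 0 → ∀ n : ℕ, v (y ^ n) = n * v y := by
  have h1 : v 1 = 0 := by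
    have := hv.mul 1 1 one_ne_zero one_ne_zero
    rw [mul_one] at this
    linarith
  have h2 : v (-1) = 0 := by
    have hm : (-1 : K) ≠ 0 := neg_ne_zero.2 one_ne_zero
    have := hv.mul (-1) (-1) hm hm
    rw [neg_one_mul, neg_neg, h1] at this
    linarith
  refine ⟨h1, h2, ?_, ?_⟩
  · intro y hy
    have := hv.mul y y⁻¹ hy (inv_ne_zero hy)
    rw [mul_inv_cancel₀ hy, h1] at this
    linarith
  · intro y hy n
    induction n with
    | zero => simpa using h1
    | succ n ih =>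
      rw [pow_succ, hv.mul _ _ (pow_ne_zero n hy) hy, ih]
      push_cast
      ring

end Pool.Agent.H76Q
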