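import Pool.Agent.Lib.H76Q.Q4

/-!
# Q6: all hypotheses of the second version in one structure
-/

set_option autoImplicit false
set_option linter.unusedSectionVars false
namespace Pool.Agent.H76Q
open Module Matrix Polynomial Pool.Agent.H53Toric
open Pool.Agent.H76P
open Pool.Agent.H49M (idc)
open Pool.Agent.H76T (IsIdeal Fam Lc)
open Pool.Agent.H76V (Cmp)
open Pool.Agent.H76U (cmp preL IsSplitting)
open Pool.Agent.H76RM (spanK similD)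

/-- The hypotheses of the second version of the theorem except the conditions on the ranks. -/
structure Core2 {ι : Type*} [Fintype ι] [DecidableEq ι] (ψ : Matrix ι ι ℚ)
    (D : Subalgebra ℚ (Matrix ι ι ℚ)) {M : Type*} [Field M] [NumberField M]
    {m : ℕ} (e : Fin m → Matrix ι ι M) {G : Type*} [Group G]
    (ρ : ∀ (l : ℕ) [Fact l.Prime], G →* Matrix.GeneralLinearGroup ι ℚ_[l])
    (p : ℕ) [Fact p.Prime] (σ : G) (q : ℚ) (f : ℚ[X]) (F : Fin m → M[X])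
    (φ μ ν : Matrix ι ι (AlgebraicClosure ℚ_[p])) (v : AlgebraicClosure ℚ_[p] → ℚ)
    (Δ : Set (AlgebraicClosure ℚ_[p] ≃+* AlgebraicClosure ℚ_[p]))
    {Ω : Type*} [Field Ω] [CharZero Ω] [IsAlgClosed Ω] [Algebra.IsAlgebraic ℚ Ω] (j : M →+* Ω)
    (R : Finset Ω) (N : Set ℕ) : Prop where
  hψ : ψᵀ = -ψ
  hψ0 : ψ.det ≠ 0
  hspl : IsSplitting D ψ id e
  lin : ∀ (l : ℕ) [Fact l.Prime], ∀ g : G, ∀ d ∈ D,
      (ρ l g).1 * d.map (algebraMap ℚ ℚ_[l]) = d.map (algebraMap ℚ ℚ_[l]) * (ρ l g).1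
  sim : ∀ (l : ℕ) [Fact l.Prime], ∀ g : G, ∃ c : ℚ_[l],
      (ρ l g).1ᵀ * ψ.map (algebraMap ℚ ℚ_[l]) * (ρ l g).1 = c • ψ.map (algebraMap ℚ ℚ_[l])
  semis : ∀ (l : ℕ) [Fact l.Prime], ∀ H : Subgroup G, H.FiniteIndex →
      ∀ W : Submodule (AlgebraicClosure ℚ_[l]) (ι → AlgebraicClosure ℚ_[l]),
      (∀ s ∈ img (AlgebraicClosure ℚ_[l]) (ρ l) H, ∀ w ∈ W, s *ᵥ w ∈ W) →
      ∃ W' : Submodule (AlgebraicClosure ℚ_[l]) (ι → AlgebraicClosure ℚ_[l]),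
        (∀ s ∈ img (AlgebraicClosure ℚ_[l]) (ρ l) H, ∀ w ∈ W', s *ᵥ w ∈ W') ∧ IsCompl W W'
  commt : ∀ (l : ℕ) [Fact l.Prime], ∀ H : Subgroup G, H.FiniteIndex →
      ∀ y : Matrix ι ι (AlgebraicClosure ℚ_[l]),
      (∀ s ∈ img (AlgebraicClosure ℚ_[l]) (ρ l) H, y * s = s * y) →
        y ∈ spanK (AlgebraicClosure ℚ_[l]) D
  gen : ∀ (l : ℕ) [Fact l.Prime], ∀ g : G,
      (ρ l g).1.map (algebraMap ℚ_[l] (AlgebraicClosure ℚ_[l])) ∈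
        tgen (AlgebraicClosure ℚ_[l]) (ρ l)
  hq : ∀ n : ℕ, n ≠ 0 → q ^ n ≠ 1
  mult : ∀ (l : ℕ) [Fact l.Prime], l ≠ p →
      (ρ l σ).1ᵀ * ψ.map (algebraMap ℚ ℚ_[l]) * (ρ l σ).1 =
        algebraMap ℚ ℚ_[l] q • ψ.map (algebraMap ℚ ℚ_[l])
  char : ∀ (l : ℕ) [Fact l.Prime], l ≠ p →
      (ρ l σ).1.charpoly = f.map (algebraMap ℚ ℚ_[l])
  frob : ∀ (l : ℕ) [Fact l.Prime], l ≠ p →
      FrobT (AlgebraicClosure ℚ_[l]) (ρ l) e F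
        ((ρ l σ).1.map (algebraMap ℚ_[l] (AlgebraicClosure ℚ_[l])))
  cyc : ∃ s : G, ∃ c : ℚ_[p], (ρ p s).1ᵀ * ψ.map (algebraMap ℚ ℚ_[p]) * (ρ p s).1 =
      c • ψ.map (algebraMap ℚ ℚ_[p]) ∧ ∀ n : ℕ, n ≠ 0 → c ^ n ≠ 1
  frobp : FrobT (AlgebraicClosure ℚ_[p]) (ρ p) e F φ
  multp : φᵀ * ψ.map (algebraMap ℚ (AlgebraicClosure ℚ_[p])) * φ =
      algebraMap ℚ (AlgebraicClosure ℚ_[p]) q • ψ.map (algebraMap ℚ (AlgebraicClosure ℚ_[p]))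
  charp : φ.charpoly = f.map (algebraMap ℚ (AlgebraicClosure ℚ_[p]))
  crys : CrysP (AlgebraicClosure ℚ_[p]) (ρ p) e σ φ μ ν v Δ
  vq : v (algebraMap ℚ (AlgebraicClosure ℚ_[p]) q) = 1
  hN : p ∈ N
  arith : Arith R N ρ σ
  Rstab : ∀ s : Ω ≃+* Ω, ∀ r ∈ R, s r ∈ R
  Rval : ∀ i : Ω →+* AlgebraicClosure ℚ_[p],
      ∃ r ∈ R, v (i r) = 1 ∧ ∀ r' ∈ R, r' ≠ r → v (i r') = 0
  Rfix : ∀ i : Ω →+* AlgebraicClosure ℚ_[p], ∀ r ∈ R, ∀ δ ∈ Δ, δ (i r) = i r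
  Rtrans : ∀ r ∈ R, ∀ r' ∈ R, ∃ s : Ω ≃+* Ω, s r = r'
  dec : ∀ (s : Ω ≃+* Ω) (T : Finset Ω), ∃ u : ℕ, Odd u ∧ ∃ (l : ℕ) (_ : Fact l.Prime), l ∉ N ∧
      ∃ (i : Ω →+* AlgebraicClosure ℚ_[l]) (t : AlgebraicClosure ℚ_[l] ≃ₐ[ℚ_[l]] AlgebraicClosure ℚ_[l]),
        ∀ x ∈ T, t (i x) = i ((s ^ u) x)
  gal : ∀ b, ∀ a a' : Ω, (F b).eval₂ j a = 0 → (F b).eval₂ j a' = 0 → a ≠ a' →
      ∃ i : Ω →+* AlgebraicClosure ℚ_[p], v (i a) ≠ v (i a')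

/-- The combinatorial part of a Mumford type datum for the component `e`: a partition `c` of the
finite set `R` into `k` classes, which are permuted by all automorphisms `s` such that `e` and its
image under `s` are linked; `s` permutes the classes through `π`; `π = 1` if `s` acts on the roots of
`F` as `y ↦ q / y`, and `π` has a cycle of odd length.  `A` is an invariant family of even numbers. -/
structure PartD {ι : Type*} [Fintype ι] [DecidableEq ι] (D : Subalgebra ℚ (Matrix ι ι ℚ))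
    {M Ω : Type*} [Field M] [Field Ω] [CharZero Ω] (j : M →+* Ω) (e : Matrix ι ι M) (F : M[X])
    (q : ℚ) (R : Finset Ω) {k : ℕ} (c : Ω → Fin k) (A : Fin k → ℕ) : Prop where
  surj : ∀ x, ∃ r ∈ R, c r = x
  even : ∀ x, Even (A x)
  perm : ∀ s : Ω ≃+* Ω, Linked D (e.map j) (e.map (s.toRingHom.comp j)) →
    ∃ π : Equiv.Perm (Fin k), (∀ r ∈ R, c (s r) = π (c r)) ∧ (∀ x, A (π x) = A x) ∧
      ((∀ y, F.eval₂ j y = 0 → s y * y = algebraMap ℚ Ω q) → π = 1) ∧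
      ∃ (u : ℕ) (x : Fin k), Odd u ∧ (π ^ u) x = x

end Pool.Agent.H76Q
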