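import Pool.Agent.Lib.H76Q.Q3

/-!
# existence of the local data
-/

set_option autoImplicit false
set_option linter.unusedSectionVars false
namespace Pool.Agent.H76Q
open Module Matrix Polynomial Pool.Agent.H53Toric
open Pool.Agent.H76P
open Pool.Agent.H76T (IsIdeal Fam Lc)
open Pool.Agent.H76V (Cmp)
open Pool.Agent.H76U (cmp preL IsSplitting)
open Pool.Agent.H76RM (spanK similD)

variable {ι : Type*} [Fintype ι] [DecidableEq ι] {K : Type*} [Field K] [CharZero K]
  [IsAlgClosed K]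

variable {L : Type*} [Field L] [CharZero L] [Algebra L K] {G : Type*} [Group G]

theorem a6_lift {M Ω K : Type*} [Field M] [Field Ω] [Field K] [IsAlgClosed Ω] (j : M →+* Ω)
    (i : Ω →+* K) {f : M[X]} (hf : f ≠ 0) {c : K} (hc : f.eval₂ (i.comp j) c = 0) :
    ∃ y : Ω, f.eval₂ j y = 0 ∧ i y = c := by
  have h1 : ((f.map j).map i).IsRoot c := by
    rw [Polynomial.map_map, Polynomial.IsRoot.def, Polynomial.eval_map]
    exact hc
  obtain ⟨y, hy⟩ := (IsAlgClosed.splits (f.map j)).mem_range_of_isRoot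
    (Polynomial.map_ne_zero hf) h1
  refine ⟨y, ?_, hy⟩
  apply i.injective
  rw [map_zero, Polynomial.hom_eval₂, hy]
  exact hc

omit [CharZero K] [IsAlgClosed K] in
theorem a6_eig {φ p : Matrix ι ι K} {n : ℕ} {P : Matrix ι (Fin n) K} {Q : Matrix (Fin n) ι K}
    {d : Fin n → K} (hPQ : p = P * Q) (hQP : Q * P = 1) (E : EC φ P d) (c : K) :
    EigOn φ p c ↔ ∃ k, d k = c := by
  have hcol : ∀ k, φ *ᵥ (fun i => P i k) = d k • (fun i => P i k) := by
    intro k
    funext i
    have h2 := congrFun (congrFun E.eig i) k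
    rw [Matrix.mul_apply] at h2
    rw [Matrix.mulVec, dotProduct, h2, Matrix.mul_diagonal, Pi.smul_apply, smul_eq_mul, mul_comm]
  have hpP : p * P = P := by rw [hPQ, Matrix.mul_assoc, hQP, Matrix.mul_one]
  have hPne : ∀ k, (fun i => P i k) ≠ 0 := by
    intro k h
    have h1 := congrFun (congrFun hQP k) k
    rw [Matrix.mul_apply, Matrix.one_apply_eq] at h1
    have h2 : ∀ i, P i k = 0 := fun i => congrFun h i
    simp only [h2, mul_zero, Finset.sum_const_zero] at h1
    exact zero_ne_one h1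
  constructor
  · rintro ⟨z, hz, hpz, hφz⟩
    have h1 : P *ᵥ (Q *ᵥ z) = z := by rw [Matrix.mulVec_mulVec, ← hPQ, hpz]
    have h2 : φ *ᵥ z = P *ᵥ (Matrix.diagonal d *ᵥ (Q *ᵥ z)) := by
      conv_lhs => rw [← h1]
      rw [Matrix.mulVec_mulVec, E.eig, ← Matrix.mulVec_mulVec]
    have h3 : Matrix.diagonal d *ᵥ (Q *ᵥ z) = c • (Q *ᵥ z) := by
      have h4 : Q *ᵥ (P *ᵥ (Matrix.diagonal d *ᵥ (Q *ᵥ z))) = Q *ᵥ (c • z) := by
        rw [h2.symm.trans hφz]
      rw [Matrix.mulVec_mulVec, hQP, Matrix.one_mulVec, Matrix.mulVec_smul] at h4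
      exact h4
    have h5 : Q *ᵥ z ≠ 0 := by
      intro h
      rw [h, Matrix.mulVec_zero] at h1
      exact hz h1.symm
    obtain ⟨k, hk⟩ : ∃ k, (Q *ᵥ z) k ≠ 0 := by
      by_contra hcon
      push Not at hcon
      exact h5 (funext hcon)
    refine ⟨k, ?_⟩
    have h6 := congrFun h3 k
    rw [Matrix.mulVec_diagonal, Pi.smul_apply, smul_eq_mul] at h6
    exact mul_right_cancel₀ hk h6
  · rintro ⟨k, rfl⟩
    refine ⟨fun i => P i k, hPne k, ?_, hcol k⟩
    funext i
    have h1 := congrFun (congrFun hpP i) k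
    rw [Matrix.mul_apply] at h1
    exact h1

/-- common part -/
theorem a6_main {M : Type*} [Field M] {m : ℕ} {e : Fin m → Matrix ι ι M} {F : Fin m → M[X]}
    {ρ : G →* Matrix.GeneralLinearGroup ι L} {x : Matrix ι ι K} (hF : FrobT K ρ e F x)
    {Ω : Type*} [Field Ω] [IsAlgClosed Ω] (j : M →+* Ω) (i : Ω →+* K) (b : Fin m)
    (hidem : e b * e b = e b) (hcomm : (e b).map (i.comp j) * x = x * (e b).map (i.comp j)) :
    F b ≠ 0 ∧ ∃ (P : Matrix ι (Fin (e b).rank) K) (Q : Matrix (Fin (e b).rank) ι K)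
      (d : Fin (e b).rank → K), (e b).map (i.comp j) = P * Q ∧ Q * P = 1 ∧ EC x P d ∧
        ∀ c : K, (F b).eval₂ (i.comp j) c = 0 ↔ ∃ k, d k = c := by
  have hp : (e b).map (i.comp j) * (e b).map (i.comp j) = (e b).map (i.comp j) := by
    rw [← Matrix.map_mul, hidem]
  have h0 := exists_ec hp hcomm hF.dgb hF.idc.1 (fun c z z' => hF.simple (i.comp j) b c z z')
  have : CharZero M := (i.comp j).charZero
  rw [H76U.rank_idem_map hidem (i.comp j)] at h0
  obtain ⟨P, Q, d, hPQ, hQP, E⟩ := h0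
  have h1 : ∀ c : K, (F b).eval₂ (i.comp j) c = 0 ↔ ∃ k, d k = c := fun c =>
    (hF.eig (i.comp j) b c).symm.trans (a6_eig hPQ hQP E c)
  refine ⟨?_, P, Q, d, hPQ, hQP, E, h1⟩
  intro hF0
  have h2 : Function.Surjective d := fun c => (h1 c).1 (by rw [hF0, Polynomial.eval₂_zero])
  have h3 : Finite K := Finite.of_surjective d h2
  exact not_finite K

/-- PROOF. `H76P.exists_ec` for `p = (e b).map i` (idempotent: `hspl.idem`; it commutes with `x`; `hF.dgb`, `hF.idc.1`, `hF.simple`) gives `P`, `Q`, `d` with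
`p = P * Q`, `Q * P = 1`, `EC x P d`.  The numbers `d k` are exactly the `c` with `EigOn x p c`, i.e. (`hF.eig`) the roots of `F b` in `K` under `i = i' ∘ j`, i.e. the
`i' (a k)`: if `(F b).eval₂ (i'.comp j) c = 0`, `F b ≠ 0` (otherwise all `c` would be eigenvalues), then `(F b).map j` splits in `Ω` and `c = i' y` for a root `y`.  So `d` and
`i' ∘ a` are injective with the same range; with a bijection `Fin n ≃ Fin rank` we reorder the columns of `P` and the rows of `Q`. -/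
theorem exists_ecT {M : Type*} [Field M] {m : ℕ} {e : Fin m → Matrix ι ι M} {F : Fin m → M[X]}
    {ρ : G →* Matrix.GeneralLinearGroup ι L} {x : Matrix ι ι K} (hF : FrobT K ρ e F x)
    {Ω : Type*} [Field Ω] [IsAlgClosed Ω] (j : M →+* Ω) (i : Ω →+* K) (b : Fin m)
    (hidem : e b * e b = e b) (hcomm : (e b).map (i.comp j) * x = x * (e b).map (i.comp j))
    {n : ℕ} {a : Fin n → Ω} (ha : Function.Injective a)
    (hroot : ∀ y : Ω, (F b).eval₂ j y = 0 ↔ ∃ k, y = a k) :
    ∃ (U : Matrix ι (Fin n) K) (V : Matrix (Fin n) ι K), (e b).map (i.comp j) = U * V ∧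
      V * U = 1 ∧ EC x U (fun k => i (a k)) := by
  obtain ⟨hF0, P, Q, d, hPQ, hQP, E, h1⟩ := a6_main hF j i b hidem hcomm
  have h2 : ∀ k, ∃ l, i (a l) = d k := by
    intro k
    obtain ⟨y, hy, hyk⟩ := a6_lift j i hF0 ((h1 (d k)).2 ⟨k, rfl⟩)
    obtain ⟨l, hl⟩ := (hroot y).1 hy
    exact ⟨l, by rw [← hl, hyk]⟩
  have h3 : ∀ l, ∃ k, d k = i (a l) := by
    intro l
    apply (h1 _).1
    rw [← Polynomial.hom_eval₂, (hroot (a l)).2 ⟨l, rfl⟩, map_zero]
  choose f hf using h3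
  have hfinj : Function.Injective f := by
    intro k l hkl
    apply ha
    apply i.injective
    rw [← hf, ← hf, hkl]
  have hfsur : Function.Surjective f := by
    intro k
    obtain ⟨l, hl⟩ := h2 k
    exact ⟨l, E.inj (by rw [hf, hl])⟩
  let σ : Fin n ≃ Fin (e b).rank := Equiv.ofBijective f ⟨hfinj, hfsur⟩
  have hσ : ∀ l, d (σ l) = i (a l) := hf
  refine ⟨P.submatrix id σ, Q.submatrix σ id, ?_, ?_, ?_, ?_, ?_⟩
  · rw [Matrix.submatrix_mul_equiv, Matrix.submatrix_id_id, hPQ]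
  · have h4 : Q.submatrix σ id * P.submatrix id σ = (Q * P).submatrix σ σ := by
      ext k l
      simp only [Matrix.mul_apply, Matrix.submatrix_apply, id]
    rw [h4, hQP, Matrix.submatrix_one_equiv]
  · ext k l
    have h5 := congrFun (congrFun E.eig k) (σ l)
    rw [Matrix.mul_diagonal] at h5
    rw [Matrix.mul_diagonal, Matrix.submatrix_apply, id, ← hσ l, ← h5]
    simp only [Matrix.mul_apply, Matrix.submatrix_apply, id]
  · intro k l hkl
    exact ha (i.injective hkl)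
  · intro k hk
    exact E.ne (σ k) (by rw [hσ k, hk])

/-- The enumeration of the roots. PROOF. `H76P.exists_ec` as above: `n = rank`, the `d k` are roots, so `d k = i (a k)`.  (`F b ≠ 0` as above.) -/
theorem exists_enum {M : Type*} [Field M] {m : ℕ} {e : Fin m → Matrix ι ι M} {F : Fin m → M[X]}
    {ρ : G →* Matrix.GeneralLinearGroup ι L} {x : Matrix ι ι K} (hF : FrobT K ρ e F x)
    {Ω : Type*} [Field Ω] [IsAlgClosed Ω] (j : M →+* Ω) (i : Ω →+* K) (b : Fin m)
    (hidem : e b * e b = e b) (hcomm : (e b).map (i.comp j) * x = x * (e b).map (i.comp j)) :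
    ∃ a : Fin (e b).rank → Ω, Function.Injective a ∧
      ∀ y : Ω, (F b).eval₂ j y = 0 ↔ ∃ k, y = a k := by
  obtain ⟨hF0, P, Q, d, hPQ, hQP, E, h1⟩ := a6_main hF j i b hidem hcomm
  have h2 : ∀ k, ∃ y : Ω, (F b).eval₂ j y = 0 ∧ i y = d k := fun k =>
    a6_lift j i hF0 ((h1 (d k)).2 ⟨k, rfl⟩)
  choose a ha hai using h2
  refine ⟨a, ?_, ?_⟩
  · intro k l hkl
    apply E.inj
    rw [← hai, ← hai, hkl]
  · intro y
    constructor
    · intro hy
      have h3 : (F b).eval₂ (i.comp j) (i y) = 0 := by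
        rw [← Polynomial.hom_eval₂, hy, map_zero]
      obtain ⟨k, hk⟩ := (h1 _).1 h3
      exact ⟨k, i.injective (by rw [hai, hk])⟩
    · rintro ⟨k, rfl⟩
      exact ha k

end Pool.Agent.H76Q
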