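import Pool.Agent.Lib.H76Q.Q2

/-!
# the space YS
-/

set_option autoImplicit false
set_option linter.unusedSectionVars false
namespace Pool.Agent.H76Q
open Module Matrix Pool.Agent.H53Toric
open Pool.Agent.H76P
open Pool.Agent.H76T (IsIdeal Fam)
open Pool.Agent.H76V (Cmp)

variable {κ : Type*} [Fintype κ] [DecidableEq κ]

theorem a2_mem {K : Type*} [Field K] {d : κ → K} {f : κ → ℚ} : f ∈ YS d ↔
    ∑ k, f k = 0 ∧ ∃ c : ℚ, ∀ m : κ → ℤ, ∏ k, d k ^ m k = 1 →
      ∑ k, (m k : ℚ) * (f k - c) = 0 := Iff.rfl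

/-- PROOF. `∏ (i (d k)) ^ m k = i (∏ d k ^ m k)`, `i` is injective. -/
theorem YS_map {K K' : Type*} [Field K] [Field K'] (i : K →+* K') (d : κ → K) :
    YS (fun k => i (d k)) = YS d := by
  have h1 : ∀ m : κ → ℤ, ∏ k, i (d k) ^ m k = 1 ↔ ∏ k, d k ^ m k = 1 := by
    intro m
    have h2 : ∏ k, i (d k) ^ m k = i (∏ k, d k ^ m k) := by
      rw [map_prod]
      exact Finset.prod_congr rfl fun k _ => (map_zpow₀ i (d k) (m k)).symm
    rw [h2, map_eq_one_iff i i.injective]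
  ext f
  rw [a2_mem, a2_mem]
  simp_rw [h1]

/-- PROOF. As in `H76P.gal_mem`. -/
theorem YS_perm {K : Type*} [Field K] {d : κ → K} {s : K →+* K} {σ : Equiv.Perm κ}
    (hσ : ∀ k, d (σ k) = s (d k)) {f : κ → ℚ} (hf : f ∈ YS d) : f ∘ σ ∈ YS d := by
  obtain ⟨h1, c, h2⟩ := a2_mem.1 hf
  refine a2_mem.2 ⟨?_, c, fun m hm => ?_⟩
  · rw [← h1]
    exact Equiv.sum_comp σ f
  · have h3 : ∏ k, d k ^ m (σ.symm k) = 1 := by
      rw [← Equiv.prod_comp σ fun k => d k ^ m (σ.symm k)]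
      have h4 : ∏ k, d (σ k) ^ m (σ.symm (σ k)) = s (∏ k, d k ^ m k) := by
        rw [map_prod]
        refine Finset.prod_congr rfl fun k _ => ?_
        rw [Equiv.symm_apply_apply, hσ, map_zpow₀]
      rw [h4, hm, map_one]
    have h5 := h2 _ h3
    rw [← Equiv.sum_comp σ fun k => ((m (σ.symm k) : ℤ) : ℚ) * (f k - c)] at h5
    rw [← h5]
    refine Finset.sum_congr rfl fun k _ => ?_
    rw [Equiv.symm_apply_apply, Function.comp_apply]

theorem a2_single {K : Type*} [Field K] (d : κ → K) (k : κ) :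
    ∏ j, d j ^ (Pi.single k (1 : ℤ) : κ → ℤ) j = d k := by
  rw [Fintype.prod_eq_single k]
  · rw [Pi.single_eq_same, zpow_one]
  · intro j hj
    rw [Pi.single_eq_of_ne hj, zpow_zero]

theorem a2_sum (g : κ → ℚ) (k : κ) :
    ∑ j, (((Pi.single k (1 : ℤ) : κ → ℤ) j : ℤ) : ℚ) * g j = g k := by
  rw [Fintype.sum_eq_single k]
  · rw [Pi.single_eq_same]
    push_cast
    rw [one_mul]
  · intro j hj
    rw [Pi.single_eq_of_ne hj]
    push_cast
    rw [zero_mul]

/-- PROOF. If `d k * d (bar k) = q` for all `k` then `f k + f (bar k)` does not depend on `k` (relation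
`e_k + e_(bar k) - e_k' - e_(bar k')`), and the sum over all `k` is `0`. -/
theorem YS_bar {K : Type*} [Field K] {d : κ → K} (hd : ∀ k, d k ≠ 0) {bar : Equiv.Perm κ} {q : K}
    (hbar : ∀ k, d k * d (bar k) = q) {f : κ → ℚ} (hf : f ∈ YS d) (k : κ) : f (bar k) = - f k := by
  obtain ⟨h1, c, h2⟩ := a2_mem.1 hf
  have h3 : ∀ k', f k' + f (bar k') = f k + f (bar k) := by
    intro k'
    have h4 := h2 (fun j => (Pi.single k' (1 : ℤ) : κ → ℤ) j + (Pi.single (bar k') (1 : ℤ) : κ → ℤ) j -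
      ((Pi.single k (1 : ℤ) : κ → ℤ) j + (Pi.single (bar k) (1 : ℤ) : κ → ℤ) j)) (by
        simp_rw [zpow_sub₀ (hd _), zpow_add₀ (hd _)]
        rw [Finset.prod_div_distrib, Finset.prod_mul_distrib, Finset.prod_mul_distrib,
          a2_single, a2_single, a2_single, a2_single, hbar, hbar]
        refine div_self ?_
        rw [← hbar k]
        exact mul_ne_zero (hd _) (hd _))
    have h5 : ∑ j, (((Pi.single k' (1 : ℤ) : κ → ℤ) j + (Pi.single (bar k') (1 : ℤ) : κ → ℤ) j -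
      ((Pi.single k (1 : ℤ) : κ → ℤ) j + (Pi.single (bar k) (1 : ℤ) : κ → ℤ) j) : ℤ) : ℚ) *
        (f j - c) = (f k' - c) + (f (bar k') - c) - ((f k - c) + (f (bar k) - c)) := by
      rw [← a2_sum (fun j => f j - c) k', ← a2_sum (fun j => f j - c) (bar k'),
        ← a2_sum (fun j => f j - c) k, ← a2_sum (fun j => f j - c) (bar k),
        ← Finset.sum_add_distrib, ← Finset.sum_add_distrib, ← Finset.sum_sub_distrib]
      refine Finset.sum_congr rfl fun j _ => ?_
      push_cast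
      ring
    rw [h5] at h4
    linear_combination h4
  have h6 : ∑ k', (f k' + f (bar k')) = 0 := by
    rw [Finset.sum_add_distrib, Equiv.sum_comp bar f, h1, add_zero]
  rw [Finset.sum_congr rfl fun k' _ => h3 k', Finset.sum_const, Finset.card_univ, nsmul_eq_mul] at h6
  have h7 : (Fintype.card κ : ℚ) ≠ 0 := by
    have : Nonempty κ := ⟨k⟩
    exact_mod_cast Fintype.card_ne_zero
  have h8 := (mul_eq_zero.1 h6).resolve_left h7
  linear_combination h8

end Pool.Agent.H76Q
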