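import Pool.Agent.Lib.H76Q.Q2

/-!
# separation
-/

set_option autoImplicit false
set_option linter.unusedSectionVars false
namespace Pool.Agent.H76Q
open Module Matrix Pool.Agent.H53Toric
open Pool.Agent.H76P
open Pool.Agent.H76T (IsIdeal Fam)
open Pool.Agent.H76V (Cmp)

variable {κ : Type*} [Fintype κ] [DecidableEq κ]

/-- The multiplicative relations. -/
def a3Rel {K : Type*} [Field K] (d : κ → K) (hd : ∀ k, d k ≠ 0) : AddSubgroup (κ → ℤ) where
  carrier := {m | ∏ k, d k ^ m k = 1}
  zero_mem' := by simp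
  add_mem' := by
    rintro m n hm hn
    simp only [Set.mem_ofPred_eq] at hm hn ⊢
    have h : ∏ k, d k ^ ((m + n) k) = (∏ k, d k ^ m k) * ∏ k, d k ^ n k := by
      rw [← Finset.prod_mul_distrib]
      exact Finset.prod_congr rfl fun k _ => zpow_add₀ (hd k) _ _
    rw [h, hm, hn, mul_one]
  neg_mem' := by
    rintro m hm
    simp only [Set.mem_ofPred_eq] at hm ⊢
    have h : ∏ k, d k ^ ((-m) k) = (∏ k, d k ^ m k)⁻¹ := by
      rw [← Finset.prod_inv_distrib]
      exact Finset.prod_congr rfl fun k _ => _root_.zpow_neg _ _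
    rw [h, hm, inv_one]

theorem a3_span (R : AddSubgroup (κ → ℤ)) (w : κ → ℚ)
    (hw : w ∈ Submodule.span ℚ {u : κ → ℚ | ∃ m ∈ R, u = fun k => (m k : ℚ)}) :
    ∃ n : ℤ, n ≠ 0 ∧ ∃ m ∈ R, ∀ k, (n : ℚ) * w k = (m k : ℚ) := by
  induction hw using Submodule.span_induction with
  | mem x hx =>
    obtain ⟨m, hm, rfl⟩ := hx
    exact ⟨1, one_ne_zero, m, hm, fun k => by simp⟩
  | zero => exact ⟨1, one_ne_zero, 0, R.zero_mem, fun k => by simp⟩
  | add x y _ _ hx hy =>
    obtain ⟨n, hn, m, hm, h⟩ := hx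
    obtain ⟨n', hn', m', hm', h'⟩ := hy
    refine ⟨n * n', mul_ne_zero hn hn', n' • m + n • m', R.add_mem (R.zsmul_mem hm _)
      (R.zsmul_mem hm' _), fun k => ?_⟩
    simp only [Pi.add_apply, Pi.smul_apply, smul_eq_mul]
    push_cast
    rw [← h k, ← h' k]
    ring
  | smul c x _ hx =>
    obtain ⟨n, hn, m, hm, h⟩ := hx
    refine ⟨(c.den : ℤ) * n, mul_ne_zero (by exact_mod_cast c.den_nz) hn, c.num • m,
      R.zsmul_mem hm _, fun k => ?_⟩
    simp only [Pi.smul_apply, smul_eq_mul]
    push_cast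
    rw [← h k]
    have e : (c.den : ℚ) * c = c.num := Rat.den_mul_eq_num c
    rw [← e]
    ring

/-- PROOF. Let `a ≠ b` and `f a = f b` for all `f ∈ YS d`.  For `g : κ → ℚ` which is orthogonal to all `m : κ → ℤ` with
`∏ d k ^ m k = 1`, the function `g - average` is in `YS d` (`c = - average`), so `g a = g b`.  So the form `g ↦ g a - g b` vanishes on the
orthogonal of the set of relations `m`; so `e_a - e_b` is a rational linear combination of relations (`H76P.g5_mem` with `F = ℚ`), and `N (e_a - e_b)`,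
`N ≠ 0`, is an integral one (`g5_den`; products and powers of relations are relations), i.e. `d a ^ N = d b ^ N`; `N > 0` without restriction. -/
theorem YS_sep {K : Type*} [Field K] {d : κ → K} (hd : ∀ k, d k ≠ 0)
    (ht : ∀ a b : κ, ∀ N : ℕ, N ≠ 0 → d a ^ N = d b ^ N → a = b) (a b : κ) (hab : a ≠ b) :
    ∃ f ∈ YS d, f a ≠ f b := by
  by_contra hcon
  push Not at hcon
  have hspan : (Pi.single a (1 : ℚ) - Pi.single b (1 : ℚ) : κ → ℚ) ∈
      Submodule.span ℚ {u : κ → ℚ | ∃ m ∈ a3Rel d hd, u = fun k => (m k : ℚ)} := by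
    apply g5_mem
    intro g hg
    have hcard : (Fintype.card κ : ℚ) ≠ 0 := by
      have : 0 < Fintype.card κ := Fintype.card_pos_iff.2 ⟨a⟩
      exact_mod_cast this.ne'
    set A : ℚ := (∑ k, g k) / Fintype.card κ with hA
    have hf : (fun k => g k - A) ∈ YS d := by
      refine ⟨?_, -A, fun m hm => ?_⟩
      · rw [Finset.sum_sub_distrib, Finset.sum_const, nsmul_eq_mul, Finset.card_univ, hA,
          mul_div_cancel₀ _ hcard, sub_self]
      · have h1 := hg (fun k => (m k : ℚ)) ⟨m, hm, rfl⟩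
        rw [← h1]
        refine Finset.sum_congr rfl fun k _ => ?_
        ring
    have h2 := hcon _ hf
    have h3 : g a = g b := by
      have : g a - A = g b - A := h2
      linarith
    have h4 : ∑ k, g k * (Pi.single a (1 : ℚ) - Pi.single b (1 : ℚ) : κ → ℚ) k = g a - g b := by
      simp [mul_sub, Finset.sum_sub_distrib, Pi.single_apply]
    rw [h4, h3, sub_self]
  obtain ⟨n, hn, m, hm, h⟩ := a3_span _ _ hspan
  have ha : m a = n := by
    have := h a
    simp [hab] at this
    exact_mod_cast this.symm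
  have hb : m b = -n := by
    have := h b
    simp [Ne.symm hab] at this
    have h5 : ((m b : ℤ) : ℚ) = ((-n : ℤ) : ℚ) := by
      push_cast
      exact this.symm
    exact_mod_cast h5
  have hk : ∀ k, k ≠ a → k ≠ b → m k = 0 := by
    intro k h1 h2
    have := h k
    simp [h1, h2] at this
    exact_mod_cast this.symm
  have hprod : d a ^ n * d b ^ (-n) = 1 := by
    have h1 : ∏ k, d k ^ m k = 1 := hm
    rw [← Finset.prod_subset (Finset.subset_univ ({a, b} : Finset κ)), Finset.prod_pair hab,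
      hb] at h1
    · rw [ha] at h1
      exact h1
    · intro k _ hk'
      simp only [Finset.mem_insert, Finset.mem_singleton, not_or] at hk'
      rw [hk k hk'.1 hk'.2, zpow_zero]
  have heq : d a ^ n = d b ^ n := by
    rw [_root_.zpow_neg] at hprod
    exact (mul_inv_eq_one₀ (zpow_ne_zero _ (hd b))).1 hprod
  apply hab
  apply ht a b n.natAbs (Int.natAbs_ne_zero.2 hn)
  rcases Int.natAbs_eq n with h1 | h1
  · rw [h1, zpow_natCast, zpow_natCast] at heq
    exact heq
  · rw [h1, _root_.zpow_neg, _root_.zpow_neg, zpow_natCast, zpow_natCast] at heq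
    exact inv_injective heq

end Pool.Agent.H76Q
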