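import Pool.Agent.Lib.H76Q.Q3
import Pool.Agent.Lib.H76Q.A2
import Pool.Agent.Lib.H76Q.A3

/-!
# the configuration of the Lie algebra
-/

set_option autoImplicit false
set_option linter.unusedSectionVars false
namespace Pool.Agent.H76Q
open Module Matrix Polynomial Pool.Agent.H53Toric
open Pool.Agent.H76P
open Pool.Agent.H76T (IsIdeal Fam Lc)
open Pool.Agent.H76V (Cmp)
open Pool.Agent.H76U (cmp preL IsSplitting)
open Pool.Agent.H76RM (spanK similD)

variable {ι : Type*} [Fintype ι] [DecidableEq ι] {K : Type*} [Field K] [CharZero K]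
  [IsAlgClosed K]

variable {B : Type*} [Fintype B] [DecidableEq B]
  {J : Matrix ι ι K} {DD : Submodule K (Matrix ι ι K)}
  {bar : B → B} {e : B → Matrix ι ι K} (h : H76U.Split4 J DD bar e) {b : B} (hb : bar b = b)
  (hJ : Jᵀ = -J) (hdet : IsUnit J.det)
  {n : ℕ} {P : Matrix ι (Fin n) K} {Q : Matrix (Fin n) ι K}
  (hPQ : e b = P * Q) (hQP : Q * P = 1)
  {S : Set (Matrix ι ι K)} {𝓗 : Set (Matrix ι ι K)} {φ φ' : Matrix ι ι K}
  (g : PH S J DD 𝓗 φ φ') {d : Fin n → K} (E : EC φ P d)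

include h hb hJ hdet hPQ hQP g E in
/-- PROOF. `≤`: `f ∈ Yo` has sum `0` (`Yo_sum`) and `dq f ∈ L` (`Yo_mem`), so `f - c` is log linear for some `c : K` (`loglin_of_mem`, see the proof of `diag_mem`).
If all relations `m` have `∑ m = 0`, the same holds with `c = 0`; otherwise `c = ∑ m f / ∑ m` is rational.  `≥`: `mem_Yo`. -/
theorem Yo_eq_YS (hn : 0 < n) : Yo (Lc J S P Q) = YS d := by
  apply le_antisymm
  · intro f hf
    have h1 := Yo_mem hf
    have h2 := Yo_sum (cmp_unit h hb hJ hdet hPQ hQP g hn) hf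
    obtain ⟨c, hc⟩ := loglin_of_mem h hb hdet hPQ hQP g E (f := fun k => (f k : K)) h1
    have hexp : ∀ m : Fin n → ℤ, ∑ k, (m k : K) * ((f k : K) - c) =
        ((∑ k, (m k : ℚ) * f k : ℚ) : K) - c * ((∑ k, m k : ℤ) : K) := by
      intro m
      push_cast
      rw [Finset.mul_sum, ← Finset.sum_sub_distrib]
      exact Finset.sum_congr rfl fun k _ => by ring
    refine ⟨h2, ?_⟩
    by_cases hz : ∀ m : Fin n → ℤ, ∏ k, d k ^ m k = 1 → ∑ k, m k = 0
    · refine ⟨0, fun m hm => ?_⟩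
      have h3 : ∑ k, (m k : K) * ((f k : K) - c) = 0 := hc m hm
      rw [hexp, hz m hm, Int.cast_zero, mul_zero, sub_zero] at h3
      have h4 : ∑ k, (m k : ℚ) * f k = 0 := by exact_mod_cast h3
      have h5 : ∑ k, (m k : ℚ) * (f k - 0) = ∑ k, (m k : ℚ) * f k :=
        Finset.sum_congr rfl fun k _ => by rw [sub_zero]
      exact h5.trans h4
    · push Not at hz
      obtain ⟨m0, hm0, hm1⟩ := hz
      have h3 : ∑ k, (m0 k : K) * ((f k : K) - c) = 0 := hc m0 hm0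
      rw [hexp, sub_eq_zero] at h3
      have hne : ((∑ k, m0 k : ℤ) : K) ≠ 0 := by exact_mod_cast hm1
      have hcr : c = (((∑ k, (m0 k : ℚ) * f k) / ((∑ k, m0 k : ℤ) : ℚ) : ℚ) : K) := by
        rw [Rat.cast_div, Rat.cast_intCast, h3, mul_div_assoc, div_self hne, mul_one]
      refine ⟨(∑ k, (m0 k : ℚ) * f k) / ((∑ k, m0 k : ℤ) : ℚ), fun m hm => ?_⟩
      have h4 : ∑ k, (m k : K) * ((f k : K) - c) = 0 := hc m hm
      rw [hcr] at h4
      exact_mod_cast h4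
  · rintro f ⟨h1, c, h2⟩
    refine mem_Yo h hb hJ hdet hPQ hQP g E hn (c := (c : K)) ?_ h1
    intro m hm
    have h3 := congrArg (Rat.cast : ℚ → K) (h2 m hm)
    show ∑ k, (m k : K) * ((f k : K) - (c : K)) = 0
    exact_mod_cast h3

include h hb hJ hdet hPQ hQP g E in
/-- PROOF. `cmp_unit`, `diag_mem`; `sep`: `YS_sep` (A3) and `Yo_eq_YS`. -/
theorem mk_ts (hn : 0 < n)
    (ht : ∀ a b : Fin n, ∀ N : ℕ, N ≠ 0 → d a ^ N = d b ^ N → a = b) :
    TS (Lc J S P Q) (Pᵀ * J * P) := by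
  refine ⟨cmp_unit h hb hJ hdet hPQ hQP g hn,
    fun f hf => diag_mem h hb hJ hdet hPQ hQP g E hn hf, ?_⟩
  intro a b hab
  rw [Yo_eq_YS h hb hJ hdet hPQ hQP g E hn]
  exact YS_sep E.ne ht a b hab

end Pool.Agent.H76Q
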