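import Pool.Agent.Lib.H76Q.Q3
import Pool.Agent.Lib.H76Q.A4
import Pool.Agent.Lib.H76Q.A5
import Pool.Agent.Lib.H76Q.A6

/-!
# existence of the local data
-/

set_option autoImplicit false
set_option linter.unusedSectionVars false
namespace Pool.Agent.H76Q
open Module Matrix Polynomial Pool.Agent.H53Toric
open Pool.Agent.H76P
open Pool.Agent.H76T (IsIdeal Fam Lc)
open Pool.Agent.H76V (Cmp)
open Pool.Agent.H76U (cmp preL IsSplitting)
open Pool.Agent.H76RM (spanK similD)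

variable {ι : Type*} [Fintype ι] [DecidableEq ι] {K : Type*} [Field K] [CharZero K]
  [IsAlgClosed K]

variable {L : Type*} [Field L] [CharZero L] [Algebra L K] {G : Type*} [Group G]

/-- PROOF. `J = ψ.map`, `S = img K ρ H₀`, `𝓗 = properProj K ρ`.  `gram_basic`, `split4_of (hspl.map _)`, `mk_phT` (A4); `ts`: `mk_ts`, `yo`: `Yo_eq_YS` (A5), `YS_map` (A2);
`par`: fields `hi`, `hs` of `g.sh`, `H76V.preL_ec`, and `g4_mem` (see the proof of `eps_mem` in H76P/G4); `lie`: `lc_of_zlie` (G4); `C ∈ zlie S` commutes with `e` (`H76V.preL_ec` or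
`zlie_commute`).  `pos`: `e ≠ 0` (`hspl.ne_zero`).  `ht` gives the hypothesis of `mk_ts` (`i` is injective). -/
theorem mk_loc {ψ : Matrix ι ι ℚ}
    (hψ : ψᵀ = -ψ) (hψ0 : ψ.det ≠ 0) (D : Subalgebra ℚ (Matrix ι ι ℚ))
    (ρ : G →* Matrix.GeneralLinearGroup ι L)
    (lin : ∀ σ : G, ∀ d ∈ D, (ρ σ).1 * d.map (algebraMap ℚ L) =
      d.map (algebraMap ℚ L) * (ρ σ).1)
    (sim : ∀ σ : G, ∃ c : L, (ρ σ).1ᵀ * ψ.map (algebraMap ℚ L) * (ρ σ).1 =
      c • ψ.map (algebraMap ℚ L))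
    (semis : ∀ H : Subgroup G, H.FiniteIndex → ∀ W : Submodule K (ι → K),
      (∀ s ∈ img K ρ H, ∀ w ∈ W, s *ᵥ w ∈ W) →
      ∃ W' : Submodule K (ι → K), (∀ s ∈ img K ρ H, ∀ w ∈ W', s *ᵥ w ∈ W') ∧ IsCompl W W')
    (commt : ∀ H : Subgroup G, H.FiniteIndex → ∀ y : Matrix ι ι K,
      (∀ s ∈ img K ρ H, y * s = s * y) → y ∈ spanK K D)
    (gen : ∀ g : G, (ρ g).1.map (algebraMap L K) ∈ tgen K ρ)
    {M : Type*} [Field M] [CharZero M] {m : ℕ} {e : Fin m → Matrix ι ι M} {F : Fin m → M[X]}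
    (hspl : IsSplitting D ψ id e) {x : Matrix ι ι K} (hF : FrobT K ρ e F x) {q : ℚ}
    (hmult : xᵀ * ψ.map (algebraMap ℚ K) * x = algebraMap ℚ K q • ψ.map (algebraMap ℚ K))
    {H₀ : Subgroup G} (hfin : H₀.FiniteIndex) (hprime : (H76RM.van (img K ρ H₀)).IsPrime)
    {Ω : Type*} [Field Ω] [IsAlgClosed Ω] (j : M →+* Ω) (i : Ω →+* K) (b : Fin m)
    {n : ℕ} {a : Fin n → Ω} (ha : Function.Injective a)
    (hroot : ∀ y : Ω, (F b).eval₂ j y = 0 ↔ ∃ k, y = a k)
    (ht : ∀ k l : Fin n, ∀ N : ℕ, N ≠ 0 → a k ^ N = a l ^ N → k = l) :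
    ∃ (U : Matrix ι (Fin n) K) (V : Matrix (Fin n) ι K),
      Loc (ψ.map (algebraMap ℚ K)) (img K ρ H₀) (properProj K ρ) ((e b).map (i.comp j)) x
        (algebraMap ℚ K q) U V (fun k => i (a k)) (YS a) := by
  classical
  obtain ⟨hJ, hdet⟩ := gram_basic hψ hψ0 K
  have hsplK : IsSplitting D ψ id (fun c => (e c).map (i.comp j)) := hspl.map (i.comp j)
  have hspl4 := Pool.Agent.H76U.split4_of hsplK
  have hι : Nonempty ι := by
    by_contra hemp
    rw [not_nonempty_iff] at hemp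
    apply hsplK.ne_zero b
    ext i'
    exact (hemp.false i').elim
  obtain ⟨φ', g⟩ := mk_phT (K := K) hψ hψ0 D ρ lin sim semis commt gen hF hfin hprime
  have hφe : x * (e b).map (i.comp j) = (e b).map (i.comp j) * x := g.φD _ (hspl4.mem b)
  obtain ⟨U, V, hUV, hVU, E⟩ := exists_ecT hF j i b (hspl.idem b) hφe.symm ha hroot
  have hn : 0 < n := by
    rw [Nat.pos_iff_ne_zero]
    rintro rfl
    apply hsplK.ne_zero b
    rw [hUV]
    ext i' j'
    rw [Matrix.mul_apply, Finset.univ_eq_empty, Finset.sum_empty]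
    rfl
  have hadj : ((e b).map (i.comp j))ᵀ * ψ.map (algebraMap ℚ K) = ψ.map (algebraMap ℚ K) * (e b).map (i.comp j) :=
    hspl4.adj b
  refine ⟨U, V, ?_⟩
  refine
    { pos := hn
      UV := hUV
      VU := hVU
      ec := E
      ex := hφe.symm
      Jt := hJ
      Jd := hdet
      adj := hadj
      mult := hmult
      ts := ?_
      yo := ?_
      par := ?_
      lie := ?_ }
  · refine mk_ts (b := b) hspl4 rfl hJ hdet hUV hVU g E hn ?_
    intro k l N hN hkl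
    refine ht k l N hN (i.injective ?_)
    rw [map_pow, map_pow]
    exact hkl
  · rw [Yo_eq_YS (b := b) hspl4 rfl hJ hdet hUV hVU g E hn]
    exact YS_map i a
  · intro h hh
    have hxz := g.sh.hz h hh
    have hxs := g.sh.hs h hh
    have hxL : h ∈ preL (ψ.map (algebraMap ℚ K)) (img K ρ H₀) :=
      ⟨⟨0, h, hxz, by rw [zero_smul, add_zero]⟩, 1, by rw [hxs, one_smul]⟩
    refine ⟨g.sh.hi h hh, Pool.Agent.H76V.preL_ec (b := b) hspl4 g.sh hxL, hxs, ?_⟩
    refine g4_mem (b := b) hspl4 rfl hdet hUV hVU g (A := (2 : K) • h - 1)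
      ⟨-1, (2 : K) • h, (zlie (img K ρ H₀)).smul_mem _ hxz, by rw [neg_smul, one_smul, sub_eq_add_neg]⟩ ?_
    rw [Matrix.transpose_sub, Matrix.transpose_smul, Matrix.transpose_one, sub_mul, mul_sub, smul_mul_assoc,
      one_mul, mul_smul_comm, mul_one]
    have h1 : (2 : K) • (hᵀ * ψ.map (algebraMap ℚ K)) - ψ.map (algebraMap ℚ K) +
        ((2 : K) • (ψ.map (algebraMap ℚ K) * h) - ψ.map (algebraMap ℚ K)) =
        (2 : K) • (hᵀ * ψ.map (algebraMap ℚ K) + ψ.map (algebraMap ℚ K) * h - ψ.map (algebraMap ℚ K)) := by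
      rw [smul_sub, smul_add, two_smul K (ψ.map (algebraMap ℚ K))]
      abel
    rw [h1, hxs, sub_self, smul_zero]
  · intro C hC
    refine ⟨?_, lc_of_zlie (b := b) hspl4 rfl hdet hUV hVU g hC⟩
    exact Pool.Agent.H76RM.zlie_commute g.sh.one (fun s hs => g.sh.SD s hs _ (hspl4.mem b)) hC

end Pool.Agent.H76Q
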