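import Pool.Agent.Lib.H76Q.Q0

/-!
# H76Q: mod 2 reciprocity.  Definitions for the arithmetic conditions.
-/

set_option autoImplicit false
set_option linter.unusedSectionVars false
namespace Pool.Agent.H76Q
open Module Matrix Polynomial Pool.Agent.H53Toric
open Pool.Agent.H76P (properProj EigOn)
open Pool.Agent.H49M (idc)
open Pool.Agent.H76U (IsSplitting)
open Pool.Agent.H76RM (spanK similD)

/-- `x` is the square of an element of the subfield `L`. -/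
def SqIn (L : Type*) {K : Type*} [Field L] [Field K] [Algebra L K] (x : K) : Prop :=
  ∃ y : L, x = algebraMap L K y ^ 2

/-- All automorphisms of `K` over `L` induce elements of `Γ` on `Ω`. -/
def Dec (L : Type*) {K Ω : Type*} [Field L] [Field K] [Algebra L K] [Field Ω]
    (Γ : Subgroup (Ω ≃+* Ω)) (i : Ω →+* K) : Prop :=
  ∀ (t : K ≃ₐ[L] K) (s : Ω ≃+* Ω), (∀ x, t (i x) = i (s x)) → s ∈ Γ

/-- The arithmetic conditions: `R` is the set of conjugates of the generator `π` of the place. -/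
structure Arith {Ω : Type*} [Field Ω] (R : Finset Ω) (N : Set ℕ) {G : Type*} [Group G]
    {ι : Type*} [Fintype ι] [DecidableEq ι]
    (ρ : ∀ (l : ℕ) [Fact l.Prime], G →* Matrix.GeneralLinearGroup ι ℚ_[l]) (σ : G) : Prop where
  recl : ∀ (l : ℕ) [Fact l.Prime], l ∉ N → ∀ i : Ω →+* AlgebraicClosure ℚ_[l],
    (∀ r ∈ R, SqIn ℚ_[l] (i r)) → ρ l σ ∈ Subgroup.closure (Set.range fun g => ρ l g ^ 2)
  cheb : ∀ Γ : Subgroup (Ω ≃+* Ω), (∃ T : Finset Ω, ∀ s : Ω ≃+* Ω, (∀ x ∈ T, s x = x) → s ∈ Γ) →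
    (∀ s ∈ Γ, ∀ r ∈ R, s r = r) → ∀ a : Ω, a ≠ 0 → (∀ s ∈ Γ, s a = a) →
    (∀ (l : ℕ) [Fact l.Prime], l ∉ N → ∀ i : Ω →+* AlgebraicClosure ℚ_[l],
      Dec ℚ_[l] Γ i → (∀ r ∈ R, SqIn ℚ_[l] (i r)) → SqIn ℚ_[l] (i a)) →
    ∃ R' ⊆ R, ∃ c : Ω, (∀ s ∈ Γ, s c = c) ∧ a = (∏ r ∈ R', r) * c ^ 2

/-- `e` and `e'` are in the same simple factor of the algebra spanned by `D`. -/
def Linked {ι : Type*} [Fintype ι] [DecidableEq ι] (D : Subalgebra ℚ (Matrix ι ι ℚ))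
    {K : Type*} [Field K] [CharZero K] (e e' : Matrix ι ι K) : Prop :=
  ∃ d ∈ spanK K D, e * d * e' ≠ 0

end Pool.Agent.H76Q
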