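import Pool.Agent.Lib.H76Q.Q2
import Pool.Agent.Lib.H76Q.Q1

/-!
# Q3: the local situation at a prime `l` and an embedding
-/

set_option autoImplicit false
set_option linter.unusedSectionVars false
namespace Pool.Agent.H76Q
open Module Matrix Pool.Agent.H53Toric
open Pool.Agent.H76P
open Pool.Agent.H76T (IsIdeal Fam Lc)
open Pool.Agent.H76V (Cmp)
open Pool.Agent.H76U (cmp preL IsSplitting)

/-- `e = U V` an idempotent, `V U = 1`, the columns of `U` are eigenvectors of `x` with the eigenvalues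
`d`; `S` the image of a subgroup of finite index, `𝓗` the set of projectors, `q` the multiplier of `x`,
`Y` the configuration. -/
structure Loc {ι : Type*} [Fintype ι] [DecidableEq ι] {K : Type*} [Field K] [CharZero K]
    (J : Matrix ι ι K) (S 𝓗 : Set (Matrix ι ι K)) (e x : Matrix ι ι K) (q : K) {n : ℕ}
    (U : Matrix ι (Fin n) K) (V : Matrix (Fin n) ι K) (d : Fin n → K)
    (Y : Submodule ℚ (Fin n → ℚ)) : Prop where
  pos : 0 < n
  UV : e = U * V
  VU : V * U = 1
  ec : EC x U d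
  ex : e * x = x * e
  Jt : Jᵀ = -J
  Jd : IsUnit J.det
  adj : eᵀ * J = J * e
  mult : xᵀ * J * x = q • J
  ts : TS (Lc J S U V) (Uᵀ * J * U)
  yo : Yo (Lc J S U V) = Y
  par : ∀ h ∈ 𝓗, h * h = h ∧ h * e = e * h ∧ hᵀ * J + J * h = J ∧
    phi (cmp U V ((2 : K) • h - 1)) ∈ Lc J S U V
  lie : ∀ C ∈ zlie S, C * e = e * C ∧ ∃ c : K, phi (cmp U V (C - c • 1)) ∈ Lc J S U V

end Pool.Agent.H76Q
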