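import Pool.Agent.Lib.H76Q.Q2

/-!
# product decompositions of a configuration
-/

set_option autoImplicit false
set_option linter.unusedSectionVars false
namespace Pool.Agent.H76Q
open Module Matrix Pool.Agent.H53Toric
open Pool.Agent.H76P
open Pool.Agent.H76T (IsIdeal Fam)
open Pool.Agent.H76V (Cmp)

variable {κ : Type*} [Fintype κ] [DecidableEq κ] {Y : Submodule ℚ (κ → ℚ)} {P : Module.End ℚ Y}

theorem b1_ptS (a : κ) (f : Y) : ptS Y a f = (f : κ → ℚ) a := rfl

theorem b1_dual (φ : Module.Dual ℚ Y) (f : Y) : P.dualMap φ f = φ (P f) := rfl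

theorem dualMap_inj {P' : Module.End ℚ Y} (h : P.dualMap = P'.dualMap) : P = P' := by
  refine LinearMap.ext fun f => ?_
  rw [← sub_eq_zero, ← Module.forall_dual_apply_eq_zero_iff ℚ]
  intro φ
  rw [map_sub, sub_eq_zero]
  exact congrArg (fun T : Module.End ℚ (Module.Dual ℚ Y) => T φ f) h

theorem b1_mul (P P' : Module.End ℚ Y) : (P * P').dualMap = P'.dualMap * P.dualMap := rfl

/-- PROOF. `(P.dualMap (ptS Y a)) f = (P f) a`; both sides say the same. -/
theorem Sp_iff : Sp P ↔ Spl (ptS Y) P.dualMap := by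
  constructor
  · intro h
    refine ⟨by rw [← b1_mul, h.idem], fun a b => ?_⟩
    obtain ⟨c, hc⟩ := h.mix a b
    refine ⟨c, LinearMap.ext fun f => ?_⟩
    rw [LinearMap.add_apply, b1_dual, LinearMap.sub_apply, b1_ptS, b1_ptS, b1_ptS, b1_ptS, hc f]
    ring
  · intro h
    refine ⟨dualMap_inj (by rw [b1_mul, h.1]), fun a b => ?_⟩
    obtain ⟨c, hc⟩ := h.2 a b
    refine ⟨c, fun f => ?_⟩
    have h1 := LinearMap.congr_fun hc f
    rw [LinearMap.add_apply, b1_dual, LinearMap.sub_apply, b1_ptS, b1_ptS, b1_ptS, b1_ptS] at h1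
    rw [h1]
    ring

/-- PROOF. `Y` is finite dimensional, so each endomorphism of the dual space is a transpose (`Module.evalEquiv`). -/
theorem exists_P {z : Module.End ℚ (Module.Dual ℚ Y)} (hz : Spl (ptS Y) z) :
    ∃ P : Module.End ℚ Y, Sp P ∧ P.dualMap = z := by
  have h1 : ∃ P : Module.End ℚ Y, P.dualMap = z := by
    refine ⟨(Module.evalEquiv ℚ Y).symm.toLinearMap ∘ₗ z.dualMap ∘ₗ (Module.Dual.eval ℚ Y), ?_⟩
    refine LinearMap.ext fun φ => LinearMap.ext fun f => ?_
    rw [b1_dual]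
    simp only [LinearMap.comp_apply, LinearEquiv.coe_coe]
    rw [Module.apply_evalEquiv_symm_apply]
    rfl
  obtain ⟨P, hP⟩ := h1
  exact ⟨P, Sp_iff.2 (by rw [hP]; exact hz), hP⟩

/-- PROOF. `Spl.compl`, or directly: for `a`, `b` take `c` of `(b, a)`. -/
theorem Sp.compl (h : Sp P) : Sp (1 - P) := by
  have hPP : ∀ f : Y, P (P f) = P f := fun f => by
    have h1 : (P * P) f = P f := by rw [h.idem]
    exact h1
  refine ⟨LinearMap.ext fun f => ?_, fun a b => ?_⟩
  · show (f - P f) - P (f - P f) = f - P f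
    rw [map_sub, hPP, sub_self, sub_zero]
  obtain ⟨c, hc⟩ := h.mix b a
  refine ⟨c, fun f => ?_⟩
  rw [hc f]
  have h1 : ∀ k, (((1 - P) f : Y) : κ → ℚ) k = (f : κ → ℚ) k - (P f : κ → ℚ) k := by
    intro k
    rw [LinearMap.sub_apply, Module.End.one_apply, Submodule.coe_sub, Pi.sub_apply]
  rw [h1, h1]
  ring

end Pool.Agent.H76Q
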