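import Pool.Agent.Lib.H76Q.Q2
import Pool.Agent.Lib.H76Q.B2

/-!
# the lift
-/

set_option autoImplicit false
set_option linter.unusedSectionVars false
namespace Pool.Agent.H76Q
open Module Matrix Pool.Agent.H53Toric
open Pool.Agent.H76P
open Pool.Agent.H76T (IsIdeal Fam)
open Pool.Agent.H76V (Cmp)

variable {κ : Type*} [Fintype κ] [DecidableEq κ] [Nonempty κ] {Y : Submodule ℚ (κ → ℚ)}
  {P : Module.End ℚ Y} {Ω : Type*} [Field Ω] {a : κ → Ω}

/-- moments of a nonzero family at distinct points do not all vanish -/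
theorem d1_moment (ha : Function.Injective a) {b : κ → Ω} {k₀ : κ} (hb : b k₀ ≠ 0) :
    ∃ n : ℕ, ∑ k, b k * a k ^ n ≠ 0 := by
  by_contra hcon
  push Not at hcon
  have hpoly : ∀ f : Polynomial Ω, ∑ k, b k * f.eval (a k) = 0 := by
    intro f
    simp only [Polynomial.eval_eq_sum_range, Finset.mul_sum]
    rw [Finset.sum_comm]
    refine Finset.sum_eq_zero fun n _ => ?_
    have h1 : ∑ k, b k * (f.coeff n * a k ^ n) = f.coeff n * ∑ k, b k * a k ^ n := by
      rw [Finset.mul_sum]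
      exact Finset.sum_congr rfl fun k _ => by ring
    rw [h1, hcon n, mul_zero]
  have h2 := hpoly (∏ k ∈ Finset.univ.erase k₀, (Polynomial.X - Polynomial.C (a k)))
  rw [Finset.sum_eq_single k₀] at h2
  · rcases mul_eq_zero.mp h2 with h | h
    · exact hb h
    · rw [Polynomial.eval_prod, Finset.prod_eq_zero_iff] at h
      obtain ⟨k, hk, hk0⟩ := h
      simp only [Polynomial.eval_sub, Polynomial.eval_X, Polynomial.eval_C] at hk0
      exact (Finset.mem_erase.mp hk).1 (ha (sub_eq_zero.mp hk0)).symm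
  · intro k _ hk
    rw [Polynomial.eval_prod, Finset.prod_eq_zero (i := k)]
    · simp
    · exact Finset.mem_erase.mpr ⟨hk, Finset.mem_univ k⟩
    · simp
  · intro h
    exact absurd (Finset.mem_univ k₀) h

/-- PROOF. For `k`, `k'` let `c = c(k, k')` be the index with `cz P c k`, `cz (1 - P) c k'` (`Sp.exists_mx`, unique by `cz_both`), `β k k' = a c / a k'`.
By `hl`: `i (β k k') = u k / u k'`.  So `β k k' * β k' k'' = β k k''` (`i` is injective).  `t k = ∑ k', β k k' * a k' ^ s`; `t k = β k k₀ * t k₀`.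
For some `s < card κ` `t k₀ ≠ 0` (Vandermonde, `ha`: otherwise `β k₀ k' = 0` for all `k'`).  `rat`: `t k / t k' = β k k' = a c / a k'`.  `fun_`: if `cz P k k'` then
`c(k, k') = k'`, `β k k' = 1`.  `eqv`: `StabP` gives `c(σ k, σ k') = σ c(k, k')`, so `s (β k k') = β (σ k) (σ k')`; substitute `k' ↦ σ k'` in the sum. -/
theorem exists_lift (ha : Function.Injective a) (ha0 : ∀ k, a k ≠ 0) (hP : Sp P)
    (hsep : ∀ a b : κ, a ≠ b → ∃ f ∈ Y, f a ≠ f b) {K : Type*} [Field K] {i : Ω →+* K}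
    {u r : κ → K} (hl : LD P a i u r) : ∃ t : κ → Ω, Lift P a t := by
  choose c hc1 hc2 using fun k k' => hP.exists_mx k k'
  have hcu : ∀ k k' d, cz P d k → cz (1 - P) d k' → d = c k k' := fun k k' d h1 h2 =>
    cz_both hsep (cz_trans h1 (cz_symm (hc1 k k'))) (cz_trans h2 (cz_symm (hc2 k k')))
  have hia : ∀ k, i (a k) ≠ 0 := fun k h => ha0 k (i.injective (by rw [h, map_zero]))
  have hu0 : ∀ k, u k ≠ 0 := fun k h => hia k (by rw [hl.prod, h, zero_mul])
  have hr0 : ∀ k, r k ≠ 0 := fun k h => hia k (by rw [hl.prod, h, mul_zero])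
  let β : κ → κ → Ω := fun k k' => a (c k k') / a k'
  have hβ0 : ∀ k k', β k k' ≠ 0 := fun k k' => div_ne_zero (ha0 _) (ha0 _)
  have hiβ : ∀ k k', i (β k k') = u k / u k' := by
    intro k k'
    show i (a (c k k') / a k') = _
    rw [map_div₀, hl.prod, hl.prod, hl.fu _ _ (hc1 k k'), hl.fr _ _ (hc2 k k')]
    have h1 := hr0 k'
    have h2 := hu0 k'
    field_simp
  have hββ : ∀ k k' k'', β k k' * β k' k'' = β k k'' := by
    intro k k' k''
    refine i.injective ?_
    rw [map_mul, hiβ, hiβ, hiβ]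
    have h2 := hu0 k'
    have h3 := hu0 k''
    field_simp
  obtain ⟨k₀⟩ := ‹Nonempty κ›
  obtain ⟨n, hn⟩ := d1_moment ha (b := fun k' => β k₀ k') (hβ0 k₀ k₀)
  let t : κ → Ω := fun k => ∑ k', β k k' * a k' ^ n
  have htβ : ∀ k k', t k = β k k' * t k' := by
    intro k k'
    show ∑ k'', β k k'' * a k'' ^ n = β k k' * ∑ k'', β k' k'' * a k'' ^ n
    rw [Finset.mul_sum]
    refine Finset.sum_congr rfl fun k'' _ => ?_
    rw [← mul_assoc, hββ]
  have ht0 : ∀ k, t k ≠ 0 := by
    intro k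
    rw [htβ k k₀]
    exact mul_ne_zero (hβ0 _ _) hn
  refine ⟨t, ht0, ?_, ?_, ?_⟩
  · intro k k' hkk
    have h1 : c k k' = k' := (hcu k k' k' (cz_symm hkk) (fun _ => rfl)).symm
    rw [htβ k k']
    show a (c k k') / a k' * t k' = t k'
    rw [h1, div_self (ha0 k'), one_mul]
  · intro k k' d h1 h2
    rw [htβ k k', hcu k k' d h1 h2]
    show a (c k k') / a k' * t k' * a k' = t k' * a (c k k')
    have h3 := ha0 k'
    field_simp
  · intro e σ hσ hst k
    have h1 : ∀ k k', e (β k k') = β (σ k) (σ k') := by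
      intro k k'
      show e (a (c k k') / a k') = a (c (σ k) (σ k')) / a (σ k')
      rw [map_div₀, hσ, hσ]
      rw [hcu (σ k) (σ k') (σ (c k k')) ((hst.1 _ _).mp (hc1 k k')) ((hst.2 _ _).mp (hc2 k k'))]
    show e (∑ k', β k k' * a k' ^ n) = ∑ k', β (σ k) k' * a k' ^ n
    rw [map_sum, ← Equiv.sum_comp σ (fun k' => β (σ k) k' * a k' ^ n)]
    refine Finset.sum_congr rfl fun k' _ => ?_
    rw [map_mul, map_pow, h1, hσ]

end Pool.Agent.H76Q
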