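import Pool.Agent.Lib.H76Q.Q2
import Pool.Agent.Lib.H76Q.B2

/-!
# the group GamP
-/

set_option autoImplicit false
set_option linter.unusedSectionVars false
namespace Pool.Agent.H76Q
open Module Matrix Pool.Agent.H53Toric
open Pool.Agent.H76P
open Pool.Agent.H76T (IsIdeal Fam)
open Pool.Agent.H76V (Cmp)

variable {κ : Type*} [Fintype κ] [DecidableEq κ] [Nonempty κ] {Y : Submodule ℚ (κ → ℚ)}
  {P : Module.End ℚ Y} {Ω : Type*} [Field Ω] {a : κ → Ω}

theorem d3_one : StabP P 1 := ⟨fun _ _ => Iff.rfl, fun _ _ => Iff.rfl⟩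

theorem d3_mul {σ τ : Equiv.Perm κ} (h : StabP P σ) (h' : StabP P τ) : StabP P (σ * τ) :=
  ⟨fun k k' => (h'.1 k k').trans (h.1 (τ k) (τ k')),
    fun k k' => (h'.2 k k').trans (h.2 (τ k) (τ k'))⟩

theorem d3_inv {σ : Equiv.Perm κ} (h : StabP P σ) : StabP P σ⁻¹ := by
  have hs : ∀ k, σ (σ⁻¹ k) = k := fun k => σ.apply_symm_apply k
  refine ⟨fun k k' => ?_, fun k k' => ?_⟩
  · have h1 := h.1 (σ⁻¹ k) (σ⁻¹ k')
    rw [hs, hs] at h1
    exact h1.symm
  · have h1 := h.2 (σ⁻¹ k) (σ⁻¹ k')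
    rw [hs, hs] at h1
    exact h1.symm

/-- PROOF. Closed under products and inverses (the permutation of `s⁻¹` is `σ⁻¹`). -/
theorem exists_gam {M : Type*} [Field M] (j : M →+* Ω) (R : Finset Ω) :
    ∃ Γ : Subgroup (Ω ≃+* Ω), ∀ s, s ∈ Γ ↔ s ∈ GamP j R a P := by
  have hinv : ∀ (s : Ω ≃+* Ω) (x y : Ω), s x = y → s⁻¹ y = x := by
    intro s x y h
    rw [← h]
    exact s.symm_apply_apply x
  refine ⟨⟨⟨⟨GamP j R a P, ?_⟩, ?_⟩, ?_⟩, fun s => Iff.rfl⟩
  · rintro s t ⟨h1, h2, σ, h3, h4⟩ ⟨h1', h2', τ, h3', h4'⟩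
    refine ⟨fun x => ?_, fun r hr => ?_, σ * τ, fun k => ?_, d3_mul h4 h4'⟩
    · show s (t (j x)) = j x
      rw [h1', h1]
    · show s (t r) = r
      rw [h2' r hr, h2 r hr]
    · show s (t (a k)) = a (σ (τ k))
      rw [h3', h3]
  · exact ⟨fun x => rfl, fun r _ => rfl, 1, fun k => rfl, d3_one⟩
  · rintro s ⟨h1, h2, σ, h3, h4⟩
    refine ⟨fun x => hinv s _ _ (h1 x), fun r hr => hinv s _ _ (h2 r hr), σ⁻¹, fun k => ?_,
      d3_inv h4⟩
    refine hinv s _ _ ?_
    rw [h3]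
    exact congrArg a (σ.apply_symm_apply k)

/-- PROOF. `T` = `R`, the `a k` and the images of a basis of `M` over `ℚ`: if `s` fixes them it fixes `j M` (`s` is `ℚ`-linear) and one can take `σ = 1`. -/
theorem gam_open {M : Type*} [Field M] [NumberField M] [CharZero Ω] (j : M →+* Ω)
    (R : Finset Ω) : ∃ T : Finset Ω, ∀ s : Ω ≃+* Ω, (∀ x ∈ T, s x = x) → s ∈ GamP j R a P := by
  classical
  let b := Module.finBasis ℚ M
  refine ⟨R ∪ (Finset.univ.image a ∪ Finset.univ.image fun n => j (b n)), fun s hs => ?_⟩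
  refine ⟨fun x => ?_, fun r hr => hs r (Finset.mem_union_left _ hr), 1, fun k => ?_, d3_one⟩
  · have h1 : ∀ n, s (j (b n)) = j (b n) := fun n =>
      hs _ (Finset.mem_union_right _ (Finset.mem_union_right _
        (Finset.mem_image_of_mem _ (Finset.mem_univ n))))
    have h2 := b.sum_repr x
    rw [← h2, map_sum, map_sum]
    refine Finset.sum_congr rfl fun n _ => ?_
    rw [Algebra.smul_def, map_mul, map_mul, h1]
    congr 1
    rw [eq_ratCast, map_ratCast, map_ratCast]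
  · exact hs _ (Finset.mem_union_right _ (Finset.mem_union_left _
      (Finset.mem_image_of_mem _ (Finset.mem_univ k))))

/-- PROOF. `1 - (1 - P) = P`. -/
theorem gam_compl {M : Type*} [Field M] (j : M →+* Ω) (R : Finset Ω) :
    GamP j R a (1 - P) = GamP j R a P := by
  have h0 : (1 : Module.End ℚ Y) - (1 - P) = P := by
    refine LinearMap.ext fun f => ?_
    show f - (f - P f) = P f
    abel
  have h1 : ∀ σ : Equiv.Perm κ, StabP (1 - P) σ ↔ StabP P σ := by
    intro σ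
    unfold StabP
    rw [h0]
    exact and_comm
  ext s
  unfold GamP
  simp only [Set.mem_setOf_eq, h1]

end Pool.Agent.H76Q
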