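import Pool.Agent.Lib.H76Q.Q2
import Pool.Agent.Lib.H76Q.B2
import Pool.Agent.Lib.H76Q.C1
import Pool.Agent.Lib.H76Q.C2
import Pool.Agent.Lib.H76Q.C3
import Pool.Agent.Lib.H76Q.C4
import Pool.Agent.Lib.H76Q.C5

/-!
# diagonal pure tensors
-/

set_option autoImplicit false
set_option linter.unusedSectionVars false
namespace Pool.Agent.H76Q
open Module Matrix Pool.Agent.H53Toric
open Pool.Agent.H76P
open Pool.Agent.H76T (IsIdeal Fam)
open Pool.Agent.H76V (Cmp)

variable {κ : Type*} {K : Type*} [Field K] [CharZero K] [Fintype κ] [DecidableEq κ]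
  {L : Submodule K (Module.End K (κ → K))} {J : Matrix κ κ K} [IsAlgClosed K] [Nonempty κ]
  {Y : Submodule ℚ (κ → ℚ)} {P : Module.End ℚ Y}

theorem c6_left (f : κ → K) (X : Module.End K (κ → K)) (c d : κ) :
    LinearMap.toMatrix' (dg f * X) c d = f c * LinearMap.toMatrix' X c d := by
  rw [LinearMap.toMatrix'_apply, LinearMap.toMatrix'_apply]
  rfl

theorem c6_right (f : κ → K) (X : Module.End K (κ → K)) (c d : κ) :
    LinearMap.toMatrix' (X * dg f) c d = f d * LinearMap.toMatrix' X c d := by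
  rw [LinearMap.toMatrix'_apply, LinearMap.toMatrix'_apply, Module.End.mul_apply]
  have h : (dg f : Module.End K (κ → K)) (Pi.single d 1) = f d • Pi.single d 1 := by
    ext a
    rw [dg_apply, Pi.smul_apply, smul_eq_mul]
    by_cases h : a = d
    · subst h
      rfl
    · rw [Pi.single_eq_of_ne h, mul_zero, mul_zero]
  rw [h, map_smul, Pi.smul_apply, smul_eq_mul]

theorem c6_mat (f : κ → K) : LinearMap.toMatrix' (dg f) = Matrix.diagonal f := by
  ext a b
  rw [LinearMap.toMatrix'_apply, dg_apply, Matrix.diagonal_apply]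
  by_cases hab : a = b
  · subst hab
    rw [if_pos rfl, Pi.single_eq_same, mul_one]
  · rw [if_neg hab, Pi.single_eq_of_ne hab, mul_zero]

theorem c6_comm {g : κ → K} (hg : Function.Injective g) {X : Module.End K (κ → K)}
    (hX : dg g * X = X * dg g) : ∃ f : κ → K, X = dg f := by
  refine ⟨fun a => LinearMap.toMatrix' X a a, ?_⟩
  apply LinearMap.toMatrix'.injective
  rw [c6_mat]
  ext a b
  rw [Matrix.diagonal_apply]
  by_cases hab : a = b
  · subst hab
    rw [if_pos rfl]
  · rw [if_neg hab]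
    have h1 := congrArg (fun X : Module.End K (κ → K) => LinearMap.toMatrix' X a b) hX
    change LinearMap.toMatrix' (dg g * X) a b = LinearMap.toMatrix' (X * dg g) a b at h1
    rw [c6_left, c6_right, ← sub_eq_zero, ← sub_mul] at h1
    rcases mul_eq_zero.1 h1 with h2 | h2
    · exact absurd (hg (sub_eq_zero.1 h2)) hab
    · exact h2

/-- PROOF. `u`, `r` commute with `dg g = u * r`, `g` is injective, so `u = dg u₀`, `r = dg r₀` (see `H76P.cmp_diag`); `diag_AZ` for `P` and `1 - P`
(`Comp.compl`, `Sp.compl`). -/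
theorem PT_diag (h : TS L J) (hY : Yo L = Y) (hP : Sp P) (hc : Comp L P) {g : κ → K}
    (hg : Function.Injective g) {u r : Module.End K (κ → K)} {t : K}
    (h1 : PT L J P (dg g) u r t) :
    ∃ u₀ r₀ : κ → K, u = dg u₀ ∧ r = dg r₀ ∧ FunP P u₀ ∧ FunP (1 - P) r₀ ∧
      ∀ k, g k = u₀ k * r₀ k := by
  obtain ⟨hu, hr, hX, -⟩ := h1
  have hur : u * r = r * u := AZ_comm h hY hP u hu r hr
  have h2 : dg g * u = u * dg g := by
    rw [hX, mul_assoc, ← hur]
  have h3 : dg g * r = r * dg g := by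
    rw [hX, hur, mul_assoc, hur]
  obtain ⟨u₀, hu₀⟩ := c6_comm hg h2
  obtain ⟨r₀, hr₀⟩ := c6_comm hg h3
  refine ⟨u₀, r₀, hu₀, hr₀, ?_, ?_, ?_⟩
  · refine diag_AZ h hY hP hc ?_
    rw [← hu₀]
    exact hu
  · refine diag_AZ h hY (c4_compl hP) hc.compl ?_
    rw [← hr₀]
    exact hr
  · intro k
    rw [hu₀, hr₀, dg_mul] at hX
    exact congrFun (dg_inj hX) k

/-- PROOF. The condition says `uᵀ J u = t J` for the diagonal matrix `u`; for each `k` some `J k l ≠ 0` (`hJd`), `l = bar k`. -/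
theorem lam_diag {bar : Equiv.Perm κ} (hJd : IsUnit J.det) (hJ : ∀ k l, J k l ≠ 0 → l = bar k)
    {u₀ : κ → K} {t : K} (h1 : adjE J (dg u₀) * dg u₀ = t • 1) (k : κ) :
    u₀ k * u₀ (bar k) = t := by
  have hphi : (dg u₀ : Module.End K (κ → K)) = phi (Matrix.diagonal u₀) := by
    refine LinearMap.ext fun v => ?_
    rw [phi_apply]
    funext a
    rw [Matrix.mulVec_diagonal]
    rfl
  have hone : (t • (1 : Module.End K (κ → K))) = phi (t • (1 : Matrix κ κ K)) := by
    rw [map_smul, map_one]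
  rw [hphi, adjE_phi, ← map_mul, hone] at h1
  have h2 := (phi (ι := κ) (K := K)).injective h1
  have h3 : (Matrix.diagonal u₀) * J * (Matrix.diagonal u₀) = t • J := by
    have h4 := congrArg (fun M => J * M) h2
    simp only [Matrix.diagonal_transpose] at h4
    rw [← mul_assoc, ← mul_assoc, ← mul_assoc, Matrix.mul_nonsing_inv _ hJd, one_mul,
      mul_smul_comm, mul_one] at h4
    exact h4
  have h5 : ∃ l, J k l ≠ 0 := by
    by_contra hcon
    push Not at hcon
    exact hJd.ne_zero (Matrix.det_eq_zero_of_row_eq_zero k hcon)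
  obtain ⟨l, hl⟩ := h5
  have hlb := hJ k l hl
  have h6 := congrFun (congrFun h3 k) l
  rw [Matrix.mul_diagonal, Matrix.diagonal_mul, Matrix.smul_apply, smul_eq_mul] at h6
  have h7 : (u₀ k * u₀ l) * J k l = t * J k l := by
    rw [← h6]
    ring
  have h8 := mul_right_cancel₀ hl h7
  rw [← hlb]
  exact h8

end Pool.Agent.H76Q
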