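import Pool.Agent.Lib.H76Q.Q2
import Pool.Agent.Lib.H76Q.B1
import Pool.Agent.Lib.H76Q.B2

/-!
# the lift and local data
-/

set_option autoImplicit false
set_option linter.unusedSectionVars false
namespace Pool.Agent.H76Q
open Module Matrix Pool.Agent.H53Toric
open Pool.Agent.H76P
open Pool.Agent.H76T (IsIdeal Fam)
open Pool.Agent.H76V (Cmp)

variable {κ : Type*} [Fintype κ] [DecidableEq κ] [Nonempty κ] {Y : Submodule ℚ (κ → ℚ)}
  {P : Module.End ℚ Y} {Ω : Type*} [Field Ω] {a : κ → Ω}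

/-- PROOF. For `k`, `k'` and `c` as in `Lift.rat` (`Sp.exists_mx`): `i (t k) / i (t k') = i (a c) / i (a k') = u k / u k'` because
`u c = u k`, `r c = r k'`. -/
theorem Lift.eq_c {t : κ → Ω} (ht : Lift P a t) (ha0 : ∀ k, a k ≠ 0) (hP : Sp P) {K : Type*}
    [Field K] {i : Ω →+* K} {u r : κ → K} (hl : LD P a i u r) :
    ∃ c : K, c ≠ 0 ∧ ∀ k, u k = c * i (t k) := by
  obtain ⟨k0⟩ := (inferInstance : Nonempty κ)
  have h0 : i (a k0) ≠ 0 := (map_ne_zero i).2 (ha0 k0)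
  rw [hl.prod k0] at h0
  have hu0 : u k0 ≠ 0 := left_ne_zero_of_mul h0
  have hr0 : r k0 ≠ 0 := right_ne_zero_of_mul h0
  have ht0 : i (t k0) ≠ 0 := (map_ne_zero i).2 (ht.ne k0)
  refine ⟨u k0 / i (t k0), div_ne_zero hu0 ht0, fun k => ?_⟩
  obtain ⟨c, hc1, hc2⟩ := hP.exists_mx k k0
  have h1 := congrArg i (ht.rat k k0 c hc1 hc2)
  rw [map_mul, map_mul, hl.prod k0, hl.prod c, hl.fu c k hc1, hl.fr c k0 hc2] at h1
  have h2 : i (t k) * u k0 = i (t k0) * u k := by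
    apply mul_right_cancel₀ hr0
    linear_combination h1
  field_simp
  linear_combination -h2

theorem d2_sub (P : Module.End ℚ Y) : (1 : Module.End ℚ Y) - (1 - P) = P := by
  ext x k
  simp

theorem d2_stab {σ : Equiv.Perm κ} (h : StabP P σ) : StabP (1 - P) σ := by
  refine ⟨h.2, ?_⟩
  rw [d2_sub]
  exact h.1

/-- PROOF. `m = t k₀ * t (bar k₀)`.  `i (t k * t (bar k)) = c⁻² u k u (bar k) = c⁻² l` (`Lift.eq_c`) does not depend on `k`.  Invariance: `s m = t (σ k₀) * t (σ (bar k₀))`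
and `σ (bar k₀) = bar (σ k₀)` because `a (σ k) * a (σ (bar k)) = s q = q` and `a` is injective. -/
theorem Lift.exists_m {t : κ → Ω} (ht : Lift P a t) (ha : Function.Injective a)
    (ha0 : ∀ k, a k ≠ 0) (hP : Sp P) {q : Ω}
    {bar : Equiv.Perm κ} (hbar : ∀ k, a k * a (bar k) = q) {K : Type*} [Field K] {i : Ω →+* K}
    {u r : κ → K} (hl : LD P a i u r) {l : K} (hu : ∀ k, u k * u (bar k) = l) :
    ∃ m : Ω, m ≠ 0 ∧ (∀ k, t k * t (bar k) = m) ∧
      ∀ (s : Ω ≃+* Ω) (σ : Equiv.Perm κ), s q = q → (∀ k, s (a k) = a (σ k)) → StabP P σ →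
        s m = m := by
  obtain ⟨k0⟩ := (inferInstance : Nonempty κ)
  obtain ⟨c, hc, huc⟩ := ht.eq_c ha0 hP hl
  have key : ∀ k, t k * t (bar k) = t k0 * t (bar k0) := by
    intro k
    apply i.injective
    have h1 := hu k
    have h2 := hu k0
    rw [huc k, huc (bar k)] at h1
    rw [huc k0, huc (bar k0)] at h2
    rw [map_mul, map_mul]
    have hcc : c * c ≠ 0 := mul_ne_zero hc hc
    apply mul_left_cancel₀ hcc
    linear_combination h1 - h2
  refine ⟨t k0 * t (bar k0), mul_ne_zero (ht.ne _) (ht.ne _), key, fun s σ hq hs hσ => ?_⟩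
  have hb : σ (bar k0) = bar (σ k0) := by
    apply ha
    apply mul_left_cancel₀ (ha0 (σ k0))
    rw [hbar (σ k0), ← hs k0, ← hs (bar k0), ← map_mul, hbar k0, hq]
  rw [map_mul, ht.eqv s σ hs hσ k0, ht.eqv s σ hs hσ (bar k0), hb]
  exact key (σ k0)

/-- PROOF. By `Lift.eq_c` for `P` (with `u`) and for `1 - P` (with `r`, `u` exchanged): `i (t k * t' k) = c⁻¹ c'⁻¹ u k r k = c⁻¹ c'⁻¹ i (a k)`; so
`x = t k * t' k / a k` does not depend on `k`.  Invariance from `eqv`.  (`StabP (1 - P) σ` follows from `StabP P σ`.)  The last statement: multiply the relations for `k` and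
`bar k`. -/
theorem Lift.exists_x {t t' : κ → Ω} (ht : Lift P a t) (ht' : Lift (1 - P) a t')
    (ha0 : ∀ k, a k ≠ 0) (hP : Sp P) {q : Ω} {bar : Equiv.Perm κ}
    (hbar : ∀ k, a k * a (bar k) = q) {K : Type*} [Field K] {i : Ω →+* K}
    {u r : κ → K} (hl : LD P a i u r) :
    ∃ x : Ω, x ≠ 0 ∧ (∀ (s : Ω ≃+* Ω) (σ : Equiv.Perm κ), (∀ k, s (a k) = a (σ k)) → StabP P σ →
        s x = x) ∧
      ∀ m m' : Ω, (∀ k, t k * t (bar k) = m) → (∀ k, t' k * t' (bar k) = m') →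
        m * m' = x ^ 2 * q := by
  obtain ⟨k0⟩ := (inferInstance : Nonempty κ)
  obtain ⟨c, hc, huc⟩ := ht.eq_c ha0 hP hl
  have hl' : LD (1 - P) a i r u := by
    refine ⟨fun k => by rw [hl.prod k, mul_comm], hl.fr, ?_⟩
    rw [d2_sub]
    exact hl.fu
  obtain ⟨c', hc', hrc⟩ := ht'.eq_c ha0 hP.compl hl'
  have key : ∀ k, t k * t' k = t k0 * t' k0 / a k0 * a k := by
    intro k
    apply i.injective
    have h1 := hl.prod k
    have h2 := hl.prod k0
    rw [huc k, hrc k] at h1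
    rw [huc k0, hrc k0] at h2
    have h3 : i (a k0) ≠ 0 := (map_ne_zero i).2 (ha0 k0)
    have h4 : i (t k0 * t' k0 / a k0 * a k) = i (t k0) * i (t' k0) / i (a k0) * i (a k) := by
      simp only [map_mul, map_div₀]
    rw [h4, map_mul, div_mul_eq_mul_div, eq_div_iff h3, h1, h2]
    ring
  refine ⟨t k0 * t' k0 / a k0, div_ne_zero (mul_ne_zero (ht.ne _) (ht'.ne _)) (ha0 _),
    fun s σ hs hσ => ?_, fun m m' hm hm' => ?_⟩
  · rw [map_div₀, map_mul, ht.eqv s σ hs hσ k0, ht'.eqv s σ hs (d2_stab hσ) k0, hs k0,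
      key (σ k0), mul_div_assoc, div_self (ha0 (σ k0)), mul_one]
  · rw [← hm k0, ← hm' k0, ← hbar k0]
    have h1 := key k0
    have h2 := key (bar k0)
    calc t k0 * t (bar k0) * (t' k0 * t' (bar k0)) = (t k0 * t' k0) * (t (bar k0) * t' (bar k0)) := by
          ring
      _ = (t k0 * t' k0 / a k0 * a k0) * (t k0 * t' k0 / a k0 * a (bar k0)) := by
          rw [← h1, ← h2]
      _ = (t k0 * t' k0 / a k0) ^ 2 * (a k0 * a (bar k0)) := by ring

end Pool.Agent.H76Q
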