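import Pool.Agent.Lib.H76Q.Q2
import Pool.Agent.Lib.H76Q.B2

/-!
# semilinear automorphisms
-/

set_option autoImplicit false
set_option linter.unusedSectionVars false
namespace Pool.Agent.H76Q
open Module Matrix Pool.Agent.H53Toric
open Pool.Agent.H76P
open Pool.Agent.H76T (IsIdeal Fam)
open Pool.Agent.H76V (Cmp)

variable {κ : Type*} {K : Type*} [Field K] [CharZero K] [Fintype κ] [DecidableEq κ]
  {L : Submodule K (Module.End K (κ → K))} {J : Matrix κ κ K} [IsAlgClosed K] [Nonempty κ]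
  {Y : Submodule ℚ (κ → ℚ)} {P : Module.End ℚ Y}

theorem e1_dq {θ : Module.End K (κ → K) ≃+* Module.End K (κ → K)} {τ : K ≃+* K}
    {σ : Equiv.Perm κ} (hθ : Theta L J θ τ σ) (f : κ → ℚ) : θ (dq (f ∘ σ)) = dq f := by
  unfold dq
  rw [hθ.diag]
  congr 1
  funext k
  rw [Function.comp_apply, Equiv.apply_symm_apply, map_ratCast]

theorem e1_ideal {θ : Module.End K (κ → K) ≃+* Module.End K (κ → K)} {τ : K ≃+* K}
    {σ : Equiv.Perm κ} (hθ : Theta L J θ τ σ) {M : Submodule K (Module.End K (κ → K))}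
    (hM : IsIdeal L M) : IsIdeal L (H76T.mv τ θ hθ.smul M) := by
  refine ⟨fun X hX => ?_, fun X hX Y hY => ?_⟩
  · have h1 := (hθ.mem _).2 (hM.1 (H76T.mem_mv.1 hX))
    rwa [RingEquiv.apply_symm_apply] at h1
  · rw [H76T.mem_mv, map_sub, map_mul, map_mul]
    refine hM.2 _ ((hθ.mem _).1 ?_) _ (H76T.mem_mv.1 hY)
    rwa [RingEquiv.apply_symm_apply]

/-- PROOF. `Yo L` is spanned by `Hs L`; for `ε ∈ Hs L` `θ (dq (ε ∘ σ)) = dq ε` (`Theta.diag`: the values are rational), so `dq (ε ∘ σ) ∈ L` (`Theta.mem`). -/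
theorem Theta.perm {θ : Module.End K (κ → K) ≃+* Module.End K (κ → K)} {τ : K ≃+* K}
    {σ : Equiv.Perm κ} (hθ : Theta L J θ τ σ) {f : κ → ℚ} (hf : f ∈ Yo L) : f ∘ σ ∈ Yo L := by
  unfold Yo at hf ⊢
  induction hf using Submodule.span_induction with
  | mem ε hε =>
    refine Submodule.subset_span ⟨fun a => hε.1 (σ a), (hθ.mem _).1 ?_⟩
    rw [e1_dq hθ]
    exact hε.2
  | zero => exact Submodule.zero_mem _
  | add f g _ _ hf hg => exact Submodule.add_mem _ hf hg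
  | smul c f _ hf => exact Submodule.smul_mem _ c hf

/-- PROOF. Let `I` be an ideal of `L` with `InP P I`; the image `I'` of `I` under `θ` (`H76T.mv`) is an ideal (`Theta.mem`); if `f ∈ Y` and `dq f ∈ I'`, then
`dq (f ∘ σ) ∈ I` (`Theta.diag`), `f ∘ σ ∈ Y` (`Theta.perm`), so `f ∘ σ` depends only on the first coordinate, and so does `f` (`StabP`). -/
theorem Theta.AZ {θ : Module.End K (κ → K) ≃+* Module.End K (κ → K)} {τ : K ≃+* K}
    {σ : Equiv.Perm κ} (hθ : Theta L J θ τ σ) (hY : Yo L = Y) (hst : StabP P σ)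
    {X : Module.End K (κ → K)} (hX : X ∈ AZ L P) : θ X ∈ AZ L P := by
  unfold H76Q.AZ at hX ⊢
  induction hX using Algebra.adjoin_induction with
  | mem X hX =>
    obtain ⟨I, hI, hP, hXI⟩ := hX
    refine Algebra.subset_adjoin ⟨_, e1_ideal hθ hI, ?_, (H76T.mem_mv' (hθ := hθ.smul)).2 hXI⟩
    intro f hf hfI k k' hkk
    have h1 : dq (f ∘ σ) ∈ I := by
      have h2 := H76T.mem_mv.1 hfI
      rwa [← e1_dq hθ f, RingEquiv.symm_apply_apply] at h2
    have h3 : f ∘ σ ∈ Y := by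
      rw [← hY]
      exact hθ.perm (hY ▸ hf)
    have h4 := hP (f ∘ σ) h3 h1 (σ.symm k) (σ.symm k') ((hst.1 _ _).2 (by
      rwa [Equiv.apply_symm_apply, Equiv.apply_symm_apply]))
    rwa [Function.comp_apply, Function.comp_apply, Equiv.apply_symm_apply, Equiv.apply_symm_apply] at h4
  | algebraMap r =>
    rw [Algebra.algebraMap_eq_smul_one, hθ.smul, map_one]
    exact Subalgebra.smul_mem _ (Subalgebra.one_mem _) _
  | add X X' _ _ h h' => rw [map_add]; exact Subalgebra.add_mem _ h h'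
  | mul X X' _ _ h h' => rw [map_mul]; exact Subalgebra.mul_mem _ h h'

/-- PROOF. `θ X = θ u * θ r` is a pure tensor with multiplier `τ t` (`Theta.AZ` for `P` and for `1 - P`, `Theta.adj`, `Theta.smul`). -/
theorem Theta.pt {θ : Module.End K (κ → K) ≃+* Module.End K (κ → K)} {τ : K ≃+* K}
    {σ : Equiv.Perm κ} (hθ : Theta L J θ τ σ) (hY : Yo L = Y) (hst : StabP P σ)
    {X u r : Module.End K (κ → K)} {t : K} (h1 : PT L J P X u r t) :
    PT L J P (θ X) (θ u) (θ r) (τ t) := by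
  obtain ⟨hu, hr, hX, ht, hut, t', ht', hrt⟩ := h1
  have hPP : (1 : Module.End ℚ Y) - (1 - P) = P := sub_sub_cancel 1 P
  have hst' : StabP (1 - P) σ := ⟨hst.2, fun k k' => hPP.symm ▸ hst.1 k k'⟩
  refine ⟨hθ.AZ hY hst hu, hθ.AZ hY hst' hr, by rw [hX, map_mul], ?_, ?_, τ t', ?_, ?_⟩
  · exact fun h0 => ht ((map_eq_zero τ).1 h0)
  · rw [← hθ.adj, ← map_mul, hut, hθ.smul, map_one]
  · exact fun h0 => ht' ((map_eq_zero τ).1 h0)
  · rw [← hθ.adj, ← map_mul, hrt, hθ.smul, map_one]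

end Pool.Agent.H76Q
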