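import Pool.Agent.Lib.H76Q.Q2
import Pool.Agent.Lib.H76Q.B2
import Pool.Agent.Lib.H76Q.C1
import Pool.Agent.Lib.H76Q.C2
import Pool.Agent.Lib.H76Q.C3
import Pool.Agent.Lib.H76Q.C5
import Pool.Agent.Lib.H76Q.E1

/-!
# rational pure tensors
-/

set_option autoImplicit false
set_option linter.unusedSectionVars false
namespace Pool.Agent.H76Q
open Module Matrix Pool.Agent.H53Toric
open Pool.Agent.H76P
open Pool.Agent.H76T (IsIdeal Fam)
open Pool.Agent.H76V (Cmp)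

variable {κ : Type*} {K : Type*} [Field K] [CharZero K] [Fintype κ] [DecidableEq κ]
  {L : Submodule K (Module.End K (κ → K))} {J : Matrix κ κ K} [IsAlgClosed K] [Nonempty κ]
  {Y : Submodule ℚ (κ → ℚ)} {P : Module.End ℚ Y}

/-- The conditions on a set `T` of semilinear automorphisms: each `θ ∈ T` respects `P`, and there is a
space of linear forms which separates the operators and on which `θ` acts semilinearly. -/
def TSet (L : Submodule K (Module.End K (κ → K))) (J : Matrix κ κ K) (P : Module.End ℚ Y)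
    (T : Set ((Module.End K (κ → K) ≃+* Module.End K (κ → K)) × (K ≃+* K)))
    (W : Set (Module.End K (κ → K) →ₗ[K] K)) : Prop :=
  (∀ x ∈ T, ∃ σ, Theta L J x.1 x.2 σ ∧ StabP P σ) ∧
  (∀ x ∈ T, ∀ w ∈ W, ∀ X, w (x.1 X) = x.2 (w X)) ∧ ∀ X, X ≠ 0 → ∃ w ∈ W, w X ≠ 0

/-- PROOF. `u ≠ 0` (`t ≠ 0`); let `w u ≠ 0`, `c = (w u)⁻¹`.  For `x = (θ, τ) ∈ T`: `θ X = X`, so by `Theta.pt` and `PT_unique` `θ u = d • u`;
`w (θ u) = τ (w u)` gives `d * w u = τ (w u)`, so `θ (c • u) = τ c • d • u = c • u`.  The second statement: `θ (adjE J u * u) = adjE J (θ u) * θ u`. -/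
theorem exists_norm (h : TS L J) (hY : Yo L = Y) (hP : Sp P) (hc : Comp L P)
    {T : Set ((Module.End K (κ → K) ≃+* Module.End K (κ → K)) × (K ≃+* K))}
    {W : Set (Module.End K (κ → K) →ₗ[K] K)} (hT : TSet L J P T W)
    {X u r : Module.End K (κ → K)} {t : K} (h1 : PT L J P X u r t)
    (hX : ∀ x ∈ T, x.1 X = X) {w : Module.End K (κ → K) →ₗ[K] K} (hw : w ∈ W) (hwu : w u ≠ 0) :
    ∀ x ∈ T, x.1 ((w u)⁻¹ • u) = (w u)⁻¹ • u ∧ x.2 ((w u)⁻¹ ^ 2 * t) = (w u)⁻¹ ^ 2 * t := by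
  intro x hx
  obtain ⟨σ, hθ, hst⟩ := hT.1 x hx
  have h2 : PT L J P (x.1 X) (x.1 u) (x.1 r) (x.2 t) := hθ.pt hY hst h1
  rw [hX x hx] at h2
  obtain ⟨c, hc0, hcu, hct⟩ := PT_unique h hY hP hc h1 h2
  have h3 : c * w u = x.2 (w u) := by
    rw [← hT.2.1 x hx w hw u, hcu, map_smul, smul_eq_mul]
  constructor
  · rw [hθ.smul, map_inv₀, ← h3, hcu, smul_smul, mul_inv, mul_assoc, mul_comm (w u)⁻¹ c,
      ← mul_assoc, inv_mul_cancel₀ hc0, one_mul]
  · rw [map_mul, map_pow, map_inv₀, ← h3, hct]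
    field_simp

/-- PROOF. Induction over the closure.  `(c • u, c⁻¹ • r)` with `c` as in `exists_norm` is a factorisation of `X` with `u` fixed and fixed multiplier `t`; for `X * X` the
factorisation `(u * u, r * r)` has multiplier `t ^ 2` (`PT_mul`). -/
theorem squares (h : TS L J) (hY : Yo L = Y) (hP : Sp P) (hc : Comp L P)
    {T : Set ((Module.End K (κ → K) ≃+* Module.End K (κ → K)) × (K ≃+* K))}
    {W : Set (Module.End K (κ → K) →ₗ[K] K)} (hT : TSet L J P T W)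
    {A : Set (Module.End K (κ → K))} (hA : ∀ X ∈ A, (∃ u r t, PT L J P X u r t) ∧ ∀ x ∈ T, x.1 X = X)
    {X : Module.End K (κ → K)} (hX : X ∈ Submonoid.closure {Z | ∃ X ∈ A, Z = X * X}) :
    ∃ u r c, PT L J P X u r (c ^ 2) ∧ c ≠ 0 ∧ ∀ x ∈ T, x.1 u = u ∧ x.2 c = c := by
  induction hX using Submonoid.closure_induction with
  | mem Z hZ =>
    obtain ⟨X, hXA, rfl⟩ := hZ
    obtain ⟨⟨u, r, t, h1⟩, hfix⟩ := hA X hXA
    have hu0 : u ≠ 0 := by
      intro h0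
      have h2 := h1.2.2.2.2.1
      rw [h0, mul_zero] at h2
      have h3 : t • (1 : Module.End K (κ → K)) ≠ 0 := smul_ne_zero h1.2.2.2.1 one_ne_zero
      exact h3 h2.symm
    obtain ⟨w, hw, hwu⟩ := hT.2.2 u hu0
    have hn := exists_norm h hY hP hc hT h1 hfix hw hwu
    obtain ⟨hu, hr, hXur, ht, hadj, t', ht', hadj'⟩ := h1
    have h2 : PT L J P X ((w u)⁻¹ • u) ((w u) • r) ((w u)⁻¹ ^ 2 * t) := by
      refine ⟨(AZ L P).smul_mem hu _, (AZ L (1 - P)).smul_mem hr _, ?_, ?_, ?_,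
        (w u) ^ 2 * t', ?_, ?_⟩
      · rw [smul_mul_smul_comm, inv_mul_cancel₀ hwu, one_smul]
        exact hXur
      · exact mul_ne_zero (pow_ne_zero 2 (inv_ne_zero hwu)) ht
      · rw [map_smul, smul_mul_smul_comm, hadj, smul_smul, pow_two]
      · exact mul_ne_zero (pow_ne_zero 2 hwu) ht'
      · rw [map_smul, smul_mul_smul_comm, hadj', smul_smul, pow_two]
    have h3 := PT_mul h hY hP h2 h2
    rw [← pow_two ((w u)⁻¹ ^ 2 * t)] at h3
    refine ⟨_, _, _, h3, ?_, ?_⟩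
    · exact mul_ne_zero (pow_ne_zero 2 (inv_ne_zero hwu)) ht
    · intro x hx
      obtain ⟨h4, h5⟩ := hn x hx
      exact ⟨by rw [map_mul, h4], h5⟩
  | one =>
    have h1 : PT L J P 1 1 1 (1 : K) := PT_one h
    refine ⟨1, 1, 1, ?_, one_ne_zero, fun x _ => ⟨map_one _, map_one _⟩⟩
    rw [one_pow]
    exact h1
  | mul X X' _ _ ih ih' =>
    obtain ⟨u, r, c, h1, hc0, hfix⟩ := ih
    obtain ⟨u', r', c', h1', hc0', hfix'⟩ := ih'
    have h2 := PT_mul h hY hP h1 h1'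
    rw [← mul_pow] at h2
    refine ⟨_, _, _, h2, mul_ne_zero hc0 hc0', fun x hx => ⟨?_, ?_⟩⟩
    · rw [map_mul, (hfix x hx).1, (hfix' x hx).1]
    · rw [map_mul, (hfix x hx).2, (hfix' x hx).2]

end Pool.Agent.H76Q
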