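import Pool.Agent.Lib.H76Q.Q3

/-!
# the semilinear automorphism of an automorphism of the field
-/

set_option autoImplicit false
set_option linter.unusedSectionVars false
namespace Pool.Agent.H76Q
open Module Matrix Polynomial Pool.Agent.H53Toric
open Pool.Agent.H76P
open Pool.Agent.H76T (IsIdeal Fam Lc)
open Pool.Agent.H76V (Cmp)
open Pool.Agent.H76U (cmp preL IsSplitting)
open Pool.Agent.H76RM (spanK similD)

variable {ι : Type*} [Fintype ι] [DecidableEq ι] {K : Type*} [Field K] [CharZero K]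
  [IsAlgClosed K] {J : Matrix ι ι K} {S 𝓗 : Set (Matrix ι ι K)} {e x : Matrix ι ι K} {q : K} {n : ℕ}
  {U : Matrix ι (Fin n) K} {V : Matrix (Fin n) ι K} {d : Fin n → K}
  {Y : Submodule ℚ (Fin n → ℚ)}

/-- PROOF. If `f` vanishes on `S`, so does the polynomial `f'` with coefficients `τ⁻¹` of those of `f` (`s.map τ = s`); `ev (s.map τ) (f) = τ (ev s f')`, `der (A.map τ) f` has the value
`τ (ev s (der A f'))` at `s = s.map τ`. -/
theorem zlie_map {S : Set (Matrix ι ι K)} {τ : K ≃+* K} (hS : ∀ s ∈ S, s.map τ = s)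
    {A : Matrix ι ι K} : A.map τ ∈ zlie S ↔ A ∈ zlie S := by
  constructor
  · intro hA
    have hS' : ∀ s ∈ S, s.map τ.symm = s := by
      intro s hs
      nth_rw 1 [← hS s hs]
      exact H76T.map_symmm τ s
    have h1 := H76T.zlie_map τ.symm hS' hA
    rwa [H76T.map_symmm] at h1
  · exact H76T.zlie_map τ hS

theorem e3_map_mul {l m n : Type*} [Fintype m] (τ : K ≃+* K) (X : Matrix l m K) (Y : Matrix m n K) :
    (X * Y).map τ = X.map τ * Y.map τ := by
  have : (X * Y).map (τ : K →+* K) = X.map (τ : K →+* K) * Y.map (τ : K →+* K) := Matrix.map_mul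
  exact this

theorem e3_preL {τ : K ≃+* K} (hJ : J.map τ = J) (hS : ∀ s ∈ S, s.map τ = s) {A : Matrix ι ι K}
    (hA : A ∈ preL J S) : A.map τ ∈ preL J S := by
  obtain ⟨⟨c, C, hC, hAC⟩, d, hd⟩ := hA
  refine ⟨⟨τ c, C.map τ, H76T.zlie_map τ hS hC, ?_⟩, τ d, ?_⟩
  · rw [hAC, H76T.map_addm, H76T.map_smulm, H76T.map_onem]
  · have e : (A.map τ)ᵀ = (Aᵀ).map τ := rfl
    calc (A.map τ)ᵀ * J + J * A.map τ = (Aᵀ * J + J * A).map τ := by
          rw [H76T.map_addm, H76T.map_mulm, H76T.map_mulm, hJ, e]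
      _ = _ := by rw [hd, H76T.map_smulm, hJ]

/-- PROOF. `C = V * U.map τ`, `C' = V.map τ * U`: `C * C' = 1` (`U * V = e`, `e.map τ = e`, `V * U = 1`).  `θ X = phi (C * (toMatrix' X).map τ * C')`.  It is a ring automorphism (inverse: the same
with `τ⁻¹`).  `diag`: `x * U.map τ = U.map τ * diagonal (τ ∘ d)`, so the column `k` of `U.map τ = U * C` is an eigenvector with eigenvalue `τ (d k) = d (σ k)`, i.e. `C l k ≠ 0` only for
`l = σ k` (`d` injective).  `mem`: for `A ∈ preL J S` `A.map τ ∈ preL J S` (`zlie_map`, `J.map τ = J`), it commutes with `e`, and `θ (phi (cmp U V A)) = phi (cmp U V (A.map τ))`; skew elements go to skew elements by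
`adj`.  `adj`: `J' = Uᵀ J U`, `J'.map τ = Cᵀ J' C`.  The last statement: `U * (C * X^τ * C') * V = e * (U X V)^τ * e`. -/
theorem exists_theta (h : Loc J S 𝓗 e x q U V d Y) {τ : K ≃+* K} (he : e.map τ = e)
    (hx : x.map τ = x) (hJ : J.map τ = J) (hS : ∀ s ∈ S, s.map τ = s)
    {σ : Equiv.Perm (Fin n)} (hσ : ∀ k, τ (d k) = d (σ k)) :
    ∃ θ : Module.End K (Fin n → K) ≃+* Module.End K (Fin n → K),
      Theta (Lc J S U V) (Uᵀ * J * U) θ τ σ ∧
      ∀ X, (U * LinearMap.toMatrix' X * V).map τ = U * LinearMap.toMatrix' (θ X) * V := by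
  have hUV := h.UV
  have hVU := h.VU
  have hVe : V * e = V := by rw [hUV, ← Matrix.mul_assoc, hVU, Matrix.one_mul]
  have heU : e * U = U := by rw [hUV, Matrix.mul_assoc, hVU, Matrix.mul_one]
  have heUt : e * U.map τ = U.map τ := by
    nth_rw 1 [← he]
    rw [← e3_map_mul, heU]
  have hVte : V.map τ * e = V.map τ := by
    nth_rw 1 [← he]
    rw [← e3_map_mul, hVe]
  have hUVt : U.map τ * V.map τ = e := by rw [← e3_map_mul, ← hUV, he]
  obtain ⟨C, hC⟩ : ∃ C, C = V * U.map τ := ⟨_, rfl⟩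
  obtain ⟨C', hC'⟩ : ∃ C', C' = V.map τ * U := ⟨_, rfl⟩
  have hCC : C * C' = 1 := by
    calc C * C' = V * (U.map τ * V.map τ) * U := by rw [hC, hC']; simp only [Matrix.mul_assoc]
      _ = 1 := by rw [hUVt, hVe, hVU]
  have hCl : ∀ l k, C l k ≠ 0 → l = σ k := by
    intro l k hne
    have hVx : V * x = Matrix.diagonal d * V := by
      calc V * x = V * e * x := by rw [hVe]
        _ = V * (x * U) * V := by
            rw [Matrix.mul_assoc V e x, h.ex, hUV]
            simp only [Matrix.mul_assoc]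
        _ = V * U * Matrix.diagonal d * V := by rw [h.ec.eig]; simp only [Matrix.mul_assoc]
        _ = _ := by rw [hVU, Matrix.one_mul]
    have hxU : x * U.map τ = U.map τ * Matrix.diagonal (fun k => d (σ k)) := by
      have h1 := congrArg (fun M : Matrix ι (Fin n) K => M.map τ) h.ec.eig
      beta_reduce at h1
      rw [e3_map_mul, e3_map_mul, hx] at h1
      rw [h1]
      congr 1
      ext a b
      rw [Matrix.map_apply, Matrix.diagonal_apply, Matrix.diagonal_apply]
      split_ifs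
      · exact hσ a
      · exact map_zero τ
    have h2 : Matrix.diagonal d * C = C * Matrix.diagonal (fun k => d (σ k)) := by
      rw [hC, ← Matrix.mul_assoc, ← hVx, Matrix.mul_assoc, hxU, Matrix.mul_assoc]
    have h3 := congrFun (congrFun h2 l) k
    rw [Matrix.diagonal_mul, Matrix.mul_diagonal, mul_comm (C l k)] at h3
    exact h.ec.inj (mul_right_cancel₀ hne h3)
  obtain ⟨J', hJ'⟩ : ∃ J', J' = Uᵀ * J * U := ⟨_, rfl⟩
  have hJd : IsUnit J'.det := by rw [hJ']; exact h.ts.cmp.Jd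
  have hJi : J'⁻¹ * J' = 1 := Matrix.nonsing_inv_mul _ hJd
  have hJi' : J' * J'⁻¹ = 1 := Matrix.mul_nonsing_inv _ hJd
  have hJt : J'.map τ = Cᵀ * J' * C := by
    have e1 : (Uᵀ).map τ = (U.map τ)ᵀ := rfl
    have e2 : (U.map τ)ᵀ * eᵀ = (U.map τ)ᵀ := by rw [← Matrix.transpose_mul, heUt]
    calc J'.map τ = (U.map τ)ᵀ * J * U.map τ := by rw [hJ', e3_map_mul, e3_map_mul, hJ, e1]
      _ = ((U.map τ)ᵀ * eᵀ) * J * (e * U.map τ) := by rw [e2, heUt]
      _ = (V * U.map τ)ᵀ * (Uᵀ * J * U) * (V * U.map τ) := by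
          rw [hUV, Matrix.transpose_mul, Matrix.transpose_mul]
          simp only [Matrix.mul_assoc]
      _ = _ := by rw [← hC, ← hJ']
  have hJC : J'.map τ * C' = Cᵀ * J' := by rw [hJt, Matrix.mul_assoc, hCC, Matrix.mul_one]
  have hCt : C'ᵀ * Cᵀ = 1 := by rw [← Matrix.transpose_mul, hCC, Matrix.transpose_one]
  have hCJ : C * (J'⁻¹).map τ = J'⁻¹ * C'ᵀ := by
    have h1 : J'.map τ * (J'⁻¹).map τ = 1 := by rw [← H76T.map_mulm, hJi', H76T.map_onem]
    calc C * (J'⁻¹).map τ = (J'⁻¹ * (C'ᵀ * Cᵀ) * J') * (C * (J'⁻¹).map τ) := by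
          rw [hCt, Matrix.mul_one, hJi, Matrix.one_mul]
      _ = J'⁻¹ * C'ᵀ * ((Cᵀ * J' * C) * (J'⁻¹).map τ) := by simp only [Matrix.mul_assoc]
      _ = _ := by rw [← hJt, h1, Matrix.mul_one]
  have hmat : ∀ X : Module.End K (Fin n → K), ∃ y : Matrix (Fin n) (Fin n) K, X = phi y ∧
      LinearMap.toMatrix' X = y := by
    intro X
    obtain ⟨y, rfl⟩ := (phi (ι := Fin n) (K := K)).surjective X
    exact ⟨y, rfl, (phi (ι := Fin n) (K := K)).symm_apply_apply y⟩
  have hadj : ∀ X : Module.End K (Fin n → K), H76T.tht τ hCC (adjE J' X) = adjE J' (H76T.tht τ hCC X) := by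
    intro X
    obtain ⟨y, rfl, -⟩ := hmat X
    rw [H76T.tht_apply, adjE_phi, adjE_phi, H76T.tht_apply]
    congr 1
    rw [H76T.map_mulm, H76T.map_mulm, Matrix.transpose_mul, Matrix.transpose_mul]
    have e4 : (yᵀ).map τ = (y.map τ)ᵀ := rfl
    rw [e4]
    calc C * ((J'⁻¹).map τ * (y.map τ)ᵀ * J'.map τ) * C' =
        (C * (J'⁻¹).map τ) * (y.map τ)ᵀ * (J'.map τ * C') := by simp only [Matrix.mul_assoc]
      _ = _ := by rw [hCJ, hJC]; simp only [Matrix.mul_assoc]
  have hcmp : ∀ A : Matrix ι ι K, H76T.tht τ hCC (phi (cmp U V A)) = phi (cmp U V (A.map τ)) := by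
    intro A
    rw [H76T.tht_apply]
    congr 1
    rw [H76U.cmp_apply, H76U.cmp_apply, e3_map_mul, e3_map_mul, hC, hC']
    calc V * U.map τ * (V.map τ * A.map τ * U.map τ) * (V.map τ * U) =
        V * (U.map τ * V.map τ) * A.map τ * ((U.map τ * V.map τ) * U) := by
          simp only [Matrix.mul_assoc]
      _ = _ := by rw [hUVt, hVe, heU]
  have hS' : ∀ s ∈ S, s.map τ.symm = s := by
    intro s hs
    nth_rw 1 [← hS s hs]
    exact H76T.map_symmm τ s
  have hJs : J.map τ.symm = J := by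
    nth_rw 1 [← hJ]
    exact H76T.map_symmm τ J
  have hLb : ∀ X : Module.End K (Fin n → K), H76T.tht τ hCC X ∈ H76U.Lb J S U V ↔ X ∈ H76U.Lb J S U V := by
    intro X
    constructor
    · intro hX
      obtain ⟨y, hy, -⟩ := hmat (H76T.tht τ hCC X)
      rw [hy] at hX
      obtain ⟨A, hA, hAy⟩ := H76U.mem_Lb.1 hX
      have h1 : H76T.tht τ hCC (phi (cmp U V (A.map τ.symm))) = H76T.tht τ hCC X := by
        rw [hcmp, H76T.map_symmm', hAy, hy]
      rw [← (H76T.tht τ hCC).injective h1]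
      exact H76U.mem_Lb.2 ⟨_, e3_preL hJs hS' hA, rfl⟩
    · intro hX
      obtain ⟨y, rfl, -⟩ := hmat X
      obtain ⟨A, hA, rfl⟩ := H76U.mem_Lb.1 hX
      rw [hcmp]
      exact H76U.mem_Lb.2 ⟨_, e3_preL hJ hS hA, rfl⟩
  refine ⟨H76T.tht τ hCC, ⟨H76T.tht_smul τ hCC, fun g => ?_, fun X => ?_, fun X => ?_⟩, fun X => ?_⟩
  · rw [← phi_diag, H76T.tht_apply, ← phi_diag]
    congr 1
    have h1 : C * (Matrix.diagonal g).map τ = Matrix.diagonal (fun k => τ (g (σ.symm k))) * C := by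
      have h2 : (Matrix.diagonal g).map τ = Matrix.diagonal (fun k => τ (g k)) := by
        ext a b
        rw [Matrix.map_apply, Matrix.diagonal_apply, Matrix.diagonal_apply]
        split_ifs
        · rfl
        · exact map_zero τ
      rw [h2]
      ext l k
      rw [Matrix.diagonal_mul, Matrix.mul_diagonal]
      by_cases hz : C l k = 0
      · rw [hz, zero_mul, mul_zero]
      · rw [hCl l k hz, Equiv.symm_apply_apply, mul_comm]
    rw [h1, Matrix.mul_assoc, hCC, Matrix.mul_one]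
  · rw [H76T.mem_Lc, H76T.mem_Lc, hLb, ← hJ', ← hadj, ← map_neg, (H76T.tht τ hCC).injective.eq_iff]
  · rw [← hJ']
    exact hadj X
  · obtain ⟨y, rfl, hy⟩ := hmat X
    rw [hy, H76T.tht_apply]
    have h1 : LinearMap.toMatrix' (phi (C * y.map τ * C')) = C * y.map τ * C' :=
      (phi (ι := Fin n) (K := K)).symm_apply_apply _
    rw [h1, e3_map_mul, e3_map_mul, hC, hC']
    calc U.map τ * y.map τ * V.map τ = (e * U.map τ) * y.map τ * (V.map τ * e) := by rw [heUt, hVte]
      _ = _ := by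
          rw [hUV]
          simp only [Matrix.mul_assoc]

end Pool.Agent.H76Q
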