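import Pool.Agent.Lib.H76Q.Q3

/-!
# automorphisms of closures
-/

set_option autoImplicit false
set_option linter.unusedSectionVars false
namespace Pool.Agent.H76Q
open Module Matrix Polynomial Pool.Agent.H53Toric
open Pool.Agent.H76P
open Pool.Agent.H76T (IsIdeal Fam Lc)
open Pool.Agent.H76V (Cmp)
open Pool.Agent.H76U (cmp preL IsSplitting)
open Pool.Agent.H76RM (spanK similD)

variable {ι : Type*} [Fintype ι] [DecidableEq ι] {K : Type*} [Field K] [CharZero K]
  [IsAlgClosed K]

/-- PROOF. `Ω` is algebraic and normal over `ℚ`, so `τ (i Ω) = i Ω` (images of roots of rational polynomials). -/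
theorem exists_res {Ω : Type*} [Field Ω] [CharZero Ω] [IsAlgClosed Ω] [Algebra.IsAlgebraic ℚ Ω]
    (i : Ω →+* K) (τ : K ≃+* K) : ∃ s : Ω ≃+* Ω, ∀ y, τ (i y) = i (s y) := by
  have key : ∀ (τ : K ≃+* K) (y : Ω), ∃ z, i z = τ (i y) := by
    intro τ y
    have halg : IsAlgebraic ℚ y := Algebra.IsAlgebraic.isAlgebraic y
    obtain ⟨f, hf0, hf⟩ := halg
    have hroot : eval₂ (algebraMap ℚ K) (τ (i y)) f = 0 := by
      have h1 : ((τ : K →+* K).comp i).comp (algebraMap ℚ Ω) = algebraMap ℚ K := Subsingleton.elim _ _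
      rw [← h1]
      have h2 : eval₂ (((τ : K →+* K).comp i).comp (algebraMap ℚ Ω)) (((τ : K →+* K).comp i) y) f =
          ((τ : K →+* K).comp i) (eval₂ (algebraMap ℚ Ω) y f) := by rw [hom_eval₂]
      have h3 : eval₂ (algebraMap ℚ Ω) y f = 0 := hf
      rw [h3, map_zero] at h2
      exact h2
    have hspl : (f.map (algebraMap ℚ Ω)).Splits := IsAlgClosed.splits _
    have h4 : (f.map (algebraMap ℚ Ω)).map i = f.map (algebraMap ℚ K) := by
      rw [Polynomial.map_map]
      congr 1
      exact Subsingleton.elim _ _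
    have h5 : (f.map (algebraMap ℚ Ω)).eval₂ i (τ (i y)) = 0 := by
      rw [eval₂_eq_eval_map, h4, eval_map, hroot]
    have hne : f.map (algebraMap ℚ Ω) ≠ 0 := (Polynomial.map_ne_zero_iff (algebraMap ℚ Ω).injective).2 hf0
    have h6 : τ (i y) ∈ ((f.map (algebraMap ℚ Ω)).map i).roots := by
      rw [mem_roots ((Polynomial.map_ne_zero_iff i.injective).2 hne), IsRoot.def, eval_map, h5]
    rw [hspl.roots_map i] at h6
    obtain ⟨z, -, hz⟩ := Multiset.mem_map.1 h6
    exact ⟨z, hz⟩
  choose s hs using key τ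
  choose s' hs' using key τ.symm
  refine ⟨⟨⟨s, s', fun y => ?_, fun y => ?_⟩, fun x y => ?_, fun x y => ?_⟩, fun y => (hs y).symm⟩
  · apply i.injective
    rw [hs', hs, RingEquiv.symm_apply_apply]
  · apply i.injective
    rw [hs, hs', RingEquiv.apply_symm_apply]
  · apply i.injective
    show i (s (x * y)) = i (s x * s y)
    rw [hs, map_mul, map_mul, map_mul, hs, hs]
  · apply i.injective
    show i (s (x + y)) = i (s x + s y)
    rw [hs, map_add, map_add, map_add, hs, hs]

/-- PROOF. The closure of a field of characteristic zero is a Galois extension (`IsGalois`, `InfiniteGalois` or `IsGalois.mem_bot_iff_fixed`, `IsAlgClosure`). -/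
theorem fixed_mem {L : Type*} [Field L] [CharZero L] {y : AlgebraicClosure L}
    (hy : ∀ τ : AlgebraicClosure L ≃ₐ[L] AlgebraicClosure L, τ y = y) :
    ∃ c : L, y = algebraMap L (AlgebraicClosure L) c := by
  have h1 : y ∈ Set.range (algebraMap L (AlgebraicClosure L)) := by
    rw [InfiniteGalois.mem_range_algebraMap_iff_fixed]
    exact hy
  obtain ⟨c, hc⟩ := h1
  exact ⟨c, hc.symm⟩

/-- PROOF. `s` permutes the set of the `a k` (the roots of `(F b).map j`; `s` fixes `j M`). -/
theorem exists_perm {Ω M : Type*} [Field Ω] [Field M] {j : M →+* Ω} {f : Polynomial M} {n : ℕ}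
    {a : Fin n → Ω} (ha : Function.Injective a) (hroot : ∀ y : Ω, f.eval₂ j y = 0 ↔ ∃ k, y = a k)
    {s : Ω ≃+* Ω} (hs : ∀ c, s (j c) = j c) : ∃ σ : Equiv.Perm (Fin n), ∀ k, s (a k) = a (σ k) := by
  have h1 : ∀ k, ∃ l, s (a k) = a l := by
    intro k
    rw [← hroot]
    have h2 : (s : Ω →+* Ω).comp j = j := RingHom.ext hs
    have h3 : f.eval₂ ((s : Ω →+* Ω).comp j) ((s : Ω →+* Ω) (a k)) = (s : Ω →+* Ω) (f.eval₂ j (a k)) := by
      rw [hom_eval₂]
    rw [h2, (hroot (a k)).2 ⟨k, rfl⟩, map_zero] at h3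
    exact h3
  choose σ hσ using h1
  have hinj : Function.Injective σ := by
    intro k k' hkk
    apply ha
    apply s.injective
    rw [hσ, hσ, hkk]
  exact ⟨Equiv.ofBijective σ (Finite.injective_iff_bijective.1 hinj), hσ⟩

end Pool.Agent.H76Q
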