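import Pool.Agent.Lib.H76Q.Q3
import Pool.Agent.Lib.H76Q.C6
import Pool.Agent.Lib.H76Q.D2
import Pool.Agent.Lib.H76Q.E2
import Pool.Agent.Lib.H76Q.E3
import Pool.Agent.Lib.H76Q.E4
import Pool.Agent.Lib.H76Q.E5

/-!
# the reciprocity law at l
-/

set_option autoImplicit false
set_option linter.unusedSectionVars false
namespace Pool.Agent.H76Q
open Module Matrix Polynomial Pool.Agent.H53Toric
open Pool.Agent.H76P
open Pool.Agent.H76T (IsIdeal Fam Lc)
open Pool.Agent.H76V (Cmp)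
open Pool.Agent.H76U (cmp preL IsSplitting)
open Pool.Agent.H76RM (spanK similD)

/-- The linear forms given by the entries of `U * X * V`. -/
noncomputable def e6_w {ι : Type*} [Fintype ι] [DecidableEq ι] {K : Type*} [Field K] {n : ℕ}
    (U : Matrix ι (Fin n) K) (V : Matrix (Fin n) ι K) (p : ι × ι) :
    Module.End K (Fin n → K) →ₗ[K] K where
  toFun X := (U * LinearMap.toMatrix' X * V) p.1 p.2
  map_add' X Y := by
    rw [map_add, Matrix.mul_add, Matrix.add_mul, Matrix.add_apply]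
  map_smul' c X := by
    rw [map_smul, Matrix.mul_smul, Matrix.smul_mul, Matrix.smul_apply, RingHom.id_apply]

theorem e6_w_apply {ι : Type*} [Fintype ι] [DecidableEq ι] {K : Type*} [Field K] {n : ℕ}
    (U : Matrix ι (Fin n) K) (V : Matrix (Fin n) ι K) (p : ι × ι) (X : Module.End K (Fin n → K)) :
    e6_w U V p X = (U * LinearMap.toMatrix' X * V) p.1 p.2 := rfl

theorem e6_can {ι : Type*} [Fintype ι] [DecidableEq ι] {K : Type*} [Field K] {n : ℕ}
    {U : Matrix ι (Fin n) K} {V : Matrix (Fin n) ι K} (hVU : V * U = 1)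
    {X Y : Matrix (Fin n) (Fin n) K} (h : U * X * V = U * Y * V) : X = Y := by
  have h1 : ∀ Z : Matrix (Fin n) (Fin n) K, V * (U * Z * V) * U = Z := by
    intro Z
    calc V * (U * Z * V) * U = (V * U) * Z * (V * U) := by simp only [Matrix.mul_assoc]
      _ = Z := by rw [hVU, Matrix.one_mul, Matrix.mul_one]
  rw [← h1 X, ← h1 Y, h]

theorem e6_mat {K : Type*} [Field K] {n : ℕ} (M : Matrix (Fin n) (Fin n) K) :
    LinearMap.toMatrix' (phi M) = M := by
  have h1 : (phi M : Module.End K (Fin n → K)) = Matrix.toLin' M := by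
    refine LinearMap.ext fun v => ?_
    rw [phi_apply, Matrix.toLin'_apply]
  rw [h1, LinearMap.toMatrix'_toLin']

theorem e6_fix {L : Type*} [Field L] {ι : Type*} [Fintype ι] [DecidableEq ι]
    (τ : AlgebraicClosure L ≃ₐ[L] AlgebraicClosure L) (M : Matrix ι ι L) :
    (M.map (algebraMap L (AlgebraicClosure L))).map τ.toRingEquiv =
      M.map (algebraMap L (AlgebraicClosure L)) := by
  ext a b
  exact τ.commutes _

theorem e6_sq {G : Type*} [Group G] {H : Type*} [Group H] (ρ : G →* H) {y : H}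
    (hy : y ∈ Subgroup.closure (Set.range fun g => ρ g ^ 2)) :
    y ∈ Submonoid.closure (Set.range fun g => ρ g ^ 2) := by
  have h1 : y ∈ (Subgroup.closure (Set.range fun g => ρ g ^ 2)).toSubmonoid := hy
  rw [Subgroup.closure_toSubmonoid] at h1
  have h2 : (Set.range fun g => ρ g ^ 2) ∪ (Set.range fun g => ρ g ^ 2)⁻¹ ⊆
      Set.range fun g => ρ g ^ 2 := by
    rintro z (hz | ⟨g, hg⟩)
    · exact hz
    · refine ⟨g⁻¹, ?_⟩
      show ρ g⁻¹ ^ 2 = z
      rw [map_inv, inv_pow]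
      have h3 : ρ g ^ 2 = z⁻¹ := hg
      rw [h3, inv_inv]
  exact Submonoid.closure_mono h2 h1

/-- PROOF. Section 5 of PROOF.md.  Let `T` be the set of the pairs `(θ, τ)`, `τ` an automorphism of `K = AlgebraicClosure L` over `L`, `θ` as in `exists_theta` (E3) for the permutation `σ` of
`hdec`, and `W` the set of the entries of `U * toMatrix' X * V` (they separate: `V * U = 1`).  `TSet L J P T W` (E2).  `A` = the set of the `phi (cmp U V (ρ g))`: they are pure tensors
(`gen_PT`) and fixed by `θ` (`(ρ g)^τ = ρ g`, `exists_theta`; `cmp` commutes with everything because `ρ g` commutes with `e`, `cmp_comm`).  `phi (cmp U V x)` is in the submonoid generated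
by the squares (`hsq`: the subgroup generated by squares is the submonoid generated by squares; `cmp_mul`), `phi (cmp U V x) = dg (i ∘ a)` (`H76P.cmp_phi`, `phi_diag`).  `squares` (E2):
`dg (i ∘ a) = u r`, multiplier `c ^ 2`, `θ u = u`, `τ c = c`.  `PT_diag` (C6): `u = dg u₀`, `lam_diag`: `u₀ k * u₀ (bar k) = c ^ 2`.  `Lift.eq_c` (D2): `u₀ k = c' * i (t k)`,
so `c ^ 2 = c' ^ 2 * i m`.  `θ u = u`: `τ (u₀ k) = u₀ (σ k)` (`Theta.diag`), `τ (i (t k)) = i (s (t k)) = i (t (σ k))` (`Lift.eqv`), so `τ c' = c'`.  `fixed_mem`: `c`, `c'` are in `L`. -/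
theorem square_at {ι : Type*} [Fintype ι] [DecidableEq ι] {L : Type*} [Field L] [CharZero L]
    {G : Type*} [Group G] (ρ : G →* Matrix.GeneralLinearGroup ι L)
    {J : Matrix ι ι (AlgebraicClosure L)} {H₀ : Subgroup G} {e : Matrix ι ι (AlgebraicClosure L)}
    {q : AlgebraicClosure L} {n : ℕ} {U : Matrix ι (Fin n) (AlgebraicClosure L)}
    {V : Matrix (Fin n) ι (AlgebraicClosure L)} {Ω : Type*} [Field Ω] [CharZero Ω]
    {a : Fin n → Ω} {i : Ω →+* AlgebraicClosure L} {Y : Submodule ℚ (Fin n → ℚ)} {σ₀ : G}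
    (h : Loc J (img (AlgebraicClosure L) ρ H₀) (properProj (AlgebraicClosure L) ρ) e
      ((ρ σ₀).1.map (algebraMap L (AlgebraicClosure L))) q U V (fun k => i (a k)) Y)
    (gen : ∀ g : G, (ρ g).1.map (algebraMap L (AlgebraicClosure L)) ∈
      tgen (AlgebraicClosure L) ρ)
    (hsq : ρ σ₀ ∈ Subgroup.closure (Set.range fun g => ρ g ^ 2))
    {P : Module.End ℚ Y} (hP : Sp P) (hc : Comp (Lc J (img (AlgebraicClosure L) ρ H₀) U V) P)
    (hJ : ∀ τ : AlgebraicClosure L ≃ₐ[L] AlgebraicClosure L, J.map τ = J)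
    (he : ∀ τ : AlgebraicClosure L ≃ₐ[L] AlgebraicClosure L, e.map τ = e)
    (hdec : ∀ τ : AlgebraicClosure L ≃ₐ[L] AlgebraicClosure L, ∃ (s : Ω ≃+* Ω)
      (σ : Equiv.Perm (Fin n)), (∀ y, τ (i y) = i (s y)) ∧ (∀ k, s (a k) = a (σ k)) ∧ StabP P σ)
    {t : Fin n → Ω} (ht : Lift P a t) {bar : Equiv.Perm (Fin n)}
    (hbar : ∀ k, i (a k) * i (a (bar k)) = q) {m : Ω} (hm : ∀ k, t k * t (bar k) = m) :
    SqIn L (i m) := by
  classical
  have hVU := h.VU
  have hne : Nonempty (Fin n) := ⟨⟨0, h.pos⟩⟩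
  -- the semilinear automorphisms
  have hth : ∀ τ : AlgebraicClosure L ≃ₐ[L] AlgebraicClosure L,
      ∃ (θ : Module.End (AlgebraicClosure L) (Fin n → AlgebraicClosure L) ≃+*
          Module.End (AlgebraicClosure L) (Fin n → AlgebraicClosure L)) (s : Ω ≃+* Ω)
        (σ : Equiv.Perm (Fin n)), (∀ y, τ (i y) = i (s y)) ∧ (∀ k, s (a k) = a (σ k)) ∧
        StabP P σ ∧ Theta (Lc J (img (AlgebraicClosure L) ρ H₀) U V) (Uᵀ * J * U) θ τ.toRingEquiv σ ∧
        ∀ X, (U * LinearMap.toMatrix' X * V).map τ.toRingEquiv = U * LinearMap.toMatrix' (θ X) * V := by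
    intro τ
    obtain ⟨s, σ, h1, h2, h3⟩ := hdec τ
    obtain ⟨θ, h4, h5⟩ := exists_theta h (τ := τ.toRingEquiv) (he τ) (e6_fix τ _) (hJ τ)
      (fun x hx => by
        obtain ⟨g, -, rfl⟩ := hx
        exact e6_fix τ _) (σ := σ) (fun k => by
        show τ (i (a k)) = i (a (σ k))
        rw [h1, h2])
    exact ⟨θ, s, σ, h1, h2, h3, h4, h5⟩
  choose θ s σ h1 h2 h3 h4 h5 using hth
  obtain ⟨T, hT⟩ : ∃ T : Set ((Module.End (AlgebraicClosure L) (Fin n → AlgebraicClosure L) ≃+*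
      Module.End (AlgebraicClosure L) (Fin n → AlgebraicClosure L)) ×
      (AlgebraicClosure L ≃+* AlgebraicClosure L)),
      T = Set.range fun τ : AlgebraicClosure L ≃ₐ[L] AlgebraicClosure L => (θ τ, τ.toRingEquiv) := ⟨_, rfl⟩
  obtain ⟨W, hW⟩ : ∃ W : Set (Module.End (AlgebraicClosure L) (Fin n → AlgebraicClosure L) →ₗ[AlgebraicClosure L]
      AlgebraicClosure L), W = Set.range (e6_w U V) := ⟨_, rfl⟩
  have hTS : TSet (Lc J (img (AlgebraicClosure L) ρ H₀) U V) (Uᵀ * J * U) P T W := by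
    refine ⟨?_, ?_, ?_⟩
    · intro x hx
      rw [hT] at hx
      obtain ⟨τ, rfl⟩ := hx
      exact ⟨σ τ, h4 τ, h3 τ⟩
    · intro x hx w hw X
      rw [hT] at hx
      rw [hW] at hw
      obtain ⟨τ, rfl⟩ := hx
      obtain ⟨p, rfl⟩ := hw
      rw [e6_w_apply, e6_w_apply, ← h5 τ X]
      rfl
    · intro X hX
      by_contra hcon
      push Not at hcon
      apply hX
      have h6 : U * LinearMap.toMatrix' X * V = U * (0 : Matrix (Fin n) (Fin n) (AlgebraicClosure L)) * V := by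
        ext b b'
        rw [Matrix.mul_zero, Matrix.zero_mul, Matrix.zero_apply]
        exact hcon (e6_w U V (b, b')) (by rw [hW]; exact ⟨(b, b'), rfl⟩)
      have h7 := e6_can hVU h6
      exact LinearMap.toMatrix'.injective (by rw [h7, map_zero])
  obtain ⟨A, hA⟩ : ∃ A : Set (Module.End (AlgebraicClosure L) (Fin n → AlgebraicClosure L)),
      A = Set.range fun g : G => phi (cmp U V ((ρ g).1.map (algebraMap L (AlgebraicClosure L)))) := ⟨_, rfl⟩
  have comm : ∀ g : G, (ρ g).1.map (algebraMap L (AlgebraicClosure L)) * e =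
      e * (ρ g).1.map (algebraMap L (AlgebraicClosure L)) := fun g => cmp_comm h (gen g)
  have hAp : ∀ X ∈ A, (∃ u r t, PT (Lc J (img (AlgebraicClosure L) ρ H₀) U V) (Uᵀ * J * U) P X u r t) ∧
      ∀ x ∈ T, x.1 X = X := by
    intro X hX
    rw [hA] at hX
    obtain ⟨g, rfl⟩ := hX
    refine ⟨gen_PT h hP hc (gen g), ?_⟩
    intro x hx
    rw [hT] at hx
    obtain ⟨τ, rfl⟩ := hx
    apply LinearMap.toMatrix'.injective
    apply e6_can hVU
    rw [← h5 τ, e6_mat, Pool.Agent.H76U.cmp_apply]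
    have h6 : U * (V * (ρ g).1.map (algebraMap L (AlgebraicClosure L)) * U) * V =
        e * (ρ g).1.map (algebraMap L (AlgebraicClosure L)) * e := by
      rw [h.UV]
      simp only [Matrix.mul_assoc]
    rw [h6]
    have h7 : (e * (ρ g).1.map (algebraMap L (AlgebraicClosure L)) * e).map τ.toRingEquiv =
        e.map τ.toRingEquiv * ((ρ g).1.map (algebraMap L (AlgebraicClosure L))).map τ.toRingEquiv *
          e.map τ.toRingEquiv := by
      rw [← Matrix.map_mul, ← Matrix.map_mul]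
    have h8 : e.map τ.toRingEquiv = e := he τ
    rw [h7, h8, e6_fix]
  -- the element
  have hmul : ∀ g g' : G, phi (cmp U V ((ρ (g * g')).1.map (algebraMap L (AlgebraicClosure L)))) =
      phi (cmp U V ((ρ g).1.map (algebraMap L (AlgebraicClosure L)))) *
        phi (cmp U V ((ρ g').1.map (algebraMap L (AlgebraicClosure L)))) := by
    intro g g'
    have h6 : (ρ (g * g')).1.map (algebraMap L (AlgebraicClosure L)) =
        (ρ g).1.map (algebraMap L (AlgebraicClosure L)) *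
          (ρ g').1.map (algebraMap L (AlgebraicClosure L)) := by
      rw [map_mul, ← Matrix.map_mul]
      rfl
    rw [h6, Pool.Agent.H76U.cmp_mul h.UV hVU (comm g'), map_mul]
  have hclo : ∀ y ∈ Submonoid.closure (Set.range fun g => ρ g ^ 2), (∃ g, y = ρ g) ∧
      phi (cmp U V (y.1.map (algebraMap L (AlgebraicClosure L)))) ∈
        Submonoid.closure {Z | ∃ X ∈ A, Z = X * X} := by
    intro y hy
    induction hy using Submonoid.closure_induction with
    | mem y hy =>
      obtain ⟨g, rfl⟩ := hy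
      have h6 : ρ g ^ 2 = ρ (g * g) := by rw [map_mul, pow_two]
      refine ⟨⟨g * g, h6⟩, ?_⟩
      show phi (cmp U V ((ρ g ^ 2).1.map (algebraMap L (AlgebraicClosure L)))) ∈ _
      rw [h6]
      apply Submonoid.subset_closure
      refine ⟨_, ?_, hmul g g⟩
      rw [hA]
      exact ⟨g, rfl⟩
    | one =>
      refine ⟨⟨1, (map_one _).symm⟩, ?_⟩
      have h6 : ((1 : Matrix.GeneralLinearGroup ι L)).1.map (algebraMap L (AlgebraicClosure L)) = 1 := by
        show (1 : Matrix ι ι L).map (algebraMap L (AlgebraicClosure L)) = 1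
        rw [Matrix.map_one _ (map_zero _) (map_one _)]
      rw [h6, Pool.Agent.H76U.cmp_one h.UV hVU, map_one]
      exact Submonoid.one_mem _
    | mul y y' _ _ ih ih' =>
      obtain ⟨⟨g, rfl⟩, h6⟩ := ih
      obtain ⟨⟨g', rfl⟩, h7⟩ := ih'
      refine ⟨⟨g * g', (map_mul _ _ _).symm⟩, ?_⟩
      rw [← map_mul, hmul]
      exact Submonoid.mul_mem _ h6 h7
  have hX := (hclo _ (e6_sq ρ hsq)).2
  obtain ⟨u, r, c, h6, hc0, hfix⟩ := squares h.ts h.yo hP hc hTS hAp hX
  rw [H76P.cmp_phi hVU h.ec, H76P.phi_diag] at h6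
  obtain ⟨u₀, r₀, hu, hr, hfu, hfr, hprod⟩ := PT_diag h.ts h.yo hP hc h.ec.inj h6
  have hadj := h6.2.2.2.2.1
  rw [hu] at hadj
  have hlam := lam_diag h.ts.cmp.Jd (pair_bar h hbar h.ec.ne) hadj
  have ha0 : ∀ k, a k ≠ 0 := by
    intro k h0
    apply h.ec.ne k
    rw [h0, map_zero]
  obtain ⟨c', hc', huc⟩ := Lift.eq_c ht ha0 hP (i := i) (u := u₀) (r := r₀) ⟨hprod, hfu, hfr⟩
  have hit : ∀ k, i (t k) ≠ 0 := fun k h0 => ht.ne k ((map_eq_zero i).1 h0)
  -- invariance
  have inv1 : ∀ τ : AlgebraicClosure L ≃ₐ[L] AlgebraicClosure L, τ c = c := by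
    intro τ
    exact (hfix _ (by rw [hT]; exact ⟨τ, rfl⟩)).2
  have inv2 : ∀ τ : AlgebraicClosure L ≃ₐ[L] AlgebraicClosure L, τ c' = c' := by
    intro τ
    have h7 := (hfix _ (by rw [hT]; exact ⟨τ, rfl⟩ : (θ τ, τ.toRingEquiv) ∈ T)).1
    have h8 : θ τ u = u := h7
    rw [hu, (h4 τ).diag] at h8
    have h9 := congrFun (H76P.dg_inj h8) (σ τ (Classical.arbitrary (Fin n)))
    simp only [Equiv.symm_apply_apply] at h9
    have h10 : τ (u₀ (Classical.arbitrary (Fin n))) = u₀ (σ τ (Classical.arbitrary (Fin n))) := h9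
    rw [huc, huc, map_mul, h1 τ, ht.eqv (s τ) (σ τ) (h2 τ) (h3 τ)] at h10
    exact mul_right_cancel₀ (hit _) h10
  obtain ⟨y, hy⟩ := fixed_mem inv1
  obtain ⟨y', hy'⟩ := fixed_mem inv2
  refine ⟨y / y', ?_⟩
  have h11 := hlam (Classical.arbitrary (Fin n))
  rw [huc, huc] at h11
  have h12 : c' ^ 2 * i m = c ^ 2 := by
    rw [← hm (Classical.arbitrary (Fin n)), ← h11, map_mul]
    ring
  have h13 : i m = c ^ 2 / c' ^ 2 := by
    rw [eq_div_iff (pow_ne_zero 2 hc'), mul_comm]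
    exact h12
  rw [h13, hy, hy', map_div₀, div_pow]

end Pool.Agent.H76Q
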