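import Pool.Agent.Lib.H76Q.Q6
import Pool.Agent.Lib.H76Q.A7
import Pool.Agent.Lib.H76Q.W1

/-!
# the local data
-/

set_option autoImplicit false

/-!
# the local data
-/
set_option linter.unusedSectionVars false
namespace Pool.Agent.H76Q
open Module Matrix Polynomial Pool.Agent.H53Toric
open Pool.Agent.H76P
open Pool.Agent.H76T (IsIdeal Fam Lc)
open Pool.Agent.H76V (Cmp)
open Pool.Agent.H76U (cmp preL IsSplitting)
open Pool.Agent.H76RM (spanK similD)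

variable {ι : Type*} [Fintype ι] [DecidableEq ι] {ψ : Matrix ι ι ℚ}
    {D : Subalgebra ℚ (Matrix ι ι ℚ)} {M : Type*} [Field M] [NumberField M]
    {m : ℕ} {e : Fin m → Matrix ι ι M} {G : Type*} [Group G]
    {ρ : ∀ (l : ℕ) [Fact l.Prime], G →* Matrix.GeneralLinearGroup ι ℚ_[l]}
    {p : ℕ} [Fact p.Prime] {σ : G} {q : ℚ} {f : ℚ[X]} {F : Fin m → M[X]}
    {φ μ ν : Matrix ι ι (AlgebraicClosure ℚ_[p])} {v : AlgebraicClosure ℚ_[p] → ℚ}
    {Δ : Set (AlgebraicClosure ℚ_[p] ≃+* AlgebraicClosure ℚ_[p])}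
    {Ω : Type*} [Field Ω] [CharZero Ω] [IsAlgClosed Ω] [Algebra.IsAlgebraic ℚ Ω] {j : M →+* Ω}
    {R : Finset Ω} {N : Set ℕ} (C : Core2 ψ D e ρ p σ q f F φ μ ν v Δ j R N)

include C

/-- PROOF. `mk_loc` (A7) with `H76RM.exists_prime` (see `lie_p` in H76P/G12); `Core2.tor`. -/
theorem Core2.locp (b : Fin m)
    {n : ℕ} {a : Fin n → Ω} (ha : Function.Injective a)
    (hroot : ∀ y : Ω, (F b).eval₂ j y = 0 ↔ ∃ k, y = a k)
    (i : Ω →+* AlgebraicClosure ℚ_[p]) :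
    ∃ (H₀ : Subgroup G) (U : Matrix ι (Fin n) (AlgebraicClosure ℚ_[p]))
      (V : Matrix (Fin n) ι (AlgebraicClosure ℚ_[p])), H₀.FiniteIndex ∧
      Loc (ψ.map (algebraMap ℚ (AlgebraicClosure ℚ_[p]))) (img (AlgebraicClosure ℚ_[p]) (ρ p) H₀)
        (properProj (AlgebraicClosure ℚ_[p]) (ρ p)) ((e b).map (i.comp j)) φ
        (algebraMap ℚ (AlgebraicClosure ℚ_[p]) q) U V (fun k => i (a k)) (YS a) := by
  obtain ⟨H₀, -, hfin, hprime⟩ := H76RM.exists_prime (K := AlgebraicClosure ℚ_[p]) (ρ p) ⊤ inferInstance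
  obtain ⟨U, V, hL⟩ := mk_loc C.hψ C.hψ0 D (ρ p) (C.lin p) (C.sim p) (C.semis p) (C.commt p) (C.gen p) C.hspl
    C.frobp C.multp hfin hprime j i b ha hroot (fun k l N hN h =>
      ha (C.tor b ((hroot _).2 ⟨k, rfl⟩) ((hroot _).2 ⟨l, rfl⟩) hN h))
  exact ⟨H₀, U, V, hfin, hL⟩

/-- PROOF. The same for `l ≠ p`; `C.mult` mapped to the closure. -/
theorem Core2.locl (b : Fin m)
    {n : ℕ} {a : Fin n → Ω} (ha : Function.Injective a)
    (hroot : ∀ y : Ω, (F b).eval₂ j y = 0 ↔ ∃ k, y = a k)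
    (l : ℕ) [Fact l.Prime] (hl : l ≠ p) (i : Ω →+* AlgebraicClosure ℚ_[l]) :
    ∃ (H₀ : Subgroup G) (U : Matrix ι (Fin n) (AlgebraicClosure ℚ_[l]))
      (V : Matrix (Fin n) ι (AlgebraicClosure ℚ_[l])), H₀.FiniteIndex ∧
      Loc (ψ.map (algebraMap ℚ (AlgebraicClosure ℚ_[l]))) (img (AlgebraicClosure ℚ_[l]) (ρ l) H₀)
        (properProj (AlgebraicClosure ℚ_[l]) (ρ l)) ((e b).map (i.comp j))
        ((ρ l σ).1.map (algebraMap ℚ_[l] (AlgebraicClosure ℚ_[l])))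
        (algebraMap ℚ (AlgebraicClosure ℚ_[l]) q) U V (fun k => i (a k)) (YS a) := by
  obtain ⟨H₀, -, hfin, hprime⟩ := H76RM.exists_prime (K := AlgebraicClosure ℚ_[l]) (ρ l) ⊤ inferInstance
  have hmult : ((ρ l σ).1.map (algebraMap ℚ_[l] (AlgebraicClosure ℚ_[l])))ᵀ *
      ψ.map (algebraMap ℚ (AlgebraicClosure ℚ_[l])) * (ρ l σ).1.map (algebraMap ℚ_[l] (AlgebraicClosure ℚ_[l])) =
      algebraMap ℚ (AlgebraicClosure ℚ_[l]) q • ψ.map (algebraMap ℚ (AlgebraicClosure ℚ_[l])) := by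
    have h1 := congrArg (fun m : Matrix ι ι ℚ_[l] => m.map (algebraMap ℚ_[l] (AlgebraicClosure ℚ_[l]))) (C.mult l hl)
    have h2 : (ψ.map (algebraMap ℚ ℚ_[l])).map (algebraMap ℚ_[l] (AlgebraicClosure ℚ_[l])) =
        ψ.map (algebraMap ℚ (AlgebraicClosure ℚ_[l])) := by
      ext i j
      simp
    have h3 : (algebraMap ℚ ℚ_[l] q • ψ.map (algebraMap ℚ ℚ_[l])).map
        (algebraMap ℚ_[l] (AlgebraicClosure ℚ_[l])) =
        algebraMap ℚ (AlgebraicClosure ℚ_[l]) q • ψ.map (algebraMap ℚ (AlgebraicClosure ℚ_[l])) := by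
      ext i j
      simp
    simp only [Matrix.map_mul] at h1
    rw [h2, h3, Matrix.transpose_map] at h1
    exact h1
  obtain ⟨U, V, hL⟩ := mk_loc C.hψ C.hψ0 D (ρ l) (C.lin l) (C.sim l) (C.semis l) (C.commt l) (C.gen l) C.hspl
    (C.frob l hl) hmult hfin hprime j i b ha hroot (fun k l N hN h =>
      ha (C.tor b ((hroot _).2 ⟨k, rfl⟩) ((hroot _).2 ⟨l, rfl⟩) hN h))
  exact ⟨H₀, U, V, hfin, hL⟩

end Pool.Agent.H76Q
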