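import Pool.Agent.Lib.H76Q.Q6
import Pool.Agent.Lib.H76Q.W2
import Pool.Agent.Lib.H76Q.E4
import Pool.Agent.Lib.H76Q.C6

/-!
# the lift
-/

set_option autoImplicit false
set_option linter.unusedSectionVars false
namespace Pool.Agent.H76Q
open Module Matrix Polynomial Pool.Agent.H53Toric
open Pool.Agent.H76P
open Pool.Agent.H76T (IsIdeal Fam Lc)
open Pool.Agent.H76V (Cmp)
open Pool.Agent.H76U (cmp preL IsSplitting)
open Pool.Agent.H76RM (spanK similD)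

variable {ι : Type*} [Fintype ι] [DecidableEq ι] {ψ : Matrix ι ι ℚ}
    {D : Subalgebra ℚ (Matrix ι ι ℚ)} {M : Type*} [Field M] [NumberField M]
    {m : ℕ} {e : Fin m → Matrix ι ι M} {G : Type*} [Group G]
    {ρ : ∀ (l : ℕ) [Fact l.Prime], G →* Matrix.GeneralLinearGroup ι ℚ_[l]}
    {p : ℕ} [Fact p.Prime] {σ : G} {q : ℚ} {f : ℚ[X]} {F : Fin m → M[X]}
    {φ μ ν : Matrix ι ι (AlgebraicClosure ℚ_[p])} {v : AlgebraicClosure ℚ_[p] → ℚ}
    {Δ : Set (AlgebraicClosure ℚ_[p] ≃+* AlgebraicClosure ℚ_[p])}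
    {Ω : Type*} [Field Ω] [CharZero Ω] [IsAlgClosed Ω] [Algebra.IsAlgebraic ℚ Ω] {j : M →+* Ω}
    {R : Finset Ω} {N : Set ℕ} (C : Core2 ψ D e ρ p σ q f F φ μ ν v Δ j R N)

include C

/-- PROOF. `Core2.locp`, `exists_bar` (E4); `i` is injective. -/
theorem Core2.bar (b : Fin m)
    {n : ℕ} {a : Fin n → Ω} (ha : Function.Injective a)
    (hroot : ∀ y : Ω, (F b).eval₂ j y = 0 ↔ ∃ k, y = a k) :
    ∃ bar : Equiv.Perm (Fin n), ∀ k, a k * a (bar k) = algebraMap ℚ Ω q := by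
  let i : Ω →+* AlgebraicClosure ℚ_[p] :=
    (IsAlgClosed.lift (R := ℚ) (S := Ω) (M := AlgebraicClosure ℚ_[p])).toRingHom
  obtain ⟨H₀, U, V, -, hL⟩ := C.locp b ha hroot i
  obtain ⟨bar, hbar⟩ := exists_bar hL
  refine ⟨bar, fun k => i.injective ?_⟩
  rw [map_mul, hbar k, eq_ratCast, eq_ratCast, map_ratCast]

/-- Local data with multiplier at `p`. PROOF. `Core2.locp`, `gen_PT` (E4) for `φ` (`C.crys.phigen`), `H76P.cmp_phi`, `phi_diag`, `PT_diag`, `lam_diag` (C6), `pair_bar` (E4). -/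
theorem Core2.ld (b : Fin m)
    {n : ℕ} {a : Fin n → Ω} (ha : Function.Injective a)
    (hroot : ∀ y : Ω, (F b).eval₂ j y = 0 ↔ ∃ k, y = a k)
    {bar : Equiv.Perm (Fin n)} (hbar : ∀ k, a k * a (bar k) = algebraMap ℚ Ω q)
    {P : Module.End ℚ (YS a)} (hP : Sp P) (hg : Good P) (i : Ω →+* AlgebraicClosure ℚ_[p]) :
    ∃ (u r : Fin n → AlgebraicClosure ℚ_[p]) (t : AlgebraicClosure ℚ_[p]), LD P a i u r ∧
      ∀ k, u k * u (bar k) = t := by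
  obtain ⟨H₀, U, V, -, hL⟩ := C.locp b ha hroot i
  have hc : Comp (Lc (ψ.map (algebraMap ℚ (AlgebraicClosure ℚ_[p])))
      (img (AlgebraicClosure ℚ_[p]) (ρ p) H₀) U V) P :=
    hg (AlgebraicClosure ℚ_[p]) _ _ hL.ts hL.yo
  obtain ⟨u, r, t, hPT⟩ := gen_PT hL hP hc C.crys.phigen
  rw [cmp_phi hL.VU hL.ec, phi_diag] at hPT
  have hne : Nonempty (Fin n) := ⟨⟨0, hL.pos⟩⟩
  obtain ⟨u₀, r₀, hu, hr, fu, fr, hprod⟩ := PT_diag hL.ts hL.yo hP hc hL.ec.inj hPT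
  have hadj := hPT.2.2.2.2.1
  rw [hu] at hadj
  have hbar' : ∀ k, i (a k) * i (a (bar k)) = algebraMap ℚ (AlgebraicClosure ℚ_[p]) q := by
    intro k
    rw [← map_mul, hbar k, eq_ratCast, eq_ratCast, map_ratCast]
  refine ⟨u₀, r₀, t, ⟨hprod, fu, fr⟩, ?_⟩
  exact lam_diag hL.ts.cmp.Jd (pair_bar hL hbar' hL.ec.ne) hadj

end Pool.Agent.H76Q
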