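import Pool.Agent.Lib.H76Q.Q2
import Pool.Agent.Lib.H76Q.B2
import Pool.Agent.Lib.H76Q.C5
import Pool.Agent.Lib.H76Q.C6
import Pool.Agent.Lib.H76Q.D2

/-!
# comparison of two pure tensors
-/

set_option autoImplicit false
set_option linter.unusedSectionVars false
namespace Pool.Agent.H76Q
open Module Matrix Pool.Agent.H53Toric
open Pool.Agent.H76P
open Pool.Agent.H76T (IsIdeal Fam)
open Pool.Agent.H76V (Cmp)

variable {κ : Type*} {K : Type*} [Field K] [CharZero K] [Fintype κ] [DecidableEq κ]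
  {L : Submodule K (Module.End K (κ → K))} {J : Matrix κ κ K} [IsAlgClosed K] [Nonempty κ]
  {Y : Submodule ℚ (κ → ℚ)} {P : Module.End ℚ Y}

/-- PROOF. Let `y' = t''⁻¹ • adjE J y` (`PT_inv`: `y * y' = 1`).  `X' * (Ξ * Φ * Ξ')` is a pure tensor with first factor `u⁻¹ * (y * w * y')` (`PT_inv`, `PT_mul`); its second factor commutes with
`AZ L P`, so `s = u⁻¹ * (y * w * y')` commutes with `AZ L P`; as `s ∈ AZ L P` it commutes with `AZ L (1 - P)`, too (`AZ_comm`), so `s` is a scalar (`AZ_scalar`), not `0`.  Multipliers: that of `y * w * y'` is `t'`. -/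
theorem unr_u (h : TS L J) (hY : Yo L = Y) (hP : Sp P) (hc : Comp L P)
    {X X' Φ Ξ Ξ' u r w r' y r'' : Module.End K (κ → K)} {t t' t'' : K} (h1 : PT L J P X u r t)
    (h2 : PT L J P Φ w r' t') (h3 : PT L J P Ξ y r'' t'') (hΞ : Ξ * Ξ' = 1) (hX : X * X' = 1)
    (hz : ∀ A ∈ AZ L P, (X' * (Ξ * Φ * Ξ')) * A = A * (X' * (Ξ * Φ * Ξ'))) :
    ∃ (c : K) (y' : Module.End K (κ → K)), c ≠ 0 ∧ y * y' = 1 ∧ u = c • (y * w * y') ∧
      t = c ^ 2 * t' := by
  obtain ⟨r3, h3'⟩ := PT_inv h hY hP h3 hΞ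
  obtain ⟨r1, h1'⟩ := PT_inv h hY hP h1 hX
  set y' := t''⁻¹ • adjE J y with hy'
  set u' := t⁻¹ • adjE J u with hu'
  have hyy : y * y' = 1 := by
    apply mul_eq_one_comm.1
    rw [hy', smul_mul_assoc, h3.2.2.2.2.1, smul_smul, inv_mul_cancel₀ h3.2.2.2.1, one_smul]
  have huu : u * u' = 1 := by
    apply mul_eq_one_comm.1
    rw [hu', smul_mul_assoc, h1.2.2.2.2.1, smul_smul, inv_mul_cancel₀ h1.2.2.2.1, one_smul]
  have h4 := PT_mul h hY hP (PT_mul h hY hP h3 h2) h3'
  have h5 := PT_mul h hY hP h1' h4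
  set ρ := r1 * (r'' * r' * r3) with hρ
  set s := u' * (y * w * y') with hs
  obtain ⟨hsA, hρA, hprod, _, _, t3, ht3, hadj⟩ := h5
  have hρinv : ρ * (t3⁻¹ • adjE J ρ) = 1 := by
    apply mul_eq_one_comm.1
    rw [smul_mul_assoc, hadj, smul_smul, inv_mul_cancel₀ ht3, one_smul]
  have hs1 : ∀ A ∈ AZ L P, s * A = A * s := by
    intro A hA
    have e1 := hz A hA
    rw [hprod] at e1
    have e2 : A * ρ = ρ * A := AZ_comm h hY hP A hA ρ hρA
    have e3 : (s * A) * ρ = (A * s) * ρ := by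
      calc (s * A) * ρ = s * (A * ρ) := mul_assoc _ _ _
        _ = s * (ρ * A) := by rw [e2]
        _ = (s * ρ) * A := (mul_assoc _ _ _).symm
        _ = A * (s * ρ) := e1
        _ = (A * s) * ρ := (mul_assoc _ _ _).symm
    calc s * A = (s * A) * (ρ * (t3⁻¹ • adjE J ρ)) := by rw [hρinv, mul_one]
      _ = ((s * A) * ρ) * (t3⁻¹ • adjE J ρ) := (mul_assoc _ _ _).symm
      _ = ((A * s) * ρ) * (t3⁻¹ • adjE J ρ) := by rw [e3]
      _ = (A * s) * (ρ * (t3⁻¹ • adjE J ρ)) := mul_assoc _ _ _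
      _ = A * s := by rw [hρinv, mul_one]
  have hs2 : ∀ A ∈ AZ L (1 - P), s * A = A * s := fun A hA => AZ_comm h hY hP s hsA A hA
  obtain ⟨c, hcs⟩ := AZ_scalar h hc hs1 hs2
  have h6 : y * w * y' = c • u := by
    calc y * w * y' = (u * u') * (y * w * y') := by rw [huu, one_mul]
      _ = u * s := by rw [hs, mul_assoc]
      _ = c • u := by rw [hcs, mul_smul_comm, mul_one]
  have h7 := h4.2.2.2.2.1
  have hone : (1 : Module.End K (κ → K)) ≠ 0 := one_ne_zero
  have ht : t'' * t' * t''⁻¹ = t' := by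
    rw [mul_comm t'' t', mul_assoc, mul_inv_cancel₀ h3.2.2.2.1, mul_one]
  rw [ht] at h7
  have hc0 : c ≠ 0 := by
    intro hc0
    rw [h6, hc0, zero_smul, mul_zero] at h7
    have := h7.symm
    rcases smul_eq_zero.1 this with h8 | h8
    · exact h2.2.2.2.1 h8
    · exact hone h8
  have hu : u = c⁻¹ • (y * w * y') := by
    rw [h6, smul_smul, inv_mul_cancel₀ hc0, one_smul]
  refine ⟨c⁻¹, y', inv_ne_zero hc0, hyy, hu, ?_⟩
  have h8 := h1.2.2.2.2.1
  rw [hu, map_smul, smul_mul_smul_comm, h7, smul_smul] at h8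
  have h9 : c⁻¹ * c⁻¹ * t' = t := smul_left_injective K hone h8
  rw [← h9]
  ring

theorem f5_dg_unit (g : κ → K) : IsUnit (dg g : Module.End K (κ → K)) ↔ ∀ k, g k ≠ 0 := by
  constructor
  · intro hu k hk
    obtain ⟨B, hB⟩ := hu.exists_left_inv
    have h1 : (dg g : Module.End K (κ → K)) (Pi.single k 1) = 0 := by
      funext a
      rw [dg_apply]
      by_cases hab : a = k
      · rw [hab, hk, zero_mul]
        rfl
      · rw [Pi.single_eq_of_ne hab, mul_zero]
        rfl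
    have h2 : (B * dg g) (Pi.single k (1 : K)) = 0 := by
      rw [Module.End.mul_apply, h1, map_zero]
    rw [hB] at h2
    have h3 := congrFun h2 k
    rw [Module.End.one_apply, Pi.single_eq_same] at h3
    exact one_ne_zero h3
  · intro hg
    have h1 : (dg g : Module.End K (κ → K)) * dg (fun k => (g k)⁻¹) = 1 := by
      refine LinearMap.ext fun v => funext fun a => ?_
      rw [Module.End.mul_apply, dg_apply, dg_apply, Module.End.one_apply, ← mul_assoc,
        mul_inv_cancel₀ (hg a), one_mul]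
    exact IsUnit.of_mul_eq_one _ h1

/-- PROOF. `u - l • 1 = y * dg (fun k => c * u₀ k - l) * y'`; a diagonal operator is invertible iff no entry is zero. -/
theorem spec_conj {u y y' : Module.End K (κ → K)} {u₀ : κ → K} {c : K} (hy : y * y' = 1)
    (hu : u = c • (y * dg u₀ * y')) (l : K) : ¬ IsUnit (u - l • 1) ↔ ∃ k, l = c * u₀ k := by
  have hy' : y' * y = 1 := mul_eq_one_comm.1 hy
  have hyu : IsUnit y := ⟨⟨y, y', hy, hy'⟩, rfl⟩
  have hyu' : IsUnit y' := ⟨⟨y', y, hy', hy⟩, rfl⟩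
  have h1 : u - l • 1 = y * dg (fun k => c * u₀ k - l) * y' := by
    have e1 : (dg (fun k => c * u₀ k - l) : Module.End K (κ → K)) = c • dg u₀ - l • 1 := by
      refine LinearMap.ext fun v => funext fun a => ?_
      rw [LinearMap.sub_apply, LinearMap.smul_apply, LinearMap.smul_apply, Pi.sub_apply,
        Pi.smul_apply, Pi.smul_apply, dg_apply, dg_apply, Module.End.one_apply, smul_eq_mul,
        smul_eq_mul]
      ring
    rw [e1, mul_sub, sub_mul, mul_smul_comm, smul_mul_assoc, mul_smul_comm, smul_mul_assoc, mul_one,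
      hy, hu]
  have h2 : IsUnit (y * dg (fun k => c * u₀ k - l) * y') ↔
      IsUnit (dg (fun k => c * u₀ k - l) : Module.End K (κ → K)) := by
    constructor
    · intro h
      have h3 := (hyu'.mul h).mul hyu
      have e : y' * (y * dg (fun k => c * u₀ k - l) * y') * y = dg (fun k => c * u₀ k - l) := by
        calc y' * (y * dg (fun k => c * u₀ k - l) * y') * y
            = (y' * y) * dg (fun k => c * u₀ k - l) * (y' * y) := by simp only [mul_assoc]
          _ = dg (fun k => c * u₀ k - l) := by rw [hy', one_mul, mul_one]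
      rwa [e] at h3
    · intro h
      exact (hyu.mul h).mul hyu'
  rw [h1, h2, f5_dg_unit]
  constructor
  · intro hcon
    push Not at hcon
    obtain ⟨k, hk⟩ := hcon
    exact ⟨k, (sub_eq_zero.1 hk).symm⟩
  · rintro ⟨k, hk⟩ hcon
    exact hcon k (by rw [hk, sub_self])

/-- PROOF. `θ (u - l • 1) = u - τ l • 1`, and `θ` maps units to units. -/
theorem Theta.spec {θ : Module.End K (κ → K) ≃+* Module.End K (κ → K)} {τ : K ≃+* K}
    {σ : Equiv.Perm κ} (hθ : Theta L J θ τ σ) {u : Module.End K (κ → K)} (hu : θ u = u) (l : K)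
    (hl : ¬ IsUnit (u - l • 1)) : ¬ IsUnit (u - τ l • 1) := by
  intro hcon
  apply hl
  have h1 : θ (u - l • 1) = u - τ l • 1 := by
    rw [map_sub, hu, hθ.smul, map_one]
  rw [← h1] at hcon
  have h2 := hcon.map θ.symm
  rwa [θ.symm_apply_apply] at h2

end Pool.Agent.H76Q
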