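import Pool.Agent.Lib.H76Q.Q2
import Pool.Agent.Lib.H76Q.B2

/-!
# no root of unity
-/

set_option autoImplicit false
set_option linter.unusedSectionVars false
namespace Pool.Agent.H76Q
open Module Matrix Pool.Agent.H53Toric
open Pool.Agent.H76P
open Pool.Agent.H76T (IsIdeal Fam)
open Pool.Agent.H76V (Cmp)

variable {κ : Type*} [Fintype κ] [DecidableEq κ] [Nonempty κ] {Y : Submodule ℚ (κ → ℚ)}
  {P : Module.End ℚ Y} {Ω : Type*} [Field Ω] {a : κ → Ω}

/-- PROOF. Choose `f : κ → κ` with `ζ * i (t k) = i (t (f k))`.  `ζ ^ N * i (t k) = i (t (f^[N] k))`; `κ` is finite, so `f^[N₁] k = f^[N₂] k` with `N₁ < N₂` and `ζ ^ (N₂ - N₁) = 1`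
(`ζ ≠ 0`).  Let `N = N₂ - N₁`, `k' = f k`, `c` with `cz P c k'`, `cz (1 - P) c k` (`Sp.exists_mx`): `Lift.rat`: `t k' * a k = t k * a c`, so `ζ = i (a c / a k)` and `a c ^ N = a k ^ N`, so `c = k`,
`ζ = 1`. -/
theorem zeta_one {t : κ → Ω} (ht : Lift P a t) (ha0 : ∀ k, a k ≠ 0) (hP : Sp P)
    (htor : ∀ k l : κ, ∀ N : ℕ, N ≠ 0 → a k ^ N = a l ^ N → k = l) {K : Type*} [Field K]
    (i : Ω →+* K) {ζ : K} (hζ : ∀ k, ∃ k', ζ * i (t k) = i (t k')) : ζ = 1 := by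
  choose f hf using hζ
  obtain ⟨k⟩ := ‹Nonempty κ›
  have hit : ∀ k, i (t k) ≠ 0 := fun k => (map_ne_zero i).2 (ht.ne k)
  have hζ0 : ζ ≠ 0 := by
    intro h
    have := hf k
    rw [h, zero_mul] at this
    exact hit _ this.symm
  have hiter : ∀ N : ℕ, ζ ^ N * i (t k) = i (t (f^[N] k)) := by
    intro N
    induction N with
    | zero => simp
    | succ N ih =>
      rw [pow_succ', mul_assoc, ih, Function.iterate_succ_apply', hf]
  obtain ⟨N₁, N₂, hne, heq⟩ := Finite.exists_ne_map_eq_of_infinite (fun N : ℕ => f^[N] k)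
  have key : ∃ N : ℕ, N ≠ 0 ∧ ζ ^ N = 1 := by
    have hh : ζ ^ N₁ = ζ ^ N₂ := by
      apply mul_right_cancel₀ (hit k)
      rw [hiter, hiter]
      exact congrArg (fun x => i (t x)) heq
    rcases lt_or_gt_of_ne hne with hlt | hlt
    · refine ⟨N₂ - N₁, by omega, ?_⟩
      apply mul_left_cancel₀ (pow_ne_zero N₁ hζ0)
      rw [← pow_add, mul_one, Nat.add_sub_cancel' hlt.le, hh]
    · refine ⟨N₁ - N₂, by omega, ?_⟩
      apply mul_left_cancel₀ (pow_ne_zero N₂ hζ0)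
      rw [← pow_add, mul_one, Nat.add_sub_cancel' hlt.le, hh]
  obtain ⟨N, hN0, hN⟩ := key
  obtain ⟨c, hc1, hc2⟩ := hP.exists_mx (f k) k
  have hrat := ht.rat (f k) k c hc1 hc2
  have h1 : ζ * i (a k) = i (a c) := by
    have h2 : i (t (f k)) * i (a k) = i (t k) * i (a c) := by
      rw [← map_mul, ← map_mul, hrat]
    rw [← hf k] at h2
    apply mul_left_cancel₀ (hit k)
    rw [← h2]
    ring
  have h3 : a k ^ N = a c ^ N := by
    apply i.injective
    rw [map_pow, map_pow, ← h1, mul_pow, hN, one_mul]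
  have h4 : k = c := htor k c N hN0 h3
  rw [← h4] at h1
  have h5 : i (a k) ≠ 0 := (map_ne_zero i).2 (ha0 k)
  exact mul_right_cancel₀ h5 (by rw [h1, one_mul])

end Pool.Agent.H76Q
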