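import Pool.Agent.Lib.H76Q.Q3
import Pool.Agent.Lib.H76Q.C6
import Pool.Agent.Lib.H76Q.D2
import Pool.Agent.Lib.H76Q.E2
import Pool.Agent.Lib.H76Q.E3
import Pool.Agent.Lib.H76Q.E4
import Pool.Agent.Lib.H76Q.E5
import Pool.Agent.Lib.H76Q.F1
import Pool.Agent.Lib.H76Q.F2
import Pool.Agent.Lib.H76Q.F3
import Pool.Agent.Lib.H76Q.F4
import Pool.Agent.Lib.H76Q.F5
import Pool.Agent.Lib.H76Q.F6

/-!
# the even lemma
-/

set_option autoImplicit false
set_option linter.unusedSectionVars false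
namespace Pool.Agent.H76Q
open Module Matrix Polynomial Pool.Agent.H53Toric
open Pool.Agent.H76P
open Pool.Agent.H76T (IsIdeal Fam Lc)
open Pool.Agent.H76V (Cmp)
open Pool.Agent.H76U (cmp preL IsSplitting)
open Pool.Agent.H76RM (spanK similD)

variable {ι : Type*} [Fintype ι] [DecidableEq ι] {K : Type*} [Field K] [CharZero K]
  [IsAlgClosed K]

/-- PROOF. Section 6 (b) of PROOF.md.  `int_PT` (F1) for `g = ρ σ₀` (`hint`): `u`, `u'`, `r`, `t₁`; `phi (cmp U V φ) = dg (i ∘ a)` (`H76P.cmp_phi`) is a pure tensor `(w, r', t')` (`gen_PT`, `hφ`), `w = dg u₀`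
(`PT_diag`), `u₀ k * u₀ (bar k) = t'` (`lam_diag`, `pair_bar`), `u₀ k = c₀ * i (t k)` (`Lift.eq_c`), `t' = c₀ ^ 2 * i m`; `ξ` is a pure tensor (`gen_PT`).  `unr_comm` (F4) for
`z = (ρ σ₀)⁻¹ * (ξ * φ * ξ')`, `unr_u` (F5): `u = c • (y * w * y')`, `t₁ = c ^ 2 * t'`, so `t₁ = (c c₀) ^ 2 * i m`, and `¬ IsUnit (u - l)` iff `l = c c₀ i (t k)` for some `k` (`spec_conj`).  `exists_unit_entry` (F2) for
`A = U u V`, `B = U u' V`: `A k l ≠ 0`, `v (A k l) = 0`; `u₁ = (A k l)⁻¹ • u`.  For `δ ∈ Δ` let `θ` be as in `exists_theta` (E3); `θ u = d • u` (`Theta.pt`, `PT_unique`, `θ (phi (cmp (ρ σ₀))) = phi (cmp (ρ σ₀))`), so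
`θ u₁ = u₁` (compare the entry `(k, l)`).  So (`Theta.spec`) the set of the numbers `c₃ * i (t k)`, `c₃ = c c₀ / A k l`, is stable under `δ`; `δ (i (t k)) = i (t (σ k))` (`Lift.eqv`), so `ζ = δ c₃ / c₃`
satisfies the condition of `zeta_one` (F6); `δ c₃ = c₃`.  `hdval`: `v c₃` is an integer `n`, `v (c c₀) = n`, `0 = v t₁ = 2 n + v (i m)`. -/
theorem even_lemma {L : Type*} [Field L] [CharZero L] [Algebra L K] {G : Type*} [Group G]
    (ρ : G →* Matrix.GeneralLinearGroup ι L) {J : Matrix ι ι K} {H₀ : Subgroup G}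
    {e φ μ : Matrix ι ι K} {q : K} {n : ℕ} {U : Matrix ι (Fin n) K} {V : Matrix (Fin n) ι K}
    {Ω : Type*} [Field Ω] [CharZero Ω] {a : Fin n → Ω} {i : Ω →+* K}
    {Y : Submodule ℚ (Fin n → ℚ)} {σ₀ : G}
    (h : Loc J (img K ρ H₀) (properProj K ρ) e φ q U V (fun k => i (a k)) Y)
    (hφ : φ ∈ tgen K ρ) {v : K → ℚ} (hv : IsVal v) (hev : IntMat v e) (hμ : μ ∈ properProj K ρ)
    (hμφ : μ * φ = φ * μ) {ε : Fin n → ℚ} (hε : IsHT μ φ e (fun k => i (a k)) ε)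
    {P : Module.End ℚ Y} (hP : Sp P) (hc : Comp (Lc J (img K ρ H₀) U V) P)
    (hεP : FunP (1 - P) ε) (hρe : ∀ g : G, (ρ g).1.map (algebraMap L K) * e =
      e * (ρ g).1.map (algebraMap L K)) {ξ ξ' : Matrix ι ι K} (hξ : ξ ∈ tgen K ρ)
    (hξξ : ξ * ξ' = 1)
    (hunr : ∀ I : Submodule K (Matrix ι ι K), adStable (zlie (img K ρ H₀)) I →
      (∀ X ∈ I, μ * X = X * μ) → ∀ X ∈ I,
        ((ρ σ₀)⁻¹.1.map (algebraMap L K) * (ξ * φ * ξ')) * X =
          X * ((ρ σ₀)⁻¹.1.map (algebraMap L K) * (ξ * φ * ξ')))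
    (hint : (ρ σ₀).1.map (algebraMap L K) ∈ Submonoid.closure
      {x | ∃ h ∈ properProj K ρ, IntMat v h ∧ ∃ t : K, t ≠ 0 ∧ v t = 0 ∧ x = 1 + (t - 1) • h})
    {Δ : Set (K ≃+* K)} (hfix : ∀ δ ∈ Δ, ∀ c : L, δ (algebraMap L K c) = algebraMap L K c)
    (hφΔ : ∀ δ ∈ Δ, φ.map δ = φ) (hJΔ : ∀ δ ∈ Δ, J.map δ = J) (heΔ : ∀ δ ∈ Δ, e.map δ = e)
    (hdval : ∀ x : K, x ≠ 0 → (∀ δ ∈ Δ, δ x = x) → ∃ n : ℤ, v x = n)
    (hdec : ∀ δ ∈ Δ, ∃ (s : Ω ≃+* Ω) (σ : Equiv.Perm (Fin n)), (∀ y, δ (i y) = i (s y)) ∧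
      (∀ k, s (a k) = a (σ k)) ∧ StabP P σ)
    (htor : ∀ k l : Fin n, ∀ N : ℕ, N ≠ 0 → a k ^ N = a l ^ N → k = l)
    {t : Fin n → Ω} (ht : Lift P a t) {bar : Equiv.Perm (Fin n)}
    (hbar : ∀ k, i (a k) * i (a (bar k)) = q) {m : Ω} (hm : ∀ k, t k * t (bar k) = m) :
    ∃ n : ℤ, v (i m) = 2 * n := by
  classical
  have : Nonempty (Fin n) := ⟨⟨0, h.pos⟩⟩
  set g : Matrix ι ι K := (ρ σ₀).1.map (algebraMap L K) with hgdef
  set g' : Matrix ι ι K := (ρ σ₀)⁻¹.1.map (algebraMap L K) with hg'def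
  have hgg : g * g' = 1 := by
    rw [hgdef, hg'def, ← Matrix.map_mul, ← Units.val_mul, mul_inv_cancel]
    exact Matrix.map_one _ (map_zero _) (map_one _)
  have hge : g * e = e * g := hρe σ₀
  have hg'e : g' * e = e * g' := by
    have h1 := hρe σ₀⁻¹
    rwa [map_inv] at h1
  have hφe : φ * e = e * φ := h.ex.symm
  have hξe : ξ * e = e * ξ := cmp_comm h hξ
  have hξ'e : ξ' * e = e * ξ' := by
    have h0 : ξ' * ξ = 1 := _root_.mul_eq_one_comm.1 hξξ
    calc ξ' * e = ξ' * (e * (ξ * ξ')) := by rw [hξξ, Matrix.mul_one]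
      _ = ξ' * ((e * ξ) * ξ') := by rw [Matrix.mul_assoc e ξ ξ']
      _ = ξ' * ((ξ * e) * ξ') := by rw [hξe]
      _ = (ξ' * ξ) * (e * ξ') := by simp only [Matrix.mul_assoc]
      _ = e * ξ' := by rw [h0, Matrix.one_mul]
  have hmul : ∀ A B : Matrix ι ι K, B * e = e * B → phi (cmp U V (A * B)) = phi (cmp U V A) * phi (cmp U V B) := by
    intro A B hB
    rw [Pool.Agent.H76U.cmp_mul h.UV h.VU hB, map_mul]
  have hone : phi (cmp U V (1 : Matrix ι ι K)) = 1 := by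
    rw [Pool.Agent.H76U.cmp_one h.UV h.VU, map_one]
  -- the pure tensors
  obtain ⟨u, u', r, t₁, hX, hvt, huu, hA, hB⟩ := int_PT h hv hev hP hc hint
  obtain ⟨w, r', t', hΦ⟩ := gen_PT h hP hc hφ
  obtain ⟨y, r'', t'', hΞ⟩ := gen_PT h hP hc hξ
  have hcphi : phi (cmp U V φ) = dg (fun k => i (a k)) := by
    rw [H76P.cmp_phi h.VU h.ec, H76P.phi_diag]
  rw [hcphi] at hΦ
  obtain ⟨u₀, r₀, rfl, rfl, hfu, hfr, hprod⟩ := PT_diag h.ts h.yo hP hc h.ec.inj hΦ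
  have hia0 : ∀ k, i (a k) ≠ 0 := h.ec.ne
  have ha0 : ∀ k, a k ≠ 0 := fun k hk => hia0 k (by rw [hk, map_zero])
  have hlam : ∀ k, u₀ k * u₀ (bar k) = t' :=
    lam_diag h.ts.cmp.Jd (fun k l hkl => pair_bar h hbar hia0 k l hkl) hΦ.2.2.2.2.1
  have hLD : LD P a i u₀ r₀ := ⟨hprod, hfu, hfr⟩
  obtain ⟨c₀, hc₀, hu₀⟩ := ht.eq_c ha0 hP hLD
  have ht'm : t' = c₀ ^ 2 * i m := by
    obtain ⟨k⟩ := this
    rw [← hlam k, hu₀ k, hu₀ (bar k), ← hm k, map_mul]
    ring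
  -- the relation between `u` and `w`
  have hz : ∀ A ∈ AZ (Lc J (img K ρ H₀) U V) P,
      (phi (cmp U V g') * (phi (cmp U V ξ) * dg (fun k => i (a k)) * phi (cmp U V ξ'))) * A =
        A * (phi (cmp U V g') * (phi (cmp U V ξ) * dg (fun k => i (a k)) * phi (cmp U V ξ'))) := by
    have h1 : phi (cmp U V (g' * (ξ * φ * ξ'))) =
        phi (cmp U V g') * (phi (cmp U V ξ) * dg (fun k => i (a k)) * phi (cmp U V ξ')) := by
      have h2 : (ξ * φ * ξ') * e = e * (ξ * φ * ξ') := by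
        calc (ξ * φ * ξ') * e = ξ * φ * (ξ' * e) := by rw [Matrix.mul_assoc]
          _ = ξ * φ * (e * ξ') := by rw [hξ'e]
          _ = ξ * (φ * e) * ξ' := by simp only [Matrix.mul_assoc]
          _ = ξ * (e * φ) * ξ' := by rw [hφe]
          _ = (ξ * e) * φ * ξ' := by simp only [Matrix.mul_assoc]
          _ = (e * ξ) * φ * ξ' := by rw [hξe]
          _ = e * (ξ * φ * ξ') := by simp only [Matrix.mul_assoc]
      rw [hmul _ _ h2, hmul _ _ hξ'e, hmul _ _ hφe, hcphi]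
    rw [← h1]
    refine unr_comm h hμ hμφ hε hP hc hεP ?_ hunr
    calc g' * (ξ * φ * ξ') * e = g' * (ξ * φ * (ξ' * e)) := by simp only [Matrix.mul_assoc]
      _ = g' * (ξ * φ * (e * ξ')) := by rw [hξ'e]
      _ = g' * (ξ * (φ * e) * ξ') := by simp only [Matrix.mul_assoc]
      _ = g' * (ξ * (e * φ) * ξ') := by rw [hφe]
      _ = g' * ((ξ * e) * φ * ξ') := by simp only [Matrix.mul_assoc]
      _ = g' * ((e * ξ) * φ * ξ') := by rw [hξe]
      _ = (g' * e) * (ξ * φ * ξ') := by simp only [Matrix.mul_assoc]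
      _ = (e * g') * (ξ * φ * ξ') := by rw [hg'e]
      _ = e * (g' * (ξ * φ * ξ')) := by simp only [Matrix.mul_assoc]
  have hΞΞ : phi (cmp U V ξ) * phi (cmp U V ξ') = 1 := by
    rw [← hmul _ _ hξ'e, hξξ, hone]
  have hXX : phi (cmp U V g) * phi (cmp U V g') = 1 := by
    rw [← hmul _ _ hg'e, hgg, hone]
  obtain ⟨c, y', hc0, hyy, hu, ht₁⟩ := unr_u h.ts h.yo hP hc hX hΦ hΞ hΞΞ hXX hz
  -- the unit entry
  have hUV : U * V * (U * V) = U * V := by
    calc U * V * (U * V) = U * (V * U) * V := by simp only [Matrix.mul_assoc]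
      _ = U * V := by rw [h.VU, Matrix.mul_one]
  have he : e * e = e := by rw [h.UV, hUV]
  have he0 : e ≠ 0 := by
    intro h0
    have h1 : V * e * U = 1 := by
      rw [h.UV]
      calc V * (U * V) * U = (V * U) * (V * U) := by simp only [Matrix.mul_assoc]
        _ = 1 := by rw [h.VU, Matrix.one_mul]
    rw [h0, Matrix.mul_zero, Matrix.zero_mul] at h1
    exact zero_ne_one h1
  have hAB : (U * LinearMap.toMatrix' u * V) * (U * LinearMap.toMatrix' u' * V) = e := by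
    calc (U * LinearMap.toMatrix' u * V) * (U * LinearMap.toMatrix' u' * V) =
          U * LinearMap.toMatrix' u * (V * U) * LinearMap.toMatrix' u' * V := by simp only [Matrix.mul_assoc]
      _ = U * (LinearMap.toMatrix' u * LinearMap.toMatrix' u') * V := by
          rw [h.VU, Matrix.mul_one]
          simp only [Matrix.mul_assoc]
      _ = U * LinearMap.toMatrix' (u * u') * V := by rw [LinearMap.toMatrix'_mul]
      _ = e := by
          rw [huu, LinearMap.toMatrix'_one, Matrix.mul_one, h.UV]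
  obtain ⟨k₀, l₀, hA0, hvA⟩ := exists_unit_entry hv he he0 hA hB hAB
  set α : K := (U * LinearMap.toMatrix' u * V) k₀ l₀ with hα
  set u₁ : Module.End K (Fin n → K) := α⁻¹ • u with hu₁
  set c₃ : K := α⁻¹ * c * c₀ with hc₃
  have hc₃0 : c₃ ≠ 0 := mul_ne_zero (mul_ne_zero (inv_ne_zero hA0) hc0) hc₀
  have hu₁' : u₁ = (α⁻¹ * c) • (y * dg u₀ * y') := by rw [hu₁, hu, smul_smul]
  have hspec : ∀ l, ¬ IsUnit (u₁ - l • 1) ↔ ∃ k, l = c₃ * i (t k) := by
    intro l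
    rw [spec_conj hyy hu₁' l]
    refine exists_congr fun k => ?_
    rw [hu₀ k, hc₃, mul_assoc (α⁻¹ * c)]
  have hfixc : ∀ δ ∈ Δ, δ c₃ = c₃ := by
    intro δ hδ
    obtain ⟨s, π, hs, hsa, hst⟩ := hdec δ hδ
    have hσ : ∀ k, δ (i (a k)) = i (a (π k)) := fun k => by rw [hs, hsa]
    have hfg : ∀ γ : G, ((ρ γ).1.map (algebraMap L K)).map δ = (ρ γ).1.map (algebraMap L K) := by
      intro γ
      ext k l
      exact hfix δ hδ _
    obtain ⟨θ, hθ, hθU⟩ := exists_theta h (heΔ δ hδ) (hφΔ δ hδ) (hJΔ δ hδ)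
      (by rintro _ ⟨γ, -, rfl⟩; exact hfg γ) hσ
    -- `θ` fixes the operator of `g`
    have hθX : θ (phi (cmp U V g)) = phi (cmp U V g) := by
      have h1 := hθU (phi (cmp U V g))
      have h2 : LinearMap.toMatrix' (phi (cmp U V g)) = cmp U V g := LinearMap.toMatrix'_toLin' _
      have h3 : U * cmp U V g * V = g * e := by
        rw [Pool.Agent.H76U.P_cmp h.UV h.VU hge, Matrix.mul_assoc, ← h.UV]
      rw [h2, h3] at h1
      have h4 : (g * e).map δ = g * e := by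
        rw [Matrix.map_mul, heΔ δ hδ, hgdef]
        rw [hfg σ₀]
      rw [h4] at h1
      have h5 : V * (g * e) * U = LinearMap.toMatrix' (θ (phi (cmp U V g))) := by
        rw [h1]
        calc V * (U * LinearMap.toMatrix' (θ (phi (cmp U V g))) * V) * U =
            (V * U) * LinearMap.toMatrix' (θ (phi (cmp U V g))) * (V * U) := by simp only [Matrix.mul_assoc]
          _ = _ := by rw [h.VU, Matrix.mul_one, Matrix.one_mul]
      have h6 : V * (g * e) * U = cmp U V g := by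
        rw [← h3]
        calc V * (U * cmp U V g * V) * U = (V * U) * cmp U V g * (V * U) := by simp only [Matrix.mul_assoc]
          _ = _ := by rw [h.VU, Matrix.mul_one, Matrix.one_mul]
      rw [h6] at h5
      exact (LinearMap.toMatrix'.injective (h2.trans h5)).symm
    have hpt := hθ.pt h.yo hst hX
    rw [hθX] at hpt
    obtain ⟨c', hc', hθu, -⟩ := PT_unique h.ts h.yo hP hc hX hpt
    have hδα : δ α = c' * α := by
      have h1 := congrFun (congrFun (hθU u) k₀) l₀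
      rw [Matrix.map_apply] at h1
      rw [hα, h1, hθu, map_smul, Matrix.mul_smul, Matrix.smul_mul, Matrix.smul_apply, smul_eq_mul]
    have hθu₁ : θ u₁ = u₁ := by
      rw [hu₁, hθ.smul, hθu, map_inv₀, hδα, smul_smul]
      have h1 : (c' * α)⁻¹ * c' = α⁻¹ := by
        field_simp
      rw [h1]
    have hζ : ∀ k, ∃ k', (δ c₃ / c₃) * i (t k) = i (t k') := by
      intro k
      have h1 : ¬ IsUnit (u₁ - (c₃ * i (t (π.symm k))) • 1) := (hspec _).2 ⟨_, rfl⟩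
      obtain ⟨k', hk'⟩ := (hspec _).1 (hθ.spec hθu₁ _ h1)
      refine ⟨k', ?_⟩
      have h2 : s (t (π.symm k)) = t k := by
        rw [ht.eqv s π hsa hst, Equiv.apply_symm_apply]
      rw [map_mul, hs, h2] at hk'
      rw [div_mul_eq_mul_div, hk', mul_div_assoc, mul_div_cancel₀]
      exact hc₃0
    have h1 := zeta_one ht ha0 hP htor i hζ
    exact (div_eq_one_iff_eq hc₃0).1 h1
  obtain ⟨N, hN⟩ := hdval c₃ hc₃0 hfixc
  -- the valuation
  have hm0 : m ≠ 0 := by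
    obtain ⟨k⟩ := this
    rw [← hm k]
    exact mul_ne_zero (ht.ne k) (ht.ne (bar k))
  have him0 : i m ≠ 0 := (_root_.map_ne_zero i).2 hm0
  have hcc : v (c * c₀) = N := by
    have h1 : c * c₀ = α * c₃ := by
      rw [hc₃]
      field_simp
    rw [h1, hv.mul _ _ hA0 hc₃0, hvA, hN, zero_add]
  have ht₁' : t₁ = (c * c₀) ^ 2 * i m := by
    rw [ht₁, ht'm]
    ring
  have hcc0 : c * c₀ ≠ 0 := mul_ne_zero hc0 hc₀
  rw [ht₁', hv.mul _ _ (pow_ne_zero 2 hcc0) him0, sq, hv.mul _ _ hcc0 hcc0, hcc] at hvt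
  refine ⟨-N, ?_⟩
  push_cast
  linarith

end Pool.Agent.H76Q
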