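import Pool.Agent.Lib.H76Q.Q6
import Pool.Agent.Lib.H76Q.W4
import Pool.Agent.Lib.H76Q.W5
import Pool.Agent.Lib.H76Q.D1

/-!
# the Hodge-Tate type at a block
-/

set_option autoImplicit false
set_option linter.unusedSectionVars false
namespace Pool.Agent.H76Q
open Module Matrix Polynomial Pool.Agent.H53Toric
open Pool.Agent.H76P
open Pool.Agent.H76T (IsIdeal Fam Lc)
open Pool.Agent.H76V (Cmp)
open Pool.Agent.H76U (cmp preL IsSplitting)
open Pool.Agent.H76RM (spanK similD)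

section
variable {K : Type*} [Field K] {v : K → ℚ}

theorem w6_v1 (hv : IsVal v) : v 1 = 0 := by
  have h := hv.mul 1 1 one_ne_zero one_ne_zero
  rw [mul_one] at h
  linarith

theorem w6_vprod (hv : IsVal v) {Ω : Type*} [Field Ω] (i : Ω →+* K) (s : Finset Ω)
    (hs : ∀ r ∈ s, r ≠ 0) : v (i (∏ r ∈ s, r)) = ∑ r ∈ s, v (i r) := by
  classical
  induction s using Finset.induction_on with
  | empty => simp [w6_v1 hv]
  | insert a s ha ih =>
    have h1 : ∀ r ∈ s, r ≠ 0 := fun r hr => hs r (Finset.mem_insert_of_mem hr)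
    have ha0 : a ≠ 0 := hs a (Finset.mem_insert_self a s)
    have h2 : (∏ r ∈ s, r) ≠ 0 := Finset.prod_ne_zero_iff.2 h1
    rw [Finset.prod_insert ha, Finset.sum_insert ha, map_mul,
      hv.mul _ _ ((map_ne_zero i).2 ha0) ((map_ne_zero i).2 h2), ih h1]

theorem w6_vsq (hv : IsVal v) {x : K} (hx : x ≠ 0) : v (x ^ 2) = 2 * v x := by
  rw [pow_two, hv.mul x x hx hx]
  ring

end

variable {ι : Type*} [Fintype ι] [DecidableEq ι] {ψ : Matrix ι ι ℚ}
    {D : Subalgebra ℚ (Matrix ι ι ℚ)} {M : Type*} [Field M] [NumberField M]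
    {m : ℕ} {e : Fin m → Matrix ι ι M} {G : Type*} [Group G]
    {ρ : ∀ (l : ℕ) [Fact l.Prime], G →* Matrix.GeneralLinearGroup ι ℚ_[l]}
    {p : ℕ} [Fact p.Prime] {σ : G} {q : ℚ} {f : ℚ[X]} {F : Fin m → M[X]}
    {φ μ ν : Matrix ι ι (AlgebraicClosure ℚ_[p])} {v : AlgebraicClosure ℚ_[p] → ℚ}
    {Δ : Set (AlgebraicClosure ℚ_[p] ≃+* AlgebraicClosure ℚ_[p])}
    {Ω : Type*} [Field Ω] [CharZero Ω] [IsAlgClosed Ω] [Algebra.IsAlgebraic ℚ Ω] {j : M →+* Ω}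
    {R : Finset Ω} {N : Set ℕ} (C : Core2 ψ D e ρ p σ q f F φ μ ν v Δ j R N)

include C

/-- PROOF. Section 6 (c) of PROOF.md.  Let `t`, `t'` be lifts for `P`, `1 - P` (`exists_lift`, D1, with `Core2.ld`; for `1 - P` exchange `u` and `r`; `Good (1 - P)` by `Comp.compl`), `m₀`, `m₁` the numbers of
`Lift.exists_m`, `m₀ * m₁ = x ^ 2 * q` (`Lift.exists_x`).  `RP = R'` of `Core2.recl` for `P`, `m₀ = ∏ r * c ^ 2`, `c ≠ 0`, so `v (i m₀) = (1 if the r with v (i r) = 1 is in R', else 0) + 2 v (i c)`, `v (i c)` an integer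
(`Core2.int_val`).  If `FunP (1 - P) ε` then `v (i m₀)` is even (`Core2.even`).  If `FunP P ε`, i.e. `FunP (1 - (1 - P)) ε`, then `v (i m₁)` is even, `v (i x)` an integer (`gam_compl`), `v q = 1`, so `v (i m₀)` is odd.  One
of the two cases holds (`HT_or`, F3), and not both (`FunP_both`, `HT_spec`). -/
theorem Core2.ht_iff (b : Fin m)
    {n : ℕ} {a : Fin n → Ω} (ha : Function.Injective a)
    (hroot : ∀ y : Ω, (F b).eval₂ j y = 0 ↔ ∃ k, y = a k)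
    {P : Module.End ℚ (YS a)} (hP : Sp P) (hg : Good P) :
    ∃ RP ⊆ R, ∀ (i : Ω →+* AlgebraicClosure ℚ_[p]) (ε : Fin n → ℚ),
      IsHT μ φ ((e b).map (i.comp j)) (fun k => i (a k)) ε →
        (FunP P ε ↔ ∃ r ∈ RP, v (i r) = 1) := by
  classical
  have hv : IsVal v := C.crys.val
  obtain ⟨bar, hbar⟩ := C.bar b ha hroot
  have i₀ : Ω →+* AlgebraicClosure ℚ_[p] :=
    (IsAlgClosed.lift (R := ℚ) (S := Ω) (M := AlgebraicClosure ℚ_[p])).toRingHom
  obtain ⟨H₀, U₀, V₀, hH₀, hl₀⟩ := C.locp b ha hroot i₀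
  haveI : Nonempty (Fin n) := ⟨⟨0, hl₀.pos⟩⟩
  have ha0 : ∀ k, a k ≠ 0 := fun k h0 => hl₀.ec.ne k (by rw [h0, map_zero])
  have hsep : ∀ x y : Fin n, x ≠ y → ∃ f ∈ YS a, f x ≠ f y := by
    intro x y hxy
    obtain ⟨f, hf, hne⟩ := hl₀.ts.sep x y hxy
    exact ⟨f, hl₀.yo ▸ hf, hne⟩
  have hg' : Good (1 - P) := fun K _ _ _ L J h1 h2 => (hg K L J h1 h2).compl
  obtain ⟨u, r, l, hld, hu⟩ := C.ld b ha hroot hbar hP hg i₀
  obtain ⟨u', r', l', hld', hu'⟩ := C.ld b ha hroot hbar hP.compl hg' i₀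
  obtain ⟨t, ht⟩ := exists_lift ha ha0 hP hsep hld
  obtain ⟨t', ht'⟩ := exists_lift ha ha0 hP.compl hsep hld'
  obtain ⟨m₀, hm0, hm, -⟩ := ht.exists_m ha ha0 hP hbar hld hu
  obtain ⟨m₁, hm10, hm1, -⟩ := ht'.exists_m ha ha0 hP.compl hbar hld' hu'
  obtain ⟨x, hx0, hxs, hx⟩ := ht.exists_x ht' ha0 hP hbar hld
  have hxm : m₀ * m₁ = x ^ 2 * algebraMap ℚ Ω q := hx m₀ m₁ hm hm1
  obtain ⟨R', hR', c, hc, hmc⟩ := C.recl b ha hroot hbar hP hg ht hm
  have hc0 : c ≠ 0 := by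
    rintro rfl
    apply hm0
    rw [hmc]
    ring
  have hprod0 : (∏ r ∈ R', r) ≠ 0 := by
    intro h0
    apply hm0
    rw [hmc, h0, zero_mul]
  have hR0 : ∀ r ∈ R', r ≠ 0 := Finset.prod_ne_zero_iff.1 hprod0
  refine ⟨R', hR', fun i ε hε => ?_⟩
  obtain ⟨H₁, U, V, hH₁, hl⟩ := C.locp b ha hroot i
  have hcomp : Comp (Lc _ _ U V) P := hg _ _ _ hl.ts hl.yo
  obtain ⟨r₀, hr₀, hr1, hr2⟩ := C.Rval i
  obtain ⟨n₁, hn₁⟩ := C.int_val b ha hroot hP hg i hc0 hc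
  -- the value of `i m₀`
  have hvm : v (i m₀) = ∑ r ∈ R', v (i r) + 2 * v (i c) := by
    rw [hmc, map_mul, map_pow, hv.mul _ _ ((map_ne_zero i).2 hprod0)
      (pow_ne_zero 2 ((map_ne_zero i).2 hc0)), w6_vprod hv i R' hR0,
      w6_vsq hv ((map_ne_zero i).2 hc0)]
  have hsum1 : r₀ ∈ R' → ∑ r ∈ R', v (i r) = 1 := by
    intro hmem
    rw [Finset.sum_eq_single_of_mem r₀ hmem, hr1]
    intro r hr hne
    exact hr2 r (hR' hr) hne
  have hsum0 : r₀ ∉ R' → ∑ r ∈ R', v (i r) = 0 := by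
    intro hmem
    refine Finset.sum_eq_zero fun r hr => hr2 r (hR' hr) ?_
    rintro rfl
    exact hmem hr
  have hex : (∃ r ∈ R', v (i r) = 1) ↔ r₀ ∈ R' := by
    constructor
    · rintro ⟨r, hr, hr'⟩
      by_contra hcon
      have hne : r ≠ r₀ := by
        rintro rfl
        exact hcon hr
      rw [hr2 r (hR' hr) hne] at hr'
      exact zero_ne_one hr'
    · intro h
      exact ⟨r₀, h, hr1⟩
  -- first case
  have hcase1 : FunP (1 - P) ε → r₀ ∉ R' := by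
    intro hε1 hmem
    obtain ⟨n₂, hn₂⟩ := C.even b ha hroot hbar hP hg ht hm i hε hε1
    rw [hvm, hsum1 hmem, hn₁] at hn₂
    have h3 : (1 : ℤ) + 2 * n₁ = 2 * n₂ := by exact_mod_cast hn₂
    omega
  -- second case
  have hcase2 : FunP P ε → r₀ ∈ R' := by
    intro hε1
    by_contra hmem
    have hε2 : FunP (1 - (1 - P)) ε := by
      have h1 : (1 - (1 - P) : Module.End ℚ (YS a)) = P := sub_sub_cancel 1 P
      rw [h1]
      exact hε1
    obtain ⟨n₂, hn₂⟩ := C.even b ha hroot hbar hP.compl hg' ht' hm1 i hε hε2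
    have hxG : ∀ s ∈ GamP j R a P, s x = x := by
      rintro s ⟨-, -, π, hπ, hst⟩
      exact hxs s π hπ hst
    obtain ⟨n₃, hn₃⟩ := C.int_val b ha hroot hP hg i hx0 hxG
    have hq0 : algebraMap ℚ Ω q ≠ 0 := by
      intro h0
      rw [h0, mul_zero] at hxm
      exact mul_ne_zero hm0 hm10 hxm
    have hiq : i (algebraMap ℚ Ω q) = algebraMap ℚ (AlgebraicClosure ℚ_[p]) q := by
      rw [← RingHom.comp_apply]
      exact congrArg (fun g : ℚ →+* AlgebraicClosure ℚ_[p] => g q) (Subsingleton.elim _ _)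
    have h4 : v (i m₀) + v (i m₁) = 2 * v (i x) + 1 := by
      rw [← hv.mul _ _ ((map_ne_zero i).2 hm0) ((map_ne_zero i).2 hm10), ← map_mul, hxm, map_mul,
        map_pow, hv.mul _ _ (pow_ne_zero 2 ((map_ne_zero i).2 hx0)) ((map_ne_zero i).2 hq0),
        w6_vsq hv ((map_ne_zero i).2 hx0), hiq, C.vq]
    rw [hvm, hsum0 hmem, hn₁, hn₂, hn₃] at h4
    have h5 : (0 : ℤ) + 2 * n₁ + 2 * n₂ = 2 * n₃ + 1 := by exact_mod_cast h4
    omega
  rw [hex]
  constructor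
  · exact hcase2
  · intro hmem
    rcases HT_or hl C.crys.mu C.crys.muphi hε hcomp with h | h
    · exact h
    · exact absurd hmem (hcase1 h)

end Pool.Agent.H76Q
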