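import Pool.Agent.Lib.H76Q.Q5

/-!
# Q7: Mumford type data over a number field
-/

set_option autoImplicit false
set_option linter.unusedSectionVars false
namespace Pool.Agent.H76Q
open Module Matrix
open Pool.Agent.H76P (properProj)

/-- A Mumford type datum for the component `e` over the number field `F`: a partition `c` of the
set of embeddings of `F` into `k` classes, which are permuted by all automorphisms `s` such that
`e` and its image under `s` are linked, i.e. which fix the centre of the component; complex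
conjugations act trivially on the classes, and each `s` permutes the classes with a cycle of odd
length.  `A` is an invariant family of even numbers. -/
structure MumD {ι : Type*} [Fintype ι] [DecidableEq ι] (D : Subalgebra ℚ (Matrix ι ι ℚ))
    {M Ω : Type*} [Field M] [Field Ω] [CharZero Ω] (j : M →+* Ω) (e : Matrix ι ι M)
    (F : Type*) [Field F] {k : ℕ} (c : (F →+* Ω) → Fin k) (A : Fin k → ℕ) : Prop where
  surj : Function.Surjective c
  even : ∀ x, Even (A x)
  perm : ∀ s : Ω ≃+* Ω, Linked D (e.map j) (e.map (s.toRingHom.comp j)) →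
    ∃ π : Equiv.Perm (Fin k), (∀ τ : F →+* Ω, c (s.toRingHom.comp τ) = π (c τ)) ∧
      (∀ x, A (π x) = A x) ∧
      ((∃ κ : Ω →+* ℂ, ∀ y, κ (s y) = starRingEnd ℂ (κ y)) → π = 1) ∧
      ∃ (u : ℕ) (x : Fin k), Odd u ∧ (π ^ u) x = x

/-- The class of the Hodge-Tate cocharacter at a place of degree one above `l` is defined over
`ℚ_l`: for almost all `l` such that `F` has an embedding into `ℚ_l` there is a projector `h` of the
monodromy group which commutes with the image of `σ` and whose conjugates over `ℚ_l` are conjugate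
to `h` under the group. -/
def HTRat {ι : Type*} [Fintype ι] [DecidableEq ι] (F : Type*) [Field F] {G : Type*} [Group G]
    (ρ : ∀ (l : ℕ) [Fact l.Prime], G →* Matrix.GeneralLinearGroup ι ℚ_[l]) (σ : G) : Prop :=
  ∃ N : Set ℕ, N.Finite ∧ ∀ (l : ℕ) [Fact l.Prime], l ∉ N → Nonempty (F →+* ℚ_[l]) →
    ∃ h ∈ properProj (AlgebraicClosure ℚ_[l]) (ρ l),
      h * (ρ l σ).1.map (algebraMap ℚ_[l] (AlgebraicClosure ℚ_[l])) =
        (ρ l σ).1.map (algebraMap ℚ_[l] (AlgebraicClosure ℚ_[l])) * h ∧
      ∀ t : AlgebraicClosure ℚ_[l] ≃ₐ[ℚ_[l]] AlgebraicClosure ℚ_[l],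
        ∃ g g' : Matrix ι ι (AlgebraicClosure ℚ_[l]), g ∈ tgen (AlgebraicClosure ℚ_[l]) (ρ l) ∧
          g * g' = 1 ∧ h.map t = g * h * g'

end Pool.Agent.H76Q
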