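import Pool.Agent.Lib.H76Q.Q4
import Pool.Agent.Lib.H76Q.B1
import Pool.Agent.Lib.H76Q.B2
import Pool.Agent.Lib.H76Q.BL3

/-!
# blocks: existence and counting
-/

set_option autoImplicit false
set_option linter.unusedSectionVars false
namespace Pool.Agent.H76Q
open Module Matrix Polynomial Pool.Agent.H53Toric
open Pool.Agent.H76P
open Pool.Agent.H76T (IsIdeal Fam Lc)
open Pool.Agent.H76V (Cmp)
open Pool.Agent.H76U (cmp preL IsSplitting)
open Pool.Agent.H76RM (spanK similD)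

variable {κ : Type*} [Fintype κ] [DecidableEq κ] [Nonempty κ]

/-- Projectors of product decompositions with the same classes are equal. -/
theorem g10_ext {Y : Submodule ℚ (κ → ℚ)} {P P' : Module.End ℚ Y} (h0 : ∀ f ∈ Y, ∑ k, f k = 0) (hP : Sp P)
    (hP' : Sp P') (h : ∀ k k', cz P k k' ↔ cz P' k k') (h' : ∀ k k', cz (1 - P) k k' ↔ cz (1 - P') k k') :
    P = P' := by
  have h1 : P' * P = P := by
    refine LinearMap.ext fun f => ?_
    have h2 : P (P f) = P f := congrArg (fun T : Module.End ℚ Y => T f) hP.idem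
    have h3 : FunP P' ((P f : Y) : κ → ℚ) := fun k k' hk =>
      (FunP_iff hP h0 (P f)).2 h2 k k' ((h k k').2 hk)
    exact (FunP_iff hP' h0 (P f)).1 h3
  have h2 : (1 - P') * (1 - P) = 1 - P := by
    refine LinearMap.ext fun f => ?_
    have h3 : (1 - P) ((1 - P) f) = (1 - P) f := congrArg (fun T : Module.End ℚ Y => T f) hP.compl.idem
    have h4 : FunP (1 - P') (((1 - P) f : Y) : κ → ℚ) := fun k k' hk =>
      (FunP_iff hP.compl h0 ((1 - P) f)).2 h3 k k' ((h' k k').2 hk)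
    exact (FunP_iff hP'.compl h0 ((1 - P) f)).1 h4
  refine LinearMap.ext fun f => ?_
  have h3 := congrArg (fun T : Module.End ℚ Y => T f) h2
  have h4 : P' (P f) = P f := congrArg (fun T : Module.End ℚ Y => T f) h1
  simp only [Module.End.mul_apply, LinearMap.sub_apply, Module.End.one_apply, map_sub, h4] at h3
  rw [sub_self, sub_zero] at h3
  exact (sub_right_inj.1 h3).symm

/-- The action of a permutation on a projector. -/
theorem g10_perm {Y : Submodule ℚ (κ → ℚ)} {P : Module.End ℚ Y} {σ : Equiv.Perm κ} (hσ : ∀ f ∈ Y, f ∘ σ ∈ Y)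
    (hP : Sp P) :
    ∃ (P' : Module.End ℚ Y) (s : Module.Dual ℚ Y ≃ₗ[ℚ] Module.Dual ℚ Y), Sp P' ∧ Aff (ptS Y) σ s ∧
      P'.dualMap = H76P.conj s P.dualMap ∧ MvP σ P P' := by
  obtain ⟨S, hS, hA⟩ := exists_S hσ
  set P' : Module.End ℚ Y := S.symm.toLinearMap ∘ₗ P ∘ₗ S.toLinearMap with hP'
  have hconj : P'.dualMap = H76P.conj S.dualMap P.dualMap := by
    ext u f
    rfl
  have hval : ∀ (Q Q' : Module.End ℚ Y), (∀ f, S (Q' f) = Q (S f)) →
      ∀ k k', cz Q k k' ↔ cz Q' (σ k) (σ k') := by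
    intro Q Q' hQ k k'
    have h1 : ∀ (f : Y) (x : κ), (Q' f : κ → ℚ) (σ x) = (Q (S f) : κ → ℚ) x := by
      intro f x
      rw [← hQ f, hS]
      rfl
    constructor
    · intro h f
      rw [h1, h1]
      exact h (S f)
    · intro h f
      have h2 := h (S.symm f)
      rwa [h1, h1, LinearEquiv.apply_symm_apply] at h2
  have hSP : ∀ f, S (P' f) = P (S f) := by
    intro f
    rw [hP']
    simp
  refine ⟨P', S.dualMap, ?_, hA, hconj, hval P P' hSP, hval (1 - P) (1 - P') fun f => ?_⟩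
  · rw [Sp_iff, hconj]
    exact (Sp_iff.1 hP).conj hA
  · rw [LinearMap.sub_apply, LinearMap.sub_apply, Module.End.one_apply, Module.End.one_apply, map_sub, hSP]

/-- PROOF. The sets `RP P` have the same number `c` of elements (`mv` in both directions), they partition `R`: `R.card = FF.card * c`.  All `cnt (ptS Y) P.dualMap` are equal (`cnt` is the number of classes of `cz P`; `MvP` gives a bijection of the
classes); `card_prod` (H76P/C3, its proof for orthogonal `Spl` with sum `1`): `card κ` is their product. -/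
theorem count_blocks {Y : Submodule ℚ (κ → ℚ)} (hs : ∀ g ∈ Y, ∑ k, g k = 0)
    (hsep : ∀ k l : κ, k ≠ l → ∃ g ∈ Y, g k ≠ g l)
    {FF : Finset (Module.End ℚ Y)} (hFF : ∀ P ∈ FF, Sp P ∧ P ≠ 0)
    (horth : ∀ P ∈ FF, ∀ P' ∈ FF, P ≠ P' → P * P' = 0) (hsum : ∑ P ∈ FF, P = 1)
    {Ω : Type*} {R : Finset Ω} {RP : Module.End ℚ Y → Finset Ω}
    (hR : ∀ P ∈ FF, RP P ⊆ R ∧ (RP P).Nonempty) (hcov : ∀ r ∈ R, ∃ P ∈ FF, r ∈ RP P)
    (hdisj : ∀ P ∈ FF, ∀ P' ∈ FF, ∀ r, r ∈ RP P → r ∈ RP P' → P = P')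
    (hmv : ∀ P ∈ FF, ∀ P' ∈ FF, ∃ π : Equiv.Perm κ, (∀ g ∈ Y, g ∘ π ∈ Y) ∧ MvP π P P' ∧
      (RP P).card ≤ (RP P').card) :
    ∃ a : ℕ, Fintype.card κ = a ^ FF.card ∧ FF.card ∣ R.card := by
  classical
  have hinj : Function.Injective fun P : Module.End ℚ Y => P.dualMap := fun P P' h => dualMap_inj h
  have hcard : (FF.image fun P => P.dualMap).card = FF.card := Finset.card_image_of_injective _ hinj
  have h1 : ∃ a : ℕ, Fintype.card κ = a ^ (FF.image fun P => P.dualMap).card := by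
    refine Pool.Agent.Lib.H86E.blocks_power (ptS_spans hs) (ptS_inj hsep) (fun q hq => ?_) (fun q hq r hr hne => ?_)
      ?_ fun q hq r hr => ?_
    · obtain ⟨P, hP, rfl⟩ := Finset.mem_image.1 hq
      exact Sp_iff.1 (hFF P hP).1
    · obtain ⟨P, hP, rfl⟩ := Finset.mem_image.1 hq
      obtain ⟨P', hP', rfl⟩ := Finset.mem_image.1 hr
      rw [← dualMap_mul, horth P' hP' P hP fun e => hne (by rw [e]), dualMap_zero]
    · rw [Finset.sum_image hinj.injOn, ← dualMap_sum, hsum, dualMap_one]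
    · obtain ⟨P, hP, rfl⟩ := Finset.mem_image.1 hq
      obtain ⟨P', hP', rfl⟩ := Finset.mem_image.1 hr
      obtain ⟨π, hπ, hmvP, -⟩ := hmv P hP P' hP'
      obtain ⟨P₂, s, hP₂, hA, hconj, hmv₂⟩ := g10_perm hπ (hFF P hP).1
      have h2 : P₂ = P' := by
        refine g10_ext hs hP₂ (hFF P' hP').1 (fun k k' => ?_) fun k k' => ?_
        · have h3 := (hmvP.1 (π.symm k) (π.symm k')).symm.trans (hmv₂.1 (π.symm k) (π.symm k'))
          rw [Equiv.apply_symm_apply, Equiv.apply_symm_apply] at h3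
          exact h3.symm
        · have h3 := (hmvP.2 (π.symm k) (π.symm k')).symm.trans (hmv₂.2 (π.symm k) (π.symm k'))
          rw [Equiv.apply_symm_apply, Equiv.apply_symm_apply] at h3
          exact h3.symm
      rw [h2] at hconj
      exact ⟨π, s, hA, hconj.symm⟩
  obtain ⟨a, ha⟩ := h1
  rw [hcard] at ha
  refine ⟨a, ha, ?_⟩
  -- the sets `RP P` partition `R`
  have hR' : R = FF.biUnion RP := by
    ext r
    rw [Finset.mem_biUnion]
    constructor
    · intro hr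
      obtain ⟨P, hP, hrP⟩ := hcov r hr
      exact ⟨P, hP, hrP⟩
    · rintro ⟨P, hP, hrP⟩
      exact (hR P hP).1 hrP
  have hdis : (FF : Set (Module.End ℚ Y)).PairwiseDisjoint RP := by
    intro P hP P' hP' hne
    refine Finset.disjoint_left.2 fun r hr hr' => hne (hdisj P hP P' hP' r hr hr')
  have hc : R.card = ∑ P ∈ FF, (RP P).card := by
    rw [hR']
    exact Finset.card_biUnion fun P hP P' hP' hne => hdis hP hP' hne
  rcases FF.eq_empty_or_nonempty with h0 | ⟨P₀, hP₀⟩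
  · rw [hc, h0, Finset.sum_empty, Finset.card_empty]
  · have h4 : ∀ P ∈ FF, (RP P).card = (RP P₀).card := by
      intro P hP
      obtain ⟨-, -, -, h2⟩ := hmv P hP P₀ hP₀
      obtain ⟨-, -, -, h3⟩ := hmv P₀ hP₀ P hP
      exact le_antisymm h2 h3
    rw [hc, Finset.sum_congr rfl h4, Finset.sum_const, smul_eq_mul]
    exact Dvd.intro _ rfl


/-- PROOF. Section 1 and 7 of PROOF.md.  `ptS Y` spans and is injective (`hs`, `hsep`).  `n ≠ 8`: `FF` = the `P` with `P.dualMap` an atom (`atoms_sum`, `exists_P`) with `cnt > 2`, and the sum of the atoms with `cnt = 2` if there are any.  `n = 8`: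
all atoms.  `Good`: let `TS L J`, `Yo L = Y`, `Fam L I`, `P_j` as in `exists_proj`; for an atom `q` `q P_j = q` or `q P_j = 0` (`Atom.le_or`); if `q P_j = q ≠ P_j` then `cnt q = 2` (`TS.atom_two`), so
`P_j` is an atom or a sum of atoms with `cnt = 2`.  The last statement: `FF = {1}` and `n ≠ 8`: `1` is an atom, or `n = 2 ^ k`, so `n = 2` (then `1` is an atom) or `n = 4`.  If `1` is an atom there is one ideal only, and `Cmp.simple` (H76V.VA5)
shows that `L` is full because of `two`, `binom`; `n = 4`, two ideals: `Cmp.four` (H76V.VA3). -/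
theorem exists_blocks {n : ℕ} (hn : 0 < n) {Y : Submodule ℚ (Fin n → ℚ)}
    (hs : ∀ g ∈ Y, ∑ k, g k = 0)
    (hsep : ∀ k l : Fin n, k ≠ l → ∃ g ∈ Y, g k ≠ g l)
    (two : ∀ k : ℕ, 4 ≤ k → n ≠ 2 ^ k) (binom : ∀ k : ℕ, 3 ≤ k → Odd k → n ≠ k.centralBinom) :
    ∃ FF : Finset (Module.End ℚ Y), (∀ P ∈ FF, Sp P ∧ P ≠ 0 ∧ Good P) ∧
      (∀ P ∈ FF, ∀ P' ∈ FF, P ≠ P' → P * P' = 0) ∧ ∑ P ∈ FF, P = 1 ∧
      (∀ π : Equiv.Perm (Fin n), (∀ g ∈ Y, g ∘ π ∈ Y) → ∀ P ∈ FF, ∃ P' ∈ FF, MvP π P P') ∧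
      (FF.card = 1 → ∀ (K : Type) [Field K] [CharZero K] [IsAlgClosed K]
        (L : Submodule K (Module.End K (Fin n → K))) (J : Matrix (Fin n) (Fin n) K),
        TS L J → Yo L = Y → ∀ X, adjE J X = -X → X ∈ L) := by
  classical
  have : Nonempty (Fin n) := ⟨⟨0, hn⟩⟩
  obtain ⟨B, hB, hsum, horth, hsp⟩ := exists_isBlock (Y := Y) hs
  refine ⟨B, fun P hP => ⟨(hsp P hP).1, (hsp P hP).2, ?_⟩, horth, hsum, fun π hπ P hP => ?_, fun h1 => ?_⟩
  · intro K _ _ _ L J hT hY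
    exact ((hB P).1 hP).comp hT hY
  · obtain ⟨P', -, hP', -, -, h1, h2⟩ := ((hB P).1 hP).perm hπ
    exact ⟨P', (hB P').2 hP', h1, h2⟩
  · intro K _ _ _ L J hT hY X hX
    refine full_of_one hT hY (isBlock_one hs hB h1) (fun k hk => ?_) (fun k hk hk' => ?_) hX
    · rw [Fintype.card_fin]
      exact two k hk
    · rw [Fintype.card_fin]
      exact binom k hk hk'


end Pool.Agent.H76Q
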