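import Pool.Agent.Lib.H76Q.Q4
import Pool.Agent.Lib.H76Q.G3
import Pool.Agent.Lib.H76Q.E6
import Pool.Agent.Lib.H76Q.D3

/-!
# reciprocity
-/

set_option autoImplicit false

/-!
# reciprocity
-/
set_option linter.unusedSectionVars false
namespace Pool.Agent.H76Q
open Module Matrix Polynomial Pool.Agent.H53Toric
open Pool.Agent.H76P
open Pool.Agent.H76T (IsIdeal Fam Lc)
open Pool.Agent.H76V (Cmp)
open Pool.Agent.H76U (cmp preL IsSplitting)
open Pool.Agent.H76RM (spanK similD)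

variable {ι : Type*} [Fintype ι] [DecidableEq ι] {ψ : Matrix ι ι ℚ}
    {D : Subalgebra ℚ (Matrix ι ι ℚ)} {M : Type*} [Field M] [NumberField M]
    {m : ℕ} {e : Fin m → Matrix ι ι M} {G : Type*} [Group G]
    {ρ : ∀ (l : ℕ) [Fact l.Prime], G →* Matrix.GeneralLinearGroup ι ℚ_[l]}
    {p : ℕ} [Fact p.Prime] {σ : G} {q : ℚ} {f : ℚ[X]} {F : Fin m → M[X]}
    {φ μ ν : Matrix ι ι (AlgebraicClosure ℚ_[p])} {v : AlgebraicClosure ℚ_[p] → ℚ}
    {Δ : Set (AlgebraicClosure ℚ_[p] ≃+* AlgebraicClosure ℚ_[p])}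
    {Ω : Type*} [Field Ω] [CharZero Ω] [IsAlgClosed Ω] [Algebra.IsAlgebraic ℚ Ω] {j : M →+* Ω}
    {R : Finset Ω} {N : Set ℕ} (C : Core ψ D e ρ p σ q f F φ μ ν v Δ j R N)

include C

/-- The multiplier is not zero. -/
theorem Core.g4_q (b : Fin m) : q ≠ 0 := by
  intro hq0
  have hι : Nonempty ι := by
    by_contra hemp
    rw [not_nonempty_iff] at hemp
    apply C.hspl.ne_zero b
    ext i
    exact (hemp.false i).elim
  obtain ⟨l, hl1, hl2⟩ := Nat.exists_infinite_primes (p + 1)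
  have : Fact l.Prime := ⟨hl2⟩
  have h1 := C.mult l (by omega)
  rw [hq0, map_zero, zero_smul] at h1
  have h2 := congrArg Matrix.det h1
  rw [Matrix.det_mul, Matrix.det_mul, Matrix.det_transpose, Matrix.det_zero] at h2
  have h3 : (ρ l σ).1.det ≠ 0 := by
    have := (Matrix.isUnits_det_units (ρ l σ)).ne_zero
    exact this
  have h4 : (ψ.map (algebraMap ℚ ℚ_[l])).det ≠ 0 := by
    have h5 : (ψ.map (algebraMap ℚ ℚ_[l])).det = algebraMap ℚ ℚ_[l] ψ.det := by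
      rw [RingHom.map_det]
      rfl
    rw [h5]
    exact (_root_.map_ne_zero _).2 C.hψ0
  rcases mul_eq_zero.1 h2 with h6 | h6
  · rcases mul_eq_zero.1 h6 with h7 | h7
    · exact h3 h7
    · exact h4 h7
  · exact h3 h6

/-- PROOF. `C.arith.cheb` for the subgroup of `exists_gam` (D3), `gam_open`; `m₀ ≠ 0`, fixed: `Lift.exists_m` (D2, with `Core.ld`).  Let `l ∉ N` (so `l ≠ p`), `i` with `Dec`, all `i r` squares: `Core.locl`, and
`square_at` (E6) for `C.arith.recl`; `hJ`: `ψ` is rational; `hdec`: for `τ` let `s` be as in `exists_res` (E5); `s ∈ Γ` by `Dec`; so `s` fixes `j M` (hence `he`) and has a permutation with `StabP`. -/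
theorem Core.recl (b : Fin m)
    {n : ℕ} {a : Fin n → Ω} (ha : Function.Injective a)
    (hroot : ∀ y : Ω, (F b).eval₂ j y = 0 ↔ ∃ k, y = a k)
    {bar : Equiv.Perm (Fin n)} (hbar : ∀ k, a k * a (bar k) = algebraMap ℚ Ω q)
    {P : Module.End ℚ (YS a)} (hP : Sp P) (hg : Good P) {t : Fin n → Ω} (ht : Lift P a t)
    {m₀ : Ω} (hm : ∀ k, t k * t (bar k) = m₀) :
    ∃ R' ⊆ R, ∃ c : Ω, (∀ s ∈ GamP j R a P, s c = c) ∧ m₀ = (∏ r ∈ R', r) * c ^ 2 := by
  classical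
  -- preparations
  have hq0 : algebraMap ℚ Ω q ≠ 0 := (_root_.map_ne_zero _).2 (C.g4_q b)
  have ha0 : ∀ k, a k ≠ 0 := by
    intro k h0
    apply hq0
    rw [← hbar k, h0, zero_mul]
  let i₀ : Ω →+* AlgebraicClosure ℚ_[p] := (IsAlgClosed.lift : Ω →ₐ[ℚ] AlgebraicClosure ℚ_[p]).toRingHom
  obtain ⟨H₁, U₁, V₁, -, hL₁⟩ := C.locp b ha hroot i₀
  have : Nonempty (Fin n) := ⟨⟨0, hL₁.pos⟩⟩
  obtain ⟨u, r, t', hld, hut⟩ := C.ld b ha hroot hbar hP hg i₀
  obtain ⟨m', hm'0, hm', hinv⟩ := ht.exists_m ha ha0 hP hbar hld hut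
  have hmm : m' = m₀ := by rw [← hm' ⟨0, hL₁.pos⟩, hm ⟨0, hL₁.pos⟩]
  rw [hmm] at hm'0 hinv
  obtain ⟨Γ, hΓ⟩ := exists_gam (a := a) (P := P) j R
  obtain ⟨T, hT⟩ := gam_open (a := a) (P := P) j R
  have hrat : ∀ s : Ω ≃+* Ω, s (algebraMap ℚ Ω q) = algebraMap ℚ Ω q := by
    intro s
    rw [eq_ratCast, map_ratCast]
  have hm0 : ∀ s ∈ Γ, s m₀ = m₀ := by
    intro s hs
    obtain ⟨-, -, σ', h1, h2⟩ := (hΓ s).1 hs
    exact hinv s σ' (hrat s) h1 h2
  obtain ⟨R', hR', c, hc, hmc⟩ := C.arith.cheb Γ ⟨T, fun s hs => (hΓ s).2 (hT s hs)⟩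
    (fun s hs r hr => ((hΓ s).1 hs).2.1 r hr) m₀ hm'0 hm0 (by
      intro l _ hl i hdec hsq
      have hlp : l ≠ p := by
        intro h
        apply hl
        rw [h]
        exact C.hN
      obtain ⟨H₀, U, V, hfin, hL⟩ := C.locl b ha hroot l hlp i
      have hres : ∀ τ : AlgebraicClosure ℚ_[l] ≃ₐ[ℚ_[l]] AlgebraicClosure ℚ_[l], ∃ s : Ω ≃+* Ω,
          (∀ y, τ (i y) = i (s y)) ∧ s ∈ Γ := by
        intro τ
        obtain ⟨s, hs⟩ := exists_res i τ.toRingEquiv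
        exact ⟨s, hs, hdec τ s hs⟩
      refine square_at (ρ l) hL (C.gen l) (C.arith.recl l hl i hsq) hP (hg _ _ _ hL.ts hL.yo) ?_ ?_ ?_ ht
        (bar := bar) ?_ hm
      · intro τ
        ext x y
        simp
      · intro τ
        obtain ⟨s, hs, hsΓ⟩ := hres τ
        ext x y
        show τ (i (j (e b x y))) = i (j (e b x y))
        rw [hs, ((hΓ s).1 hsΓ).1]
      · intro τ
        obtain ⟨s, hs, hsΓ⟩ := hres τ
        obtain ⟨-, -, σ', h1, h2⟩ := (hΓ s).1 hsΓ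
        exact ⟨s, σ', hs, h1, h2⟩
      · intro k
        rw [← map_mul, hbar k, eq_ratCast, eq_ratCast, map_ratCast])
  exact ⟨R', hR', c, fun s hs => hc s ((hΓ s).2 hs), hmc⟩

end Pool.Agent.H76Q
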