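import Pool.Agent.Lib.H76Q.Q4
import Pool.Agent.Lib.H76Q.G3
import Pool.Agent.Lib.H76Q.E5
import Pool.Agent.Lib.H76Q.E3
import Pool.Agent.Lib.H76Q.F7
import Pool.Agent.Lib.H76Q.F8

/-!
# inertia
-/

set_option autoImplicit false
set_option linter.unusedSectionVars false
namespace Pool.Agent.H76Q
open Module Matrix Polynomial Pool.Agent.H53Toric
open Pool.Agent.H76P
open Pool.Agent.H76T (IsIdeal Fam Lc)
open Pool.Agent.H76V (Cmp)
open Pool.Agent.H76U (cmp preL IsSplitting)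
open Pool.Agent.H76RM (spanK similD)

variable {ι : Type*} [Fintype ι] [DecidableEq ι] {ψ : Matrix ι ι ℚ}
    {D : Subalgebra ℚ (Matrix ι ι ℚ)} {M : Type*} [Field M] [NumberField M]
    {m : ℕ} {e : Fin m → Matrix ι ι M} {G : Type*} [Group G]
    {ρ : ∀ (l : ℕ) [Fact l.Prime], G →* Matrix.GeneralLinearGroup ι ℚ_[l]}
    {p : ℕ} [Fact p.Prime] {σ : G} {q : ℚ} {f : ℚ[X]} {F : Fin m → M[X]}
    {φ μ ν : Matrix ι ι (AlgebraicClosure ℚ_[p])} {v : AlgebraicClosure ℚ_[p] → ℚ}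
    {Δ : Set (AlgebraicClosure ℚ_[p] ≃+* AlgebraicClosure ℚ_[p])}
    {Ω : Type*} [Field Ω] [CharZero Ω] [IsAlgClosed Ω] [Algebra.IsAlgebraic ℚ Ω] {j : M →+* Ω}
    {R : Finset Ω} {N : Set ℕ} (C : Core ψ D e ρ p σ q f F φ μ ν v Δ j R N)

/-- rational matrices are fixed -/
theorem g5_mapQ {K : Type*} [Field K] [CharZero K] (δ : K ≃+* K) (y : Matrix ι ι ℚ) :
    (y.map (algebraMap ℚ K)).map δ = y.map (algebraMap ℚ K) := by
  ext k l
  simp only [Matrix.map_apply]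
  exact map_ratCast δ (y k l)

include C

/-- PROOF. `Core.locp` (`H₀`, `U`, `V`), `s` as in `exists_res` (E5); `s` fixes `j M` (`C.crys.dM`: `i (s (j c)) = δ (i (j c)) = i (j c)`) and `R` (`C.Rfix`); `exists_perm` (E5) gives the permutation `π`;
`exists_theta` (E3: `e.map δ = e` by `dM`, `φ.map δ = φ` by `dphi`, `ψ` rational, the image by `dfix`), `theta_ideal` (F7, `hid`: `C.crys.dideal`), `stab_of_theta` (F7). -/
theorem Core.inert (b : Fin m)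
    {n : ℕ} {a : Fin n → Ω} (ha : Function.Injective a)
    (hroot : ∀ y : Ω, (F b).eval₂ j y = 0 ↔ ∃ k, y = a k)
    {P : Module.End ℚ (YS a)} (hP : Sp P) (hg : Good P) (i : Ω →+* AlgebraicClosure ℚ_[p])
    {δ : AlgebraicClosure ℚ_[p] ≃+* AlgebraicClosure ℚ_[p]} (hδ : δ ∈ Δ) :
    ∃ (s : Ω ≃+* Ω) (π : Equiv.Perm (Fin n)), (∀ y, δ (i y) = i (s y)) ∧
      (∀ k, s (a k) = a (π k)) ∧ StabP P π ∧ s ∈ GamP j R a P := by
  obtain ⟨H₀, U, V, hH₀, h⟩ := C.locp b ha hroot i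
  obtain ⟨s, hs⟩ := exists_res i δ
  have hsj : ∀ c, s (j c) = j c := by
    intro c
    apply i.injective
    rw [← hs]
    exact C.crys.dM δ hδ (i.comp j) c
  have hsR : ∀ r ∈ R, s r = r := by
    intro r hr
    apply i.injective
    rw [← hs]
    exact C.Rfix i r hr δ hδ
  obtain ⟨π, hπ⟩ := exists_perm ha hroot hsj
  have he : ((e b).map (i.comp j)).map δ = (e b).map (i.comp j) := by
    ext k l
    simp only [Matrix.map_apply]
    exact C.crys.dM δ hδ (i.comp j) _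
  have hS : ∀ s ∈ img (AlgebraicClosure ℚ_[p]) (ρ p) H₀, s.map δ = s := by
    rintro _ ⟨g, -, rfl⟩
    ext k l
    simp only [Matrix.map_apply]
    exact C.crys.dfix δ hδ _
  obtain ⟨θ, hθ, hθU⟩ := exists_theta h (τ := δ) he (C.crys.dphi δ hδ) (g5_mapQ δ ψ) hS
    (σ := π) (fun k => by rw [hs, hπ])
  have hI := theta_ideal h he hθ hθU
    (fun I hI1 hI2 X hX => C.crys.dideal δ hδ H₀ hH₀ I hI1 hI2 X hX)
  have hcomp : Comp (Lc (ψ.map (algebraMap ℚ (AlgebraicClosure ℚ_[p])))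
      (img (AlgebraicClosure ℚ_[p]) (ρ p) H₀) U V) P := hg _ _ _ h.ts h.yo
  have hstab := stab_of_theta h hθ hP hcomp hI
  exact ⟨s, π, hs, hπ, hstab, hsj, hsR, π, hπ, hstab⟩

/-- PROOF. `Core.inert`: `δ (i c) = i (s c) = i c`; `C.crys.dval`. -/
theorem Core.int_val (b : Fin m)
    {n : ℕ} {a : Fin n → Ω} (ha : Function.Injective a)
    (hroot : ∀ y : Ω, (F b).eval₂ j y = 0 ↔ ∃ k, y = a k)
    {P : Module.End ℚ (YS a)} (hP : Sp P) (hg : Good P) (i : Ω →+* AlgebraicClosure ℚ_[p])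
    {c : Ω} (hc0 : c ≠ 0) (hc : ∀ s ∈ GamP j R a P, s c = c) : ∃ n : ℤ, v (i c) = n := by
  refine C.crys.dval (i c) ?_ (fun δ hδ => ?_)
  · rw [Ne, map_eq_zero]
    exact hc0
  · obtain ⟨s, π, hs, _, _, hsG⟩ := C.inert b ha hroot hP hg i hδ
    rw [hs, hc s hsG]

/-- PROOF. `Core.locp`, `even_lemma` (F8) with `C.crys` and `Core.inert`. -/
theorem Core.even (b : Fin m)
    {n : ℕ} {a : Fin n → Ω} (ha : Function.Injective a)
    (hroot : ∀ y : Ω, (F b).eval₂ j y = 0 ↔ ∃ k, y = a k)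
    {bar : Equiv.Perm (Fin n)} (hbar : ∀ k, a k * a (bar k) = algebraMap ℚ Ω q)
    {P : Module.End ℚ (YS a)} (hP : Sp P) (hg : Good P) {t : Fin n → Ω} (ht : Lift P a t)
    {m₀ : Ω} (hm : ∀ k, t k * t (bar k) = m₀) (i : Ω →+* AlgebraicClosure ℚ_[p])
    {ε : Fin n → ℚ} (hε : IsHT μ φ ((e b).map (i.comp j)) (fun k => i (a k)) ε)
    (hεP : FunP (1 - P) ε) : ∃ n : ℤ, v (i m₀) = 2 * n := by
  obtain ⟨H₀, U, V, hH₀, h⟩ := C.locp b ha hroot i
  have hcomp : Comp (Lc (ψ.map (algebraMap ℚ (AlgebraicClosure ℚ_[p])))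
      (img (AlgebraicClosure ℚ_[p]) (ρ p) H₀) U V) P := hg _ _ _ h.ts h.yo
  obtain ⟨ξ, ξ', hξ, hξξ, hunr⟩ := C.crys.unr
  have hlinK : ∀ g : G, ∀ d ∈ D, (ρ p g).1.map (algebraMap ℚ_[p] (AlgebraicClosure ℚ_[p])) *
      d.map (algebraMap ℚ (AlgebraicClosure ℚ_[p])) =
      d.map (algebraMap ℚ (AlgebraicClosure ℚ_[p])) *
        (ρ p g).1.map (algebraMap ℚ_[p] (AlgebraicClosure ℚ_[p])) := by
    intro g d hd
    have h1 := congrArg (fun m : Matrix ι ι ℚ_[p] =>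
      m.map (algebraMap ℚ_[p] (AlgebraicClosure ℚ_[p]))) (C.lin p g d hd)
    have h2 : (d.map (algebraMap ℚ ℚ_[p])).map (algebraMap ℚ_[p] (AlgebraicClosure ℚ_[p])) =
        d.map (algebraMap ℚ (AlgebraicClosure ℚ_[p])) := by
      ext k l
      simp
    simp only [Matrix.map_mul] at h1
    rw [h2] at h1
    exact h1
  have heK : (e b).map (i.comp j) ∈ spanK (AlgebraicClosure ℚ_[p]) D :=
    H76U.spanK_map (i.comp j) (C.hspl.mem b)
  have hρe : ∀ g : G, (ρ p g).1.map (algebraMap ℚ_[p] (AlgebraicClosure ℚ_[p])) *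
      (e b).map (i.comp j) = (e b).map (i.comp j) *
        (ρ p g).1.map (algebraMap ℚ_[p] (AlgebraicClosure ℚ_[p])) :=
    fun g => H76RM.comm_span (hlinK g) _ heK
  have hed : ∀ δ ∈ Δ, ((e b).map (i.comp j)).map δ = (e b).map (i.comp j) := by
    intro δ hδ
    ext k l
    simp only [Matrix.map_apply]
    exact C.crys.dM δ hδ (i.comp j) _
  have hai : ∀ k, (F b).eval₂ j (a k) = 0 := fun k => (hroot (a k)).mpr ⟨k, rfl⟩
  refine even_lemma (ρ p) (σ₀ := σ) h C.crys.phigen C.crys.val (C.crys.eint (i.comp j) b) C.crys.mu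
    C.crys.muphi hε hP hcomp hεP hρe hξ hξξ (hunr H₀ hH₀) C.crys.int C.crys.dfix C.crys.dphi
    (fun δ _ => g5_mapQ δ ψ) hed C.crys.dval ?_ ?_ ht ?_ hm
  · intro δ hδ
    obtain ⟨s, π, hs, hπ, hst, _⟩ := C.inert b ha hroot hP hg i hδ
    exact ⟨s, π, hs, hπ, hst⟩
  · intro k l N' hN' hkl
    exact ha (C.tor b (hai k) (hai l) hN' hkl)
  · intro k
    rw [← map_mul, hbar k]
    exact (map_ratCast i q).trans (map_ratCast (algebraMap ℚ (AlgebraicClosure ℚ_[p])) q).symm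

end Pool.Agent.H76Q
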