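import Pool.Agent.Lib.H76Q.Q4
import Pool.Agent.Lib.H76Q.G9
import Pool.Agent.Lib.H76Q.G10
import Pool.Agent.Lib.H76Q.A3
import Pool.Agent.Lib.H76Q.G1

/-!
# the component theorem at p
-/

set_option autoImplicit false
set_option linter.unusedSectionVars false
namespace Pool.Agent.H76Q
open Module Matrix Polynomial Pool.Agent.H53Toric
open Pool.Agent.H76P
open Pool.Agent.H76T (IsIdeal Fam Lc)
open Pool.Agent.H76V (Cmp)
open Pool.Agent.H76U (cmp preL IsSplitting)
open Pool.Agent.H76RM (spanK similD)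

variable {ι : Type*} [Fintype ι] [DecidableEq ι] {ψ : Matrix ι ι ℚ}
    {D : Subalgebra ℚ (Matrix ι ι ℚ)} {M : Type*} [Field M] [NumberField M]
    {m : ℕ} {e : Fin m → Matrix ι ι M} {G : Type*} [Group G]
    {ρ : ∀ (l : ℕ) [Fact l.Prime], G →* Matrix.GeneralLinearGroup ι ℚ_[l]}
    {p : ℕ} [Fact p.Prime] {σ : G} {q : ℚ} {f : ℚ[X]} {F : Fin m → M[X]}
    {φ μ ν : Matrix ι ι (AlgebraicClosure ℚ_[p])} {v : AlgebraicClosure ℚ_[p] → ℚ}
    {Δ : Set (AlgebraicClosure ℚ_[p] ≃+* AlgebraicClosure ℚ_[p])}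
    {Ω : Type*} [Field Ω] [CharZero Ω] [IsAlgClosed Ω] [Algebra.IsAlgebraic ℚ Ω] {j : M →+* Ω}
    {R : Finset Ω} {N : Set ℕ} (C : Core ψ D e ρ p σ q f F φ μ ν v Δ j R N)

include C

/-- PROOF. `Core.enum`, `n = (e b).rank`; `exists_blocks` (G10) for `Y = YS a` (`hs` by definition, `hsep`: `YS_sep`, A3, with `Core.tor`), `Core.types` (G9), `count_blocks`: `n = a' ^ k`, `k = FF.card`, `k ∣ R.card`, so `k = 1` by `power` (`k ≠ 0`: otherwise
`1 = ∑ P = 0`, `YS a = 0`, `n ≤ 1` by `hsep`; but `n` is even and `> 0`, because `Uᵀ J U` of `Core.locp` is alternating and invertible).  For any local data `L` is full. -/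
theorem Core.comp (power : ∀ b (a k : ℕ), 2 ≤ k → k ∣ R.card → (e b).rank ≠ a ^ k)
    (two : ∀ b (k : ℕ), 4 ≤ k → (e b).rank ≠ 2 ^ k)
    (binom : ∀ b (k : ℕ), 3 ≤ k → Odd k → (e b).rank ≠ k.centralBinom) (b : Fin m) :
    ∃ a : Fin (e b).rank → Ω, Function.Injective a ∧
      (∀ y : Ω, (F b).eval₂ j y = 0 ↔ ∃ k, y = a k) ∧
      ∀ (K : Type) [Field K] [CharZero K] [IsAlgClosed K]
        (L : Submodule K (Module.End K (Fin (e b).rank → K)))
        (J : Matrix (Fin (e b).rank) (Fin (e b).rank) K),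
        TS L J → Yo L = YS a → ∀ X, adjE J X = -X → X ∈ L := by
  obtain ⟨a, ha, hroot⟩ := C.enum b
  refine ⟨a, ha, hroot, fun K _ _ _ L J hT hY X hX => ?_⟩
  rcases Nat.eq_zero_or_pos (e b).rank with hn | hn
  · have : IsEmpty (Fin (e b).rank) := by rw [hn]; infer_instance
    have h0 : X = 0 := LinearMap.ext fun z => Subsingleton.elim _ _
    rw [h0]
    exact L.zero_mem
  have hq0 : q ≠ 0 := by
    obtain ⟨l, hl, hlp⟩ : ∃ l : ℕ, l.Prime ∧ l ≠ p := by
      obtain ⟨l, hl, hlp⟩ := Nat.exists_infinite_primes (p + 1)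
      exact ⟨l, hlp, by omega⟩
    have : Fact l.Prime := ⟨hl⟩
    rintro rfl
    have h1 := congrArg Matrix.det (C.mult l hlp)
    rw [map_zero, zero_smul, Matrix.det_mul, Matrix.det_mul, Matrix.det_transpose] at h1
    have h2 : (ρ l σ).1.det ≠ 0 := by
      have h3 : IsUnit (ρ l σ).1.det := (Matrix.isUnit_iff_isUnit_det _).1 (ρ l σ).isUnit
      exact h3.ne_zero
    have h4 : (ψ.map (algebraMap ℚ ℚ_[l])).det ≠ 0 := by
      have h5 : (ψ.map (algebraMap ℚ ℚ_[l])).det = algebraMap ℚ ℚ_[l] ψ.det := (RingHom.map_det _ _).symm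
      rw [h5]
      exact (_root_.map_ne_zero _).2 C.hψ0
    have h6 : Nonempty ι := by
      by_contra hcon
      rw [not_nonempty_iff] at hcon
      have h7 := (e b).rank_le_card_width
      rw [Fintype.card_eq_zero] at h7
      omega
    rw [Matrix.det_zero] at h1
    exact mul_ne_zero (mul_ne_zero h2 h4) h2 h1
  obtain ⟨bar, hbar⟩ := C.bar b ha hroot
  have ha0 : ∀ k, a k ≠ 0 := by
    intro k hk
    have h1 := hbar k
    rw [hk, zero_mul] at h1
    exact (_root_.map_ne_zero _).2 hq0 h1.symm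
  have hsep : ∀ k l, k ≠ l → ∃ g ∈ YS a, g k ≠ g l :=
    YS_sep ha0 fun k l n hn h => ha (C.tor b ((hroot _).2 ⟨k, rfl⟩) ((hroot _).2 ⟨l, rfl⟩) hn h)
  have hs : ∀ g ∈ YS a, ∑ k, g k = 0 := fun g hg => hg.1
  obtain ⟨FF, hFF, horth, hsum, hperm, hone⟩ := exists_blocks hn hs hsep (two b) (binom b)
  obtain ⟨RP, h1, h2, h3, h4⟩ := C.types b ha hroot hFF horth hsum hperm
  have : Nonempty (Fin (e b).rank) := ⟨⟨0, hn⟩⟩
  obtain ⟨a', hcard, hdvd⟩ := count_blocks hs hsep (fun P hP => ⟨(hFF P hP).1, (hFF P hP).2.1⟩) horth hsum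
    h1 h2 h3 h4
  rw [Fintype.card_fin] at hcard
  have hF1 : FF.card = 1 := by
    rcases Nat.lt_or_ge FF.card 2 with h5 | h5
    · interval_cases h6 : FF.card
      · exfalso
        rw [pow_zero] at hcard
        -- one point: there is no symplectic form
        have h7 : J.det = 0 := by
          have h8 : J.det = -J.det := by
            have h9 := congrArg Matrix.det hT.cmp.Jt
            rw [Matrix.det_transpose, Matrix.det_neg, Fintype.card_fin] at h9
            have h10 : ((-1 : K)) ^ (e b).rank = -1 := by rw [hcard, pow_one]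
            rwa [h10, neg_one_mul] at h9
          exact self_eq_neg.1 h8
        have h8 := hT.cmp.Jd
        rw [h7] at h8
        exact not_isUnit_zero h8
      · rfl
    · exact absurd hcard (power b a' FF.card h5 hdvd)
  exact hone hF1 K L J hT hY X hX

end Pool.Agent.H76Q
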