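import Pool.Agent.Lib.H76Q.Q2

/-!
# permutations without odd cycles
-/

set_option autoImplicit false
set_option linter.unusedSectionVars false
namespace Pool.Agent.H76Q
open Module Matrix Polynomial TensorProduct Pool.Agent.H53Toric
open Pool.Agent.H76P
open Pool.Agent.H76T (IsIdeal Fam Lc)
open Pool.Agent.H76V (Cmp)
open Pool.Agent.H76U (cmp preL IsSplitting)
open Pool.Agent.H76RM (spanK similD)

theorem x10_odd {α : Type*} (g : Equiv.Perm α)
    (hg : ∀ n : ℕ, Odd n → ∀ x, (g ^ n) x ≠ x) (n : ℤ) (hn : Odd n) (x : α) : (g ^ n) x ≠ x := by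
  intro h
  rcases Int.natAbs_eq n with h1 | h1
  · refine hg n.natAbs (Int.natAbs_odd.2 hn) x ?_
    rw [h1, zpow_natCast] at h
    exact h
  · refine hg n.natAbs (Int.natAbs_odd.2 hn) x ?_
    rw [h1, _root_.zpow_neg, zpow_natCast, Equiv.Perm.inv_eq_iff_eq] at h
    exact h.symm

/-- PROOF. Choose a point `r x` in each cycle (`r (g x) = r x`, and `x = (g ^ n) (r x)` for some natural number `n`: the group is finite).  `T` = the set of the `x` with `x = (g ^ n) (r x)` for an even `n`.  If `x = (g ^ n) (r x) = (g ^ n') (r x)` with `n` even and `n'`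
odd then `(g ^ |n - n'|) (r x) = r x`, which `hg` excludes.  So `x ∈ T ↔ g x ∉ T`. -/
theorem exists_half {α : Type*} [Finite α] (g : Equiv.Perm α)
    (hg : ∀ n : ℕ, Odd n → ∀ x, (g ^ n) x ≠ x) : ∃ T : Set α, ∀ x, g x ∈ T ↔ x ∉ T := by
  classical
  let st := Equiv.Perm.SameCycle.setoid g
  let r : α → α := fun x => (Quotient.mk st x).out
  have hr : ∀ x, ∃ i : ℤ, (g ^ i) (r x) = x := by
    intro x
    have h1 : st.r (Quotient.mk st x).out x := Quotient.mk_out (s := st) x
    exact h1
  have hrg : ∀ x, r (g x) = r x := by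
    intro x
    have h1 : Quotient.mk st (g x) = Quotient.mk st x := by
      apply Quotient.sound
      change Equiv.Perm.SameCycle g (g x) x
      exact Equiv.Perm.sameCycle_apply_left.2 (Equiv.Perm.SameCycle.refl g x)
    change (Quotient.mk st (g x)).out = (Quotient.mk st x).out
    rw [h1]
  refine ⟨{x | ∃ i : ℤ, Even i ∧ (g ^ i) (r x) = x}, fun x => ⟨?_, ?_⟩⟩
  · rintro ⟨j, hj, hj'⟩ ⟨i, hi, hi'⟩
    rw [hrg] at hj'
    have h2 : (g ^ (j - 1)) (r x) = x := by
      have h3 : (g ^ j) (r x) = g ((g ^ (j - 1)) (r x)) := by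
        rw [← Equiv.Perm.mul_apply, ← _root_.zpow_one_add]
        congr 2
        ring
      rw [h3] at hj'
      exact g.injective hj'
    apply x10_odd g hg (-i + (j - 1)) (Even.add_odd hi.neg (Even.sub_odd hj odd_one)) (r x)
    rw [_root_.zpow_add, Equiv.Perm.mul_apply, h2, _root_.zpow_neg, Equiv.Perm.inv_eq_iff_eq]
    exact hi'.symm
  · intro hx
    obtain ⟨i, hi⟩ := hr x
    have hodd : Odd i := by
      rw [← Int.not_even_iff_odd]
      intro he
      exact hx ⟨i, he, hi⟩
    refine ⟨1 + i, Odd.add_odd odd_one hodd, ?_⟩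
    rw [hrg, _root_.zpow_one_add, Equiv.Perm.mul_apply, hi]

end Pool.Agent.H76Q
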