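import Pool.Agent.Lib.H76Q.B1
import Pool.Agent.Lib.H76Q.B2
import Pool.Agent.Lib.H76Q.Q4
import Pool.Agent.Lib.H76Q.BL1
import Pool.Agent.Lib.H76Q.G10

/-!
# sums over half of the blocks
-/

set_option autoImplicit false
set_option linter.unusedSectionVars false
namespace Pool.Agent.H76Q
open Module Matrix Polynomial TensorProduct Pool.Agent.H53Toric
open Pool.Agent.H76P
open Pool.Agent.H76T (IsIdeal Fam Lc)
open Pool.Agent.H76V (Cmp)
open Pool.Agent.H76U (cmp preL IsSplitting)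
open Pool.Agent.H76RM (spanK similD)

variable {κ : Type*} {K : Type*} [Field K] [CharZero K] [Fintype κ] [DecidableEq κ]
  {L : Submodule K (Module.End K (κ → K))} {J : Matrix κ κ K} [IsAlgClosed K] [Nonempty κ]
  {Y : Submodule ℚ (κ → ℚ)} {P : Module.End ℚ Y}

theorem x11_add (h0 : ∀ f ∈ Y, ∑ k, f k = 0) {P Q : Module.End ℚ Y} (hP : Sp P) (hQ : Sp Q)
    (hPQ : P * Q = 0) : Sp (P + Q) := by
  have hs := ptS_spans (Y := Y) h0
  rw [Sp_iff]
  have h1 : (P + Q).dualMap = Q.dualMap + P.dualMap := by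
    refine LinearMap.ext fun φ => LinearMap.ext fun f => ?_
    show φ ((P + Q) f) = φ (Q f) + φ (P f)
    rw [LinearMap.add_apply, map_add, add_comm]
  rw [h1]
  refine Spl.add hs (Sp_iff.1 hQ) (Sp_iff.1 hP) ?_
  rw [← b1_mul, hPQ, dualMap_zero]

theorem x11_sum_mul {FF T : Finset (Module.End ℚ Y)}
    (hFF : ∀ P ∈ FF, Sp P) (horth : ∀ P ∈ FF, ∀ P' ∈ FF, P ≠ P' → P * P' = 0) (hT : T ⊆ FF)
    {P : Module.End ℚ Y} (hP : P ∈ T) : (∑ Q ∈ T, Q) * P = P := by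
  rw [Finset.sum_mul, Finset.sum_eq_single P]
  · exact (hFF P (hT hP)).idem
  · intro Q hQ hne
    exact horth Q (hT hQ) P (hT hP) hne
  · intro h
    exact absurd hP h

/-- PROOF. Induction over the subset with `Spl.add` (`Sp_iff`, `ptS_spans`; `dualMap_sum`); orthogonality of a sum and a further element of `FF`. -/
theorem sp_sum (h0 : ∀ f ∈ Y, ∑ k, f k = 0) {FF T : Finset (Module.End ℚ Y)}
    (hFF : ∀ P ∈ FF, Sp P) (horth : ∀ P ∈ FF, ∀ P' ∈ FF, P ≠ P' → P * P' = 0) (hT : T ⊆ FF) :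
    Sp (∑ P ∈ T, P) := by
  classical
  induction T using Finset.induction_on with
  | empty =>
    rw [Finset.sum_empty]
    exact ⟨by rw [mul_zero], fun a b => ⟨a, fun f => by simp⟩⟩
  | insert Q T hQ ih =>
    rw [Finset.sum_insert hQ]
    have hQF : Q ∈ FF := hT (Finset.mem_insert_self Q T)
    have hTF : T ⊆ FF := (Finset.subset_insert Q T).trans hT
    refine x11_add h0 (hFF Q hQF) (ih hTF) ?_
    rw [Finset.mul_sum]
    refine Finset.sum_eq_zero fun P hP => horth Q hQF P (hTF hP) ?_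
    rintro rfl
    exact hQ hP

/-- PROOF. `→`: `P f = (∑ P) (P f)` (orthogonality and `P * P = P`).  `←`: sum. -/
theorem cz_sum {FF T : Finset (Module.End ℚ Y)}
    (hFF : ∀ P ∈ FF, Sp P) (horth : ∀ P ∈ FF, ∀ P' ∈ FF, P ≠ P' → P * P' = 0) (hT : T ⊆ FF)
    (k k' : κ) : cz (∑ P ∈ T, P) k k' ↔ ∀ P ∈ T, cz P k k' := by
  constructor
  · intro h P hP f
    have h1 := h (P f)
    have h2 : (∑ Q ∈ T, Q) (P f) = P f :=
      congrArg (fun S : Module.End ℚ Y => S f) (x11_sum_mul hFF horth hT hP)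
    rw [h2] at h1
    exact h1
  · intro h f
    have h1 : ∀ l : κ, (((∑ Q ∈ T, Q) f : Y) : κ → ℚ) l = ∑ Q ∈ T, (Q f : κ → ℚ) l := by
      intro l
      rw [LinearMap.sum_apply, Submodule.coe_sum, Finset.sum_apply]
    rw [h1, h1]
    exact Finset.sum_congr rfl fun Q hQ => h Q hQ f

/-- PROOF. Let `I` be one of the simple ideals.  If `InP P I` for some `P ∈ T`, then `InP (∑ P) I` (`cz_sum`).  If not, then `InP (1 - P) I` for all `P ∈ T`; for `f ∈ Y` with `dq f ∈ I` we get `(1 - P) f = f` (`FunP_iff` for `1 - P`), `P f = 0` for all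
`P ∈ T`, so `(1 - ∑ P) f = f` and `FunP (1 - ∑ P) f`. -/
theorem comp_sum (h0 : ∀ f ∈ Y, ∑ k, f k = 0) {FF T : Finset (Module.End ℚ Y)}
    (hFF : ∀ P ∈ FF, Sp P) (horth : ∀ P ∈ FF, ∀ P' ∈ FF, P ≠ P' → P * P' = 0) (hT : T ⊆ FF)
    (hc : ∀ P ∈ FF, Comp L P) : Comp L (∑ P ∈ T, P) := by
  intro m I hI j
  by_cases h : ∃ P ∈ T, InP P (I j)
  · obtain ⟨P, hP, hIP⟩ := h
    left
    intro f hf hfI k k' hk
    exact hIP f hf hfI k k' ((cz_sum hFF horth hT k k').1 hk P hP)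
  · push Not at h
    right
    intro f hf hfI k k' hk
    have h1 : ∀ P ∈ T, P ⟨f, hf⟩ = 0 := by
      intro P hP
      have h2 : InP (1 - P) (I j) := (hc P (hT hP) m I hI j).resolve_left (h P hP)
      have h3 : (1 - P) (⟨f, hf⟩ : Y) = ⟨f, hf⟩ :=
        (FunP_iff (hFF P (hT hP)).compl h0 ⟨f, hf⟩).1 (h2 f hf hfI)
      rw [LinearMap.sub_apply, Module.End.one_apply] at h3
      exact sub_eq_self.1 h3
    have h4 : (1 - ∑ P ∈ T, P) (⟨f, hf⟩ : Y) = ⟨f, hf⟩ := by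
      rw [LinearMap.sub_apply, Module.End.one_apply, LinearMap.sum_apply,
        Finset.sum_eq_zero h1, sub_zero]
    have h5 := hk ⟨f, hf⟩
    rw [h4] at h5
    exact h5

/-- PROOF. `z` = the sum over `T' = FF.filter (· ∈ T)`.  `1 - z` = the sum over the rest.  `g` is injective on `FF` (`g10_ext`: `MvP π P Q`, `MvP π P' Q` imply `cz P = cz P'`, `cz (1 - P) = cz (1 - P')`), so a bijection of `FF`, and it maps `T'` onto `FF \ T'` and `FF \ T'` onto `T'`.  By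
`cz_sum`: `cz z k k' ↔ ∀ P ∈ T', cz P k k' ↔ ∀ P ∈ T', cz (g P) (π k) (π k') ↔ cz (1 - z) (π k) (π k')`; the same for `1 - z`. -/
theorem half_sum (h0 : ∀ f ∈ Y, ∑ k, f k = 0) {FF : Finset (Module.End ℚ Y)}
    (hFF : ∀ P ∈ FF, Sp P) (horth : ∀ P ∈ FF, ∀ P' ∈ FF, P ≠ P' → P * P' = 0)
    (hsum : ∑ P ∈ FF, P = 1) {π : Equiv.Perm κ} (g : Module.End ℚ Y → Module.End ℚ Y)
    (hg : ∀ P ∈ FF, g P ∈ FF ∧ MvP π P (g P)) {T : Set (Module.End ℚ Y)}
    (hT : ∀ P ∈ FF, g P ∈ T ↔ P ∉ T) :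
    ∃ T' ⊆ FF, MvP π (∑ P ∈ T', P) (1 - ∑ P ∈ T', P) := by
  classical
  have hinj : Set.InjOn g (FF : Set (Module.End ℚ Y)) := by
    intro P hP P' hP' hgg
    have hP1 : P ∈ FF := hP
    have hP2 : P' ∈ FF := hP'
    have m1 := (hg P hP1).2
    have m2 := (hg P' hP2).2
    have hgg' : g P = g P' := hgg
    rw [← hgg'] at m2
    refine g10_ext h0 (hFF P hP1) (hFF P' hP2) (fun k k' => ?_) (fun k k' => ?_)
    · rw [m1.1 k k', m2.1 k k']
    · rw [m1.2 k k', m2.2 k k']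
  have hsurj : ∀ Q ∈ FF, ∃ P ∈ FF, g P = Q := by
    intro Q hQ
    have h1 : FF.image g ⊆ FF := by
      intro R hR
      obtain ⟨P, hP, rfl⟩ := Finset.mem_image.1 hR
      exact (hg P hP).1
    have h2 : FF.image g = FF :=
      Finset.eq_of_subset_of_card_le h1 (by rw [Finset.card_image_of_injOn hinj])
    rw [← h2] at hQ
    obtain ⟨P, hP, hPQ⟩ := Finset.mem_image.1 hQ
    exact ⟨P, hP, hPQ⟩
  set T1 : Finset (Module.End ℚ Y) := FF.filter fun P => P ∈ T with hT1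
  set T2 : Finset (Module.End ℚ Y) := FF.filter fun P => ¬ P ∈ T with hT2
  have hs1 : T1 ⊆ FF := Finset.filter_subset _ _
  have hs2 : T2 ⊆ FF := Finset.filter_subset _ _
  have hz : (1 - ∑ P ∈ T1, P : Module.End ℚ Y) = ∑ P ∈ T2, P := by
    have h1 : (∑ P ∈ T1, P) + ∑ P ∈ T2, P = (1 : Module.End ℚ Y) := by
      rw [hT1, hT2, Finset.sum_filter_add_sum_filter_not FF (fun P => P ∈ T) (fun P => P), hsum]
    rw [← h1]
    exact add_sub_cancel_left (∑ P ∈ T1, P) (∑ P ∈ T2, P)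
  have hz2 : (1 - (1 - ∑ P ∈ T1, P) : Module.End ℚ Y) = ∑ P ∈ T1, P :=
    sub_sub_cancel 1 (∑ P ∈ T1, P)
  have e1 : ∀ k k', (∀ P ∈ T1, cz P k k') ↔ ∀ Q ∈ T2, cz Q (π k) (π k') := by
    intro k k'
    constructor
    · intro h Q hQ
      obtain ⟨hQ1, hQ2⟩ := Finset.mem_filter.1 hQ
      obtain ⟨P, hP, rfl⟩ := hsurj Q hQ1
      have hPT : P ∈ T := by
        by_contra hn
        exact hQ2 ((hT P hP).2 hn)
      exact ((hg P hP).2.1 k k').1 (h P (Finset.mem_filter.2 ⟨hP, hPT⟩))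
    · intro h P hP
      obtain ⟨hP1, hP2⟩ := Finset.mem_filter.1 hP
      have hgT : g P ∉ T := fun hh => ((hT P hP1).1 hh) hP2
      exact ((hg P hP1).2.1 k k').2 (h (g P) (Finset.mem_filter.2 ⟨(hg P hP1).1, hgT⟩))
  have e2 : ∀ k k', (∀ P ∈ T2, cz P k k') ↔ ∀ Q ∈ T1, cz Q (π k) (π k') := by
    intro k k'
    constructor
    · intro h Q hQ
      obtain ⟨hQ1, hQ2⟩ := Finset.mem_filter.1 hQ
      obtain ⟨P, hP, rfl⟩ := hsurj Q hQ1
      have hPT : P ∉ T := (hT P hP).1 hQ2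
      exact ((hg P hP).2.1 k k').1 (h P (Finset.mem_filter.2 ⟨hP, hPT⟩))
    · intro h P hP
      obtain ⟨hP1, hP2⟩ := Finset.mem_filter.1 hP
      have hgT : g P ∈ T := (hT P hP1).2 hP2
      exact ((hg P hP1).2.1 k k').2 (h (g P) (Finset.mem_filter.2 ⟨(hg P hP1).1, hgT⟩))
  refine ⟨T1, hs1, fun k k' => ?_, fun k k' => ?_⟩
  · rw [hz, cz_sum hFF horth hs1, cz_sum hFF horth hs2]
    exact e1 k k'
  · rw [hz2, hz, cz_sum hFF horth hs1, cz_sum hFF horth hs2]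
    exact e2 k k'

end Pool.Agent.H76Q
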