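import Pool.Agent.Lib.H76Q.Q4
import Pool.Agent.Lib.H76Q.B2

/-!
# the number of classes of a decomposition
-/

set_option autoImplicit false
set_option linter.unusedSectionVars false
namespace Pool.Agent.H76Q
open Module Matrix Polynomial TensorProduct Pool.Agent.H53Toric
open Pool.Agent.H76P
open Pool.Agent.H76T (IsIdeal Fam Lc)
open Pool.Agent.H76V (Cmp)
open Pool.Agent.H76U (cmp preL IsSplitting)
open Pool.Agent.H76RM (spanK similD)

variable {κ : Type*} [Fintype κ] [DecidableEq κ] {Y : Submodule ℚ (κ → ℚ)} {P : Module.End ℚ Y}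

/-- The number of values of the first coordinate. -/
noncomputable def nz (P : Module.End ℚ Y) : ℕ := Nat.card (Quot (cz P))

/-- PROOF. `π` induces a bijection of the quotients (`MvP.1`). -/
theorem nz_mv {π : Equiv.Perm κ} {P' : Module.End ℚ Y} (hmv : MvP π P P') : nz P = nz P' := by
  unfold nz
  exact Nat.card_congr (Quot.congr π fun k k' => hmv.1 k k')

theorem w10a_equiv (P : Module.End ℚ Y) : Equivalence (cz P) :=
  ⟨fun _ _ => rfl, fun h => cz_symm h, fun h h' => cz_trans h h'⟩

/-- PROOF. `bar` induces an involution without fixed points on the quotient (`cz P` is an equivalence relation, `Quot.sound`, `Quot.exact` through `cz_symm`, `cz_trans`); a finite set with such an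
involution has an even number of elements (`Finset.card_involution`-type lemmas, or `Equiv.Perm` API; e.g. the sum of `1` over the set in `ZMod 2` is `0` by `Finset.sum_involution`). -/
theorem nz_even (bar : Equiv.Perm κ) (hbb : ∀ k, bar (bar k) = k)
    (hbar : ∀ k k', cz P k k' → cz P (bar k) (bar k')) (hne : ∀ k, ¬ cz P k (bar k)) :
    Even (nz P) := by
  classical
  have hE := w10a_equiv P
  have hfin : Finite (Quot (cz P)) := Finite.of_surjective (Quot.mk (cz P)) Quot.mk_surjective
  have : Fintype (Quot (cz P)) := Fintype.ofFinite _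
  obtain ⟨g, hg⟩ : ∃ g : Quot (cz P) → Quot (cz P), ∀ k, g (Quot.mk _ k) = Quot.mk _ (bar k) :=
    ⟨Quot.map bar hbar, fun k => rfl⟩
  have h1 : ∑ x : Quot (cz P), (1 : ZMod 2) = 0 := by
    refine Finset.sum_involution (fun x _ => g x) ?_ ?_ ?_ ?_
    · intro x _
      decide
    · intro x _ _
      obtain ⟨k, rfl⟩ := Quot.mk_surjective x
      rw [hg]
      intro h2
      have h3 := (hE.quot_mk_eq_iff _ _).1 h2
      exact hne k (cz_symm h3)
    · intro x _
      exact Finset.mem_univ _
    · intro x _
      obtain ⟨k, rfl⟩ := Quot.mk_surjective x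
      rw [hg, hg, hbb]
  rw [Finset.sum_const, Finset.card_univ, nsmul_eq_mul, mul_one] at h1
  rw [nz, Nat.card_eq_fintype_card]
  exact (ZMod.natCast_eq_zero_iff_even).1 h1

end Pool.Agent.H76Q
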