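import Pool.Agent.Lib.H76Q.W10a
import Pool.Agent.Lib.H76Q.G10
import Pool.Agent.Lib.H76Q.BL1

/-!
# the number of points is the product over the blocks
-/

set_option autoImplicit false
set_option linter.unusedSectionVars false
namespace Pool.Agent.H76Q
open Module Matrix Polynomial TensorProduct Pool.Agent.H53Toric
open Pool.Agent.H76P
open Pool.Agent.H76T (IsIdeal Fam Lc)
open Pool.Agent.H76V (Cmp)
open Pool.Agent.H76U (cmp preL IsSplitting)
open Pool.Agent.H76RM (spanK similD)

variable {κ : Type*} [Fintype κ] [DecidableEq κ] {Y : Submodule ℚ (κ → ℚ)}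

/-- PROOF. `cnt` (file H76P/C0) is the number of values of `P.dualMap ∘ ptS Y`, and `P.dualMap (ptS Y k) = P.dualMap (ptS Y k')` is `cz P k k'`. -/
theorem nz_eq (P : Module.End ℚ Y) : nz P = cnt (ptS Y) P.dualMap := by
  classical
  have hE := w10a_equiv P
  have hiff : ∀ k k', cz P k k' ↔ P.dualMap (ptS Y k) = P.dualMap (ptS Y k') := by
    intro k k'
    constructor
    · intro h
      exact LinearMap.ext fun f => h f
    · intro h f
      exact congrArg (fun φ : Module.Dual ℚ Y => φ f) h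
  unfold nz cnt
  have h1 : ∀ k k', cz P k k' → P.dualMap (ptS Y k) = P.dualMap (ptS Y k') := fun k k' => (hiff k k').1
  have hfin : Finite (Quot (cz P)) := Finite.of_surjective (Quot.mk (cz P)) Quot.mk_surjective
  have : Fintype (Quot (cz P)) := Fintype.ofFinite _
  rw [Nat.card_eq_fintype_card, ← Finset.card_univ]
  refine Finset.card_bij (fun x _ => Quot.lift (fun k => P.dualMap (ptS Y k)) h1 x) ?_ ?_ ?_
  · intro x _
    obtain ⟨k, rfl⟩ := Quot.mk_surjective x
    exact Finset.mem_image_of_mem _ (Finset.mem_univ k)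
  · intro x _ y _ hxy
    obtain ⟨k, rfl⟩ := Quot.mk_surjective x
    obtain ⟨k', rfl⟩ := Quot.mk_surjective y
    exact Quot.sound ((hiff k k').2 hxy)
  · intro w hw
    obtain ⟨k, -, rfl⟩ := Finset.mem_image.1 hw
    exact ⟨Quot.mk _ k, Finset.mem_univ _, rfl⟩

/-- PROOF. As in `count_blocks` (file G10): induction over the subsets with `cnt_add`, `Spl.add`; `cnt_one` for the sum `1` (`ptS_inj`). -/
theorem prod_nz [Nonempty κ] (hs : ∀ g ∈ Y, ∑ k, g k = 0)
    (hsep : ∀ k l : κ, k ≠ l → ∃ g ∈ Y, g k ≠ g l)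
    {FF : Finset (Module.End ℚ Y)} (hFF : ∀ P ∈ FF, Sp P)
    (horth : ∀ P ∈ FF, ∀ P' ∈ FF, P ≠ P' → P * P' = 0) (hsum : ∑ P ∈ FF, P = 1) :
    Fintype.card κ = ∏ P ∈ FF, nz P := by
  classical
  have hS : Spans (ptS Y) := ptS_spans hs
  have hinj : Function.Injective (ptS Y) := ptS_inj hsep
  have key : ∀ t : Finset (Module.End ℚ Y), t ⊆ FF → Spl (ptS Y) (∑ q ∈ t, q.dualMap) ∧
      cnt (ptS Y) (∑ q ∈ t, q.dualMap) = ∏ q ∈ t, cnt (ptS Y) q.dualMap := by
    intro t
    induction t using Finset.induction_on with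
    | empty =>
      intro _
      rw [Finset.sum_empty, Finset.prod_empty]
      exact ⟨Spl.zero _, cnt_zero _⟩
    | insert a t ha ih =>
      intro hsub
      obtain ⟨i1, i2⟩ := ih ((Finset.subset_insert _ _).trans hsub)
      have haF : a ∈ FF := hsub (Finset.mem_insert_self _ _)
      have hA := Sp_iff.1 (hFF a haF)
      have h0 : a.dualMap * ∑ q ∈ t, q.dualMap = 0 := by
        rw [Finset.mul_sum]
        refine Finset.sum_eq_zero fun q hq => ?_
        have hqF : q ∈ FF := hsub (Finset.mem_insert_of_mem hq)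
        rw [← dualMap_mul, horth q hqF a haF, dualMap_zero]
        rintro rfl
        exact ha hq
      rw [Finset.sum_insert ha, Finset.prod_insert ha]
      exact ⟨Spl.add hS hA i1 h0, by rw [cnt_add hS hA i1 h0, i2]⟩
  have h3 := (key FF (Finset.Subset.refl _)).2
  rw [← dualMap_sum, hsum, dualMap_one, cnt_one hinj] at h3
  rw [h3]
  exact Finset.prod_congr rfl fun P _ => (nz_eq P).symm

end Pool.Agent.H76Q
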