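import Pool.Agent.Lib.H76Q.G13

/-!
# The core theorem of H76Q (the statement of Q1)
-/

set_option autoImplicit false
set_option linter.unusedSectionVars false
namespace Pool.Agent.H76Q
open Module Matrix Polynomial Pool.Agent.H53Toric
open Pool.Agent.H76P (properProj EigOn)
open Pool.Agent.H76U (IsSplitting)
open Pool.Agent.H76RM (spanK similD)

theorem core_thm {ι : Type*} [Fintype ι] [DecidableEq ι] {ψ : Matrix ι ι ℚ} (hψ : ψᵀ = -ψ)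
    (hψ0 : ψ.det ≠ 0) (D : Subalgebra ℚ (Matrix ι ι ℚ)) {M : Type*} [Field M] [NumberField M]
    {m : ℕ} (e : Fin m → Matrix ι ι M) (hspl : IsSplitting D ψ id e) {G : Type*} [Group G]
    (ρ : ∀ (l : ℕ) [Fact l.Prime], G →* Matrix.GeneralLinearGroup ι ℚ_[l])
    (lin : ∀ (l : ℕ) [Fact l.Prime], ∀ g : G, ∀ d ∈ D,
      (ρ l g).1 * d.map (algebraMap ℚ ℚ_[l]) = d.map (algebraMap ℚ ℚ_[l]) * (ρ l g).1)
    (sim : ∀ (l : ℕ) [Fact l.Prime], ∀ g : G, ∃ c : ℚ_[l],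
      (ρ l g).1ᵀ * ψ.map (algebraMap ℚ ℚ_[l]) * (ρ l g).1 = c • ψ.map (algebraMap ℚ ℚ_[l]))
    (semis : ∀ (l : ℕ) [Fact l.Prime], ∀ H : Subgroup G, H.FiniteIndex →
      ∀ W : Submodule (AlgebraicClosure ℚ_[l]) (ι → AlgebraicClosure ℚ_[l]),
      (∀ s ∈ img (AlgebraicClosure ℚ_[l]) (ρ l) H, ∀ w ∈ W, s *ᵥ w ∈ W) →
      ∃ W' : Submodule (AlgebraicClosure ℚ_[l]) (ι → AlgebraicClosure ℚ_[l]),
        (∀ s ∈ img (AlgebraicClosure ℚ_[l]) (ρ l) H, ∀ w ∈ W', s *ᵥ w ∈ W') ∧ IsCompl W W')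
    (commt : ∀ (l : ℕ) [Fact l.Prime], ∀ H : Subgroup G, H.FiniteIndex →
      ∀ y : Matrix ι ι (AlgebraicClosure ℚ_[l]),
      (∀ s ∈ img (AlgebraicClosure ℚ_[l]) (ρ l) H, y * s = s * y) →
        y ∈ spanK (AlgebraicClosure ℚ_[l]) D)
    (gen : ∀ (l : ℕ) [Fact l.Prime], ∀ g : G,
      (ρ l g).1.map (algebraMap ℚ_[l] (AlgebraicClosure ℚ_[l])) ∈
        tgen (AlgebraicClosure ℚ_[l]) (ρ l))
    (p : ℕ) [Fact p.Prime]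
    (σ : G) (q : ℚ) (hq : ∀ n : ℕ, n ≠ 0 → q ^ n ≠ 1) (f : ℚ[X]) (F : Fin m → M[X])
    (mult : ∀ (l : ℕ) [Fact l.Prime], l ≠ p →
      (ρ l σ).1ᵀ * ψ.map (algebraMap ℚ ℚ_[l]) * (ρ l σ).1 =
        algebraMap ℚ ℚ_[l] q • ψ.map (algebraMap ℚ ℚ_[l]))
    (char : ∀ (l : ℕ) [Fact l.Prime], l ≠ p →
      (ρ l σ).1.charpoly = f.map (algebraMap ℚ ℚ_[l]))
    (frob : ∀ (l : ℕ) [Fact l.Prime], l ≠ p →
      FrobT (AlgebraicClosure ℚ_[l]) (ρ l) e F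
        ((ρ l σ).1.map (algebraMap ℚ_[l] (AlgebraicClosure ℚ_[l]))))
    (cyc : ∃ s : G, ∃ c : ℚ_[p], (ρ p s).1ᵀ * ψ.map (algebraMap ℚ ℚ_[p]) * (ρ p s).1 =
      c • ψ.map (algebraMap ℚ ℚ_[p]) ∧ ∀ n : ℕ, n ≠ 0 → c ^ n ≠ 1)
    (φ μ ν : Matrix ι ι (AlgebraicClosure ℚ_[p])) (v : AlgebraicClosure ℚ_[p] → ℚ)
    (Δ : Set (AlgebraicClosure ℚ_[p] ≃+* AlgebraicClosure ℚ_[p]))
    (frobp : FrobT (AlgebraicClosure ℚ_[p]) (ρ p) e F φ)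
    (multp : φᵀ * ψ.map (algebraMap ℚ (AlgebraicClosure ℚ_[p])) * φ =
      algebraMap ℚ (AlgebraicClosure ℚ_[p]) q • ψ.map (algebraMap ℚ (AlgebraicClosure ℚ_[p])))
    (charp : φ.charpoly = f.map (algebraMap ℚ (AlgebraicClosure ℚ_[p])))
    (crys : CrysP (AlgebraicClosure ℚ_[p]) (ρ p) e σ φ μ ν v Δ)
    (vq : v (algebraMap ℚ (AlgebraicClosure ℚ_[p]) q) = 1)
    {Ω : Type*} [Field Ω] [CharZero Ω] [IsAlgClosed Ω] [Algebra.IsAlgebraic ℚ Ω] (j : M →+* Ω)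
    (R : Finset Ω) (N : Set ℕ) (hN : p ∈ N) (arith : Arith R N ρ σ)
    (Rstab : ∀ s : Ω ≃+* Ω, ∀ r ∈ R, s r ∈ R)
    (Rval : ∀ i : Ω →+* AlgebraicClosure ℚ_[p],
      ∃ r ∈ R, v (i r) = 1 ∧ ∀ r' ∈ R, r' ≠ r → v (i r') = 0)
    (Rfix : ∀ i : Ω →+* AlgebraicClosure ℚ_[p], ∀ r ∈ R, ∀ δ ∈ Δ, δ (i r) = i r)
    (trans : ∀ b, ∀ r ∈ R, ∀ r' ∈ R, ∃ s : Ω ≃+* Ω, s r = r' ∧
      Linked D ((e b).map j) ((e b).map (s.toRingHom.comp j)))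
    (gal : ∀ b, ∀ a a' : Ω, (F b).eval₂ j a = 0 → (F b).eval₂ j a' = 0 → a ≠ a' →
      ∃ i : Ω →+* AlgebraicClosure ℚ_[p], v (i a) ≠ v (i a'))
    (power : ∀ b (a k : ℕ), 2 ≤ k → k ∣ R.card → (e b).rank ≠ a ^ k)
    (two : ∀ b (k : ℕ), 4 ≤ k → (e b).rank ≠ 2 ^ k)
    (binom : ∀ b (k : ℕ), 3 ≤ k → Odd k → (e b).rank ≠ k.centralBinom) :
    ∀ (l : ℕ) [Fact l.Prime], ∀ H : Subgroup G, H.FiniteIndex →
      monodromy (AlgebraicClosure ℚ_[l]) (ρ l) H = similD (AlgebraicClosure ℚ_[l]) ψ D := by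
  exact Core.final (ψ := ψ) (D := D) (e := e) (ρ := ρ) (σ := σ) (q := q) (f := f) (F := F) (φ := φ)
    (μ := μ) (ν := ν) (v := v) (Δ := Δ) (j := j) (R := R) (N := N)
    ⟨hψ, hψ0, hspl, lin, sim, semis, commt, gen, hq, mult, char, frob, cyc, frobp, multp, charp, crys, vq,
      hN, arith, Rstab, Rval, Rfix, trans, gal⟩ power two binom

end Pool.Agent.H76Q
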