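import Pool.Agent.Lib.H76Q.X12a
import Pool.Agent.Lib.H76Q.E5
import Pool.Agent.Lib.H76Q.Q1

/-!
# decomposition groups
-/

set_option autoImplicit false
set_option linter.unusedSectionVars false
namespace Pool.Agent.H76Q
open Module Matrix Polynomial TensorProduct Pool.Agent.H53Toric
open Pool.Agent.H76P
open Pool.Agent.H76T (IsIdeal Fam Lc)
open Pool.Agent.H76V (Cmp)
open Pool.Agent.H76U (cmp preL IsSplitting)
open Pool.Agent.H76RM (spanK similD)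

theorem x12b_pow {Ω L K : Type*} [Field Ω] [Field L] [Field K] [Algebra L K] (i : Ω →+* K)
    (t : K ≃ₐ[L] K) (s : Ω ≃+* Ω) (h : ∀ x, t (i x) = i (s x)) (w : ℕ) (x : Ω) :
    (t ^ w) (i x) = i ((s ^ w) x) := by
  induction w generalizing x with
  | zero => rfl
  | succ w ih =>
    rw [pow_succ, pow_succ]
    show (t ^ w) (t (i x)) = i ((s ^ w) (s x))
    rw [h, ih]

/-- PROOF. `u` as in `exists_skew`.  If `s ^ u` is trivial on `T` take any `l ∉ N`, any `i` (`IsAlgClosed.lift`), `t = 1`.  Otherwise apply `cheb` to `Γ` and `y ^ 2`: if for all `l ∉ N` and all `i` with `Dec ℚ_[l] Γ i` the element `i (y ^ 2)` were `SqIn`, then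
`y ^ 2 = c ^ 2` with `c` fixed by `Γ`, so `y = c` or `y = -c` would be fixed by `s ^ u ∈ Γ`, but `(s ^ u) y = -y ≠ y`.  So there are `l ∉ N`, `i` with `Dec ℚ_[l] Γ i` such that `i (y ^ 2)` is not `SqIn`, so `i y` is not in `ℚ_l`, and there is `t` with `t (i y) ≠ i y` (`fixed_mem`).
There is `s'` with `t (i x) = i (s' x)` for all `x` (`exists_res`), `s' ∈ Γ` (`Dec`), `s' y = -y`, and `w` with `s' ^ w = s ^ u` on `T`; `t ^ w` is the automorphism we want. -/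
theorem exists_dec {Ω : Type*} [Field Ω] [CharZero Ω] [IsAlgClosed Ω] [Algebra.IsAlgebraic ℚ Ω]
    (N : Set ℕ) (hN : ∃ l : ℕ, l.Prime ∧ l ∉ N)
    (cheb : ∀ Γ : Subgroup (Ω ≃+* Ω), (∃ T : Finset Ω, ∀ s : Ω ≃+* Ω, (∀ x ∈ T, s x = x) → s ∈ Γ) →
      ∀ a : Ω, a ≠ 0 → (∀ s ∈ Γ, s a = a) →
      (∀ (l : ℕ) [Fact l.Prime], l ∉ N → ∀ i : Ω →+* AlgebraicClosure ℚ_[l],
        Dec ℚ_[l] Γ i → SqIn ℚ_[l] (i a)) → ∃ c : Ω, (∀ s ∈ Γ, s c = c) ∧ a = c ^ 2)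
    (s : Ω ≃+* Ω) (T : Finset Ω) : ∃ u : ℕ, Odd u ∧ ∃ (l : ℕ) (_ : Fact l.Prime), l ∉ N ∧
      ∃ (i : Ω →+* AlgebraicClosure ℚ_[l]) (t : AlgebraicClosure ℚ_[l] ≃ₐ[ℚ_[l]] AlgebraicClosure ℚ_[l]),
        ∀ x ∈ T, t (i x) = i ((s ^ u) x) := by
  obtain ⟨u, hu, h | ⟨Γ, y, hT', hy0, hsΓ, hsy, hΓy, hΓw⟩⟩ := exists_skew s T
  · obtain ⟨l, hl, hlN⟩ := hN
    refine ⟨u, hu, l, ⟨hl⟩, hlN, ?_⟩
    haveI : Fact l.Prime := ⟨hl⟩
    refine ⟨(IsAlgClosed.lift (R := ℚ) (S := Ω) (M := AlgebraicClosure ℚ_[l])).toRingHom,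
      AlgEquiv.refl, fun x hx => ?_⟩
    rw [h x hx]
    rfl
  · by_contra hcon
    have key : ∀ (l : ℕ) [Fact l.Prime], l ∉ N → ∀ i : Ω →+* AlgebraicClosure ℚ_[l],
        Dec ℚ_[l] Γ i → SqIn ℚ_[l] (i (y ^ 2)) := by
      intro l hlp hlN i hdec
      by_contra hsq
      have h1 : ∃ t : AlgebraicClosure ℚ_[l] ≃ₐ[ℚ_[l]] AlgebraicClosure ℚ_[l], t (i y) ≠ i y := by
        by_contra hall
        push Not at hall
        obtain ⟨c, hc⟩ := fixed_mem hall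
        exact hsq ⟨c, by rw [map_pow, hc]⟩
      obtain ⟨t, ht⟩ := h1
      obtain ⟨s', hs'⟩ := exists_res i t.toRingEquiv
      have hs2 : ∀ x, t (i x) = i (s' x) := hs'
      have hs'Γ : s' ∈ Γ := hdec t s' hs2
      have hs'y : s' y = -y := by
        rcases hΓy s' hs'Γ with h2 | h2
        · exfalso
          apply ht
          rw [hs2, h2]
        · exact h2
      obtain ⟨w, hw⟩ := hΓw s' hs'Γ hs'y
      apply hcon
      refine ⟨u, hu, l, hlp, hlN, i, t ^ w, fun x hx => ?_⟩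
      rw [x12b_pow i t s' hs2 w x, hw x hx]
    obtain ⟨c, hc, hyc⟩ := cheb Γ hT' (y ^ 2) (pow_ne_zero 2 hy0) (fun t ht => by
      rw [map_pow]
      rcases hΓy t ht with h2 | h2
      · rw [h2]
      · rw [h2, neg_sq]) key
    have hsyy : (s ^ u) y = y := by
      rcases sq_eq_sq_iff_eq_or_eq_neg.1 hyc with h2 | h2
      · rw [h2]
        exact hc _ hsΓ
      · rw [h2, map_neg, hc _ hsΓ]
    rw [hsyy] at hsy
    exact hy0 (self_eq_neg.1 hsy)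

end Pool.Agent.H76Q
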