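import Pool.Agent.Lib.H76Q.Q1
import Pool.Agent.Lib.CFT.D_32
import Mathlib.Analysis.Normed.Unbundled.SpectralNorm

/-!
# Q5: definitions for the final theorem over a number field
-/

set_option autoImplicit false
set_option linter.unusedSectionVars false
namespace Pool.Agent.H76Q
open Module Matrix Polynomial Pool.Agent.H53Toric NumberField
open Pool.Agent.H76P (properProj EigOn)
open Pool.Agent.H76U (IsSplitting)
open Pool.Agent.H76RM (spanK similD)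

/-- `v` is the `p`-adic valuation of the closure of `ℚ_p`, normalised by `v p = 1`. -/
def IsPVal (p : ℕ) [Fact p.Prime] (v : AlgebraicClosure ℚ_[p] → ℚ) : Prop :=
  ∀ x : AlgebraicClosure ℚ_[p], x ≠ 0 →
    spectralNorm ℚ_[p] (AlgebraicClosure ℚ_[p]) x = (p : ℝ) ^ (-(v x : ℝ))

/-- The inertia group of `ℚ_p`. -/
def inertia (p : ℕ) [Fact p.Prime] (v : AlgebraicClosure ℚ_[p] → ℚ) :
    Set (AlgebraicClosure ℚ_[p] ≃+* AlgebraicClosure ℚ_[p]) :=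
  {δ | (∀ c : ℚ_[p], δ (algebraMap ℚ_[p] _ c) = algebraMap ℚ_[p] _ c) ∧
    ∀ x, x ≠ 0 → 0 ≤ v x → δ x = x ∨ 0 < v (δ x - x)}

/-- The conditions at `p`: `φ` is the inverse of the crystalline Frobenius, `μ` a Hodge-Tate
projector which commutes with it, `ν` the logarithm of the absolute values of `φ`. -/
structure CrysF {G : Type*} [Group G] {ι : Type*} [Fintype ι] [DecidableEq ι]
    (p : ℕ) [Fact p.Prime] (ρ : G →* Matrix.GeneralLinearGroup ι ℚ_[p])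
    {M : Type*} [Field M] {m : ℕ} (e : Fin m → Matrix ι ι M) (σ : G)
    (φ μ ν : Matrix ι ι (AlgebraicClosure ℚ_[p])) (v : AlgebraicClosure ℚ_[p] → ℚ) : Prop where
  mu : μ ∈ properProj (AlgebraicClosure ℚ_[p]) ρ
  muphi : μ * φ = φ * μ
  phigen : φ ∈ tgen (AlgebraicClosure ℚ_[p]) ρ
  nu : ∀ (c : AlgebraicClosure ℚ_[p]) (z : ι → AlgebraicClosure ℚ_[p]), φ *ᵥ z = c • z →
    ν *ᵥ z = (v c : AlgebraicClosure ℚ_[p]) • z
  newton : ∀ (i : M →+* AlgebraicClosure ℚ_[p]) (b : Fin m) (H : Subgroup G), H.FiniteIndex →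
    ∀ I : Submodule (AlgebraicClosure ℚ_[p]) (Matrix ι ι (AlgebraicClosure ℚ_[p])),
      adStable (zlie (img (AlgebraicClosure ℚ_[p]) ρ H)) I →
      ((2 : AlgebraicClosure ℚ_[p]) • μ - 1) * (e b).map i ∈ I →
        ∃ c : AlgebraicClosure ℚ_[p], (ν - c • 1) * (e b).map i ∈ I
  unr : ∃ ξ ξ' : Matrix ι ι (AlgebraicClosure ℚ_[p]), ξ ∈ tgen (AlgebraicClosure ℚ_[p]) ρ ∧
    ξ * ξ' = 1 ∧ ∀ (H : Subgroup G), H.FiniteIndex →
      ∀ I : Submodule (AlgebraicClosure ℚ_[p]) (Matrix ι ι (AlgebraicClosure ℚ_[p])),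
        adStable (zlie (img (AlgebraicClosure ℚ_[p]) ρ H)) I → (∀ X ∈ I, μ * X = X * μ) →
        ∀ X ∈ I, ((ρ σ)⁻¹.1.map (algebraMap ℚ_[p] _) * (ξ * φ * ξ')) * X =
          X * ((ρ σ)⁻¹.1.map (algebraMap ℚ_[p] _) * (ξ * φ * ξ'))
  int : (ρ σ).1.map (algebraMap ℚ_[p] _) ∈ Submonoid.closure
    {x | ∃ h ∈ properProj (AlgebraicClosure ℚ_[p]) ρ, IntMat v h ∧
      ∃ t : AlgebraicClosure ℚ_[p], t ≠ 0 ∧ v t = 0 ∧ x = 1 + (t - 1) • h}
  eint : ∀ (i : M →+* AlgebraicClosure ℚ_[p]) (b : Fin m), IntMat v ((e b).map i)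
  dphi : ∀ δ ∈ inertia p v, φ.map δ = φ
  dideal : ∀ δ ∈ inertia p v, ∀ H : Subgroup G, H.FiniteIndex →
    ∀ I : Submodule (AlgebraicClosure ℚ_[p]) (Matrix ι ι (AlgebraicClosure ℚ_[p])),
      I ≤ zlie (img (AlgebraicClosure ℚ_[p]) ρ H) →
      adStable (zlie (img (AlgebraicClosure ℚ_[p]) ρ H)) I → ∀ X ∈ I, X.map δ ∈ I

end Pool.Agent.H76Q
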