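import Pool.Agent.Lib.H76Q.Q1

/-!
# linked idempotents
-/

set_option autoImplicit false
set_option linter.unusedSectionVars false
namespace Pool.Agent.H76Q
open Module Matrix Polynomial TensorProduct Pool.Agent.H53Toric
open Pool.Agent.H76P
open Pool.Agent.H76T (IsIdeal Fam Lc)
open Pool.Agent.H76V (Cmp)
open Pool.Agent.H76U (cmp preL IsSplitting)
open Pool.Agent.H76RM (spanK similD)

variable {ι : Type*} [Fintype ι] [DecidableEq ι] {D : Subalgebra ℚ (Matrix ι ι ℚ)}

/-- `e` and `e'` are equivalent idempotents of the algebra spanned by `D`. -/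
def Pr (D : Subalgebra ℚ (Matrix ι ι ℚ)) {K : Type*} [Field K] [CharZero K]
    (e e' : Matrix ι ι K) : Prop :=
  ∃ a ∈ spanK K D, ∃ a' ∈ spanK K D, a * a' = e' ∧ a' * a = e ∧ e * a' = a' ∧ a' * e' = a' ∧
    e' * a = a ∧ a * e = a

/-- PROOF. Products `a₂ * a₁`, `a₁' * a₂'`. -/
theorem Pr.trans {K : Type*} [Field K] [CharZero K] {e e' e'' : Matrix ι ι K} (h : Pr D e e')
    (h' : Pr D e' e'') : Pr D e e'' := by
  obtain ⟨a, ha, a', ha', h1, h2, h3, h4, h5, h6⟩ := h
  obtain ⟨b, hb, b', hb', k1, k2, k3, k4, k5, k6⟩ := h'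
  refine ⟨b * a, H76U.spanK_mul hb ha, a' * b', H76U.spanK_mul ha' hb', ?_, ?_, ?_, ?_, ?_, ?_⟩
  · calc b * a * (a' * b') = b * ((a * a') * b') := by simp only [Matrix.mul_assoc]
      _ = e'' := by rw [h1, k3, k1]
  · calc a' * b' * (b * a) = a' * ((b' * b) * a) := by simp only [Matrix.mul_assoc]
      _ = e := by rw [k2, h5, h2]
  · rw [← Matrix.mul_assoc, h3]
  · rw [Matrix.mul_assoc, k4]
  · rw [← Matrix.mul_assoc, k5]
  · rw [Matrix.mul_assoc, h6]

/-- PROOF. `spanK` is mapped to `spanK` (the elements of `D` are rational). -/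
theorem Pr.map {K K' : Type*} [Field K] [CharZero K] [Field K'] [CharZero K'] (i : K →+* K')
    {e e' : Matrix ι ι K} (h : Pr D e e') : Pr D (e.map i) (e'.map i) := by
  obtain ⟨a, ha, a', ha', h1, h2, h3, h4, h5, h6⟩ := h
  refine ⟨a.map i, H76U.spanK_map i ha, a'.map i, H76U.spanK_map i ha', ?_, ?_, ?_, ?_, ?_, ?_⟩
  · rw [← H76U.map_mul', h1]
  · rw [← H76U.map_mul', h2]
  · rw [← H76U.map_mul', h3]
  · rw [← H76U.map_mul', h4]
  · rw [← H76U.map_mul', h5]
  · rw [← H76U.map_mul', h6]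

/-- PROOF. `e₁ = (e b).map j`, `e₂ = (e b).map (s.toRingHom.comp j)`; both belong to families as in `IsSplitting` (over `Ω`: the images of `hspl` under `j` and under `s ∘ j`; in G8 there are similar arguments).  Let `w = e₁ * d * e₂ ≠ 0`.  By `full` for the
family of `j` there are `x ∈ spanK Ω D`, `b'`, `u` with `w *ᵥ (x *ᵥ (e_b' *ᵥ u)) ≠ 0`, so `w * x * e_b' ≠ 0`, where `w = e₁ * w`, so `b' = b` (`orth`), and `e₁ * (w * x) * e₁ = c • e₁` (`corner`), `c ≠ 0`.  Put `a = c⁻¹ • (e₂ * x * e₁)`, `a' = e₁ * w * e₂ = w`: `a' * a = e₁`; `a * a'`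
is an idempotent, in `e₂ * spanK * e₂ = Ω • e₂` (`corner` for the family of `s ∘ j`), not `0`, so equal to `e₂`. -/
theorem pr_of_linked {ψ : Matrix ι ι ℚ} {M : Type*} [Field M] [NumberField M] {m : ℕ}
    {e : Fin m → Matrix ι ι M} (hspl : IsSplitting D ψ id e) {Ω : Type*} [Field Ω] [CharZero Ω]
    (j : M →+* Ω) (s : Ω ≃+* Ω) (b : Fin m)
    (h : Linked D ((e b).map j) ((e b).map (s.toRingHom.comp j))) :
    Pr D ((e b).map j) ((e b).map (s.toRingHom.comp j)) := by
  obtain ⟨d, hd, hne⟩ := h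
  have S1 := hspl.map j
  have S2 := hspl.map (s.toRingHom.comp j)
  set e₁ : Matrix ι ι Ω := (e b).map j with he₁
  set e₂ : Matrix ι ι Ω := (e b).map (s.toRingHom.comp j) with he₂
  have m1 : e₁ ∈ spanK Ω D := S1.mem b
  have m2 : e₂ ∈ spanK Ω D := S2.mem b
  have i1 : e₁ * e₁ = e₁ := S1.idem b
  have i2 : e₂ * e₂ = e₂ := S2.idem b
  have n1 : e₁ ≠ 0 := S1.ne_zero b
  have n2 : e₂ ≠ 0 := S2.ne_zero b
  -- a generator on which `w` does not vanish
  obtain ⟨x, hx, b', hb'⟩ : ∃ x ∈ spanK Ω D, ∃ b', e₁ * d * e₂ * x * (e b').map j ≠ 0 := by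
    by_contra hcon
    push Not at hcon
    apply hne
    have h1 : ∀ v : ι → Ω, (e₁ * d * e₂) *ᵥ v = 0 := by
      intro v
      refine Submodule.span_induction (p := fun v _ => (e₁ * d * e₂) *ᵥ v = 0) ?_ ?_ ?_ ?_
        (S1.full v)
      · rintro _ ⟨x, hx, b', u, rfl⟩
        rw [Matrix.mulVec_mulVec, Matrix.mulVec_mulVec, hcon x hx b', Matrix.zero_mulVec]
      · rw [Matrix.mulVec_zero]
      · intro y z _ _ hy hz
        rw [Matrix.mulVec_add, hy, hz, add_zero]
      · intro c y _ hy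
        rw [Matrix.mulVec_smul, hy, smul_zero]
    ext i k
    have h2 := congrFun (h1 (Pi.single k 1)) i
    rw [Matrix.mulVec_single_one] at h2
    exact h2
  have hbb : b' = b := by
    by_contra hcon
    apply hb'
    have h1 := S1.orth b b' (Ne.symm hcon) (d * (e₂ * x))
      (H76U.spanK_mul hd (H76U.spanK_mul m2 hx))
    rw [← h1]
    simp only [Matrix.mul_assoc, he₁]
  subst hbb
  have hb'' : e₁ * (d * (e₂ * x)) * e₁ ≠ 0 := by
    intro h1
    apply hb'
    rw [← h1]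
    simp only [Matrix.mul_assoc, he₁]
  obtain ⟨c, hc⟩ := S1.corner b' (d * (e₂ * x)) (H76U.spanK_mul hd (H76U.spanK_mul m2 hx))
  change e₁ * (d * (e₂ * x)) * e₁ = c • e₁ at hc
  have hc0 : c ≠ 0 := by
    intro h1
    apply hb''
    rw [hc, h1, zero_smul]
  obtain ⟨c', hc'⟩ := S2.corner b' (x * (e₁ * d)) (H76U.spanK_mul hx (H76U.spanK_mul m1 hd))
  change e₂ * (x * (e₁ * d)) * e₂ = c' • e₂ at hc'
  have ha'a : e₁ * d * e₂ * (c⁻¹ • (e₂ * x * e₁)) = e₁ := by
    rw [Matrix.mul_smul]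
    calc c⁻¹ • (e₁ * d * e₂ * (e₂ * x * e₁)) = c⁻¹ • (e₁ * (d * ((e₂ * e₂) * x)) * e₁) := by
          simp only [Matrix.mul_assoc]
      _ = e₁ := by rw [i2, hc, smul_smul, inv_mul_cancel₀ hc0, one_smul]
  have haa' : c⁻¹ • (e₂ * x * e₁) * (e₁ * d * e₂) = (c⁻¹ * c') • e₂ := by
    rw [Matrix.smul_mul]
    calc c⁻¹ • (e₂ * x * e₁ * (e₁ * d * e₂)) = c⁻¹ • (e₂ * (x * ((e₁ * e₁) * d)) * e₂) := by
          simp only [Matrix.mul_assoc]
      _ = (c⁻¹ * c') • e₂ := by rw [i1, hc', smul_smul]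
  have ht : c⁻¹ * c' = 1 := by
    set t := c⁻¹ * c' with ht
    set A := c⁻¹ • (e₂ * x * e₁) with hA
    set A' := e₁ * d * e₂ with hA'
    have h1 : A * A' * (A * A') = A * A' := by
      calc A * A' * (A * A') = A * ((A' * A) * A') := by simp only [Matrix.mul_assoc]
        _ = A * (e₁ * A') := by rw [ha'a]
        _ = A * A' := by
          have h7 : e₁ * A' = A' := by
            rw [hA']
            calc e₁ * (e₁ * d * e₂) = (e₁ * e₁) * d * e₂ := by simp only [Matrix.mul_assoc]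
              _ = e₁ * d * e₂ := by rw [i1]
          rw [h7]
    rw [haa', Matrix.smul_mul, Matrix.mul_smul, i2, smul_smul] at h1
    have h2 : (t * t - t) • e₂ = 0 := by rw [sub_smul, h1, sub_self]
    have h3 : t * t - t = 0 := (smul_eq_zero.1 h2).resolve_right n2
    have h4 : t ≠ 0 := by
      intro h0
      apply n1
      have h5 : A' * A * (A' * A) = 0 := by
        calc A' * A * (A' * A) = A' * ((A * A') * A) := by simp only [Matrix.mul_assoc]
          _ = 0 := by rw [haa', h0, zero_smul, Matrix.zero_mul, Matrix.mul_zero]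
      rw [ha'a, i1] at h5
      exact h5
    have h5 : t * (t - 1) = 0 := by rw [← h3]; ring
    exact sub_eq_zero.1 ((mul_eq_zero.1 h5).resolve_left h4)
  rw [ht, one_smul] at haa'
  refine ⟨c⁻¹ • (e₂ * x * e₁), (spanK Ω D).smul_mem _ (H76U.spanK_mul (H76U.spanK_mul m2 hx) m1),
    e₁ * d * e₂, H76U.spanK_mul (H76U.spanK_mul m1 hd) m2, haa', ha'a, ?_, ?_, ?_, ?_⟩
  · rw [← Matrix.mul_assoc, ← Matrix.mul_assoc, i1]
  · rw [Matrix.mul_assoc, i2]
  · rw [Matrix.mul_smul, ← Matrix.mul_assoc, ← Matrix.mul_assoc, i2]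
  · rw [Matrix.smul_mul, Matrix.mul_assoc, i1]

/-- PROOF. Induction on `u` with `Pr.trans` and `Pr.map s`; `u = 0`: `Pr D e₁ e₁` with `a = a' = e₁` (`hspl.mem`, `hspl.idem`). -/
theorem pr_pow {ψ : Matrix ι ι ℚ} {M : Type*} [Field M] [NumberField M] {m : ℕ}
    {e : Fin m → Matrix ι ι M} (hspl : IsSplitting D ψ id e) {Ω : Type*} [Field Ω] [CharZero Ω]
    (j : M →+* Ω) (s : Ω ≃+* Ω) (b : Fin m)
    (h : Linked D ((e b).map j) ((e b).map (s.toRingHom.comp j))) (u : ℕ) :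
    Pr D ((e b).map j) ((e b).map ((s ^ u).toRingHom.comp j)) := by
  induction u with
  | zero =>
    have S1 := hspl.map j
    have m1 : (e b).map j ∈ spanK Ω D := S1.mem b
    have i1 : (e b).map j * (e b).map j = (e b).map j := S1.idem b
    have h1 : (e b).map ((s ^ 0).toRingHom.comp j) = (e b).map j := by
      ext x y
      rw [pow_zero]
      rfl
    rw [h1]
    exact ⟨(e b).map j, m1, (e b).map j, m1, i1, i1, i1, i1, i1, i1⟩
  | succ u ih =>
    have h1 := ih.map s.toRingHom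
    have h2 : ((e b).map j).map s.toRingHom = (e b).map (s.toRingHom.comp j) := by
      ext x y
      rfl
    have h3 : ((e b).map ((s ^ u).toRingHom.comp j)).map s.toRingHom =
        (e b).map ((s ^ (u + 1)).toRingHom.comp j) := by
      ext x y
      rw [pow_succ']
      rfl
    rw [h2, h3] at h1
    exact (pr_of_linked hspl j s b h).trans h1

end Pool.Agent.H76Q
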