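import Pool.Agent.Lib.H76Q.Q6
import Pool.Agent.Lib.H76Q.W2
import Pool.Agent.Lib.H76Q.X9

/-!
# the adjoint of an element of the algebra
-/

set_option autoImplicit false
set_option linter.unusedSectionVars false
namespace Pool.Agent.H76Q
open Module Matrix Polynomial TensorProduct Pool.Agent.H53Toric
open Pool.Agent.H76P
open Pool.Agent.H76T (IsIdeal Fam Lc)
open Pool.Agent.H76V (Cmp)
open Pool.Agent.H76U (cmp preL IsSplitting)
open Pool.Agent.H76RM (spanK similD)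

variable {ι : Type*} [Fintype ι] [DecidableEq ι] {ψ : Matrix ι ι ℚ}
    {D : Subalgebra ℚ (Matrix ι ι ℚ)} {M : Type*} [Field M] [NumberField M]
    {m : ℕ} {e : Fin m → Matrix ι ι M} {G : Type*} [Group G]
    {ρ : ∀ (l : ℕ) [Fact l.Prime], G →* Matrix.GeneralLinearGroup ι ℚ_[l]}
    {p : ℕ} [Fact p.Prime] {σ : G} {q : ℚ} {f : ℚ[X]} {F : Fin m → M[X]}
    {φ μ ν : Matrix ι ι (AlgebraicClosure ℚ_[p])} {v : AlgebraicClosure ℚ_[p] → ℚ}
    {Δ : Set (AlgebraicClosure ℚ_[p] ≃+* AlgebraicClosure ℚ_[p])}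
    {Ω : Type*} [Field Ω] [CharZero Ω] [IsAlgClosed Ω] [Algebra.IsAlgebraic ℚ Ω] {j : M →+* Ω}
    {R : Finset Ω} {N : Set ℕ} (C : Core2 ψ D e ρ p σ q f F φ μ ν v Δ j R N)

include C


/-- PROOF. `y' = J⁻¹ * yᵀ * J` with `J` = the image of `ψ` (`C.hψ0`: `J.det` is a unit).  It commutes with all elements `s` of `img K (ρ l) ⊤`: `sᵀ * J * s = c • J` (`C.sim`), `c ≠ 0`, and `y * s = s * y` (`C.lin`: elements of `spanK` are linear
combinations of elements of `D`), so `y' * s = s * y'`: from `s y = y s` take the transpose, `yᵀ sᵀ = sᵀ yᵀ`, multiply by `J * s` on the right: `yᵀ (c • J) = sᵀ yᵀ J s`, and `sᵀ = c • J * s⁻¹ * J⁻¹`.  Then `C.commt l ⊤`. -/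
theorem Core2.adj_mem (l : ℕ) [Fact l.Prime] {y : Matrix ι ι (AlgebraicClosure ℚ_[l])}
    (hy : y ∈ spanK (AlgebraicClosure ℚ_[l]) D) :
    ∃ y' ∈ spanK (AlgebraicClosure ℚ_[l]) D,
      yᵀ * ψ.map (algebraMap ℚ (AlgebraicClosure ℚ_[l])) =
        ψ.map (algebraMap ℚ (AlgebraicClosure ℚ_[l])) * y' := by
  obtain ⟨-, hdet⟩ := gram_basic C.hψ C.hψ0 (AlgebraicClosure ℚ_[l])
  obtain ⟨J, hJ⟩ : ∃ J, J = ψ.map (algebraMap ℚ (AlgebraicClosure ℚ_[l])) := ⟨_, rfl⟩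
  rw [← hJ] at hdet ⊢
  have h1 : J * (J⁻¹ * yᵀ * J) = yᵀ * J := by
    rw [← Matrix.mul_assoc, ← Matrix.mul_assoc, Matrix.mul_nonsing_inv _ hdet, Matrix.one_mul]
  refine ⟨J⁻¹ * yᵀ * J, ?_, h1.symm⟩
  refine C.commt l ⊤ inferInstance _ ?_
  obtain ⟨y', hy'⟩ : ∃ y', y' = J⁻¹ * yᵀ * J := ⟨_, rfl⟩
  rw [← hy'] at h1 ⊢
  rintro s ⟨g, -, rfl⟩
  obtain ⟨s, hs⟩ : ∃ s, s = (ρ l g).1.map (algebraMap ℚ_[l] (AlgebraicClosure ℚ_[l])) := ⟨_, rfl⟩
  rw [← hs]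
  have hlin : ∀ d ∈ D, s * d.map (algebraMap ℚ (AlgebraicClosure ℚ_[l])) =
      d.map (algebraMap ℚ (AlgebraicClosure ℚ_[l])) * s := by
    intro d hd
    have h2 := congrArg (fun m : Matrix ι ι ℚ_[l] =>
      m.map (algebraMap ℚ_[l] (AlgebraicClosure ℚ_[l]))) (C.lin l g d hd)
    have h3 : (d.map (algebraMap ℚ ℚ_[l])).map (algebraMap ℚ_[l] (AlgebraicClosure ℚ_[l])) =
        d.map (algebraMap ℚ (AlgebraicClosure ℚ_[l])) := by
      ext i j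
      simp
    simp only [Matrix.map_mul] at h2
    rw [h3, ← hs] at h2
    exact h2
  have hsy : s * y = y * s := H76RM.comm_span hlin y hy
  obtain ⟨c, hc⟩ := C.sim l g
  have hsim : sᵀ * J * s = algebraMap ℚ_[l] (AlgebraicClosure ℚ_[l]) c • J := by
    rw [hs, hJ]
    exact sim_map hc
  have hsu : IsUnit s := by
    rw [hs]
    have h2 : IsUnit (ρ l g).1 := (ρ l g).isUnit
    exact h2.map (algebraMap ℚ_[l] (AlgebraicClosure ℚ_[l])).mapMatrix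
  have hsd : IsUnit (sᵀ * J).det := by
    rw [Matrix.det_mul, Matrix.det_transpose]
    exact ((Matrix.isUnit_iff_isUnit_det _).1 hsu).mul hdet
  have h4 : (sᵀ * J) * (y' * s) = (sᵀ * J) * (s * y') := by
    calc (sᵀ * J) * (y' * s) = sᵀ * (J * y') * s := by simp only [Matrix.mul_assoc]
      _ = (y * s)ᵀ * J * s := by rw [h1, Matrix.transpose_mul]; simp only [Matrix.mul_assoc]
      _ = yᵀ * (sᵀ * J * s) := by rw [← hsy, Matrix.transpose_mul]; simp only [Matrix.mul_assoc]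
      _ = algebraMap ℚ_[l] (AlgebraicClosure ℚ_[l]) c • (yᵀ * J) := by rw [hsim, Matrix.mul_smul]
      _ = (sᵀ * J * s) * y' := by rw [hsim, Matrix.smul_mul, h1]
      _ = _ := by simp only [Matrix.mul_assoc]
  calc y' * s = ((sᵀ * J)⁻¹ * (sᵀ * J)) * (y' * s) := by
        rw [Matrix.nonsing_inv_mul _ hsd, Matrix.one_mul]
    _ = (sᵀ * J)⁻¹ * ((sᵀ * J) * (s * y')) := by rw [Matrix.mul_assoc, h4]
    _ = s * y' := by rw [← Matrix.mul_assoc, Matrix.nonsing_inv_mul _ hsd, Matrix.one_mul]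

/-- PROOF. `y'` as in `Core2.adj_mem` for `y = a'`.  `eᵀ * J = J * e`, `e'ᵀ * J = J * e'` (`C.hspl.adj` with `bar = id`, mapped by `i₁`, `i₂`), `a' = e * a' * e'`, so `J * y' = a'ᵀ * J = e'ᵀ * a'ᵀ * eᵀ * J = J * (e' * y' * e)`, `y' = e' * y' * e`, and
`a'ᵀ * J * a' = J * y' * a' = J * (e' * (y' * a') * e') = c • (J * e')` by `C.hspl.corner` for the family of `i₂` (the image of `hspl` under `i₂`; spanK is mapped to spanK, see `pr_of_linked` and file G8). -/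
theorem Core2.pr_form (l : ℕ) [Fact l.Prime] (b : Fin m) (i₁ i₂ : M →+* AlgebraicClosure ℚ_[l])
    {a' : Matrix ι ι (AlgebraicClosure ℚ_[l])} (ha' : a' ∈ spanK (AlgebraicClosure ℚ_[l]) D)
    (h3 : (e b).map i₁ * a' = a') (h4 : a' * (e b).map i₂ = a') :
    ∃ c : AlgebraicClosure ℚ_[l], a'ᵀ * ψ.map (algebraMap ℚ (AlgebraicClosure ℚ_[l])) * a' =
      c • (ψ.map (algebraMap ℚ (AlgebraicClosure ℚ_[l])) * (e b).map i₂) := by
  obtain ⟨-, hdet⟩ := gram_basic C.hψ C.hψ0 (AlgebraicClosure ℚ_[l])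
  obtain ⟨y', hy', h1⟩ := C.adj_mem l ha'
  have hs1 := C.hspl.map i₁
  have hs2 := C.hspl.map i₂
  have ha1 := hs1.adj b
  have ha2 := hs2.adj b
  simp only [id] at ha1 ha2
  obtain ⟨J, hJ⟩ : ∃ J, J = ψ.map (algebraMap ℚ (AlgebraicClosure ℚ_[l])) := ⟨_, rfl⟩
  rw [← hJ] at hdet h1 ha1 ha2 ⊢
  obtain ⟨E, hE⟩ : ∃ E, E = (e b).map i₁ := ⟨_, rfl⟩
  obtain ⟨E', hE'⟩ : ∃ E', E' = (e b).map i₂ := ⟨_, rfl⟩
  rw [← hE] at ha1 h3
  have hcor := hs2.corner b (y' * a') (H76U.spanK_mul hy' ha')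
  rw [← hE'] at ha2 h4 hcor ⊢
  obtain ⟨c, hc⟩ := hcor
  refine ⟨c, ?_⟩
  have h5 : J * y' = J * (E' * y') := by
    calc J * y' = a'ᵀ * J := h1.symm
      _ = (a' * E')ᵀ * J := by rw [h4]
      _ = E'ᵀ * (a'ᵀ * J) := by rw [Matrix.transpose_mul, Matrix.mul_assoc]
      _ = (E'ᵀ * J) * y' := by rw [h1, Matrix.mul_assoc]
      _ = _ := by rw [ha2, Matrix.mul_assoc]
  calc a'ᵀ * J * a' = J * (E' * y') * (a' * E') := by rw [h1, h5, h4]
    _ = J * (E' * (y' * a') * E') := by simp only [Matrix.mul_assoc]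
    _ = _ := by rw [hc, Matrix.mul_smul]

end Pool.Agent.H76Q
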