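import Pool.Agent.Lib.H76Q.Q2

/-!
# the trace and semilinear maps
-/

set_option autoImplicit false
set_option linter.unusedSectionVars false
namespace Pool.Agent.H76Q
open Module Matrix Polynomial TensorProduct Pool.Agent.H53Toric
open Pool.Agent.H76P
open Pool.Agent.H76T (IsIdeal Fam Lc)
open Pool.Agent.H76V (Cmp)
open Pool.Agent.H76U (cmp preL IsSplitting)
open Pool.Agent.H76RM (spanK similD)

/-- PROOF. `b` = a basis of `V`; `θ ∘ b` is a basis of `V'` (`θ` is semilinear for `τ`: use `RingHomInvPair` of `τ`, `τ.symm`, or show linear independence and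
spanning by hand); the matrix of `f'` is the matrix of `f` with `τ` applied to the entries; `LinearMap.trace_eq_matrix_trace`. -/
theorem tr_semi {K : Type*} [Field K] {V V' : Type*} [AddCommGroup V] [Module K V]
    [AddCommGroup V'] [Module K V'] [FiniteDimensional K V] (τ : K ≃+* K) (θ : V ≃+ V')
    (hθ : ∀ (c : K) (x : V), θ (c • x) = τ c • θ x) (f : V →ₗ[K] V) (f' : V' →ₗ[K] V')
    (hf : ∀ x, θ (f x) = f' (θ x)) : LinearMap.trace K V' f' = τ (LinearMap.trace K V f) := by
  classical
  have hθ' : ∀ (c : K) (x : V'), θ.symm (c • x) = τ.symm c • θ.symm x := by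
    intro c x
    apply θ.injective
    rw [hθ, AddEquiv.apply_symm_apply, RingEquiv.apply_symm_apply, AddEquiv.apply_symm_apply]
  let b := Module.finBasis K V
  let e : V' ≃ₗ[K] (Fin (finrank K V) → K) :=
    { toFun := fun x i => τ (b.equivFun (θ.symm x) i)
      invFun := fun w => θ (b.equivFun.symm fun i => τ.symm (w i))
      map_add' := fun x y => by
        funext i
        rw [map_add, map_add, Pi.add_apply, Pi.add_apply, map_add]
      map_smul' := fun c x => by
        funext i
        rw [hθ', map_smul, Pi.smul_apply, Pi.smul_apply, smul_eq_mul, smul_eq_mul, map_mul,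
          RingEquiv.apply_symm_apply, RingHom.id_apply]
      left_inv := fun x => by
        show θ (b.equivFun.symm fun i => τ.symm (τ (b.equivFun (θ.symm x) i))) = x
        have h1 : (fun i => τ.symm (τ (b.equivFun (θ.symm x) i))) = b.equivFun (θ.symm x) := by
          funext i
          exact τ.symm_apply_apply _
        rw [h1, LinearEquiv.symm_apply_apply, AddEquiv.apply_symm_apply]
      right_inv := fun w => by
        funext i
        show τ (b.equivFun (θ.symm (θ (b.equivFun.symm fun i => τ.symm (w i)))) i) = w i
        rw [AddEquiv.symm_apply_apply, LinearEquiv.apply_symm_apply, RingEquiv.apply_symm_apply] }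
  let b' : Basis (Fin (finrank K V)) K V' := Basis.ofEquivFun e
  have hb' : ∀ j, b' j = θ (b j) := by
    intro j
    apply e.injective
    have h1 : e (b' j) = Pi.single j 1 := by
      show e ((Basis.ofEquivFun e) j) = _
      rw [Basis.coe_ofEquivFun, LinearEquiv.apply_symm_apply]
    rw [h1]
    funext i
    show (Pi.single j 1 : Fin (finrank K V) → K) i = τ (b.equivFun (θ.symm (θ (b j))) i)
    rw [AddEquiv.symm_apply_apply, Basis.equivFun_self, Pi.single_apply]
    by_cases hij : i = j
    · subst hij
      simp
    · rw [if_neg hij, if_neg (fun h => hij h.symm), map_zero]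
  rw [LinearMap.trace_eq_matrix_trace K b', LinearMap.trace_eq_matrix_trace K b, Matrix.trace,
    Matrix.trace, map_sum]
  refine Finset.sum_congr rfl fun i _ => ?_
  rw [Matrix.diag_apply, Matrix.diag_apply, LinearMap.toMatrix_apply, LinearMap.toMatrix_apply,
    hb', ← hf]
  show e (θ (f (b i))) i = τ (b.repr (f (b i)) i)
  show τ (b.equivFun (θ.symm (θ (f (b i)))) i) = τ (b.repr (f (b i)) i)
  rw [AddEquiv.symm_apply_apply]
  rfl

end Pool.Agent.H76Q
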