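import Pool.Agent.Lib.H76Q.Q2

/-!
# the trace of the adjoint involution
-/

set_option autoImplicit false
set_option linter.unusedSectionVars false
namespace Pool.Agent.H76Q
open Module Matrix Polynomial TensorProduct Pool.Agent.H53Toric
open Pool.Agent.H76P
open Pool.Agent.H76T (IsIdeal Fam Lc)
open Pool.Agent.H76V (Cmp)
open Pool.Agent.H76U (cmp preL IsSplitting)
open Pool.Agent.H76RM (spanK similD)

/-- PROOF. `adjE J = phi ∘ adjL J ∘ phi⁻¹`, so the trace is the trace of `adjL J` (`LinearMap.trace_conj'`), which is (basis of the matrix units,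
`LinearMap.trace_eq_matrix_trace`) the sum over `k, l` of the entry `(k, l)` of `J⁻¹ * E_lk * J`, i.e. `∑ k, ∑ l, J⁻¹ k l * J k l = -∑ k, ∑ l, J⁻¹ k l * J l k = -trace 1`. -/
theorem tr_adj {K : Type*} [Field K] {κ : Type*} [Fintype κ] [DecidableEq κ] {J : Matrix κ κ K}
    (hJ : Jᵀ = -J) (hdet : IsUnit J.det) :
    LinearMap.trace K (Module.End K (κ → K)) (adjE J) = -(Fintype.card κ : K) := by
  have h1 : adjE J = (phi (ι := κ) (K := K)).toLinearEquiv.conj (adjL J) := rfl
  rw [h1, LinearMap.trace_conj', LinearMap.trace_eq_matrix_trace K (Matrix.stdBasis K κ κ), Matrix.trace,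
    Fintype.sum_prod_type]
  have h2 : ∀ (M : Matrix κ κ K) (k l : κ), (Matrix.stdBasis K κ κ).repr M (k, l) = M k l := by
    intro M k l
    rfl
  have h3 : ∀ k l : κ, (LinearMap.toMatrix (Matrix.stdBasis K κ κ) (Matrix.stdBasis K κ κ) (adjL J)).diag (k, l) =
      -(J⁻¹ k l * J l k) := by
    intro k l
    rw [Matrix.diag_apply, LinearMap.toMatrix_apply, h2, Matrix.stdBasis_eq_single, adjL_apply,
      Matrix.transpose_single, Matrix.mul_apply, Finset.sum_eq_single k]
    · rw [Matrix.mul_single_apply_same, mul_one]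
      have h4 : J k l = - J l k := by
        have := congrFun (congrFun hJ l) k
        rw [Matrix.transpose_apply] at this
        exact this
      rw [h4, mul_neg]
    · intro x _ hx
      rw [Matrix.mul_single_apply_of_ne, zero_mul]
      exact hx
    · intro h
      exact absurd (Finset.mem_univ k) h
  rw [Finset.sum_congr rfl fun k _ => Finset.sum_congr rfl fun l _ => h3 k l]
  have h5 : ∀ k, ∑ l, -(J⁻¹ k l * J l k) = -1 := by
    intro k
    rw [Finset.sum_neg_distrib, ← Matrix.mul_apply, Matrix.nonsing_inv_mul _ hdet, Matrix.one_apply_eq]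
  rw [Finset.sum_congr rfl fun k _ => h5 k, Finset.sum_const, Finset.card_univ]
  simp

end Pool.Agent.H76Q
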