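import Pool.Agent.Lib.H76Q.X4c
import Pool.Agent.Lib.H76Q.X3
import Pool.Agent.Lib.H76Q.C1
import Pool.Agent.Lib.H76Q.C2

/-!
# the product of the two traces
-/

set_option autoImplicit false
set_option linter.unusedSectionVars false
namespace Pool.Agent.H76Q
open Module Matrix Polynomial TensorProduct Pool.Agent.H53Toric
open Pool.Agent.H76P
open Pool.Agent.H76T (IsIdeal Fam Lc)
open Pool.Agent.H76V (Cmp)
open Pool.Agent.H76U (cmp preL IsSplitting)
open Pool.Agent.H76RM (spanK similD)

variable {κ : Type*} {K : Type*} [Field K] [CharZero K] [Fintype κ] [DecidableEq κ]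
  {L : Submodule K (Module.End K (κ → K))} {J : Matrix κ κ K} [IsAlgClosed K] [Nonempty κ]
  {Y : Submodule ℚ (κ → ℚ)} {P : Module.End ℚ Y}

theorem x5_trace {K V W : Type*} [Field K] [AddCommMonoid V] [Module K V] [Module.Free K V]
    [Module.Finite K V] [AddCommMonoid W] [Module K W] [Module.Free K W] [Module.Finite K W]
    (f : V →ₗ[K] V) (g : W →ₗ[K] W) : LinearMap.trace K (V ⊗[K] W) (TensorProduct.map f g) =
      LinearMap.trace K V f * LinearMap.trace K W g := by
  let i1 : AddCommGroup V := Module.addCommMonoidToAddCommGroup K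
  let i2 : AddCommGroup W := Module.addCommMonoidToAddCommGroup K
  exact LinearMap.trace_tensorProduct' f g

theorem x5_conj {K V W : Type*} [Field K] [AddCommMonoid V] [Module K V] [AddCommMonoid W]
    [Module K W] (f : V →ₗ[K] V) (e : V ≃ₗ[K] W) :
    LinearMap.trace K W (e.conj f) = LinearMap.trace K V f := by
  let i1 : AddCommGroup V := Module.addCommMonoidToAddCommGroup K
  let i2 : AddCommGroup W := Module.addCommMonoidToAddCommGroup K
  exact LinearMap.trace_conj' f e

/-- PROOF. `Φ` as in `az_tensor`.  `adjE J (a * b) = adjE J b * adjE J a = adjE J a * adjE J b` (`adjE_mul`, `AZ_comm`, `adj_AZ`), so `adjE J ∘ Φ = Φ ∘ (f ⊗ g)` (`TensorProduct.ext'`), and the trace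
of `adjE J` is the trace of `TensorProduct.map f g` (`LinearMap.trace_conj'`), i.e. the product (`LinearMap.trace_tensorProduct'`).  `tr_adj` with `h.cmp.Jt`, `h.cmp.Jd`. -/
theorem tr_prod (h : TS L J) (hY : Yo L = Y) (hP : Sp P) (hc : Comp L P)
    (f : AZ L P →ₗ[K] AZ L P) (hf : ∀ X : AZ L P, (f X : Module.End K (κ → K)) = adjE J X)
    (g : AZ L (1 - P) →ₗ[K] AZ L (1 - P))
    (hg : ∀ X : AZ L (1 - P), (g X : Module.End K (κ → K)) = adjE J X) :
    LinearMap.trace K (AZ L P) f * LinearMap.trace K (AZ L (1 - P)) g = -(Fintype.card κ : K) := by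
  obtain ⟨Φ, hΦ⟩ := az_tensor h hY hP hc
  have h1 : Φ.conj (TensorProduct.map f g) = adjE J := by
    have h2 : adjE J ∘ₗ Φ.toLinearMap = Φ.toLinearMap ∘ₗ TensorProduct.map f g := by
      refine TensorProduct.ext' fun a b => ?_
      show adjE J (Φ (a ⊗ₜ[K] b)) = Φ (TensorProduct.map f g (a ⊗ₜ[K] b))
      rw [TensorProduct.map_tmul, hΦ, hΦ, hf, hg, adjE_mul h.cmp.Jd]
      exact (AZ_comm h hY hP _ (adj_AZ h a.2) _ (adj_AZ h b.2)).symm
    refine LinearMap.ext fun X => ?_
    obtain ⟨y, rfl⟩ := Φ.surjective X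
    rw [LinearEquiv.conj_apply_apply, LinearEquiv.symm_apply_apply]
    exact (LinearMap.congr_fun h2 y).symm
  have f1 : Module.Free K (AZ L P) := by
    exact Module.Free.of_divisionRing K (AZ L P)
  have f2 : Module.Free K (AZ L (1 - P)) := by
    exact Module.Free.of_divisionRing K (AZ L (1 - P))
  rw [← x5_trace f g, ← x5_conj (TensorProduct.map f g) Φ, h1]
  exact tr_adj h.cmp.Jt h.cmp.Jd

end Pool.Agent.H76Q
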