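import Pool.Agent.Lib.H76Q.E1
import Pool.Agent.Lib.H76Q.Q4

/-!
# semilinear automorphisms which move a decomposition
-/

set_option autoImplicit false
set_option linter.unusedSectionVars false
namespace Pool.Agent.H76Q
open Module Matrix Polynomial TensorProduct Pool.Agent.H53Toric
open Pool.Agent.H76P
open Pool.Agent.H76T (IsIdeal Fam Lc)
open Pool.Agent.H76V (Cmp)
open Pool.Agent.H76U (cmp preL IsSplitting)
open Pool.Agent.H76RM (spanK similD)

variable {κ : Type*} {K : Type*} [Field K] [CharZero K] [Fintype κ] [DecidableEq κ]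
  {L : Submodule K (Module.End K (κ → K))} {J : Matrix κ κ K} [IsAlgClosed K] [Nonempty κ]
  {Y : Submodule ℚ (κ → ℚ)} {P : Module.End ℚ Y}

theorem x6_fwd {θ : Module.End K (κ → K) ≃+* Module.End K (κ → K)} {τ : K ≃+* K}
    {σ : Equiv.Perm κ} (hθ : Theta L J θ τ σ) (hY : Yo L = Y) {P P' : Module.End ℚ Y}
    (hmv : MvP σ P P') {X : Module.End K (κ → K)} (hX : X ∈ AZ L P) : θ X ∈ AZ L P' := by
  unfold H76Q.AZ at hX ⊢
  induction hX using Algebra.adjoin_induction with
  | mem X hX =>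
    obtain ⟨I, hI, hP, hXI⟩ := hX
    refine Algebra.subset_adjoin ⟨_, e1_ideal hθ hI, ?_, (H76T.mem_mv' (hθ := hθ.smul)).2 hXI⟩
    intro f hf hfI k k' hkk
    have h1 : dq (f ∘ σ) ∈ I := by
      have h2 := H76T.mem_mv.1 hfI
      rwa [← e1_dq hθ f, RingEquiv.symm_apply_apply] at h2
    have h3 : f ∘ σ ∈ Y := by
      rw [← hY]
      exact hθ.perm (hY ▸ hf)
    have h4 := hP (f ∘ σ) h3 h1 (σ.symm k) (σ.symm k') ((hmv.1 _ _).2 (by
      rwa [Equiv.apply_symm_apply, Equiv.apply_symm_apply]))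
    rwa [Function.comp_apply, Function.comp_apply, Equiv.apply_symm_apply, Equiv.apply_symm_apply] at h4
  | algebraMap r =>
    rw [Algebra.algebraMap_eq_smul_one, hθ.smul, map_one]
    exact Subalgebra.smul_mem _ (Subalgebra.one_mem _) _
  | add X X' _ _ h h' => rw [map_add]; exact Subalgebra.add_mem _ h h'
  | mul X X' _ _ h h' => rw [map_mul]; exact Subalgebra.mul_mem _ h h'

theorem x6_symm {θ : Module.End K (κ → K) ≃+* Module.End K (κ → K)} {τ : K ≃+* K}
    {σ : Equiv.Perm κ} (hθ : Theta L J θ τ σ) : Theta L J θ.symm τ.symm σ.symm := by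
  refine ⟨fun c X => ?_, fun g => ?_, fun X => ?_, fun X => ?_⟩
  · apply θ.injective
    rw [RingEquiv.apply_symm_apply, hθ.smul, RingEquiv.apply_symm_apply, RingEquiv.apply_symm_apply]
  · apply θ.injective
    rw [RingEquiv.apply_symm_apply, hθ.diag]
    congr 1
    funext k
    rw [RingEquiv.apply_symm_apply, Equiv.symm_symm, Equiv.apply_symm_apply]
  · rw [← hθ.mem, RingEquiv.apply_symm_apply]
  · apply θ.injective
    rw [RingEquiv.apply_symm_apply, hθ.adj, RingEquiv.apply_symm_apply]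

theorem x6_mv {σ : Equiv.Perm κ} {P P' : Module.End ℚ Y} (hmv : MvP σ P P') : MvP σ.symm P' P := by
  refine ⟨fun k k' => ?_, fun k k' => ?_⟩
  · rw [hmv.1, Equiv.apply_symm_apply, Equiv.apply_symm_apply]
  · rw [hmv.2, Equiv.apply_symm_apply, Equiv.apply_symm_apply]

/-- PROOF. As `Theta.AZ` (file E1): `θ` maps ideals of `L` to ideals of `L` (`e1_ideal`), and for `dq f ∈ θ I` we have `dq (f ∘ σ) ∈ I` (`Theta.diag`), `FunP P (f ∘ σ)`, so `FunP P' f` (`MvP`).  The converse: the same for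
`θ.symm` (or apply the first direction to `θ.symm`, `τ.symm`, `σ.symm`: first show that this is a `Theta`, too). -/
theorem theta_AZ_mv {θ : Module.End K (κ → K) ≃+* Module.End K (κ → K)} {τ : K ≃+* K}
    {σ : Equiv.Perm κ} (hθ : Theta L J θ τ σ) (hY : Yo L = Y) {P' : Module.End ℚ Y}
    (hmv : MvP σ P P') (X : Module.End K (κ → K)) : X ∈ AZ L P ↔ θ X ∈ AZ L P' := by
  refine ⟨fun hX => x6_fwd hθ hY hmv hX, fun hX => ?_⟩
  have h1 := x6_fwd (x6_symm hθ) hY (x6_mv hmv) hX
  rwa [RingEquiv.symm_apply_apply] at h1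

end Pool.Agent.H76Q
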