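import Pool.Agent.Lib.H76Q.X1
import Pool.Agent.Lib.H76Q.X2
import Pool.Agent.Lib.H76Q.X5
import Pool.Agent.Lib.H76Q.X6
import Pool.Agent.Lib.H76Q.C2

/-!
# no semilinear automorphism exchanges the two factors
-/

set_option autoImplicit false
set_option linter.unusedSectionVars false
namespace Pool.Agent.H76Q
open Module Matrix Polynomial TensorProduct Pool.Agent.H53Toric
open Pool.Agent.H76P
open Pool.Agent.H76T (IsIdeal Fam Lc)
open Pool.Agent.H76V (Cmp)
open Pool.Agent.H76U (cmp preL IsSplitting)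
open Pool.Agent.H76RM (spanK similD)

variable {κ : Type*} {K : Type*} [Field K] [CharZero K] [Fintype κ] [DecidableEq κ]
  {L : Submodule K (Module.End K (κ → K))} {J : Matrix κ κ K} [IsAlgClosed K] [Nonempty κ]
  {Y : Submodule ℚ (κ → ℚ)} {P : Module.End ℚ Y}

/-- PROOF. `f`, `g` = the restrictions of `adjE J` to `AZ L P`, `AZ L (1 - P)` (`adj_AZ`).  `f (f X) = X` (`adjE` is an involution because `Jᵀ = -J`; there is a lemma `adjE_adjE` or the like in H53Toric), so `trace f = t`,
`t` an integer (`tr_int`).  `θ` restricts to an additive bijection `AZ L P ≃+ AZ L (1 - P)` (`theta_AZ_mv`) which satisfies `θ (f X) = g (θ X)` (`Theta.adj`), so `trace g = τ t = t` (`tr_semi`).  `tr_prod`: `t * t = - card κ` in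
`K`, so in `ℤ`; but `card κ > 0`. -/
theorem no_swap (h : TS L J) (hY : Yo L = Y) (hP : Sp P) (hc : Comp L P)
    {θ : Module.End K (κ → K) ≃+* Module.End K (κ → K)} {τ : K ≃+* K}
    {σ : Equiv.Perm κ} (hθ : Theta L J θ τ σ) (hmv : MvP σ P (1 - P)) : False := by
  have hJJ : ∀ X : Module.End K (κ → K), adjE J (adjE J X) = X := fun X =>
    adjE_adjE h.cmp.Jt h.cmp.Jd X
  let f : AZ L P →ₗ[K] AZ L P :=
    { toFun := fun X => ⟨adjE J X, adj_AZ h X.2⟩
      map_add' := fun X X' => Subtype.ext (map_add (adjE J) _ _)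
      map_smul' := fun c X => Subtype.ext (map_smul (adjE J) c _) }
  let g : AZ L (1 - P) →ₗ[K] AZ L (1 - P) :=
    { toFun := fun X => ⟨adjE J X, adj_AZ h X.2⟩
      map_add' := fun X X' => Subtype.ext (map_add (adjE J) _ _)
      map_smul' := fun c X => Subtype.ext (map_smul (adjE J) c _) }
  let Θ : AZ L P ≃+ AZ L (1 - P) :=
    { toFun := fun X => ⟨θ X, (theta_AZ_mv hθ hY hmv _).1 X.2⟩
      invFun := fun X => ⟨θ.symm X, (theta_AZ_mv hθ hY hmv _).2 (by
        rw [RingEquiv.apply_symm_apply]; exact X.2)⟩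
      left_inv := fun X => Subtype.ext (θ.symm_apply_apply _)
      right_inv := fun X => Subtype.ext (θ.apply_symm_apply _)
      map_add' := fun X X' => Subtype.ext (map_add θ _ _) }
  have hsm : ∀ (c : K) (X : AZ L P), Θ (c • X) = τ c • Θ X := fun c X =>
    Subtype.ext (hθ.smul c (X : Module.End K (κ → K)))
  have hfg : ∀ X : AZ L P, Θ (f X) = g (Θ X) := fun X =>
    Subtype.ext (hθ.adj (X : Module.End K (κ → K)))
  have hff : ∀ X : AZ L P, f (f X) = X := fun X =>
    Subtype.ext (hJJ (X : Module.End K (κ → K)))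
  have h1 : LinearMap.trace K (AZ L (1 - P)) g = τ (LinearMap.trace K (AZ L P) f) :=
    tr_semi (V := AZ L P) (V' := AZ L (1 - P)) τ Θ hsm f g hfg
  obtain ⟨n, hn⟩ := tr_int (V := AZ L P) f hff
  have h2 := tr_prod h hY hP hc f (fun X => rfl) g (fun X => rfl)
  rw [h1, hn, map_intCast] at h2
  have h3 : ((n * n : ℤ) : K) = ((-(Fintype.card κ : ℤ) : ℤ) : K) := by
    push_cast
    exact h2
  have h4 : n * n = -(Fintype.card κ : ℤ) := Int.cast_injective h3
  have h5 : 0 < (Fintype.card κ : ℤ) := by exact_mod_cast Fintype.card_pos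
  nlinarith [mul_self_nonneg n]

end Pool.Agent.H76Q
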