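import Pool.Agent.Lib.H76Q.Q6
import Pool.Agent.Lib.H76Q.W13b
import Pool.Agent.Lib.H76Q.X9
import Pool.Agent.Lib.H76Q.X10
import Pool.Agent.Lib.H76Q.X11

/-!
# an odd cycle on the blocks
-/

set_option autoImplicit false
set_option linter.unusedSectionVars false
namespace Pool.Agent.H76Q
open Module Matrix Polynomial TensorProduct Pool.Agent.H53Toric
open Pool.Agent.H76P
open Pool.Agent.H76T (IsIdeal Fam Lc)
open Pool.Agent.H76V (Cmp)
open Pool.Agent.H76U (cmp preL IsSplitting)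
open Pool.Agent.H76RM (spanK similD)

variable {ι : Type*} [Fintype ι] [DecidableEq ι] {ψ : Matrix ι ι ℚ}
    {D : Subalgebra ℚ (Matrix ι ι ℚ)} {M : Type*} [Field M] [NumberField M]
    {m : ℕ} {e : Fin m → Matrix ι ι M} {G : Type*} [Group G]
    {ρ : ∀ (l : ℕ) [Fact l.Prime], G →* Matrix.GeneralLinearGroup ι ℚ_[l]}
    {p : ℕ} [Fact p.Prime] {σ : G} {q : ℚ} {f : ℚ[X]} {F : Fin m → M[X]}
    {φ μ ν : Matrix ι ι (AlgebraicClosure ℚ_[p])} {v : AlgebraicClosure ℚ_[p] → ℚ}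
    {Δ : Set (AlgebraicClosure ℚ_[p] ≃+* AlgebraicClosure ℚ_[p])}
    {Ω : Type*} [Field Ω] [CharZero Ω] [IsAlgClosed Ω] [Algebra.IsAlgebraic ℚ Ω] {j : M →+* Ω}
    {R : Finset Ω} {N : Set ℕ} (C : Core2 ψ D e ρ p σ q f F φ μ ν v Δ j R N)

include C


/-- PROOF. Suppose not.  `T₀` = the `a k` and the images under `j` of a basis of `M` over `ℚ`; `C.dec s T₀` gives an odd `u`, `l ∉ N` (so `l ≠ p`, `C.hN`), `i`, `t` with `t (i x) = i ((s ^ u) x)` on `T₀`, so for all `x = j c` (both sides are `ℚ`-linear in `c`).  `g` is injective on `FF`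
(`g10_ext`), so it induces a permutation `g'` of the finite type `{P // P ∈ FF}`, and `(g' ^ u) ^ n`, `n` odd, has no fixed points.  `exists_half (g' ^ u)` gives `T`; `half_sum` for `π ^ u` and `g^[u]` (`MvP (π ^ u) P (g^[u] P)` by induction) gives `T' ⊆ FF` with `MvP (π ^ u) z (1 - z)`,
`z` the sum over `T'`.  `sp_sum`, `comp_sum` (with `hFF.2.2`), `pr_pow` (`C.hspl`), `(s ^ u) (a k) = a ((π ^ u) k)`, `C.no_half`. -/
theorem Core2.odd (b : Fin m) {n : ℕ} {a : Fin n → Ω} (ha : Function.Injective a)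
    (hroot : ∀ y : Ω, (F b).eval₂ j y = 0 ↔ ∃ k, y = a k) (hn : 0 < n)
    {FF : Finset (Module.End ℚ (YS a))} (hFF : ∀ P ∈ FF, Sp P ∧ P ≠ 0 ∧ Good P)
    (horth : ∀ P ∈ FF, ∀ P' ∈ FF, P ≠ P' → P * P' = 0) (hsum : ∑ P ∈ FF, P = 1)
    {s : Ω ≃+* Ω} (hlink : Linked D ((e b).map j) ((e b).map (s.toRingHom.comp j)))
    {π : Equiv.Perm (Fin n)} (hπ : ∀ k, s (a k) = a (π k))
    (g : Module.End ℚ (YS a) → Module.End ℚ (YS a)) (hg : ∀ P ∈ FF, g P ∈ FF ∧ MvP π P (g P)) :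
    ∃ u : ℕ, Odd u ∧ ∃ P ∈ FF, g^[u] P = P := by
  classical
  by_contra hcon
  push Not at hcon
  have : Nonempty (Fin n) := ⟨⟨0, hn⟩⟩
  have h0 : ∀ f ∈ YS a, ∑ k, f k = 0 := fun f hf => hf.1
  have hSp : ∀ P ∈ FF, Sp P := fun P hP => (hFF P hP).1
  obtain ⟨T₀, hT₀⟩ : ∃ T₀ : Finset Ω, T₀ = Finset.univ.image a ∪ Finset.univ.image (fun i => j (Module.finBasis ℚ M i)) := ⟨_, rfl⟩
  obtain ⟨u, hu, l, hl, hlN, i, t, hit⟩ := C.dec s T₀
  have hlp : l ≠ p := fun h => hlN (h ▸ C.hN)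
  have ht1 : ∀ k, t (i (a k)) = i ((s ^ u) (a k)) := fun k => hit (a k) (by
    rw [hT₀, Finset.mem_union]
    exact Or.inl (Finset.mem_image_of_mem a (Finset.mem_univ k)))
  have ht2 : ∀ c : M, t (i (j c)) = i ((s ^ u) (j c)) := by
    intro c
    obtain ⟨f1, hf1⟩ : ∃ f1 : M →+* AlgebraicClosure ℚ_[l], ∀ x, f1 x = t (i (j x)) :=
      ⟨(t.toRingEquiv.toRingHom.comp i).comp j, fun _ => rfl⟩
    obtain ⟨f2, hf2⟩ : ∃ f2 : M →+* AlgebraicClosure ℚ_[l], ∀ x, f2 x = i ((s ^ u) (j x)) :=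
      ⟨(i.comp (s ^ u).toRingHom).comp j, fun _ => rfl⟩
    rw [← hf1, ← hf2]
    conv_lhs => rw [← (Module.finBasis ℚ M).sum_repr c]
    conv_rhs => rw [← (Module.finBasis ℚ M).sum_repr c]
    rw [map_sum, map_sum]
    refine Finset.sum_congr rfl fun x _ => ?_
    rw [map_rat_smul f1, map_rat_smul f2]
    congr 1
    rw [hf1, hf2]
    exact hit _ (by
      rw [hT₀, Finset.mem_union]
      exact Or.inr (Finset.mem_image_of_mem (fun i => j (Module.finBasis ℚ M i)) (Finset.mem_univ x)))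
  have hmem : ∀ (k : ℕ), ∀ P ∈ FF, g^[k] P ∈ FF ∧ MvP (π ^ k) P (g^[k] P) := by
    intro k
    induction k with
    | zero =>
      intro P hP
      exact ⟨hP, fun _ _ => Iff.rfl, fun _ _ => Iff.rfl⟩
    | succ k ih =>
      intro P hP
      obtain ⟨h1, h2⟩ := ih P hP
      obtain ⟨h3, h4⟩ := hg _ h1
      rw [Function.iterate_succ_apply', pow_succ']
      refine ⟨h3, fun x y => ?_, fun x y => ?_⟩
      · rw [h2.1 x y, h4.1 _ _]
        rfl
      · rw [h2.2 x y, h4.2 _ _]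
        rfl
  have hinj : ∀ P ∈ FF, ∀ P' ∈ FF, g P = g P' → P = P' := by
    intro P hP P' hP' h
    have h1 := (hg P hP).2
    have h2 := (hg P' hP').2
    rw [← h] at h2
    exact g10_ext h0 (hSp P hP) (hSp P' hP') (fun k k' => (h1.1 k k').trans (h2.1 k k').symm)
      fun k k' => (h1.2 k k').trans (h2.2 k k').symm
  let G' : {P // P ∈ FF} → {P // P ∈ FF} := fun P => ⟨g P.1, (hg P.1 P.2).1⟩
  have hG'inj : Function.Injective G' := fun P P' h => Subtype.ext (hinj P.1 P.2 P'.1 P'.2 (congrArg Subtype.val h))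
  obtain ⟨g', hg'⟩ : ∃ g' : Equiv.Perm {P // P ∈ FF}, ∀ P, (g' P).1 = g P.1 :=
    ⟨Equiv.ofBijective G' (Finite.injective_iff_bijective.1 hG'inj), fun _ => rfl⟩
  have hg'pow : ∀ (k : ℕ) (P : {P // P ∈ FF}), ((g' ^ k) P).1 = g^[k] P.1 := by
    intro k
    induction k with
    | zero => intro P; rfl
    | succ k ih =>
      intro P
      rw [Function.iterate_succ_apply', pow_succ', Equiv.Perm.mul_apply, hg', ih]
  obtain ⟨T, hT⟩ := exists_half (g' ^ u) fun k hk x hx => by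
    rw [← pow_mul] at hx
    have h1 := congrArg Subtype.val hx
    rw [hg'pow] at h1
    exact hcon (u * k) (hu.mul hk) x.1 x.2 h1
  obtain ⟨T', hT', hmv⟩ := half_sum (T := {P | ∃ h : P ∈ FF, (⟨P, h⟩ : {P // P ∈ FF}) ∈ T}) h0 hSp horth hsum (g^[u]) (hmem u) (by
    intro P hP
    have h1 := hT ⟨P, hP⟩
    have h2 : (g' ^ u) ⟨P, hP⟩ = ⟨g^[u] P, (hmem u P hP).1⟩ := Subtype.ext (hg'pow u ⟨P, hP⟩)
    rw [h2] at h1
    constructor
    · rintro ⟨_, h3⟩ ⟨_, h4⟩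
      exact h1.1 h3 h4
    · intro h3
      exact ⟨(hmem u P hP).1, h1.2 fun h4 => h3 ⟨hP, h4⟩⟩)
  have hπ' : ∀ (m : ℕ) (k), (s ^ m) (a k) = a ((π ^ m) k) := by
    intro m
    induction m with
    | zero => intro k; rfl
    | succ m ih =>
      intro k
      rw [pow_succ', pow_succ', Equiv.Perm.mul_apply, ← hπ, ← ih]
      rfl
  exact C.no_half b ha hroot (sp_sum h0 hSp horth hT')
    (fun K _ _ _ L J h1 h2 => comp_sum h0 hSp horth hT' fun P hP => (hFF P hP).2.2 K L J h1 h2)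
    (pr_pow C.hspl j s b hlink u) (hπ' u) hmv l hlp i t ht1 ht2

end Pool.Agent.H76Q
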