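import Pool.Agent.Lib.H76Q.Q6
import Pool.Agent.Lib.H76Q.W2

/-!
# linked idempotents
-/

set_option autoImplicit false
set_option linter.unusedSectionVars false
namespace Pool.Agent.H76Q
open Module Matrix Polynomial Pool.Agent.H53Toric
open Pool.Agent.H76P
open Pool.Agent.H76T (IsIdeal Fam Lc)
open Pool.Agent.H76V (Cmp)
open Pool.Agent.H76U (cmp preL IsSplitting)
open Pool.Agent.H76RM (spanK similD)

variable {ι : Type*} [Fintype ι] [DecidableEq ι] {ψ : Matrix ι ι ℚ}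
    {D : Subalgebra ℚ (Matrix ι ι ℚ)} {M : Type*} [Field M] [NumberField M]
    {m : ℕ} {e : Fin m → Matrix ι ι M} {G : Type*} [Group G]
    {ρ : ∀ (l : ℕ) [Fact l.Prime], G →* Matrix.GeneralLinearGroup ι ℚ_[l]}
    {p : ℕ} [Fact p.Prime] {σ : G} {q : ℚ} {f : ℚ[X]} {F : Fin m → M[X]}
    {φ μ ν : Matrix ι ι (AlgebraicClosure ℚ_[p])} {v : AlgebraicClosure ℚ_[p] → ℚ}
    {Δ : Set (AlgebraicClosure ℚ_[p] ≃+* AlgebraicClosure ℚ_[p])}
    {Ω : Type*} [Field Ω] [CharZero Ω] [IsAlgClosed Ω] [Algebra.IsAlgebraic ℚ Ω] {j : M →+* Ω}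
    {R : Finset Ω} {N : Set ℕ} (C : Core2 ψ D e ρ p σ q f F φ μ ν v Δ j R N)

include C

theorem Core2.w8_lin (s : G) : ∀ d ∈ D, (ρ p s).1.map (algebraMap ℚ_[p] (AlgebraicClosure ℚ_[p])) *
    d.map (algebraMap ℚ (AlgebraicClosure ℚ_[p])) =
      d.map (algebraMap ℚ (AlgebraicClosure ℚ_[p])) *
        (ρ p s).1.map (algebraMap ℚ_[p] (AlgebraicClosure ℚ_[p])) := by
  intro d hd
  have h1 := congrArg (fun m : Matrix ι ι ℚ_[p] =>
    m.map (algebraMap ℚ_[p] (AlgebraicClosure ℚ_[p]))) (C.lin p s d hd)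
  have h2 : (d.map (algebraMap ℚ ℚ_[p])).map (algebraMap ℚ_[p] (AlgebraicClosure ℚ_[p])) =
      d.map (algebraMap ℚ (AlgebraicClosure ℚ_[p])) := by
    ext i j
    simp
  simp only [Matrix.map_mul] at h1
  rw [h2] at h1
  exact h1

theorem Core2.w8_img (H : Subgroup G) {s : Matrix ι ι (AlgebraicClosure ℚ_[p])}
    (hs : s ∈ img (AlgebraicClosure ℚ_[p]) (ρ p) H) {d : Matrix ι ι (AlgebraicClosure ℚ_[p])}
    (hd : d ∈ spanK (AlgebraicClosure ℚ_[p]) D) : s * d = d * s := by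
  obtain ⟨g, -, rfl⟩ := hs
  exact H76RM.comm_span (C.w8_lin g) d hd

theorem Core2.w8_phi {d : Matrix ι ι (AlgebraicClosure ℚ_[p])}
    (hd : d ∈ spanK (AlgebraicClosure ℚ_[p]) D) : φ * d = d * φ :=
  H76RM.zar_commute (fun _ hs => C.w8_img ⊤ hs hd) (C.frobp.idc.2 ⊤ inferInstance)

theorem Core2.w8_mu {d : Matrix ι ι (AlgebraicClosure ℚ_[p])}
    (hd : d ∈ spanK (AlgebraicClosure ℚ_[p]) D) : μ * d = d * μ := by
  have h1 := C.crys.mu.1.2 2 two_ne_zero
  have h2 := H76RM.zar_commute (fun _ hs => C.w8_img ⊤ hs hd) h1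
  rw [add_mul, mul_add, one_mul, mul_one, smul_mul_assoc, mul_smul_comm] at h2
  have h3 := add_left_cancel h2
  have h4 : ((2 : AlgebraicClosure ℚ_[p]) - 1) = 1 := by norm_num
  rwa [h4, one_smul, one_smul] at h3

/-- The operator `E' d` is injective on the range of `e`. -/
theorem Core2.w8_key (b : Fin m) {n : ℕ} {a : Fin n → Ω} (ha : Function.Injective a)
    (hroot : ∀ y : Ω, (F b).eval₂ j y = 0 ↔ ∃ k, y = a k) (i : Ω →+* AlgebraicClosure ℚ_[p])
    {T : Matrix ι ι (AlgebraicClosure ℚ_[p])}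
    (hT : ∀ A : Matrix ι ι (AlgebraicClosure ℚ_[p]),
      (∀ d ∈ spanK (AlgebraicClosure ℚ_[p]) D, A * d = d * A) → A * T = T * A)
    (hne : T * (e b).map (i.comp j) ≠ 0) {z : ι → AlgebraicClosure ℚ_[p]}
    (hz0 : z ≠ 0) (hz : (e b).map (i.comp j) *ᵥ z = z) : T *ᵥ z ≠ 0 := by
  obtain ⟨H₀, U, V, hfin, h⟩ := C.locp b ha hroot i
  have hE : (e b).map (i.comp j) ∈ spanK (AlgebraicClosure ℚ_[p]) D :=
    H76U.spanK_map (i.comp j) (C.hspl.mem b)
  have h1S : (1 : Matrix ι ι (AlgebraicClosure ℚ_[p])) ∈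
      img (AlgebraicClosure ℚ_[p]) (ρ p) H₀ := by
    refine ⟨1, H₀.one_mem, ?_⟩
    rw [map_one]
    simp
  set W : Submodule (AlgebraicClosure ℚ_[p]) (Fin n → AlgebraicClosure ℚ_[p]) :=
    LinearMap.ker (Matrix.mulVecLin (T * U)) with hW
  have hmem : ∀ w, w ∈ W ↔ (T * U) *ᵥ w = 0 := fun w => by
    rw [hW, LinearMap.mem_ker, Matrix.mulVecLin_apply]
  have hirr := h.ts.cmp.irr W (by
    intro X hX w hw
    rw [hmem] at hw ⊢
    obtain ⟨_, ⟨A, hA, rfl⟩, hX2⟩ := hX.1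
    rw [← hX2]
    have hcomm : ∀ d ∈ spanK (AlgebraicClosure ℚ_[p]) D, A * d = d * A := fun d hd =>
      H76U.preL_commute h1S (fun s hs => C.w8_img H₀ hs hd) hA
    show (T * U) *ᵥ ((cmp U V A) *ᵥ w) = 0
    rw [Matrix.mulVec_mulVec, Matrix.mul_assoc, H76U.P_cmp h.UV h.VU (hcomm _ hE),
      ← Matrix.mul_assoc, ← hT A hcomm, Matrix.mul_assoc, ← Matrix.mulVec_mulVec, hw,
      Matrix.mulVec_zero])
  rcases hirr with h1 | h1
  · intro h2
    have h3 : V *ᵥ z ∈ W := by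
      rw [hmem, Matrix.mulVec_mulVec, Matrix.mul_assoc, ← h.UV, ← Matrix.mulVec_mulVec, hz, h2]
    rw [h1, Submodule.mem_bot] at h3
    apply hz0
    rw [← hz, h.UV, ← Matrix.mulVec_mulVec, h3, Matrix.mulVec_zero]
  · exfalso
    apply hne
    have h2 : T * U = 0 := by
      ext x y
      have h3 : Pi.single y (1 : AlgebraicClosure ℚ_[p]) ∈ W := by rw [h1]; exact Submodule.mem_top
      rw [hmem, Matrix.mulVec_single_one] at h3
      exact congrFun h3 x
    rw [h.UV, ← Matrix.mul_assoc, h2, Matrix.zero_mul]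

/-- Transport of eigenvectors. -/
theorem Core2.w8_vec (b : Fin m) {n : ℕ} {a : Fin n → Ω} (ha : Function.Injective a)
    (hroot : ∀ y : Ω, (F b).eval₂ j y = 0 ↔ ∃ k, y = a k) {s : Ω ≃+* Ω}
    (hlink : Linked D ((e b).map j) ((e b).map (s.toRingHom.comp j)))
    (i : Ω →+* AlgebraicClosure ℚ_[p]) : ∃ T : Matrix ι ι (AlgebraicClosure ℚ_[p]),
      φ * T = T * φ ∧ μ * T = T * μ ∧
      (∀ z, (e b).map ((i.comp s.symm.toRingHom).comp j) *ᵥ (T *ᵥ z) = T *ᵥ z) ∧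
      ∀ z, z ≠ 0 → (e b).map (i.comp j) *ᵥ z = z → T *ᵥ z ≠ 0 := by
  obtain ⟨d, hd, hne⟩ := hlink
  set i' : Ω →+* AlgebraicClosure ℚ_[p] := i.comp s.symm.toRingHom with hi'
  set E' := (e b).map (i'.comp j) with hE'
  have hE : E' ∈ spanK (AlgebraicClosure ℚ_[p]) D := H76U.spanK_map (i'.comp j) (C.hspl.mem b)
  have hd' : d.map i' ∈ spanK (AlgebraicClosure ℚ_[p]) D := H76U.spanK_map i' hd
  have hEE : E' * E' = E' := by
    rw [hE', ← H76U.map_mul', C.hspl.idem]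
  have hT : ∀ A : Matrix ι ι (AlgebraicClosure ℚ_[p]),
      (∀ d ∈ spanK (AlgebraicClosure ℚ_[p]) D, A * d = d * A) →
        A * (E' * d.map i') = E' * d.map i' * A := by
    intro A hA
    rw [← Matrix.mul_assoc, hA _ hE, Matrix.mul_assoc, hA _ hd', Matrix.mul_assoc]
  refine ⟨E' * d.map i', hT _ fun d hd => C.w8_phi hd, hT _ fun d hd => C.w8_mu hd, ?_, ?_⟩
  · intro z
    rw [Matrix.mulVec_mulVec, ← Matrix.mul_assoc, hEE]
  · intro z hz0 hz
    refine C.w8_key b ha hroot i hT ?_ hz0 hz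
    have h1 : E' = ((e b).map j).map i' := by
      ext x y
      rfl
    have h2 : (e b).map (i.comp j) = ((e b).map (s.toRingHom.comp j)).map i' := by
      ext x y
      simp [hi']
    rw [h1, h2, ← H76U.map_mul', ← H76U.map_mul']
    intro h3
    apply hne
    ext x y
    have h4 := congrFun (congrFun h3 x) y
    rw [Matrix.map_apply, Matrix.zero_apply] at h4
    rw [Matrix.zero_apply]
    exact (map_eq_zero i').1 h4

/-- PROOF. `E = (e b).map (i.comp j)`, `E' = (e b).map ((i.comp s⁻¹).comp j)`.  Apply `i ∘ s⁻¹` to `hlink`: `E' * d * E ≠ 0` for some `d` in the span of `D` over the closure.  The map `z ↦ E' (d z)` from the range of `E`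
to the range of `E'` is not zero and commutes with `φ`, `μ` and `zlie S` (they commute with `D`).  Its kernel is stable under `zlie S`, so zero (`Core2.locp` for `i`: `h.ts.cmp.irr`).  So eigenvectors go to eigenvectors.  `hperm`: a root `y` of `F b` gives
(`C.frobp.eig`) an eigenvalue `i y` of `φ` on the range of `E`, so on the range of `E'`, so `eval₂ (i s⁻¹ j) (i y) = 0`, i.e. `s y` is a root; `s` permutes the finite set of roots.  `IsHT` for `i s⁻¹`: the eigenvalue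
`i s⁻¹ (a (π k)) = i (a k)`. -/
theorem Core2.linked (b : Fin m)
    {n : ℕ} {a : Fin n → Ω} (ha : Function.Injective a)
    (hroot : ∀ y : Ω, (F b).eval₂ j y = 0 ↔ ∃ k, y = a k)
    {s : Ω ≃+* Ω} (hlink : Linked D ((e b).map j) ((e b).map (s.toRingHom.comp j))) :
    ∃ π : Equiv.Perm (Fin n), (∀ k, s (a k) = a (π k)) ∧
      ∀ (i : Ω →+* AlgebraicClosure ℚ_[p]) (ε : Fin n → ℚ),
        IsHT μ φ ((e b).map (i.comp j)) (fun k => i (a k)) ε →
        IsHT μ φ ((e b).map ((i.comp s.symm.toRingHom).comp j))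
          (fun k => i.comp s.symm.toRingHom (a k)) (fun k => ε (π.symm k)) := by
  have hmap : ∀ k, ∃ k', s (a k) = a k' := by
    intro k
    let i : Ω →+* AlgebraicClosure ℚ_[p] :=
      (IsAlgClosed.lift (R := ℚ) (S := Ω) (M := AlgebraicClosure ℚ_[p])).toRingHom
    obtain ⟨T, hTφ, -, hTE, hT0⟩ := C.w8_vec b ha hroot hlink i
    have h1 : (F b).eval₂ (i.comp j) (i (a k)) = 0 := by
      rw [← Polynomial.hom_eval₂, (hroot _).2 ⟨k, rfl⟩, map_zero]
    obtain ⟨z, hz0, hz, hφz⟩ := (C.frobp.eig (i.comp j) b (i (a k))).2 h1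
    have h2 : (F b).eval₂ ((i.comp s.symm.toRingHom).comp j) (i (a k)) = 0 := by
      apply (C.frobp.eig ((i.comp s.symm.toRingHom).comp j) b (i (a k))).1
      refine ⟨T *ᵥ z, hT0 z hz0 hz, hTE z, ?_⟩
      rw [Matrix.mulVec_mulVec, hTφ, ← Matrix.mulVec_mulVec, hφz, Matrix.mulVec_smul]
    have h3 : i (a k) = (i.comp s.symm.toRingHom) (s (a k)) := by simp
    rw [h3, ← Polynomial.hom_eval₂, map_eq_zero] at h2
    exact (hroot _).1 h2
  choose g hg using hmap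
  have hginj : Function.Injective g := by
    intro k k' hkk
    apply ha
    apply s.injective
    rw [hg, hg, hkk]
  let π : Equiv.Perm (Fin n) := Equiv.ofBijective g (Finite.injective_iff_bijective.1 hginj)
  refine ⟨π, hg, ?_⟩
  intro i ε hε k
  obtain ⟨T, hTφ, hTμ, hTE, hT0⟩ := C.w8_vec b ha hroot hlink i
  set k₀ := π.symm k with hk₀
  have hk : π k₀ = k := by rw [hk₀, Equiv.apply_symm_apply]
  have hval : (i.comp s.symm.toRingHom) (a k) = i (a k₀) := by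
    have h1 : s (a k₀) = a k := by
      rw [hg k₀, ← hk]
      rfl
    rw [← h1]
    simp
  rcases hε k₀ with ⟨h1, z, hz0, hz, hφz, hμz⟩ | ⟨h1, z, hz0, hz, hφz, hμz⟩
  · left
    refine ⟨h1, T *ᵥ z, hT0 z hz0 hz, hTE z, ?_, ?_⟩
    · show φ *ᵥ (T *ᵥ z) = ((i.comp s.symm.toRingHom) (a k)) • (T *ᵥ z)
      rw [hval, Matrix.mulVec_mulVec, hTφ, ← Matrix.mulVec_mulVec, hφz, Matrix.mulVec_smul]
    · rw [Matrix.mulVec_mulVec, hTμ, ← Matrix.mulVec_mulVec, hμz]
  · right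
    refine ⟨h1, T *ᵥ z, hT0 z hz0 hz, hTE z, ?_, ?_⟩
    · show φ *ᵥ (T *ᵥ z) = ((i.comp s.symm.toRingHom) (a k)) • (T *ᵥ z)
      rw [hval, Matrix.mulVec_mulVec, hTφ, ← Matrix.mulVec_mulVec, hφz, Matrix.mulVec_smul]
    · rw [Matrix.mulVec_mulVec, hTμ, ← Matrix.mulVec_mulVec, hμz, Matrix.mulVec_zero]

end Pool.Agent.H76Q
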