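import Pool.Agent.Lib.H76Q.Q6
import Pool.Agent.Lib.H76Q.W6
import Pool.Agent.Lib.H76Q.W7
import Pool.Agent.Lib.H76Q.W8
import Pool.Agent.Lib.H76Q.B1
import Pool.Agent.Lib.H76Q.A2

/-!
# the numbers of blocks
-/

set_option autoImplicit false
set_option linter.unusedSectionVars false
namespace Pool.Agent.H76Q
open Module Matrix Polynomial Pool.Agent.H53Toric
open Pool.Agent.H76P
open Pool.Agent.H76T (IsIdeal Fam Lc)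
open Pool.Agent.H76V (Cmp)
open Pool.Agent.H76U (cmp preL IsSplitting)
open Pool.Agent.H76RM (spanK similD)

variable {ι : Type*} [Fintype ι] [DecidableEq ι] {ψ : Matrix ι ι ℚ}
    {D : Subalgebra ℚ (Matrix ι ι ℚ)} {M : Type*} [Field M] [NumberField M]
    {m : ℕ} {e : Fin m → Matrix ι ι M} {G : Type*} [Group G]
    {ρ : ∀ (l : ℕ) [Fact l.Prime], G →* Matrix.GeneralLinearGroup ι ℚ_[l]}
    {p : ℕ} [Fact p.Prime] {σ : G} {q : ℚ} {f : ℚ[X]} {F : Fin m → M[X]}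
    {φ μ ν : Matrix ι ι (AlgebraicClosure ℚ_[p])} {v : AlgebraicClosure ℚ_[p] → ℚ}
    {Δ : Set (AlgebraicClosure ℚ_[p] ≃+* AlgebraicClosure ℚ_[p])}
    {Ω : Type*} [Field Ω] [CharZero Ω] [IsAlgClosed Ω] [Algebra.IsAlgebraic ℚ Ω] {j : M →+* Ω}
    {R : Finset Ω} {N : Set ℕ} (C : Core2 ψ D e ρ p σ q f F φ μ ν v Δ j R N)

include C

omit C in
theorem w9_exists_i (p : ℕ) [Fact p.Prime] (Ω : Type*) [Field Ω] [CharZero Ω] [IsAlgClosed Ω]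
    [Algebra.IsAlgebraic ℚ Ω] : Nonempty (Ω →+* AlgebraicClosure ℚ_[p]) := by
  exact ⟨(IsAlgClosed.lift (R := ℚ) (S := Ω) (M := AlgebraicClosure ℚ_[p])).toRingHom⟩

theorem Core2.w9_i (b : Fin m) {r : Ω} (hr : r ∈ R) :
    ∃ i : Ω →+* AlgebraicClosure ℚ_[p], v (i r) = 1 := by
  obtain ⟨i₀⟩ := w9_exists_i p Ω
  obtain ⟨r₀, hr₀, h1, -⟩ := C.Rval i₀
  obtain ⟨s, hs⟩ := C.Rtrans r hr r₀ hr₀
  refine ⟨i₀.comp s.toRingHom, ?_⟩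
  show v (i₀ (s r)) = 1
  rw [hs, h1]

theorem Core2.w9_uniq {r r' : Ω} (hr : r ∈ R) (hr' : r' ∈ R)
    (i : Ω →+* AlgebraicClosure ℚ_[p]) (h : v (i r) = 1) (h' : v (i r') = 1) : r = r' := by
  obtain ⟨r₁, -, -, h2⟩ := C.Rval i
  have h3 : ∀ x ∈ R, v (i x) = 1 → x = r₁ := by
    intro x hx hv
    by_contra hne
    rw [h2 x hx hne] at hv
    exact zero_ne_one hv
  rw [h3 r hr h, h3 r' hr' h']

theorem Core2.w9_HT (b : Fin m) {n : ℕ} {a : Fin n → Ω} (ha : Function.Injective a)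
    (hroot : ∀ y : Ω, (F b).eval₂ j y = 0 ↔ ∃ k, y = a k) (i : Ω →+* AlgebraicClosure ℚ_[p]) :
    0 < n ∧ ∃ ε : Fin n → ℚ, IsHT μ φ ((e b).map (i.comp j)) (fun k => i (a k)) ε ∧
      ε ∈ YS a ∧ (∀ k, ε k = 1 ∨ ε k = -1) ∧
      ∀ P : Module.End ℚ (YS a), Good P → FunP P ε ∨ FunP (1 - P) ε := by
  obtain ⟨H₀, U, V, -, hloc⟩ := C.locp b ha hroot i
  obtain ⟨ε, hε⟩ := exists_HT hloc C.crys.mu C.crys.muphi
  obtain ⟨-, h2, h3⟩ := HT_spec hloc C.crys.mu C.crys.muphi hε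
  refine ⟨hloc.pos, ε, hε, h2, h3, fun P hP => ?_⟩
  exact HT_or hloc C.crys.mu C.crys.muphi hε
    (hP (AlgebraicClosure ℚ_[p]) _ _ hloc.ts hloc.yo)

theorem Core2.types2 (b : Fin m)
    {n : ℕ} {a : Fin n → Ω} (ha : Function.Injective a)
    (hroot : ∀ y : Ω, (F b).eval₂ j y = 0 ↔ ∃ k, y = a k)
    {FF : Finset (Module.End ℚ (YS a))} (hFF : ∀ P ∈ FF, Sp P ∧ P ≠ 0 ∧ Good P)
    (horth : ∀ P ∈ FF, ∀ P' ∈ FF, P ≠ P' → P * P' = 0) (hsum : ∑ P ∈ FF, P = 1)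
    (hperm : ∀ π : Equiv.Perm (Fin n), (∀ g ∈ YS a, g ∘ π ∈ YS a) → ∀ P ∈ FF,
      ∃ P' ∈ FF, MvP π P P') :
    ∃ RP : Module.End ℚ (YS a) → Finset Ω, (∀ P ∈ FF, RP P ⊆ R ∧ (RP P).Nonempty) ∧
      (∀ r ∈ R, ∃ P ∈ FF, r ∈ RP P) ∧
      (∀ P ∈ FF, ∀ P' ∈ FF, ∀ r, r ∈ RP P → r ∈ RP P' → P = P') ∧
      ∀ s : Ω ≃+* Ω, Linked D ((e b).map j) ((e b).map (s.toRingHom.comp j)) →
        ∃ π : Equiv.Perm (Fin n), (∀ k, s (a k) = a (π k)) ∧ (∀ g ∈ YS a, g ∘ π ∈ YS a) ∧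
          ∀ P ∈ FF, ∃ P' ∈ FF, MvP π P P' ∧ ∀ r ∈ RP P, s r ∈ RP P' := by
  classical
  have hSum : ∀ g ∈ YS a, ∑ k, g k = 0 := fun g hg => hg.1
  have h1 : ∀ P : Module.End ℚ (YS a), ∃ RP : Finset Ω, P ∈ FF → (RP ⊆ R ∧
      ∀ (i : Ω →+* AlgebraicClosure ℚ_[p]) (ε : Fin n → ℚ),
        IsHT μ φ ((e b).map (i.comp j)) (fun k => i (a k)) ε →
          (FunP P ε ↔ ∃ r ∈ RP, v (i r) = 1)) := by
    intro P
    by_cases hP : P ∈ FF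
    · obtain ⟨RP, h2, h3⟩ := C.ht_iff b ha hroot (hFF P hP).1 (hFF P hP).2.2
      exact ⟨RP, fun _ => ⟨h2, h3⟩⟩
    · exact ⟨∅, fun h => absurd h hP⟩
  choose RP hRP using h1
  have hK : ∀ P ∈ FF, ∀ r ∈ R, ∀ (i : Ω →+* AlgebraicClosure ℚ_[p]) (ε : Fin n → ℚ),
      v (i r) = 1 → IsHT μ φ ((e b).map (i.comp j)) (fun k => i (a k)) ε →
        (FunP P ε ↔ r ∈ RP P) := by
    intro P hP r hr i ε hv hε
    rw [(hRP P hP).2 i ε hε]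
    constructor
    · rintro ⟨r', hr', hv'⟩
      rw [C.w9_uniq hr ((hRP P hP).1 hr') i hv hv']
      exact hr'
    · intro h
      exact ⟨r, h, hv⟩
  have hdisj : ∀ P ∈ FF, ∀ P' ∈ FF, ∀ r, r ∈ RP P → r ∈ RP P' → P = P' := by
    intro P hP P' hP' r hr hr'
    by_contra hne
    have hrR := (hRP P hP).1 hr
    obtain ⟨i, hi⟩ := C.w9_i b hrR
    obtain ⟨hn, ε, hε, hεY, hε1, -⟩ := C.w9_HT b ha hroot i
    haveI : Nonempty (Fin n) := ⟨⟨0, hn⟩⟩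
    have h2 := (hK P hP r hrR i ε hi hε).2 hr
    have h3 := (hK P' hP' r hrR i ε hi hε).2 hr'
    have h4 : P ⟨ε, hεY⟩ = ⟨ε, hεY⟩ := (FunP_iff (hFF P hP).1 hSum ⟨ε, hεY⟩).1 h2
    have h5 : P' ⟨ε, hεY⟩ = ⟨ε, hεY⟩ := (FunP_iff (hFF P' hP').1 hSum ⟨ε, hεY⟩).1 h3
    have h6 : (P * P') ⟨ε, hεY⟩ = ⟨ε, hεY⟩ := by
      show P (P' ⟨ε, hεY⟩) = ⟨ε, hεY⟩
      rw [h5, h4]
    rw [horth P hP P' hP' hne] at h6
    have h7 : (0 : Fin n → ℚ) = ε := congrArg Subtype.val h6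
    have h8 := congrFun h7 ⟨0, hn⟩
    rcases hε1 ⟨0, hn⟩ with h9 | h9 <;> rw [h9] at h8 <;> simp at h8
  have hnon : ∀ P ∈ FF, (RP P).Nonempty := by
    intro P hP
    obtain ⟨i, ε, h2, h3⟩ := C.onto b ha hroot (hFF P hP).1 (hFF P hP).2.2 (hFF P hP).2.1
    obtain ⟨r, hr, -⟩ := ((hRP P hP).2 i ε h2).1 h3
    exact ⟨r, hr⟩
  refine ⟨RP, fun P hP => ⟨(hRP P hP).1, hnon P hP⟩, ?_, hdisj, ?_⟩
  · intro r hr
    obtain ⟨i, hi⟩ := C.w9_i b hr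
    obtain ⟨hn, ε, hε, hεY, hε1, hor⟩ := C.w9_HT b ha hroot i
    haveI : Nonempty (Fin n) := ⟨⟨0, hn⟩⟩
    have h2 : ∃ P ∈ FF, P ⟨ε, hεY⟩ ≠ 0 := by
      by_contra hcon
      push Not at hcon
      have h3 : (∑ P ∈ FF, P) ⟨ε, hεY⟩ = 0 := by
        rw [LinearMap.sum_apply]
        exact Finset.sum_eq_zero hcon
      rw [hsum] at h3
      have h7 : ε = (0 : Fin n → ℚ) := congrArg Subtype.val h3
      have h8 := congrFun h7 ⟨0, hn⟩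
      rcases hε1 ⟨0, hn⟩ with h9 | h9 <;> rw [h9] at h8 <;> simp at h8
    obtain ⟨P, hP, hPε⟩ := h2
    refine ⟨P, hP, (hK P hP r hr i ε hi hε).1 ?_⟩
    rcases hor P (hFF P hP).2.2 with h3 | h3
    · exact h3
    · exfalso
      have h4 := (FunP_iff (hFF P hP).1.compl hSum ⟨ε, hεY⟩).1 h3
      apply hPε
      have h5 : (⟨ε, hεY⟩ : YS a) - P ⟨ε, hεY⟩ = ⟨ε, hεY⟩ := h4
      rwa [sub_eq_self] at h5
  · intro s hlink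
    obtain ⟨π, hπ, hπ2⟩ := C.linked b ha hroot hlink
    have hY : ∀ g ∈ YS a, g ∘ π ∈ YS a := fun g hg =>
      YS_perm (s := s.toRingHom) (fun k => (hπ k).symm) hg
    refine ⟨π, hπ, hY, fun P hP => ?_⟩
    obtain ⟨P'', hP'', hmv⟩ := hperm π hY P hP
    refine ⟨P'', hP'', hmv, ?_⟩
    intro r₁ hr₁
    have hr₁R := (hRP P hP).1 hr₁
    obtain ⟨i, hi⟩ := C.w9_i b hr₁R
    obtain ⟨hn, ε, hε, hεY, hε1, hor⟩ := C.w9_HT b ha hroot i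
    have h2 := (hK P hP r₁ hr₁R i ε hi hε).2 hr₁
    have h3 := hπ2 i ε hε
    refine (hK P'' hP'' (s r₁) (C.Rstab s r₁ hr₁R) (i.comp s.symm.toRingHom) _ ?_ h3).1 ?_
    · show v (i (s.symm (s r₁))) = 1
      rw [s.symm_apply_apply, hi]
    · intro k k' hk
      apply h2
      rw [hmv.1, π.apply_symm_apply, π.apply_symm_apply]
      exact hk

end Pool.Agent.H76Q
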