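import Pool.Agent.Lib.H76Q.Q4
import Pool.Agent.Lib.H76Q.G12
import Pool.Agent.Lib.H76P.G16

/-!
# the theorem
-/

set_option autoImplicit false
set_option linter.unusedSectionVars false
namespace Pool.Agent.H76Q
open Module Matrix Polynomial Pool.Agent.H53Toric
open Pool.Agent.H76P
open Pool.Agent.H76T (IsIdeal Fam Lc)
open Pool.Agent.H76V (Cmp)
open Pool.Agent.H76U (cmp preL IsSplitting)
open Pool.Agent.H76RM (spanK similD)

section
open Pool.Agent.H76U (IsSplitting split4_of Split4 idem_factor rank_idem_map tw preL cmp)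
open Pool.Agent.H76RM (van spanK similD Seed Setup Split comm_span split_of)
open Pool.Agent.H76T (rK rK_apply img_sub_inf nil_of_zar seed_of_fu monodromy_seed Lc AllIndep
  nroots full_other)
open Pool.Agent.H49M (idc)

variable {ι : Type*} [Fintype ι] [DecidableEq ι]
variable {L : Type*} [Field L] {K : Type*} [Field K] [Algebra L K] {G : Type*} [Group G]

theorem g13_lie [CharZero L] [CharZero K] [IsAlgClosed K] {ψ : Matrix ι ι ℚ}
    (hψ : ψᵀ = -ψ) (hψ0 : ψ.det ≠ 0) (D : Subalgebra ℚ (Matrix ι ι ℚ))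
    (ρ : G →* Matrix.GeneralLinearGroup ι L)
    (lin : ∀ σ : G, ∀ d ∈ D, (ρ σ).1 * d.map (algebraMap ℚ L) =
      d.map (algebraMap ℚ L) * (ρ σ).1)
    (sim : ∀ σ : G, ∃ c : L, (ρ σ).1ᵀ * ψ.map (algebraMap ℚ L) * (ρ σ).1 =
      c • ψ.map (algebraMap ℚ L))
    (semis : ∀ H : Subgroup G, H.FiniteIndex → ∀ W : Submodule K (ι → K),
      (∀ s ∈ img K ρ H, ∀ w ∈ W, s *ᵥ w ∈ W) →
      ∃ W' : Submodule K (ι → K), (∀ s ∈ img K ρ H, ∀ w ∈ W', s *ᵥ w ∈ W') ∧ IsCompl W W')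
    (commt : ∀ H : Subgroup G, H.FiniteIndex → ∀ y : Matrix ι ι K,
      (∀ s ∈ img K ρ H, y * s = s * y) → y ∈ spanK K D)
    {m : ℕ} {e : Fin m → Matrix ι ι K} (hspl : IsSplitting D ψ id e)
    (seed₀ : ∀ (H₀ : Subgroup G), H₀.FiniteIndex → (van (img K ρ H₀)).IsPrime → ∀ b : Fin m,
      Seed (om (ψ.map (algebraMap ℚ K))) (fun b => phi (e b))
        (lieE (ψ.map (algebraMap ℚ K)) (img K ρ H₀)) b) :
    ∃ H₀ : Subgroup G, H₀.FiniteIndex ∧ ∀ (b : Fin m) (u : ι → K), e b *ᵥ u = u →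
      ∃ X ∈ zlie (img K ρ H₀), (∀ d ∈ spanK K D, X * d = d * X) ∧
      (∀ z, X *ᵥ (e b *ᵥ z) = om (ψ.map (algebraMap ℚ K)) z u • u) ∧
      ∀ c, c ≠ b → X * e c = 0 := by
  classical
  obtain ⟨H₀, -, hfin, hprime⟩ := H76RM.exists_prime (K := K) ρ ⊤ inferInstance
  refine ⟨H₀, hfin, ?_⟩
  intro b u hu
  have seed := fun b => seed₀ H₀ hfin hprime b
  obtain ⟨hJ, hdet⟩ := gram_basic hψ hψ0 K
  have hsplR : H76RM.IsSplitting D ψ e :=
    ⟨hspl.mem, hspl.idem, hspl.adj, hspl.corner, hspl.orth, hspl.full⟩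
  have hspl' := split_of hsplR
  set J : Matrix ι ι K := ψ.map (algebraMap ℚ K) with hJdef
  have hlinK : ∀ σ : G, ∀ d ∈ D, (ρ σ).1.map (algebraMap L K) * d.map (algebraMap ℚ K) =
      d.map (algebraMap ℚ K) * (ρ σ).1.map (algebraMap L K) := by
    intro σ d hd
    have h1 := congrArg (fun m : Matrix ι ι L => m.map (algebraMap L K)) (lin σ d hd)
    have h2 : (d.map (algebraMap ℚ L)).map (algebraMap L K) = d.map (algebraMap ℚ K) := by
      ext i j
      simp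
    simp only [Matrix.map_mul] at h1
    rw [h2] at h1
    exact h1
  have hsimG : ∀ x : G, ∃ c : K, ((ρ x).1.map (algebraMap L K))ᵀ * J *
      (ρ x).1.map (algebraMap L K) = c • J := by
    intro x
    obtain ⟨c, hc⟩ := sim x
    exact ⟨_, sim_map hc⟩
  have hne : J ≠ 0 := by
    intro h0
    apply hspl.ne_zero b
    have hι : IsEmpty ι := by
      by_contra hcon
      rw [not_isEmpty_iff] at hcon
      rw [h0, Matrix.det_zero] at hdet
      exact not_isUnit_zero hdet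
    ext i
    exact (hι.false i).elim
  have hrange := range_rep K ρ H₀
  set R := rep K ρ H₀ with hR
  have hsetup : Setup (om J) (fun b => phi (e b)) (lieE J (Set.range R)) (H76RM.opr R) := by
    apply H76RM.mk_setup hspl' hJ hdet hne R
    · intro y
      exact hsimG y.1
    · intro y d hd
      exact comm_span (hlinK y.1) d hd
    · rw [hrange]; exact hprime
    · intro W hW
      obtain ⟨W', h1, h2⟩ := semis H₀ hfin W (by
        rw [← hrange]
        rintro _ ⟨y, rfl⟩ w hw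
        exact hW y w hw)
      refine ⟨W', ?_, h2⟩
      intro y w hw
      apply h1 _ _ _ hw
      rw [← hrange]
      exact Set.mem_range_self y
    · intro y hy
      apply commt H₀ hfin y
      rw [← hrange]
      rintro _ ⟨z, rfl⟩
      exact hy z
  rw [hrange] at hsetup
  obtain ⟨A, hA, h1, h2⟩ := hsetup.main seed (b := b) (w := u)
    (by rw [phi_apply]; exact hu)
  obtain ⟨X, rfl⟩ := (phi (ι := ι) (K := K)).surjective A
  obtain ⟨hX1, hX2⟩ := mem_lieE.1 hA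
  refine ⟨X, hX1, ?_, ?_, ?_⟩
  · intro d hd
    refine H76RM.zlie_commute (img_one ρ H₀) ?_ hX1
    rintro _ ⟨y, -, rfl⟩
    exact comm_span (hlinK y) d hd
  · intro z
    have h3 : (phi X * phi (e b)) z = trv (om J) u z :=
      congrArg (fun f : Module.End K (ι → K) => f z) h1
    rw [← phi_apply, ← phi_apply]
    exact h3
  · intro c hc
    apply (phi (ι := ι) (K := K)).injective
    rw [map_mul, map_zero]
    exact h2 c hc


theorem g13_at [CharZero L] [CharZero K] [IsAlgClosed K] {ψ : Matrix ι ι ℚ}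
    (hψ : ψᵀ = -ψ) (hψ0 : ψ.det ≠ 0) (D : Subalgebra ℚ (Matrix ι ι ℚ))
    (ρ : G →* Matrix.GeneralLinearGroup ι L)
    (lin : ∀ σ : G, ∀ d ∈ D, (ρ σ).1 * d.map (algebraMap ℚ L) =
      d.map (algebraMap ℚ L) * (ρ σ).1)
    (sim : ∀ σ : G, ∃ c : L, (ρ σ).1ᵀ * ψ.map (algebraMap ℚ L) * (ρ σ).1 =
      c • ψ.map (algebraMap ℚ L))
    (cyc : ∃ σ : G, ∃ c : L, (ρ σ).1ᵀ * ψ.map (algebraMap ℚ L) * (ρ σ).1 =
      c • ψ.map (algebraMap ℚ L) ∧ ∀ n : ℕ, n ≠ 0 → c ^ n ≠ 1)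
    (semis : ∀ H : Subgroup G, H.FiniteIndex → ∀ W : Submodule K (ι → K),
      (∀ s ∈ img K ρ H, ∀ w ∈ W, s *ᵥ w ∈ W) →
      ∃ W' : Submodule K (ι → K), (∀ s ∈ img K ρ H, ∀ w ∈ W', s *ᵥ w ∈ W') ∧ IsCompl W W')
    (commt : ∀ H : Subgroup G, H.FiniteIndex → ∀ y : Matrix ι ι K,
      (∀ s ∈ img K ρ H, y * s = s * y) → y ∈ spanK K D)
    {m : ℕ} {e : Fin m → Matrix ι ι K} (hspl : IsSplitting D ψ id e)
    (seed₀ : ∀ (H₀ : Subgroup G), H₀.FiniteIndex → (van (img K ρ H₀)).IsPrime → ∀ b : Fin m,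
      Seed (om (ψ.map (algebraMap ℚ K))) (fun b => phi (e b))
        (lieE (ψ.map (algebraMap ℚ K)) (img K ρ H₀)) b)
    {φ : Matrix ι ι K} (Fidc : φ ∈ H49M.idc K ρ) (Fdgb : Diagonalisable φ)
    (Ftorus : ∀ H : Subgroup G, H.FiniteIndex → ∀ X ∈ zlie (img K ρ H), X * φ = φ * X →
      X ∈ zlie {x | ∃ n : ℕ, x = φ ^ n})
    {q : ℚ} (hq0 : q ≠ 0)
    (hmult : φᵀ * ψ.map (algebraMap ℚ K) * φ = algebraMap ℚ K q • ψ.map (algebraMap ℚ K))
    {f : ℚ[X]} (hchar : φ.charpoly = f.map (algebraMap ℚ K)) :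
    (∀ H : Subgroup G, H.FiniteIndex → monodromy K ρ H = similD K ψ D) ∧
      AllIndep f q (AlgebraicClosure ℚ) ∧
      nroots f (AlgebraicClosure ℚ) = ∑ b, (e b).rank := by
  classical
  have hsplR0 : H76RM.IsSplitting D ψ e :=
    ⟨hspl.mem, hspl.idem, hspl.adj, hspl.corner, hspl.orth, hspl.full⟩
  refine ⟨fun H hH => monodromy_seed hψ hψ0 D ρ lin sim cyc semis commt hsplR0
    (fun H₀ hfin hprime _ b => seed₀ H₀ hfin hprime b) H hH, ?_⟩
  obtain ⟨H₀, hfin, hlie⟩ := g13_lie hψ hψ0 D ρ lin sim semis commt hspl seed₀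
  obtain ⟨hJ, hdet⟩ := gram_basic hψ hψ0 K
  obtain ⟨P, Q, d, hPQ, hQP, hx, hd, hF⟩ := diag_data' Fidc.1 Fdgb hchar
  have hsplR : H76RM.IsSplitting D ψ e :=
    ⟨hspl.mem, hspl.idem, hspl.adj, hspl.corner, hspl.orth, hspl.full⟩
  have hspl' := split_of hsplR
  set J : Matrix ι ι K := ψ.map (algebraMap ℚ K) with hJdef
  have hlinK : ∀ σ : G, ∀ d ∈ D, (ρ σ).1.map (algebraMap L K) * d.map (algebraMap ℚ K) =
      d.map (algebraMap ℚ K) * (ρ σ).1.map (algebraMap L K) := by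
    intro σ d hd
    have h1 := congrArg (fun m : Matrix ι ι L => m.map (algebraMap L K)) (lin σ d hd)
    have h2 : (d.map (algebraMap ℚ L)).map (algebraMap L K) = d.map (algebraMap ℚ K) := by
      ext i j
      simp
    simp only [Matrix.map_mul] at h1
    rw [h2] at h1
    exact h1
  have hxD : ∀ d ∈ spanK K D, φ * d = d * φ := by
    intro d hd
    refine H76RM.zar_commute ?_ (Fidc.2 ⊤ inferInstance)
    rintro _ ⟨σ, -, rfl⟩
    exact comm_span (hlinK σ) d hd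
  have hq0K : algebraMap ℚ K q ≠ 0 := by
    rw [Ne, map_eq_zero]
    exact hq0
  have htor := Ftorus H₀ hfin
  constructor
  · exact all_indep' hspl' hJ hdet hq0K hmult hxD hx hPQ hQP hd hlie htor hF
  · rw [← H76T.nroots_eq hF]
    exact card_eig' hspl' hJ hdet hq0K hmult hxD hx hPQ hQP hd hlie htor


end

variable {ι : Type*} [Fintype ι] [DecidableEq ι] {ψ : Matrix ι ι ℚ}
    {D : Subalgebra ℚ (Matrix ι ι ℚ)} {M : Type*} [Field M] [NumberField M]
    {m : ℕ} {e : Fin m → Matrix ι ι M} {G : Type*} [Group G]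
    {ρ : ∀ (l : ℕ) [Fact l.Prime], G →* Matrix.GeneralLinearGroup ι ℚ_[l]}
    {p : ℕ} [Fact p.Prime] {σ : G} {q : ℚ} {f : ℚ[X]} {F : Fin m → M[X]}
    {φ μ ν : Matrix ι ι (AlgebraicClosure ℚ_[p])} {v : AlgebraicClosure ℚ_[p] → ℚ}
    {Δ : Set (AlgebraicClosure ℚ_[p] ≃+* AlgebraicClosure ℚ_[p])}
    {Ω : Type*} [Field Ω] [CharZero Ω] [IsAlgClosed Ω] [Algebra.IsAlgebraic ℚ Ω] {j : M →+* Ω}
    {R : Finset Ω} {N : Set ℕ} (C : Core ψ D e ρ p σ q f F φ μ ν v Δ j R N)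

include C

/-- PROOF. Copy of `H76P.mono_p`, `lie_p` (G12), `at_p` (G15) and `finalP` (G16) with `Core.seed` instead of `seed_p`. -/
theorem Core.final (power : ∀ b (a k : ℕ), 2 ≤ k → k ∣ R.card → (e b).rank ≠ a ^ k)
    (two : ∀ b (k : ℕ), 4 ≤ k → (e b).rank ≠ 2 ^ k)
    (binom : ∀ b (k : ℕ), 3 ≤ k → Odd k → (e b).rank ≠ k.centralBinom) :
    ∀ (l : ℕ) [Fact l.Prime], ∀ H : Subgroup G, H.FiniteIndex →
      monodromy (AlgebraicClosure ℚ_[l]) (ρ l) H = similD (AlgebraicClosure ℚ_[l]) ψ D := by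
  classical
  let i₀ : M →+* AlgebraicClosure ℚ_[p] := (IsAlgClosed.lift : M →ₐ[ℚ] AlgebraicClosure ℚ_[p])
  have hspl1 : IsSplitting D ψ id (fun b => (e b).map i₀) := C.hspl.map i₀
  have hrank1 : ∀ b, ((e b).map i₀).rank = (e b).rank := fun b =>
    Pool.Agent.H76U.rank_idem_map (C.hspl.idem b) _
  rcases isEmpty_or_nonempty ι with hι | hι
  · intro l _ H hH
    ext x
    have hx : x = 1 := Subsingleton.elim _ _
    subst hx
    refine ⟨fun _ => ⟨by rw [Matrix.det_one]; exact one_ne_zero, fun d _ => by rw [one_mul, mul_one],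
      1, Subsingleton.elim _ _⟩, fun _ => ⟨by rw [Matrix.det_one]; exact one_ne_zero, ?_⟩⟩
    exact Pool.Agent.H53Toric.subset_zar _ (img_one (ρ l) H)
  have hq0 : q ≠ 0 := by
    intro h0
    have h1 := C.multp
    rw [h0, map_zero, zero_smul] at h1
    have h2 := congrArg Matrix.det h1
    rw [Matrix.det_mul, Matrix.det_mul, Matrix.det_transpose, Matrix.det_zero] at h2
    exact mul_ne_zero (mul_ne_zero C.frobp.idc.1
      (gram_basic C.hψ C.hψ0 (AlgebraicClosure ℚ_[p])).2.ne_zero) C.frobp.idc.1 h2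
  obtain ⟨hmon, hind, hcard⟩ := g13_at C.hψ C.hψ0 D (ρ p) (C.lin p) (C.sim p) C.cyc (C.semis p)
    (C.commt p) hspl1 (fun H₀ hfin hprime b => C.seed power two binom i₀ H₀ hfin hprime b)
    C.frobp.idc C.frobp.dgb C.frobp.torus hq0 C.multp C.charp
  intro l _ H hH
  by_cases hlp : l = p
  · subst hlp
    exact hmon H hH
  let j' : M →+* AlgebraicClosure ℚ_[l] := (IsAlgClosed.lift : M →ₐ[ℚ] AlgebraicClosure ℚ_[l])
  have hspl2 : IsSplitting D ψ id (fun b => (e b).map j') := C.hspl.map j'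
  refine Pool.Agent.H76T.full_other C.hψ C.hψ0 D (ρ l) (C.lin l) (C.sim l) (C.semis l) (C.commt l)
    hspl2 hq0 C.hq (C.mult l hlp) (C.char l hlp) (C.frob l hlp).dgb hind ?_ H hH
  rw [hcard]
  exact Finset.sum_congr rfl fun b _ => by
    rw [hrank1, Pool.Agent.H76U.rank_idem_map (C.hspl.idem b)]

end Pool.Agent.H76Q
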