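import Pool.Agent.Lib.H76Q.Q2

/-!
# the trace of an involution is an integer
-/

set_option autoImplicit false
set_option linter.unusedSectionVars false
namespace Pool.Agent.H76Q
open Module Matrix Polynomial TensorProduct Pool.Agent.H53Toric
open Pool.Agent.H76P
open Pool.Agent.H76T (IsIdeal Fam Lc)
open Pool.Agent.H76V (Cmp)
open Pool.Agent.H76U (cmp preL IsSplitting)
open Pool.Agent.H76RM (spanK similD)

/-- PROOF. `p = (1 + f) / 2` is idempotent, so its trace is the dimension of its range (`LinearMap.IsProj.trace` or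
`LinearMap.IsIdempotentElem` API), and `trace f = 2 * trace p - finrank V`. -/
theorem tr_int {K : Type*} [Field K] [CharZero K] {V : Type*} [AddCommGroup V] [Module K V]
    [FiniteDimensional K V] (f : V →ₗ[K] V) (hf : ∀ x, f (f x) = x) :
    ∃ n : ℤ, LinearMap.trace K V f = n := by
  set p : V →ₗ[K] V := (1 / 2 : K) • (LinearMap.id + f) with hp
  have hpx : ∀ x, p x = (1 / 2 : K) • (x + f x) := fun x => rfl
  have hproj : LinearMap.IsProj (LinearMap.range p) p := by
    refine ⟨fun x => ⟨x, rfl⟩, ?_⟩
    rintro _ ⟨y, rfl⟩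
    rw [hpx (p y), hpx y, map_smul, map_add, hf, add_comm (f y) y, ← two_smul K, smul_smul]
    norm_num
  have h1 := hproj.trace
  have h2 : LinearMap.trace K V p = (1 / 2 : K) * ((finrank K V : K) + LinearMap.trace K V f) := by
    rw [hp, map_smul, map_add, LinearMap.trace_id, smul_eq_mul]
  refine ⟨2 * (finrank K (LinearMap.range p) : ℤ) - (finrank K V : ℤ), ?_⟩
  push_cast
  rw [← h1, h2]
  ring

end Pool.Agent.H76Q
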