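import Pool.Agent.Lib.H76Q.Q1

/-!
# Galois theory: an element which changes sign
-/

set_option autoImplicit false
set_option linter.unusedSectionVars false
namespace Pool.Agent.H76Q
open Module Matrix Polynomial TensorProduct Pool.Agent.H53Toric
open Pool.Agent.H76P
open Pool.Agent.H76T (IsIdeal Fam Lc)
open Pool.Agent.H76V (Cmp)
open Pool.Agent.H76U (cmp preL IsSplitting)
open Pool.Agent.H76RM (spanK similD)

/-- An automorphism of even order of a finite Galois extension changes the sign of some element. -/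
theorem x12a_core {E : Type*} [Field E] [Algebra ℚ E] [FiniteDimensional ℚ E] [IsGalois ℚ E]
    (g : E ≃ₐ[ℚ] E) (hg : 2 ∣ orderOf g) : ∃ y : E, y ≠ 0 ∧ g y = -y := by
  have hnot : g ∉ Subgroup.zpowers (g ^ 2) := by
    intro h
    obtain ⟨k, hk⟩ := Subgroup.mem_zpowers_iff.1 h
    have h1 : g ^ (2 * k - 1 : ℤ) = 1 := by
      rw [_root_.zpow_sub, _root_.zpow_one, _root_.zpow_mul, zpow_ofNat, hk, mul_inv_cancel]
    have h2 : (orderOf g : ℤ) ∣ 2 * k - 1 := orderOf_dvd_iff_zpow_eq_one.2 h1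
    have h3 : (2 : ℤ) ∣ 2 * k - 1 := dvd_trans (by exact_mod_cast hg) h2
    omega
  have h0 : ∃ y₀ : E, (g ^ 2) y₀ = y₀ ∧ g y₀ ≠ y₀ := by
    by_contra hcon
    push Not at hcon
    apply hnot
    rw [← IntermediateField.fixingSubgroup_fixedField (Subgroup.zpowers (g ^ 2))]
    rw [IntermediateField.mem_fixingSubgroup_iff]
    intro x hx
    apply hcon
    rw [IntermediateField.mem_fixedField_iff] at hx
    exact hx _ (Subgroup.mem_zpowers _)
  obtain ⟨y₀, h1, h2⟩ := h0
  refine ⟨y₀ - g y₀, sub_ne_zero.2 (Ne.symm h2), ?_⟩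
  have h3 : g (g y₀) = y₀ := by
    rw [pow_two] at h1
    exact h1
  rw [map_sub, h3, neg_sub]

/-- Ring automorphisms of a field of characteristic zero are automorphisms over `ℚ`. -/
noncomputable def x12a_hom (Ω : Type*) [Field Ω] [CharZero Ω] : (Ω ≃+* Ω) →* (Ω ≃ₐ[ℚ] Ω) where
  toFun s := AlgEquiv.ofRingEquiv (f := s) (fun r => by
    rw [eq_ratCast, map_ratCast])
  map_one' := by
    ext x
    rfl
  map_mul' s t := by
    ext x
    rfl

theorem x12a_hom_apply {Ω : Type*} [Field Ω] [CharZero Ω] (s : Ω ≃+* Ω) (x : Ω) :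
    x12a_hom Ω s x = s x := rfl

/-- PROOF. Each element of `Ω` has finitely many images under automorphisms (roots of its minimal polynomial over `ℚ`), so `T` is contained in a finite set `T'` stable under all automorphisms; the automorphisms act on `T'` through a finite group of permutations.
Let `2 ^ r * u`, `u` odd, be the order of `s` on `T'`, `g = s ^ u`.  If `r = 0` then `g` fixes `T'`.  Otherwise `Γ = {t : t = g ^ n on T' for some n}`, `Γ'' = {t : t = g ^ (2 n) on T' for some n}` (subgroups; they contain all `t` which fix `T'`).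
There is `y₀` fixed by `Γ''` with `g y₀ ≠ y₀`: the field generated by `T'` is a finite Galois extension of `ℚ`; if `g` fixed all elements fixed by `Γ''`, the restriction of `g` would be in the group generated by the restriction of `g ^ 2` (Galois
correspondence), so `g = g ^ (2 n)` on `T'`, but the order of `g` on `T'` is even.  `y = y₀ - g y₀`: `g y = g y₀ - g (g y₀) = -y` because `g ^ 2 ∈ Γ''` fixes `y₀`; `y` is fixed by `Γ''` (for `t ∈ Γ''`: `t g y₀ = g (g⁻¹ t g) y₀` and `g⁻¹ t g ∈ Γ''`); `t ∈ Γ`, `t = g ^ n` on `T'`: `t = g ^ n * k` with `k`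
trivial on `T'`, so `t y = (-1) ^ n y`; if `t y = -y` then (`y ≠ -y`) `n` is odd, so `g ^ n` generates the cyclic `2`-group generated by `g` on `T'`, and some power of `t` is equal to `g` on `T'`. -/
theorem exists_skew {Ω : Type*} [Field Ω] [CharZero Ω] [IsAlgClosed Ω] [Algebra.IsAlgebraic ℚ Ω]
    (s : Ω ≃+* Ω) (T : Finset Ω) : ∃ u : ℕ, Odd u ∧ ((∀ x ∈ T, (s ^ u) x = x) ∨
      ∃ (Γ : Subgroup (Ω ≃+* Ω)) (y : Ω), (∃ T' : Finset Ω, ∀ t : Ω ≃+* Ω, (∀ x ∈ T', t x = x) → t ∈ Γ) ∧
        y ≠ 0 ∧ s ^ u ∈ Γ ∧ (s ^ u) y = -y ∧ (∀ t ∈ Γ, t y = y ∨ t y = -y) ∧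
        ∀ t ∈ Γ, t y = -y → ∃ w : ℕ, ∀ x ∈ T, (t ^ w) x = (s ^ u) x) := by
  classical
  let K0 : IntermediateField ℚ Ω := IntermediateField.adjoin ℚ (T : Set Ω)
  have hK0 : FiniteDimensional ℚ K0 :=
    IntermediateField.finiteDimensional_adjoin (fun x _ => (Algebra.IsAlgebraic.isAlgebraic x).isIntegral)
  have hcl : IsAlgClosure ℚ Ω := ⟨inferInstance, inferInstance⟩
  have hnorm : Normal ℚ Ω := IsAlgClosure.normal ℚ Ω
  let E : IntermediateField ℚ Ω := IntermediateField.normalClosure ℚ K0 Ω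
  have hE1 : FiniteDimensional ℚ E := normalClosure.is_finiteDimensional ℚ K0 Ω
  have hE2 : Normal ℚ E := normalClosure.normal ℚ K0 Ω
  have hE3 : IsGalois ℚ E := ⟨⟩
  have hTE : ∀ x ∈ T, x ∈ E := by
    intro x hx
    have h1 : x ∈ K0 := IntermediateField.subset_adjoin ℚ _ hx
    exact IntermediateField.le_normalClosure K0 h1
  let π : (Ω ≃+* Ω) →* (E ≃ₐ[ℚ] E) := (AlgEquiv.restrictNormalHom E).comp (x12a_hom Ω)
  have hπ : ∀ (t : Ω ≃+* Ω) (x : E), ((π t x : E) : Ω) = t x := by
    intro t x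
    exact AlgEquiv.restrictNormalHom_apply E (x12a_hom Ω t) x
  have hpos : 0 < orderOf (π s) := orderOf_pos _
  obtain ⟨r, u, hu, hru⟩ := Nat.exists_eq_two_pow_mul_odd hpos.ne'
  refine ⟨u, hu, ?_⟩
  have hg : orderOf (π s ^ u) = 2 ^ r := by
    rw [orderOf_pow' _ hu.pos.ne', hru, Nat.gcd_eq_right (Dvd.intro_left _ rfl),
      Nat.mul_div_cancel _ hu.pos]
  have hfix : ∀ t t' : Ω ≃+* Ω, π t = π t' → ∀ x ∈ E, t x = t' x := by
    intro t t' h x hx
    have h1 := hπ t ⟨x, hx⟩
    have h2 := hπ t' ⟨x, hx⟩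
    rw [h] at h1
    exact h1.symm.trans h2
  by_cases hr : r = 0
  · left
    intro x hx
    rw [hr, pow_zero, orderOf_eq_one_iff] at hg
    have h1 : π (s ^ u) = π 1 := by rw [map_pow, hg, map_one]
    exact hfix _ _ h1 x (hTE x hx)
  · right
    obtain ⟨y, hy0, hy⟩ := x12a_core (π s ^ u) (by
      rw [hg]
      exact dvd_pow_self 2 hr)
    have hpow : ∀ n : ℕ, ((π s ^ u) ^ n) y = (-1) ^ n * y := by
      intro n
      induction n with
      | zero => simp
      | succ n ih =>
        rw [pow_succ', AlgEquiv.mul_apply, ih, map_mul, map_pow, map_neg, map_one, hy]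
        ring
    have hmem : ∀ t : Ω ≃+* Ω, π t ∈ Subgroup.zpowers (π s ^ u) → ∃ n : ℕ, π t = (π s ^ u) ^ n := by
      intro t ht
      have h1 := mem_powers_iff_mem_zpowers.2 ht
      obtain ⟨n, hn⟩ := Submonoid.mem_powers_iff _ _ |>.1 h1
      exact ⟨n, hn.symm⟩
    have hyΩ : ((y : E) : Ω) ≠ 0 := by
      intro h
      exact hy0 (Subtype.ext h)
    have hsgn : ∀ (t : Ω ≃+* Ω) (n : ℕ), π t = (π s ^ u) ^ n → t (y : Ω) = (-1) ^ n * (y : Ω) := by
      intro t n h
      rw [← hπ t y, h, hpow]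
      push_cast
      rfl
    refine ⟨(Subgroup.zpowers (π s ^ u)).comap π, (y : Ω), ?_, hyΩ, ?_, ?_, ?_, ?_⟩
    · refine ⟨Finset.univ.image (fun i => ((Module.finBasis ℚ E i : E) : Ω)), fun t ht => ?_⟩
      rw [Subgroup.mem_comap]
      have h1 : π t = 1 := by
        ext x
        have h2 : (π t).toLinearMap = LinearMap.id := by
          apply (Module.finBasis ℚ E).ext
          intro i
          apply Subtype.ext
          have h3 := ht _ (Finset.mem_image_of_mem _ (Finset.mem_univ i))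
          exact (hπ t _).trans h3
        have h4 := LinearMap.congr_fun h2 x
        exact congrArg Subtype.val h4
      rw [h1]
      exact Subgroup.one_mem _
    · rw [Subgroup.mem_comap, map_pow]
      exact Subgroup.mem_zpowers _
    · rw [hsgn (s ^ u) 1 (by rw [map_pow, pow_one])]
      ring
    · intro t ht
      obtain ⟨n, hn⟩ := hmem t ht
      rw [hsgn t n hn]
      rcases neg_one_pow_eq_or Ω n with h | h
      · left; rw [h, one_mul]
      · right; rw [h, neg_one_mul]
    · intro t ht hty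
      obtain ⟨n, hn⟩ := hmem t ht
      have hodd : Odd n := by
        rcases Nat.even_or_odd n with h | h
        · exfalso
          rw [hsgn t n hn, h.neg_one_pow, one_mul] at hty
          exact hyΩ (self_eq_neg.1 hty)
        · exact h
      have hcop : Nat.Coprime n (2 ^ r) := Nat.Coprime.pow_right r (Nat.coprime_two_right.2 hodd)
      obtain ⟨w, hw⟩ : ∃ w : ℕ, ((π s ^ u) ^ n) ^ w = π s ^ u := by
        have h1 : π s ^ u ∈ Submonoid.powers ((π s ^ u) ^ n) := by
          rw [mem_powers_iff_mem_zpowers]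
          have h2 : Subgroup.zpowers ((π s ^ u) ^ n) = Subgroup.zpowers (π s ^ u) := by
            apply Subgroup.eq_of_le_of_card_ge
            · rw [Subgroup.zpowers_le]
              exact Subgroup.npow_mem_zpowers _ _
            · have h3 : orderOf ((π s ^ u) ^ n) = 2 ^ r := by
                rw [orderOf_pow (π s ^ u), hg, Nat.Coprime.gcd_eq_one hcop.symm, Nat.div_one]
              rw [Nat.card_zpowers, Nat.card_zpowers, h3, hg]
          rw [h2]
          exact Subgroup.mem_zpowers _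
        obtain ⟨w, hw⟩ := Submonoid.mem_powers_iff _ _ |>.1 h1
        exact ⟨w, hw⟩
      refine ⟨w, fun x hx => hfix _ _ ?_ x (hTE x hx)⟩
      rw [map_pow, map_pow, hn, hw]

end Pool.Agent.H76Q
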