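import Pool.Agent.Lib.H76Q.C4
import Pool.Agent.Lib.H76Q.B2

/-!
# the dimension of the algebra of the first factor
-/

set_option autoImplicit false
set_option linter.unusedSectionVars false
namespace Pool.Agent.H76Q
open Module Matrix Polynomial TensorProduct Pool.Agent.H53Toric
open Pool.Agent.H76P
open Pool.Agent.H76T (IsIdeal Fam Lc)
open Pool.Agent.H76V (Cmp)
open Pool.Agent.H76U (cmp preL IsSplitting)
open Pool.Agent.H76RM (spanK similD)

variable {κ : Type*} {K : Type*} [Field K] [CharZero K] [Fintype κ] [DecidableEq κ]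
  {L : Submodule K (Module.End K (κ → K))} {J : Matrix κ κ K} [IsAlgClosed K] [Nonempty κ]
  {Y : Submodule ℚ (κ → ℚ)} {P : Module.End ℚ Y}

/-- PROOF. `C` = the set of the `k` with `cz (1 - P) k k₀`, finite with `N` elements.  The linear map which sends `X ∈ AZ L P` to the family of the entries `(c', k')`, `c', k' ∈ C`, of its matrix, is
injective: let these entries of `X` be `0`, and let `c`, `k` be arbitrary.  If `X c k ≠ 0` then `cz (1 - P) c k` (`entry_cz` for `1 - P`, note `1 - (1 - P) = P`).  By `Sp.exists_mx` there are `k'`, `c' ∈ C` with `cz P k' k`,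
`cz P c' c`, and (`exB`) `B ∈ AZ L (1 - P)` with `B c' c ≠ 0`.  The entry `(c', k)` of `B * X`: `B c' d * X d k ≠ 0` implies `cz P c' d`, `cz (1 - P) d k`, so `cz P d c` and `cz (1 - P) d c`, `d = c` (`cz_both`, `h.sep`); so it is
`B c' c * X c k`.  The entry `(c', k)` of `X * B` (`AZ_comm`): `X c' d * B d k ≠ 0` implies `cz (1 - P) c' d`, `cz P d k`, so `d = k'`, and `X c' k' = 0`.  So `X c k = 0`. -/
theorem az_dim (h : TS L J) (hY : Yo L = Y) (hP : Sp P) (hc : Comp L P) (k₀ : κ) {N : ℕ}
    (hN : Nat.card {k // cz (1 - P) k k₀} = N) : finrank K (AZ L P) ≤ N ^ 2 := by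
  classical
  have hsep : ∀ a b : κ, a ≠ b → ∃ f ∈ Y, f a ≠ f b := by
    rw [← hY]
    exact h.sep
  have hc' : Comp L (1 - P) := by
    intro m I hI j
    rcases hc m I hI j with h1 | h1
    · right
      rw [c4_compl2]
      exact h1
    · left
      exact h1
  have hent : ∀ X ∈ AZ L P, ∀ c k : κ, LinearMap.toMatrix' X c k ≠ 0 → cz (1 - P) c k := by
    intro X hX c k hne
    refine entry_cz h hY (c4_compl hP) hc' (B := X) ?_ hne
    rw [c4_compl2]
    exact hX
  have hinj0 : ∀ X ∈ AZ L P, (∀ c k : κ, cz (1 - P) c k₀ → cz (1 - P) k k₀ →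
      LinearMap.toMatrix' X c k = 0) → X = 0 := by
    intro X hX hX0
    have hall : ∀ c k : κ, LinearMap.toMatrix' X c k = 0 := by
      intro c k
      by_contra hne
      have hck := hent X hX c k hne
      obtain ⟨k', hk1, hk2⟩ := hP.exists_mx k k₀
      obtain ⟨c', hc1, hc2⟩ := hP.exists_mx c k₀
      obtain ⟨B, hB, hB0⟩ := exB h hY hP hc (cz_symm hc1)
      have hcomm : B * X = X * B := (AZ_comm h hY hP X hX B hB).symm
      have e1 : LinearMap.toMatrix' (B * X) c' k =
          LinearMap.toMatrix' B c' c * LinearMap.toMatrix' X c k := by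
        rw [LinearMap.toMatrix'_mul, Matrix.mul_apply, Finset.sum_eq_single c]
        · intro d _ hd
          by_contra h0
          have h1 : LinearMap.toMatrix' B c' d ≠ 0 := left_ne_zero_of_mul h0
          have h2 : LinearMap.toMatrix' X d k ≠ 0 := right_ne_zero_of_mul h0
          apply hd
          exact cz_both hsep (cz_trans (cz_symm (entry_cz h hY hP hc hB h1)) hc1)
            (cz_trans (hent X hX d k h2) (cz_symm hck))
        · intro hn
          exact absurd (Finset.mem_univ c) hn
      have e2 : LinearMap.toMatrix' (X * B) c' k = 0 := by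
        rw [LinearMap.toMatrix'_mul, Matrix.mul_apply]
        refine Finset.sum_eq_zero fun d _ => ?_
        by_contra h0
        have h1 : LinearMap.toMatrix' X c' d ≠ 0 := left_ne_zero_of_mul h0
        have h2 : LinearMap.toMatrix' B d k ≠ 0 := right_ne_zero_of_mul h0
        have h3 : cz (1 - P) d k₀ := cz_trans (cz_symm (hent X hX c' d h1)) hc2
        exact h1 (hX0 c' d hc2 h3)
      rw [hcomm, e2] at e1
      rcases mul_eq_zero.1 e1.symm with h1 | h1
      · exact hB0 h1
      · exact hne h1
    have h3 : LinearMap.toMatrix' X = 0 := by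
      ext c k
      exact hall c k
    exact (LinearEquiv.map_eq_zero_iff _).1 h3
  let C := {k // cz (1 - P) k k₀}
  have : Fintype C := Fintype.ofFinite C
  let ρ : AZ L P →ₗ[K] (C × C → K) :=
    { toFun := fun X q => LinearMap.toMatrix' (X : Module.End K (κ → K)) q.1 q.2
      map_add' := fun X X' => by
        funext q
        simp
      map_smul' := fun a X => by
        funext q
        simp }
  have hρ : Function.Injective ρ := by
    rw [injective_iff_map_eq_zero]
    intro X hX
    apply Subtype.ext
    refine hinj0 X X.2 fun c k h1 h2 => ?_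
    exact congrFun hX (⟨c, h1⟩, ⟨k, h2⟩)
  have h4 := LinearMap.finrank_le_finrank_of_injective hρ
  rw [Module.finrank_fintype_fun_eq_card, Fintype.card_prod, ← Nat.card_eq_fintype_card] at h4
  rw [sq, ← hN]
  exact h4

end Pool.Agent.H76Q
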