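import Pool.Agent.Lib.H76Q.B2
import Pool.Agent.Lib.H76Q.Q2

/-!
# the number of points is the product of the numbers of classes
-/

set_option autoImplicit false
set_option linter.unusedSectionVars false
namespace Pool.Agent.H76Q
open Module Matrix Polynomial TensorProduct Pool.Agent.H53Toric
open Pool.Agent.H76P
open Pool.Agent.H76T (IsIdeal Fam Lc)
open Pool.Agent.H76V (Cmp)
open Pool.Agent.H76U (cmp preL IsSplitting)
open Pool.Agent.H76RM (spanK similD)

variable {κ : Type*} [Fintype κ] [DecidableEq κ] {Y : Submodule ℚ (κ → ℚ)} {P : Module.End ℚ Y}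

/-- PROOF. The map which sends `k` to `(c, c')`, `c` = the index with `cz P c k`, `cz (1 - P) c k₀`, `c'` = the index with `cz (1 - P) c' k`, `cz P c' k₀` (`Sp.exists_mx`), is a
bijection from `κ` to the product (`cz_both`; the inverse sends `(c, c')` to the index `k` with `cz P k c`, `cz (1 - P) k c'`). -/
theorem card_mul_cz (hsep : ∀ a b : κ, a ≠ b → ∃ f ∈ Y, f a ≠ f b) (hP : Sp P) (k₀ : κ) :
    Fintype.card κ = Nat.card {k // cz (1 - P) k k₀} * Nat.card {k // cz P k k₀} := by
  choose m hm1 hm2 using hP.exists_mx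
  -- `m k k'` has first coordinate of `k` and second of `k'`
  let F : κ → {k // cz (1 - P) k k₀} × {k // cz P k k₀} := fun k =>
    (⟨m k k₀, hm2 k k₀⟩, ⟨m k₀ k, hm1 k₀ k⟩)
  have hF : Function.Bijective F := by
    constructor
    · intro k l hkl
      have h1 : m k k₀ = m l k₀ := congrArg (fun x => (x.1 : κ)) hkl
      have h2 : m k₀ k = m k₀ l := congrArg (fun x => (x.2 : κ)) hkl
      have a1 := hm1 k k₀
      have a2 := hm1 l k₀
      rw [← h1] at a2
      have b1 := hm2 k₀ k
      have b2 := hm2 k₀ l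
      rw [← h2] at b2
      exact cz_both hsep (cz_trans (cz_symm a1) a2) (cz_trans (cz_symm b1) b2)
    · rintro ⟨⟨c, hc⟩, ⟨c', hc'⟩⟩
      refine ⟨m c c', ?_⟩
      have h1 : m (m c c') k₀ = c :=
        cz_both hsep (cz_trans (hm1 (m c c') k₀) (hm1 c c'))
          (cz_trans (hm2 (m c c') k₀) (cz_symm hc))
      have h2 : m k₀ (m c c') = c' :=
        cz_both hsep (cz_trans (hm1 k₀ (m c c')) (cz_symm hc'))
          (cz_trans (hm2 k₀ (m c c')) (hm2 c c'))
      exact Prod.ext (Subtype.ext h1) (Subtype.ext h2)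
  rw [← Nat.card_eq_fintype_card, Nat.card_eq_of_bijective F hF, Nat.card_prod]

end Pool.Agent.H76Q
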