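import Pool.Agent.Lib.H76Q.X4a
import Pool.Agent.Lib.H76Q.X4b
import Pool.Agent.Lib.H76Q.C2
import Pool.Agent.Lib.H76Q.C4

/-!
# the two algebras and the tensor product
-/

set_option autoImplicit false
set_option linter.unusedSectionVars false
namespace Pool.Agent.H76Q
open Module Matrix Polynomial TensorProduct Pool.Agent.H53Toric
open Pool.Agent.H76P
open Pool.Agent.H76T (IsIdeal Fam Lc)
open Pool.Agent.H76V (Cmp)
open Pool.Agent.H76U (cmp preL IsSplitting)
open Pool.Agent.H76RM (spanK similD)

variable {κ : Type*} {K : Type*} [Field K] [CharZero K] [Fintype κ] [DecidableEq κ]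
  {L : Submodule K (Module.End K (κ → K))} {J : Matrix κ κ K} [IsAlgClosed K] [Nonempty κ]
  {Y : Submodule ℚ (κ → ℚ)} {P : Module.End ℚ Y}

theorem x4c_inj {K V W : Type*} [Field K] [AddCommMonoid V] [Module K V] [Module.Free K V]
    [Module.Finite K V] [AddCommMonoid W] [Module K W] [Module.Free K W] [Module.Finite K W]
    (h : finrank K V = finrank K W) (f : V →ₗ[K] W) (hf : Function.Surjective f) :
    Function.Injective f := by
  have b1 := Module.Free.chooseBasis K V
  have b2 := Module.Free.chooseBasis K W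
  let e1 := b1.equivFun
  let e2 := b2.equivFun
  have h1 : Function.Surjective ((e2.toLinearMap ∘ₗ f) ∘ₗ e1.symm.toLinearMap) := by
    intro w
    obtain ⟨v, hv⟩ := hf (e2.symm w)
    refine ⟨e1 v, ?_⟩
    show e2 (f (e1.symm (e1 v))) = w
    rw [LinearEquiv.symm_apply_apply, hv, LinearEquiv.apply_symm_apply]
  have h2 : finrank K (Module.Free.ChooseBasisIndex K V → K) =
      finrank K (Module.Free.ChooseBasisIndex K W → K) := by
    rw [← e1.finrank_eq, ← e2.finrank_eq, h]
  have h3 := (LinearMap.injective_iff_surjective_of_finrank_eq_finrank h2).2 h1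
  intro x y hxy
  apply e1.injective
  apply h3
  show e2 (f (e1.symm (e1 x))) = e2 (f (e1.symm (e1 y)))
  rw [LinearEquiv.symm_apply_apply, LinearEquiv.symm_apply_apply, hxy]

/-- PROOF. The bilinear map `(a, b) ↦ a * b` gives a linear map `Φ` from the tensor product; it is onto by `c4_top`; the dimension of the tensor product is at most `N ^ 2 * N' ^ 2 = (card κ) ^ 2` (`az_dim` for `P` and for
`1 - P` with the same `k₀`, `card_mul_cz`), which is the dimension of the target, so `Φ` is bijective (`LinearMap.linearEquivOfInjective` or `LinearEquiv.ofBijective`; a surjective map between finite dimensional spaces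
with `finrank source ≤ finrank target` is injective). -/
theorem az_tensor (h : TS L J) (hY : Yo L = Y) (hP : Sp P) (hc : Comp L P) :
    ∃ Φ : (AZ L P ⊗[K] AZ L (1 - P)) ≃ₗ[K] Module.End K (κ → K),
      ∀ (a : AZ L P) (b : AZ L (1 - P)), Φ (a ⊗ₜ[K] b) = (a : Module.End K (κ → K)) * b := by
  obtain ⟨k₀⟩ := ‹Nonempty κ›
  have : Nonempty κ := ⟨k₀⟩
  let B : AZ L P →ₗ[K] AZ L (1 - P) →ₗ[K] Module.End K (κ → K) :=
    (LinearMap.mul K (Module.End K (κ → K))).compl₁₂ (AZ L P).val.toLinearMap
      (AZ L (1 - P)).val.toLinearMap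
  let Φ : (AZ L P ⊗[K] AZ L (1 - P)) →ₗ[K] Module.End K (κ → K) := TensorProduct.lift B
  have hΦ : ∀ (a : AZ L P) (b : AZ L (1 - P)), Φ (a ⊗ₜ[K] b) = (a : Module.End K (κ → K)) * b := by
    intro a b
    rfl
  have hsurj : Function.Surjective Φ := by
    have h1 : Subalgebra.toSubmodule (AZ L P) * Subalgebra.toSubmodule (AZ L (1 - P)) ≤
        LinearMap.range Φ := by
      rw [Submodule.mul_le]
      intro m hm n hn
      exact ⟨(⟨m, hm⟩ : AZ L P) ⊗ₜ[K] (⟨n, hn⟩ : AZ L (1 - P)), hΦ _ _⟩
    intro X
    exact h1 (c4_top h hY hP hc X)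
  have hc' : Comp L (1 - P) := by
    intro m I hI j
    rcases hc m I hI j with h1 | h1
    · right
      rw [c4_compl2]
      exact h1
    · left
      exact h1
  have d1 := az_dim h hY hP hc k₀ rfl
  have d2 := az_dim h hY (c4_compl hP) hc' k₀ rfl
  rw [c4_compl2] at d2
  have hsep : ∀ a b : κ, a ≠ b → ∃ f ∈ Y, f a ≠ f b := by
    rw [← hY]
    exact h.sep
  have hcard := card_mul_cz hsep hP k₀
  have f1 : Module.Free K (AZ L P) := by
    exact Module.Free.of_divisionRing K (AZ L P)
  have f2 : Module.Free K (AZ L (1 - P)) := by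
    exact Module.Free.of_divisionRing K (AZ L (1 - P))
  have hle : finrank K (AZ L P ⊗[K] AZ L (1 - P)) ≤ finrank K (Module.End K (κ → K)) := by
    rw [Module.finrank_tensorProduct]
    have h2 : finrank K (Module.End K (κ → K)) = Fintype.card κ * Fintype.card κ := by
      rw [Module.finrank_linearMap, Module.finrank_fintype_fun_eq_card]
    rw [h2]
    calc finrank K (AZ L P) * finrank K (AZ L (1 - P))
        ≤ Nat.card {k // cz (1 - P) k k₀} ^ 2 * Nat.card {k // cz P k k₀} ^ 2 :=
          Nat.mul_le_mul d1 d2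
      _ = Fintype.card κ * Fintype.card κ := by
          rw [hcard]
          ring
  have hge : finrank K (Module.End K (κ → K)) ≤ finrank K (AZ L P ⊗[K] AZ L (1 - P)) := by
    have h3 := LinearMap.finrank_range_le Φ
    rw [LinearMap.range_eq_top.2 hsurj, finrank_top] at h3
    exact h3
  have hinj : Function.Injective Φ := x4c_inj (le_antisymm hle hge) Φ hsurj
  exact ⟨LinearEquiv.ofBijective Φ ⟨hinj, hsurj⟩, fun a b => hΦ a b⟩

end Pool.Agent.H76Q
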